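import Pool.Agent.Helper19.LB.Defs

/-! FN of the project LB (captain helper19): the fan. -/

set_option autoImplicit false

open Set Real

namespace Pool.Agent.Helper69.LB

open Pool.Agent.Helper19.LB

theorem fy_pos {ρ₀ φ y₀ M : ℝ} (hφ : 0 ≤ φ) (hy : 0 < y₀) (hM : 0 < M) (ρ : ℝ) :
    0 < Fld.fy ρ₀ φ y₀ M ρ := by
  unfold Fld.fy
  positivity

theorem fy_ge {ρ₀ φ y₀ M : ℝ} (hφ : 0 ≤ φ) (hM : 0 < M) (ρ : ℝ) :
    y₀ ≤ Fld.fy ρ₀ φ y₀ M ρ := by
  unfold Fld.fy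
  have : 0 ≤ φ * (ρ - ρ₀) ^ 2 / M := by positivity
  linarith

theorem hd_fph (ρ₀ φ ρ : ℝ) : HasDerivAt (fun r => Fld.fph ρ₀ φ r) φ ρ := by
  have := ((hasDerivAt_id ρ).sub_const ρ₀).const_mul φ
  rw [mul_one] at this
  exact this

theorem hd_fy (ρ₀ φ y₀ M ρ : ℝ) :
    HasDerivAt (fun r => Fld.fy ρ₀ φ y₀ M r) (Fld.fy1 ρ₀ φ M ρ) ρ := by
  have := (((((hasDerivAt_id ρ).sub_const ρ₀).pow 2).const_mul φ).div_const M).const_add y₀
  refine HasDerivAt.congr_deriv this ?_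
  simp only [Fld.fy1, id]
  ring

theorem hd_fy1 (ρ₀ φ M ρ : ℝ) : HasDerivAt (fun r => Fld.fy1 ρ₀ φ M r) (2 * φ / M) ρ := by
  have := (((((hasDerivAt_id ρ).sub_const ρ₀).const_mul φ)).const_mul 2).div_const M
  refine HasDerivAt.congr_deriv this ?_
  ring

section

variable {y f : ℝ → ℝ} {y1 φ ρ h : ℝ}

theorem hd_u (hy : HasDerivAt y y1 ρ) (h0 : y ρ ≠ 0) :
    HasDerivAt (fun r => h ^ 2 / y r ^ 2) (-2 * (h ^ 2 / y ρ ^ 2) * y1 / y ρ) ρ := by
  have := (hasDerivAt_const ρ (h ^ 2)).div (hy.pow 2) (pow_ne_zero 2 h0)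
  refine HasDerivAt.congr_deriv this ?_
  simp only [Nat.cast_ofNat, Nat.add_one_sub_one, pow_one, Pi.pow_apply]
  field_simp
  ring

theorem hd_e (hy : HasDerivAt y y1 ρ) (h0 : y ρ ≠ 0) :
    HasDerivAt (fun r => exp (-h ^ 2 / y r ^ 2))
      (exp (-h ^ 2 / y ρ ^ 2) * (2 * (h ^ 2 / y ρ ^ 2) * y1 / y ρ)) ρ := by
  have h1 : HasDerivAt (fun r => -h ^ 2 / y r ^ 2) (2 * (h ^ 2 / y ρ ^ 2) * y1 / y ρ) ρ := by
    have := (hd_u (h := h) hy h0).neg
    refine HasDerivAt.congr_deriv (HasDerivAt.congr_of_eventuallyEq this ?_) ?_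
    · filter_upwards with r
      simp only [Pi.neg_apply, neg_div]
    · ring
  exact h1.exp

end

theorem hd_et (y h : ℝ) :
    HasDerivAt (fun t => exp (-t ^ 2 / y ^ 2)) (exp (-h ^ 2 / y ^ 2) * (-(2 * h) / y ^ 2)) h := by
  have h1 : HasDerivAt (fun t : ℝ => -t ^ 2 / y ^ 2) (-(2 * h) / y ^ 2) h := by
    have := ((hasDerivAt_pow 2 h).neg).div_const (y ^ 2)
    refine HasDerivAt.congr_deriv this ?_
    simp
  exact h1.exp

theorem isFld_fan {k : ℕ} {α β ρ₀ φ y₀ M κ : ℝ} (hφ : 0 ≤ φ) (hy : 0 < y₀)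
    (hM : 0 < M) : IsFld k α β (Fld.fan k ρ₀ φ y₀ M κ) := by
  have hY0 : ∀ ρ, Fld.fy ρ₀ φ y₀ M ρ ≠ 0 := fun ρ => (fy_pos hφ hy hM ρ).ne'
  have cY : Continuous (fun x : Pt => Fld.fy ρ₀ φ y₀ M x.1) := by
    unfold Fld.fy
    fun_prop
  have cF : Continuous (fun x : Pt => Fld.fph ρ₀ φ x.1) := by
    unfold Fld.fph
    fun_prop
  have cY1 : Continuous (fun x : Pt => Fld.fy1 ρ₀ φ M x.1) := by
    unfold Fld.fy1
    fun_prop
  have n1 : ∀ x : Pt, Fld.fy ρ₀ φ y₀ M x.1 ≠ 0 := fun x => hY0 x.1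
  have n2 : ∀ x : Pt, Fld.fy ρ₀ φ y₀ M x.1 ^ 2 ≠ 0 := fun x => pow_ne_zero 2 (hY0 x.1)
  have cu : Continuous (fun x : Pt => x.2 ^ 2 / Fld.fy ρ₀ φ y₀ M x.1 ^ 2) :=
    (continuous_snd.pow 2).div (cY.pow 2) n2
  have ce : Continuous (fun x : Pt => exp (-x.2 ^ 2 / Fld.fy ρ₀ φ y₀ M x.1 ^ 2)) :=
    Real.continuous_exp.comp (((continuous_snd.pow 2).neg).div (cY.pow 2) n2)
  have cG : Continuous (fun x : Pt => φ + 2 * (x.2 ^ 2 / Fld.fy ρ₀ φ y₀ M x.1 ^ 2) *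
      Fld.fph ρ₀ φ x.1 * Fld.fy1 ρ₀ φ M x.1 / Fld.fy ρ₀ φ y₀ M x.1) :=
    continuous_const.add ((((continuous_const.mul cu).mul cF).mul cY1).div cY n1)
  refine ⟨?_, ?_, ?_, ?_, ?_, ?_, ?_, ?_, ?_, ?_, ?_, ?_⟩
  · apply Continuous.continuousOn
    exact ((continuous_const.mul cF).mul ce).add (continuous_fst.mul (cG.mul ce))
  · apply Continuous.continuousOn
    refine (continuous_const.mul (cG.mul ce)).add (continuous_fst.mul (Continuous.mul ?_ ce))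
    refine Continuous.add (Continuous.sub (Continuous.add ?_ ?_) ?_) ?_
    · exact (((continuous_const.mul cu).mul continuous_const).mul cY1).div cY n1
    · exact (((continuous_const.mul cu).mul cF).mul continuous_const).div cY n1
    · exact (((continuous_const.mul cu).mul cF).mul (cY1.pow 2)).div (cY.pow 2) n2
    · exact (((continuous_const.mul (cu.pow 2)).mul cF).mul (cY1.pow 2)).div (cY.pow 2) n2
  · apply Continuous.continuousOn
    exact (((continuous_const.mul continuous_snd).div (cY.pow 2) n2).mul cF).mul ce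
  · apply Continuous.continuousOn
    refine (((continuous_const.mul continuous_snd).div (cY.pow 2) n2).mul
      (Continuous.add (Continuous.sub continuous_const ?_) ?_)).mul ce
    · exact ((continuous_const.mul cF).mul cY1).div cY n1
    · exact (((continuous_const.mul cu).mul cF).mul cY1).div cY n1
  · apply Continuous.continuousOn
    exact (((continuous_const.mul cF).div (cY.pow 2) n2).mul
      (continuous_const.sub (continuous_const.mul cu))).mul ce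
  · apply Continuous.continuousOn
    exact (continuous_const.mul ((continuous_const.div cY n1).add continuous_const)).mul ce
  · apply Continuous.continuousOn
    refine (continuous_const.mul (Continuous.add ?_ ?_)).mul ce
    · exact cY1.neg.div (cY.pow 2) n2
    · exact ((continuous_const.div cY n1).add continuous_const).mul
        (((continuous_const.mul cu).mul cY1).div cY n1)
  · -- the derivative of `c` in `ρ`
    intro ρ _ h
    have dy := hd_fy ρ₀ φ y₀ M ρ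
    have du := hd_u (h := h) dy (hY0 ρ)
    have de := hd_e (h := h) dy (hY0 ρ)
    have dF := hd_fph ρ₀ φ ρ
    have dy1 := hd_fy1 ρ₀ φ M ρ
    have dG := ((((du.const_mul 2).mul dF).mul dy1).div dy (hY0 ρ)).const_add φ
    have := ((dF.const_mul ((k : ℝ) - 1)).mul de).add ((hasDerivAt_id ρ).mul (dG.mul de))
    refine HasDerivAt.congr_deriv this ?_
    simp only [Fld.fan, id, Pi.mul_apply, Pi.div_apply]
    have h0 := hY0 ρ
    generalize exp (-h ^ 2 / Fld.fy ρ₀ φ y₀ M ρ ^ 2) = e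
    generalize Fld.fy ρ₀ φ y₀ M ρ = y at *
    generalize Fld.fy1 ρ₀ φ M ρ = y1 at *
    generalize Fld.fph ρ₀ φ ρ = F at *
    field_simp
    ring
  · -- the derivative of `c` in `h`
    intro ρ _ h
    have de := hd_et (Fld.fy ρ₀ φ y₀ M ρ) h
    have du : HasDerivAt (fun t : ℝ => t ^ 2 / Fld.fy ρ₀ φ y₀ M ρ ^ 2)
        (2 * h / Fld.fy ρ₀ φ y₀ M ρ ^ 2) h := by
      have := (hasDerivAt_pow 2 h).div_const (Fld.fy ρ₀ φ y₀ M ρ ^ 2)
      refine HasDerivAt.congr_deriv this ?_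
      simp
    have dG := (((((du.const_mul 2).mul_const (Fld.fph ρ₀ φ ρ)).mul_const
      (Fld.fy1 ρ₀ φ M ρ)).div_const (Fld.fy ρ₀ φ y₀ M ρ)).const_add φ)
    have := (de.const_mul (((k : ℝ) - 1) * Fld.fph ρ₀ φ ρ)).add ((dG.mul de).const_mul ρ)
    refine HasDerivAt.congr_deriv this ?_
    simp only [Fld.fan]
    have h0 := hY0 ρ
    generalize exp (-h ^ 2 / Fld.fy ρ₀ φ y₀ M ρ ^ 2) = e
    generalize Fld.fy ρ₀ φ y₀ M ρ = y at *
    generalize Fld.fy1 ρ₀ φ M ρ = y1 at *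
    generalize Fld.fph ρ₀ φ ρ = F at *
    field_simp
    ring
  · -- the derivative of `w` in `ρ`
    intro ρ _ h
    have dy := hd_fy ρ₀ φ y₀ M ρ
    have de := hd_e (h := h) dy (hY0 ρ)
    have dF := hd_fph ρ₀ φ ρ
    have := (((hasDerivAt_const ρ (2 * h)).div (dy.pow 2) (pow_ne_zero 2 (hY0 ρ))).mul dF).mul de
    refine HasDerivAt.congr_deriv this ?_
    simp only [Fld.fan, Pi.mul_apply, Pi.div_apply, Pi.pow_apply, Nat.cast_ofNat,
      Nat.add_one_sub_one, pow_one]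
    have h0 := hY0 ρ
    generalize exp (-h ^ 2 / Fld.fy ρ₀ φ y₀ M ρ ^ 2) = e
    generalize Fld.fy ρ₀ φ y₀ M ρ = y at *
    generalize Fld.fy1 ρ₀ φ M ρ = y1 at *
    generalize Fld.fph ρ₀ φ ρ = F at *
    field_simp
    ring
  · -- the derivative of `w` in `h`
    intro ρ _ h
    have de := hd_et (Fld.fy ρ₀ φ y₀ M ρ) h
    have := (((((hasDerivAt_id h).const_mul 2).div_const (Fld.fy ρ₀ φ y₀ M ρ ^ 2)).mul_const
      (Fld.fph ρ₀ φ ρ)).mul de)
    refine HasDerivAt.congr_deriv this ?_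
    simp only [Fld.fan, id]
    have h0 := hY0 ρ
    generalize exp (-h ^ 2 / Fld.fy ρ₀ φ y₀ M ρ ^ 2) = e
    generalize Fld.fy ρ₀ φ y₀ M ρ = y at *
    generalize Fld.fph ρ₀ φ ρ = F at *
    field_simp
    ring
  · -- the derivative of `P`
    intro ρ _ h
    have dy := hd_fy ρ₀ φ y₀ M ρ
    have de := hd_e (h := h) dy (hY0 ρ)
    have := ((((hasDerivAt_const ρ (1 : ℝ)).div dy (hY0 ρ)).add_const κ).const_mul M).mul de
    refine HasDerivAt.congr_deriv this ?_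
    simp only [Fld.fan, Pi.div_apply]
    have h0 := hY0 ρ
    generalize exp (-h ^ 2 / Fld.fy ρ₀ φ y₀ M ρ ^ 2) = e
    generalize Fld.fy ρ₀ φ y₀ M ρ = y at *
    generalize Fld.fy1 ρ₀ φ M ρ = y1 at *
    field_simp
    ring

theorem adm_fan {k : ℕ} (hk : 1 ≤ k) {ρ₀ φ y₀ M κ ρ : ℝ} (h : ℝ) (hφ : 0 ≤ φ) (hy : 0 < y₀)
    (hM : 0 < M) (hκ : 0 ≤ κ) (hρ₀ : 0 < ρ₀) (hρ : ρ₀ ≤ ρ)
    (hc : 3 * Fld.fy1 ρ₀ φ M ρ ^ 2 ≤ 2 * κ * y₀) :
    Adm k 0 (Fld.fan k ρ₀ φ y₀ M κ) ρ h := by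
  have hy0 := fy_pos (ρ₀ := ρ₀) hφ hy hM ρ
  have hyge := fy_ge (ρ₀ := ρ₀) (y₀ := y₀) hφ hM ρ
  have hF : 0 ≤ Fld.fph ρ₀ φ ρ := mul_nonneg hφ (by linarith)
  have hy1 : M * Fld.fy1 ρ₀ φ M ρ = 2 * Fld.fph ρ₀ φ ρ := by
    unfold Fld.fy1 Fld.fph
    field_simp
  have hy1' : 0 ≤ Fld.fy1 ρ₀ φ M ρ := by
    unfold Fld.fy1
    have : 0 ≤ φ * (ρ - ρ₀) := hF
    positivity
  have hk1 : (0 : ℝ) ≤ (k : ℝ) - 1 := by
    have : (1 : ℝ) ≤ k := by exact_mod_cast hk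
    linarith
  have hk0 : (0 : ℝ) ≤ k := by linarith
  have hρ0 : 0 < ρ := by linarith
  have he : 0 < exp (-h ^ 2 / Fld.fy ρ₀ φ y₀ M ρ ^ 2) := exp_pos _
  -- names
  generalize hedef : exp (-h ^ 2 / Fld.fy ρ₀ φ y₀ M ρ ^ 2) = e at he
  generalize hydef : Fld.fy ρ₀ φ y₀ M ρ = y at hy0 hyge hedef
  generalize hy1def : Fld.fy1 ρ₀ φ M ρ = y1 at hy1 hy1' hc
  generalize hFdef : Fld.fph ρ₀ φ ρ = F at hF hy1
  have hu0 : 0 ≤ h ^ 2 / y ^ 2 := by positivity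
  have hG : 0 < 1 / y + κ := by positivity
  have hP : (Fld.fan k ρ₀ φ y₀ M κ).P ρ h = M * (1 / y + κ) * e := by
    simp only [Fld.fan, hydef, hedef]
  have hw : (Fld.fan k ρ₀ φ y₀ M κ).w ρ h = 2 * h / y ^ 2 * F * e := by
    simp only [Fld.fan, hydef, hedef, hFdef]
  have hPpos : 0 < (Fld.fan k ρ₀ φ y₀ M κ).P ρ h := by
    rw [hP]
    positivity
  have hwP : (Fld.fan k ρ₀ φ y₀ M κ).w ρ h ^ 2 / (Fld.fan k ρ₀ φ y₀ M κ).P ρ h =
      2 * (h ^ 2 / y ^ 2) * F * y1 / (y * (1 + κ * y)) * e := by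
    rw [hw, hP]
    have h1 : 1 + κ * y ≠ 0 := by positivity
    have h2 : 1 / y + κ = (1 + κ * y) / y := by field_simp
    have h3 : y1 = 2 * F / M := by
      rw [eq_div_iff hM.ne', mul_comm]
      exact hy1
    rw [h2, h3]
    have hy' := hy0.ne'
    have hM' := hM.ne'
    have he' := he.ne'
    field_simp
  have hwle : (Fld.fan k ρ₀ φ y₀ M κ).w ρ h ^ 2 / (Fld.fan k ρ₀ φ y₀ M κ).P ρ h ≤
      2 * (h ^ 2 / y ^ 2) * F * y1 / y * e := by
    rw [hwP]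
    apply mul_le_mul_of_nonneg_right _ he.le
    apply div_le_div_of_nonneg_left (by positivity) hy0
    have : 0 ≤ κ * y := by positivity
    nlinarith
  refine ⟨hPpos.le, fun h0 => absurd h0 hPpos.ne', ?_, ?_⟩
  · have hcc : (Fld.fan k ρ₀ φ y₀ M κ).c ρ h = (k - 1) * F * e +
        ρ * ((φ + 2 * (h ^ 2 / y ^ 2) * F * y1 / y) * e) := by
      simp only [Fld.fan, hydef, hedef, hFdef, hy1def]
    rw [hcc, add_zero]
    have h1 := mul_le_mul_of_nonneg_left hwle hρ0.le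
    refine h1.trans ?_
    have h2 : 0 ≤ (k - 1) * F * e := by positivity
    have h3 : 0 ≤ ρ * (φ * e) := by positivity
    nlinarith
  · have hcc : (Fld.fan k ρ₀ φ y₀ M κ).c1 ρ h / ρ + (Fld.fan k ρ₀ φ y₀ M κ).P1 ρ h +
        (Fld.fan k ρ₀ φ y₀ M κ).w2 ρ h =
        k * (2 * (h ^ 2 / y ^ 2) * F * y1 / y * e) / ρ + (k * φ / ρ + 4 * (h ^ 2 / y ^ 2) * φ * y1 / y +
          2 * (h ^ 2 / y ^ 2) * F * (2 * φ / M) / y +
          4 * (h ^ 2 / y ^ 2) ^ 2 * F * y1 ^ 2 / y ^ 2 +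
          2 * (h ^ 2 / y ^ 2) * F / y ^ 2 * (2 * κ * y - 3 * y1 ^ 2)) * e := by
      simp only [Fld.fan, hydef, hedef, hFdef, hy1def]
      have h3 : y1 = 2 * F / M := by
        rw [eq_div_iff hM.ne', mul_comm]
        exact hy1
      rw [h3]
      have hy' := hy0.ne'
      have hM' := hM.ne'
      have hρ' := hρ0.ne'
      field_simp
      ring
    rw [hcc]
    have h1 : k * ((Fld.fan k ρ₀ φ y₀ M κ).w ρ h ^ 2 / (Fld.fan k ρ₀ φ y₀ M κ).P ρ h) / ρ ≤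
        k * (2 * (h ^ 2 / y ^ 2) * F * y1 / y * e) / ρ := by
      apply div_le_div_of_nonneg_right _ hρ0.le
      exact mul_le_mul_of_nonneg_left hwle hk0
    refine h1.trans (le_add_of_nonneg_right ?_)
    apply mul_nonneg _ he.le
    have h2 : 0 ≤ 2 * κ * y - 3 * y1 ^ 2 := by
      have : 2 * κ * y₀ ≤ 2 * κ * y := by
        apply mul_le_mul_of_nonneg_left hyge
        positivity
      linarith
    positivity

end Pool.Agent.Helper69.LB
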