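import Mathlib

/-! Project LB: adjacency labels below the square root. Definitions. -/

open Finset Matrix

namespace Pool.Agent.Helper69.LB

/-- The graph property `P` (given by its graphs with vertex set `Fin n`) has adjacency labels of
`f n` bits: there is one symmetric rule `A`, depending only on `P`, such that the vertices of every
graph of `P` with `n` vertices can be labelled by natural numbers less than `2 ^ f n` so that two
distinct vertices are adjacent iff `A` holds for their labels. -/
def HasLabels (P : ∀ n : ℕ, SimpleGraph (Fin n) → Prop) (f : ℕ → ℝ) : Prop :=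
  ∃ A : ℕ → ℕ → Prop, (∀ a b, A a b → A b a) ∧
    ∀ (n : ℕ) (G : SimpleGraph (Fin n)), P n G → ∃ ℓ : Fin n → ℕ,
      (∀ v, (ℓ v : ℝ) < 2 ^ f n) ∧ ∀ v w, v ≠ w → (G.Adj v w ↔ A (ℓ v) (ℓ w))

/-- The relations of the class `𝓡` can be decoded from labels in finite types with at most
`2 ^ f n` elements. -/
def RelLabels (𝓡 : ∀ n : ℕ, (Fin n → Fin n → Prop) → Prop) (f : ℕ → ℝ) : Prop :=
  ∃ (L : ℕ → Type) (D : ∀ n, L n → L n → Prop), (∀ n, Finite (L n)) ∧
    (∀ n, 1 ≤ n → (Nat.card (L n) : ℝ) ≤ 2 ^ f n) ∧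
    ∀ (n : ℕ) (R : Fin n → Fin n → Prop), 𝓡 n R → ∃ lab : Fin n → L n,
      ∀ p q, R p q ↔ D n (lab p) (lab q)

/-- Point versus open half-space relations in homogeneous coordinates, no point on a boundary. -/
def HalfRel (E n : ℕ) (R : Fin n → Fin n → Prop) : Prop :=
  ∃ x a : Fin n → Fin E → ℝ, ∀ p q, a q ⬝ᵥ x p ≠ 0 ∧ (R p q ↔ 0 < a q ⬝ᵥ x p)

/-- The vectors `x 0, ..., x (s - 1)` of `ℝ ^ E` are in general position: any `E` of them are
linearly independent. -/
def GenPos {E s : ℕ} (x : Fin s → Fin E → ℝ) : Prop :=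
  ∀ J : Fin E → Fin s, Function.Injective J → (Matrix.of fun i => x (J i)).det ≠ 0

/-- injective `E`-tuples of indices -/
abbrev Inj (E s : ℕ) := {J : Fin E → Fin s // Function.Injective J}

/-- the chirotope: the set of the positively oriented `E`-tuples -/
def chi {E s : ℕ} (x : Fin s → Fin E → ℝ) : Set (Inj E s) :=
  {J | 0 < (Matrix.of fun i => x (J.1 i)).det}

/-- the chirotopes of the configurations of `s` vectors of `ℝ ^ E` in general position -/
abbrev Chiro (E s : ℕ) : Type :=
  {c : Set (Inj E s) // ∃ x : Fin s → Fin E → ℝ, GenPos x ∧ c = chi x}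

/-- a pointer describes a half-space with respect to `s` vectors of `ℝ ^ (D + 1)` of known
chirotope: `D` of the vectors, which span the boundary of a limiting half-space, its side, and the
position of the `D` vectors -/
abbrev Ptr (D s : ℕ) : Type := (Fin D → Fin s) × Bool × Set (Fin D)

/-- the vectors in the half-space given by a pointer -/
def dcd {D s : ℕ} (c : Set (Inj (D + 1) s)) (π : Ptr D s) (k : Fin s) : Prop :=
  (∃ j ∈ π.2.2, π.1 j = k) ∨ ((∀ j, π.1 j ≠ k) ∧
    ((∃ h : Function.Injective (Fin.snoc (α := fun _ => Fin s) π.1 k),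
      (⟨_, h⟩ : Inj (D + 1) s) ∈ c) ↔ π.2.1 = true))

/-- One round: for half of the `q ∈ Q` the relation `R p q` is decoded from a public label of `p`
and a code of `q`, except for the `p` in at most `x` groups; the groups have at most `s`
elements. -/
def RoundFor {n : ℕ} (R : Fin n → Fin n → Prop) {Pub Cod : Type} (dec : Cod → Pub → Prop)
    (s x : ℕ) (Q : Finset (Fin n)) : Prop :=
  ∃ Q' ⊆ Q, Q.card ≤ 2 * Q'.card ∧ ∃ (pub : Fin n → Pub) (grp : Fin n → Fin n)
    (cod : Fin n → Cod) (X : Fin n → Finset (Fin n)),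
    (∀ g, (univ.filter fun p => grp p = g).card ≤ s) ∧
    (∀ q ∈ Q', (X q).card ≤ x) ∧
    ∀ q ∈ Q', ∀ p, grp p ∉ X q → (R p q ↔ dec (cod q) (pub p))

/-- The labels: for every round the public label, the group, the code of the group and the index in
the group; then the round in which the vertex is treated as a half-space, its code in this round
and at most `x` pointers. -/
abbrev Lab (n s x : ℕ) (Pub Cod S P : Type) : Type :=
  (Fin (Nat.log 2 n + 1) → Pub × Fin n × S × Fin s) ×
    (Fin (Nat.log 2 n + 1) × Cod × (Fin x → Option (Fin n × P)))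

/-- the rule for the labels: `a` is the label of the point, `b` that of the half-space -/
def labDec {n s x : ℕ} {Pub Cod S P : Type} (dec : Cod → Pub → Prop)
    (dcd : S → P → Fin s → Prop) (a b : Lab n s x Pub Cod S P) : Prop :=
  (∃ j π, b.2.2.2 j = some ((a.1 b.2.1).2.1, π) ∧
      dcd (a.1 b.2.1).2.2.1 π (a.1 b.2.1).2.2.2) ∨
    ((∀ j π, b.2.2.2 j ≠ some ((a.1 b.2.1).2.1, π)) ∧ dec b.2.2.1 (a.1 b.2.1).1)

/-- the number of the cells of a sample of `N` half-spaces -/
def cellNum (D N : ℕ) : ℕ := (N + D + 1) ^ D * (2 * (2 * (D + 1)) ^ D)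

end Pool.Agent.Helper69.LB
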