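import Pool.Agent.Helper69.LB.Defs

/-! Project LB, piece M1: from relations to graphs. -/

open Finset Matrix

namespace Pool.Agent.Helper69.LB

private theorem m1_bound (n i K : ℕ) (F : ℝ) (h1 : (n : ℝ) + 1 ≤ 2 ^ F) (h2 : (K : ℝ) ≤ 2 ^ F)
    (h3 : i < 2 * K) : ((Nat.pair n i : ℕ) : ℝ) < 2 ^ (2 * F + 2) := by
  have h4 : Nat.pair n i < (max n i + 1) ^ 2 := Nat.pair_lt_max_add_one_sq n i
  have h5 : ((Nat.pair n i : ℕ) : ℝ) < (((max n i + 1 : ℕ)) : ℝ) ^ 2 := by exact_mod_cast h4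
  have hpos : (0 : ℝ) < 2 ^ F := Real.rpow_pos_of_pos (by norm_num) F
  have h6 : (((max n i + 1 : ℕ)) : ℝ) ≤ 2 * 2 ^ F := by
    rcases le_total n i with h | h
    · rw [max_eq_right h]
      have h7 : i + 1 ≤ 2 * K := h3
      have h8 : ((i + 1 : ℕ) : ℝ) ≤ ((2 * K : ℕ) : ℝ) := by exact_mod_cast h7
      push_cast at h8 ⊢
      linarith
    · rw [max_eq_left h]
      push_cast
      linarith
  have h9 : (2 : ℝ) ^ (2 * F + 2) = (2 * 2 ^ F) ^ 2 := by
    rw [Real.rpow_add (by norm_num), mul_comm (2 : ℝ) F, Real.rpow_mul (by norm_num)]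
    have e1 : ((2 : ℝ) ^ F) ^ (2 : ℝ) = (2 ^ F) ^ 2 := by
      rw [← Real.rpow_natCast]; norm_num
    have e2 : (2 : ℝ) ^ (2 : ℝ) = 4 := by
      rw [show (2 : ℝ) = ((2 : ℕ) : ℝ) by norm_num, Real.rpow_natCast]; norm_num
    rw [e1, e2]
    ring
  rw [h9]
  refine lt_of_lt_of_le h5 ?_
  exact pow_le_pow_left₀ (by positivity) h6 2

/-- Proof. The labels are `Nat.pair n i + 1` or `Nat.pair n i`, where `i` is the number of
`(lab v, c v) ∈ L n × Bool` under a bijection with `Fin (2 * card (L n))`;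
`Nat.pair n i < (max n i + 1) ^ 2` (`Nat.pair_lt_max_add_one_sq`), `n + 1 ≤ 2 ^ f n` and
`i + 1 ≤ 2 * 2 ^ f n`, so the labels are less than `2 ^ (2 * f n + 2)`. The rule: `A a b` iff
`a = pair n i`, `b = pair n j` for some `n`, `i`, `j` and `Ψ (c) (c') (D n u u') (D n u' u)` holds
for the corresponding elements in one of the two orders. -/
theorem hasLabels_of_rel {𝓡 : ∀ n : ℕ, (Fin n → Fin n → Prop) → Prop} {f : ℕ → ℝ}
    (hf : ∀ n : ℕ, 1 ≤ n → (n : ℝ) + 1 ≤ 2 ^ f n) (h : RelLabels 𝓡 f)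
    (Ψ : Bool → Bool → Prop → Prop → Prop) {P : ∀ n : ℕ, SimpleGraph (Fin n) → Prop}
    (hP : ∀ n G, P n G → ∃ R : Fin n → Fin n → Prop, 𝓡 n R ∧ ∃ c : Fin n → Bool,
      ∀ v w, v ≠ w → (G.Adj v w ↔ Ψ (c v) (c w) (R v w) (R w v))) :
    HasLabels P (fun n => 2 * f n + 2) := by
  obtain ⟨L, D, hfin, hcard, hdec⟩ := h
  have he : ∀ n, ∃ e : L n × Bool → ℕ, Function.Injective e ∧ ∀ x, e x < 2 * Nat.card (L n) := by
    intro n
    have := hfin n
    let e := Finite.equivFin (L n × Bool)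
    refine ⟨fun x => (e x : ℕ), fun x y hxy => e.injective (Fin.ext hxy), fun x => ?_⟩
    have h1 := (e x).isLt
    have h2 : Nat.card (L n × Bool) = 2 * Nat.card (L n) := by
      rw [Nat.card_prod, mul_comm]
      simp
    exact lt_of_lt_of_eq h1 h2
  choose e hinj hlt using he
  refine ⟨fun a b => ∃ n, ∃ u u' : L n, ∃ c c' : Bool, a = Nat.pair n (e n (u, c)) ∧
    b = Nat.pair n (e n (u', c')) ∧
    (Ψ c c' (D n u u') (D n u' u) ∨ Ψ c' c (D n u' u) (D n u u')), ?_, ?_⟩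
  · rintro a b ⟨n, u, u', c, c', ha, hb, hh⟩
    exact ⟨n, u', u, c', c, hb, ha, hh.symm⟩
  · intro n G hG
    obtain ⟨R, hR, c, hc⟩ := hP n G hG
    obtain ⟨lab, hlab⟩ := hdec n R hR
    refine ⟨fun v => Nat.pair n (e n (lab v, c v)), ?_, ?_⟩
    · intro v
      have hn : 1 ≤ n := Nat.one_le_iff_ne_zero.2 (fun h0 => by subst h0; exact v.elim0)
      exact m1_bound n _ (Nat.card (L n)) (f n) (hf n hn) (hcard n hn) (hlt n _)
    · intro v w hvw
      have h1 := hc v w hvw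
      have h2 := hc w v hvw.symm
      rw [hlab v w, hlab w v] at h1
      rw [hlab v w, hlab w v] at h2
      constructor
      · intro hadj
        exact ⟨n, lab v, lab w, c v, c w, rfl, rfl, Or.inl (h1.1 hadj)⟩
      · rintro ⟨n', u, u', d, d', ha, hb, hh⟩
        obtain ⟨ha1, ha2⟩ := Nat.pair_eq_pair.1 ha
        obtain ⟨_, hb2⟩ := Nat.pair_eq_pair.1 hb
        subst ha1
        have ha3 := hinj n ha2
        have hb3 := hinj n hb2
        simp only [Prod.mk.injEq] at ha3 hb3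
        obtain ⟨rfl, rfl⟩ := ha3
        obtain ⟨rfl, rfl⟩ := hb3
        rcases hh with hh | hh
        · exact h1.2 hh
        · exact (h2.2 hh).symm

/-- a larger bound; `f n` may be replaced by `g n` if `f n ≤ g n` for `n ≥ 1` -/
theorem HasLabels.mono {P : ∀ n : ℕ, SimpleGraph (Fin n) → Prop} {f g : ℕ → ℝ}
    (h : HasLabels P f) (hfg : ∀ n : ℕ, 1 ≤ n → f n ≤ g n) : HasLabels P g := by
  obtain ⟨A, hA, h⟩ := h
  refine ⟨A, hA, fun n G hG => ?_⟩
  obtain ⟨l, h1, h2⟩ := h n G hG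
  refine ⟨l, fun v => lt_of_lt_of_le (h1 v) ?_, h2⟩
  have hn : 1 ≤ n := Nat.one_le_iff_ne_zero.2 (fun h0 => by subst h0; exact v.elim0)
  exact Real.rpow_le_rpow_of_exponent_le (by norm_num) (hfg n hn)

end Pool.Agent.Helper69.LB
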