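import Pool.Agent.Helper69.LB.Defs

/-! Project LB, piece M1b: products of labels. -/

open Finset Matrix

namespace Pool.Agent.Helper69.LB

/-- Proof. Products of the types. -/
theorem relLabels_prod {m : ℕ} (𝓡 : Fin m → ∀ n : ℕ, (Fin n → Fin n → Prop) → Prop)
    (f : Fin m → ℕ → ℝ) (h : ∀ i, RelLabels (𝓡 i) (f i)) (Φ : (Fin m → Prop) → Prop) :
    RelLabels (fun n R => ∃ T : Fin m → Fin n → Fin n → Prop, (∀ i, 𝓡 i n (T i)) ∧
      ∀ p q, (R p q ↔ Φ fun i => T i p q)) (fun n => ∑ i, f i n) := by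
  choose L D hfin hcard hdec using h
  refine ⟨fun n => ∀ i, L i n, fun n a b => Φ fun i => D i n (a i) (b i), ?_, ?_, ?_⟩
  · intro n
    have := fun i => hfin i n
    infer_instance
  · intro n hn
    rw [Nat.card_pi, Nat.cast_prod, Real.rpow_sum_of_pos (by norm_num : (0 : ℝ) < 2)]
    exact Finset.prod_le_prod (fun i _ => Nat.cast_nonneg _) fun i _ => hcard i n hn
  · rintro n R ⟨T, hT, hR⟩
    choose lab hlab using fun i => hdec i n (T i) (hT i)
    refine ⟨fun p i => lab i p, fun p q => ?_⟩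
    rw [hR p q]
    have : (fun i => T i p q) = fun i => D i n (lab i p) (lab i q) := by
      funext i
      exact propext (hlab i p q)
    rw [this]

end Pool.Agent.Helper69.LB
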