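import Pool.Agent.Helper69.LB.Defs
import Pool.Agent.Helper72.ELRSemialg

/-! Project LB, piece M2: the geometric relations are half-space relations. -/

open Finset Matrix

namespace Pool.Agent.Helper69.LB

open Pool.Agent.Helper72.ELR

private theorem m2_delta {n : ℕ} (v : Fin n → Fin n → ℝ) :
    ∃ δ : ℝ, 0 < δ ∧ ∀ p q, 0 < v p q → δ < v p q := by
  have h1 : ∀ᶠ δ in nhdsWithin (0 : ℝ) (Set.Ioi 0), ∀ p q, 0 < v p q → δ < v p q := by
    rw [Filter.eventually_all]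
    intro p
    rw [Filter.eventually_all]
    intro q
    by_cases h : 0 < v p q
    · filter_upwards [Ioo_mem_nhdsGT h] with δ hδ _
      exact hδ.2
    · exact Filter.Eventually.of_forall (fun δ h' => absurd h' h)
  have h2 : ∀ᶠ δ in nhdsWithin (0 : ℝ) (Set.Ioi 0), δ ∈ Set.Ioi (0 : ℝ) := self_mem_nhdsWithin
  obtain ⟨δ, h3, h4⟩ := (h2.and h1).exists
  exact ⟨δ, h3, h4⟩

/-- Proof. Let `δ > 0` be less than all positive values `a q ⬝ᵥ x p`; take the functionals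
`δ • u - a q`. -/
theorem halfRel_of_le {E n : ℕ} (x a : Fin n → Fin E → ℝ) (u : Fin E → ℝ)
    (hu : ∀ p, u ⬝ᵥ x p = 1) : HalfRel E n (fun p q => a q ⬝ᵥ x p ≤ 0) := by
  obtain ⟨δ, hδ, h⟩ := m2_delta (fun p q => a q ⬝ᵥ x p)
  refine ⟨x, fun q => δ • u - a q, fun p q => ?_⟩
  have h1 : (δ • u - a q) ⬝ᵥ x p = δ - a q ⬝ᵥ x p := by
    rw [sub_dotProduct, smul_dotProduct, hu, smul_eq_mul, mul_one]
  rw [h1]
  by_cases h2 : a q ⬝ᵥ x p ≤ 0
  · have h3 : 0 < δ - a q ⬝ᵥ x p := by linarith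
    exact ⟨h3.ne', ⟨fun _ => h3, fun _ => h2⟩⟩
  · have h3 : δ < a q ⬝ᵥ x p := h p q (not_le.mp h2)
    have h4 : δ - a q ⬝ᵥ x p < 0 := by linarith
    exact ⟨h4.ne, ⟨fun h5 => absurd h5 h2, fun h5 => absurd h5 (not_lt.mpr h4.le)⟩⟩

/-- Proof. Append zeros. -/
theorem HalfRel.mono {E E' n : ℕ} {R : Fin n → Fin n → Prop} (h : HalfRel E n R) (hE : E ≤ E') :
    HalfRel E' n R := by
  obtain ⟨k, rfl⟩ := Nat.exists_eq_add_of_le hE
  obtain ⟨x, a, h1⟩ := h
  refine ⟨fun p => Fin.append (x p) 0, fun q => Fin.append (a q) 0, fun p q => ?_⟩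
  have h2 : (Fin.append (a q) (0 : Fin k → ℝ)) ⬝ᵥ (Fin.append (x p) (0 : Fin k → ℝ)) =
      a q ⬝ᵥ x p := by
    simp only [dotProduct, Fin.sum_univ_add, Fin.append_left, Fin.append_right, Pi.zero_apply,
      mul_zero, Finset.sum_const_zero, add_zero]
  rw [h2]
  exact h1 p q

private theorem m2_halfspace {d n : ℕ} (g h : Fin n → EuclideanSpace ℝ (Fin d)) (b : Fin n → ℝ) :
    HalfRel (d + 1) n (fun v w => inner ℝ (h w) (g v) ≤ b w) := by
  have h1 := halfRel_of_le (E := d + 1) (n := n) (fun v => Fin.snoc (fun i => g v i) 1)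
    (fun w => Fin.snoc (fun i => h w i) (-b w)) (Fin.snoc (fun _ => 0) 1) (fun p => by
      simp only [dotProduct, Fin.sum_univ_castSucc, Fin.snoc_castSucc, Fin.snoc_last, zero_mul,
        Finset.sum_const_zero, zero_add, mul_one])
  refine Eq.mp (congrArg (HalfRel (d + 1) n) ?_) h1
  funext v w
  have h2 : (Fin.snoc (α := fun _ => ℝ) (fun i => h w i) (-b w)) ⬝ᵥ
      (Fin.snoc (α := fun _ => ℝ) (fun i => g v i) 1) = inner ℝ (h w) (g v) - b w := by
    simp only [dotProduct, Fin.sum_univ_castSucc, Fin.snoc_castSucc, Fin.snoc_last, mul_one,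
      PiLp.inner_apply, RCLike.inner_apply, conj_trivial]
    rw [sub_eq_add_neg]
    congr 1
    exact Finset.sum_congr rfl (fun i _ => mul_comm _ _)
  rw [h2, sub_nonpos]

/-- Proof. `‖f v - f w‖ ^ 2 - 1 = a w ⬝ᵥ x v` with `x v = (1, f v, ‖f v‖ ^ 2)` and
`a w = (‖f w‖ ^ 2 - 1, - 2 f w, 1)`; then `halfRel_of_le`. -/
theorem halfRel_unitBall {d n : ℕ} (f : Fin n → EuclideanSpace ℝ (Fin d)) :
    HalfRel (d + 2) n (fun v w => dist (f v) (f w) ≤ 1) := by
  have h1 := halfRel_of_le (E := d + 2) (n := n)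
    (fun v => Fin.cons 1 (Fin.snoc (α := fun _ => ℝ) (fun i => f v i) (‖f v‖ ^ 2)))
    (fun w => Fin.cons (‖f w‖ ^ 2 - 1) (Fin.snoc (α := fun _ => ℝ) (fun i => -2 * f w i) 1))
    (Fin.cons 1 (fun _ => 0)) (fun p => by
      simp only [dotProduct, Fin.sum_univ_succ (n := d + 1), Fin.cons_zero, Fin.cons_succ, zero_mul,
        Finset.sum_const_zero, add_zero, mul_one])
  refine Eq.mp (congrArg (HalfRel (d + 2) n) ?_) h1
  funext v w
  have h2 : (Fin.cons (α := fun _ => ℝ) (‖f w‖ ^ 2 - 1)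
      (Fin.snoc (α := fun _ => ℝ) (fun i => -2 * f w i) 1)) ⬝ᵥ
      (Fin.cons (α := fun _ => ℝ) 1 (Fin.snoc (α := fun _ => ℝ) (fun i => f v i) (‖f v‖ ^ 2))) =
      dist (f v) (f w) ^ 2 - 1 := by
    rw [dist_eq_norm, norm_sub_sq_real]
    simp only [dotProduct, Fin.sum_univ_succ (n := d + 1), Fin.cons_zero, Fin.cons_succ,
      Fin.sum_univ_castSucc (n := d), Fin.snoc_castSucc, Fin.snoc_last, mul_one, one_mul,
      PiLp.inner_apply, RCLike.inner_apply, conj_trivial]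
    have h3 : ∑ i, -2 * f w i * f v i = -(2 * ∑ i, f w i * f v i) := by
      rw [Finset.mul_sum, ← Finset.sum_neg_distrib]
      exact Finset.sum_congr rfl (fun i _ => by ring)
    rw [h3]
    ring
  rw [h2, sub_nonpos, ← propext (sq_le_one_iff₀ dist_nonneg)]

/-- Proof. `x v = (f v, 1)`, `a w = (f w, - b w)`; then `halfRel_of_le`. -/
theorem halfRel_halfspace {d n : ℕ} (f : Fin n → EuclideanSpace ℝ (Fin d)) (b : Fin n → ℝ) :
    HalfRel (d + 1) n (fun v w => inner ℝ (f w) (f v) ≤ b w) :=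
  m2_halfspace f f b

/-- Proof. `exists_bilinear`, then `x v = (φ (f v), 1)` and `halfRel_of_le`. -/
theorem halfRel_semialg {k : ℕ} (p : MvPolynomial (Fin k ⊕ Fin k) ℝ) :
    ∃ E : ℕ, ∀ (n : ℕ) (f : Fin n → Fin k → ℝ),
      HalfRel E n (fun v w => MvPolynomial.eval (Sum.elim (f v) (f w)) p ≤ 0) := by
  obtain ⟨N, φ, ψ, h⟩ := exists_bilinear p
  refine ⟨N + 1, fun n f => ?_⟩
  have h1 := m2_halfspace (fun v => φ (f v)) (fun w => ψ (f w)) (fun _ => 0)
  refine Eq.mp (congrArg (HalfRel (N + 1) n) ?_) h1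
  funext v w
  rw [h]

end Pool.Agent.Helper69.LB
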