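import Mathlib

/-! Project LB: the rank of a polynomial in two groups of variables. -/

open Matrix

namespace Pool.Agent.Helper69.LB

/-- `q (x, y) = ⟨ψ y, φ x⟩ + c y` for arbitrary functions `φ` and `ψ` with values in `ℝ ^ D` and an
arbitrary real function `c`. -/
def RankLE {k : ℕ} (q : MvPolynomial (Fin k ⊕ Fin k) ℝ) (D : ℕ) : Prop :=
  ∃ (φ ψ : (Fin k → ℝ) → Fin D → ℝ) (c : (Fin k → ℝ) → ℝ), ∀ x y,
    MvPolynomial.eval (Sum.elim x y) q = ψ y ⬝ᵥ φ x + c y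

end Pool.Agent.Helper69.LB
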