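import Pool.Agent.Helper69.LB.L5
import Pool.Agent.Helper69.LB.M1
import Pool.Agent.Helper69.LB.M1b
import Pool.Agent.Helper69.LB.M2
import Pool.Agent.Helper69.LB.Rank

/-! Project LB: the label bounds for the three classes. -/

open Finset Matrix

namespace Pool.Agent.Helper69.LB

open Pool.Agent.Helper72.ELR

theorem RelLabels.mono {𝓡 𝓢 : ∀ n : ℕ, (Fin n → Fin n → Prop) → Prop} {f g : ℕ → ℝ}
    (h : RelLabels 𝓡 f) (hS : ∀ n R, 𝓢 n R → 𝓡 n R) (hfg : ∀ n : ℕ, 1 ≤ n → f n ≤ g n) :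
    RelLabels 𝓢 g := by
  obtain ⟨L, D, h1, h2, h3⟩ := h
  refine ⟨L, D, h1, fun n hn => (h2 n hn).trans ?_, fun n R hR => h3 n R (hS n R hR)⟩
  exact Real.rpow_le_rpow_of_exponent_le (by norm_num) (hfg n hn)

/-- the polylogarithmic bound -/
noncomputable def bd (C γ : ℝ) (k : ℕ) (n : ℕ) : ℝ := C * (n : ℝ) ^ γ * (Real.log (n + 1)) ^ k

theorem log_two_le {n : ℕ} (hn : 1 ≤ n) : Real.log 2 ≤ Real.log (n + 1) := by
  apply Real.log_le_log (by norm_num)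
  have : (1 : ℝ) ≤ n := by exact_mod_cast hn
  linarith

theorem bd_mono {C C' γ : ℝ} {k n : ℕ} (h : C ≤ C') (hn : 1 ≤ n) : bd C γ k n ≤ bd C' γ k n := by
  unfold bd
  have h1 : (0 : ℝ) ≤ Real.log (n + 1) := Real.log_nonneg (by
    have : (1 : ℝ) ≤ n := by exact_mod_cast hn
    linarith)
  gcongr

/-- the main term is at least `(log 2) ^ k` -/
theorem le_main {γ : ℝ} (hγ : 0 ≤ γ) {k n : ℕ} (hn : 1 ≤ n) :
    (Real.log 2) ^ k ≤ (n : ℝ) ^ γ * (Real.log (n + 1)) ^ k := by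
  have h0 : (0 : ℝ) < Real.log 2 := Real.log_pos (by norm_num)
  have h1 : (Real.log 2) ^ k ≤ (Real.log (n + 1)) ^ k :=
    pow_le_pow_left₀ h0.le (log_two_le hn) k
  have h2 : (1 : ℝ) ≤ (n : ℝ) ^ γ := Real.one_le_rpow (by exact_mod_cast hn) hγ
  calc (Real.log 2) ^ k = 1 * (Real.log 2) ^ k := (one_mul _).symm
    _ ≤ (n : ℝ) ^ γ * (Real.log (n + 1)) ^ k :=
        mul_le_mul h2 h1 (pow_pos h0 k).le (by positivity)

theorem one_le_bd {γ : ℝ} (hγ : 0 ≤ γ) {k n : ℕ} (hn : 1 ≤ n) {C : ℝ}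
    (hC : ((Real.log 2) ^ k)⁻¹ ≤ C) : 1 ≤ bd C γ k n := by
  have h0 : (0 : ℝ) < (Real.log 2) ^ k := pow_pos (Real.log_pos (by norm_num)) k
  have h1 := le_main hγ (k := k) hn
  unfold bd
  rw [mul_assoc]
  calc (1 : ℝ) = ((Real.log 2) ^ k)⁻¹ * (Real.log 2) ^ k := (inv_mul_cancel₀ h0.ne').symm
    _ ≤ C * ((n : ℝ) ^ γ * (Real.log (n + 1)) ^ k) :=
        mul_le_mul hC h1 h0.le ((inv_pos.2 h0).le.trans hC)

theorem add_one_le_two_pow_bd {γ : ℝ} (hγ : 0 ≤ γ) {k n : ℕ} (hn : 1 ≤ n) (hk : 1 ≤ k) {C : ℝ}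
    (hC : ((Real.log 2) ^ k)⁻¹ ≤ C) : (n : ℝ) + 1 ≤ 2 ^ bd C γ k n := by
  have hl : (0 : ℝ) < Real.log 2 := Real.log_pos (by norm_num)
  have hL := log_two_le hn
  have hn0 : (0 : ℝ) < (n : ℝ) + 1 := by positivity
  obtain ⟨j, rfl⟩ : ∃ j, k = j + 1 := ⟨k - 1, by omega⟩
  have key : Real.log (n + 1) ≤ Real.log 2 * bd C γ (j + 1) n := by
    have h1 := le_main hγ (k := j) hn
    have h2 : (0 : ℝ) < (Real.log 2) ^ j := pow_pos hl j
    have hCpos : 0 ≤ C := (inv_pos.2 (pow_pos hl _)).le.trans hC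
    have hlogn : 0 ≤ Real.log (n + 1) := hl.le.trans hL
    calc Real.log (n + 1)
        = Real.log 2 * ((((Real.log 2) ^ (j + 1))⁻¹) * ((Real.log 2) ^ j * Real.log (n + 1))) := by
          rw [pow_succ]; field_simp
      _ ≤ Real.log 2 * (C * (((n : ℝ) ^ γ * (Real.log (n + 1)) ^ j) * Real.log (n + 1))) := by
          gcongr
      _ = Real.log 2 * bd C γ (j + 1) n := by unfold bd; rw [pow_succ]; ring
  calc (n : ℝ) + 1 = Real.exp (Real.log (n + 1)) := (Real.exp_log hn0).symm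
    _ ≤ Real.exp (Real.log 2 * bd C γ (j + 1) n) := Real.exp_le_exp.2 key
    _ = 2 ^ bd C γ (j + 1) n := (Real.rpow_def_of_pos (by norm_num) _).symm

/-- from relations to graphs, with the polylogarithmic bound -/
theorem hasLabels_of_bd {𝓡 : ∀ n : ℕ, (Fin n → Fin n → Prop) → Prop} {C γ : ℝ} {k : ℕ}
    (hγ : 0 ≤ γ) (hk : 1 ≤ k) (h : RelLabels 𝓡 (bd C γ k))
    (Ψ : Bool → Bool → Prop → Prop → Prop) {P : ∀ n : ℕ, SimpleGraph (Fin n) → Prop}
    (hP : ∀ n G, P n G → ∃ R : Fin n → Fin n → Prop, 𝓡 n R ∧ ∃ c : Fin n → Bool,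
      ∀ v w, v ≠ w → (G.Adj v w ↔ Ψ (c v) (c w) (R v w) (R w v))) :
    ∃ C' : ℝ, 0 < C' ∧ HasLabels P (bd C' γ k) := by
  set C₁ : ℝ := max C (((Real.log 2) ^ k)⁻¹) with hC₁
  have hpos : (0 : ℝ) < ((Real.log 2) ^ k)⁻¹ := inv_pos.2 (pow_pos (Real.log_pos (by norm_num)) k)
  have h1 : RelLabels 𝓡 (bd C₁ γ k) :=
    h.mono (fun _ _ h => h) fun n hn => bd_mono (le_max_left _ _) hn
  have h2 := hasLabels_of_rel (f := bd C₁ γ k)
    (fun n hn => add_one_le_two_pow_bd hγ hn hk (le_max_right _ _)) h1 Ψ hP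
  refine ⟨4 * C₁, by have := le_max_right C (((Real.log 2) ^ k)⁻¹); positivity, h2.mono ?_⟩
  intro n hn
  have h3 := one_le_bd hγ (k := k) hn (C := C₁) (le_max_right _ _)
  have h4 : bd (4 * C₁) γ k n = 4 * bd C₁ γ k n := by unfold bd; ring
  rw [h4]
  linarith

/-- the labels of the half-space relations in the notation of `bd` -/
theorem relLabels_halfRel (D : ℕ) (hD : 2 ≤ D) : ∃ C : ℝ, 0 < C ∧
    RelLabels (HalfRel (D + 1)) (bd C (((D : ℝ) - 1) / (2 * D - 1)) (D + 1)) :=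
  halfRel_labels D hD

theorem exponent_nonneg {D : ℕ} (hD : 2 ≤ D) : (0 : ℝ) ≤ ((D : ℝ) - 1) / (2 * D - 1) := by
  have : (2 : ℝ) ≤ D := by exact_mod_cast hD
  apply div_nonneg <;> linarith

theorem exponent_lt {D : ℕ} (hD : 2 ≤ D) : ((D : ℝ) - 1) / (2 * D - 1) < 1 / 2 := by
  have : (2 : ℝ) ≤ D := by exact_mod_cast hD
  rw [div_lt_div_iff₀ (by linarith) (by norm_num)]
  linarith

/-- point versus half-space graphs -/
theorem labels_pointHalfspace (D : ℕ) (hD : 2 ≤ D) : ∃ C : ℝ, 0 < C ∧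
    HasLabels (PointHalfspace D) (bd C (((D : ℝ) - 1) / (2 * D - 1)) (D + 1)) := by
  classical
  obtain ⟨C, -, h⟩ := relLabels_halfRel D hD
  refine hasLabels_of_bd (exponent_nonneg hD) (by omega) h
    (fun c c' r r' => (c = true ∧ c' = false ∧ r) ∨ (c' = true ∧ c = false ∧ r')) ?_
  rintro n G ⟨S, f, b, hG⟩
  refine ⟨_, halfRel_halfspace f b, fun v => decide (v ∈ S), fun v w _ => ?_⟩
  rw [hG v w]
  simp

/-- unit ball graphs -/
theorem labels_unitBall (d : ℕ) (hd : 1 ≤ d) : ∃ C : ℝ, 0 < C ∧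
    HasLabels (UnitBall d) (bd C ((d : ℝ) / (2 * d + 1)) (d + 2)) := by
  obtain ⟨C, -, h⟩ := relLabels_halfRel (d + 1) (by omega)
  have e : (((d + 1 : ℕ) : ℝ) - 1) / (2 * ((d + 1 : ℕ) : ℝ) - 1) = (d : ℝ) / (2 * d + 1) := by
    push_cast
    congr 1 <;> ring
  rw [e] at h
  refine hasLabels_of_bd (by positivity) (by omega) h (fun _ _ r _ => r) ?_
  rintro n G ⟨f, hG⟩
  exact ⟨_, halfRel_unitBall f, fun _ => true, fun v w hvw => hG v w hvw⟩

/-- a power of the logarithm is less than a power -/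
theorem bd_le_rpow {C γ : ℝ} (hC : 0 ≤ C) (k : ℕ) {δ : ℝ} (hδ : 0 < δ) : ∃ C' : ℝ, 0 < C' ∧
    ∀ n : ℕ, 1 ≤ n → bd C γ k n ≤ C' * (n : ℝ) ^ (γ + δ) := by
  set η : ℝ := δ / (k + 1) with hη
  have hη0 : 0 < η := by positivity
  refine ⟨(C + 1) * (2 ^ η / η) ^ k, by positivity, fun n hn => ?_⟩
  have hn1 : (1 : ℝ) ≤ n := by exact_mod_cast hn
  have hn0 : (0 : ℝ) < n := by linarith
  have h1 : Real.log (n + 1) ≤ (2 ^ η / η) * (n : ℝ) ^ η := by
    calc Real.log (n + 1) ≤ ((n : ℝ) + 1) ^ η / η := Real.log_le_rpow_div (by linarith) hη0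
      _ ≤ (2 * (n : ℝ)) ^ η / η := by
          gcongr
          linarith
      _ = (2 ^ η / η) * (n : ℝ) ^ η := by
          rw [Real.mul_rpow (by norm_num) hn0.le]; ring
  have h2 : (Real.log (n + 1)) ^ k ≤ (2 ^ η / η) ^ k * (n : ℝ) ^ δ := by
    have h3 : 0 ≤ Real.log (n + 1) := Real.log_nonneg (by linarith)
    calc (Real.log (n + 1)) ^ k ≤ ((2 ^ η / η) * (n : ℝ) ^ η) ^ k := pow_le_pow_left₀ h3 h1 k
      _ = (2 ^ η / η) ^ k * (n : ℝ) ^ (η * k) := by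
          rw [mul_pow, Real.rpow_mul hn0.le, Real.rpow_natCast]
      _ ≤ (2 ^ η / η) ^ k * (n : ℝ) ^ δ := by
          gcongr
          rw [hη, div_mul_eq_mul_div, div_le_iff₀ (by positivity)]
          nlinarith
  have h5 : 0 ≤ (Real.log (n + 1)) ^ k := pow_nonneg (Real.log_nonneg (by linarith)) k
  unfold bd
  rw [Real.rpow_add hn0]
  calc C * (n : ℝ) ^ γ * (Real.log (n + 1)) ^ k
      ≤ (C + 1) * (n : ℝ) ^ γ * ((2 ^ η / η) ^ k * (n : ℝ) ^ δ) := by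
        gcongr
        linarith
    _ = (C + 1) * (2 ^ η / η) ^ k * ((n : ℝ) ^ γ * (n : ℝ) ^ δ) := by ring

theorem RankLE.mono {k D D' : ℕ} {q : MvPolynomial (Fin k ⊕ Fin k) ℝ} (h : RankLE q D)
    (hD : D ≤ D') : RankLE q D' := by
  obtain ⟨j, rfl⟩ := Nat.exists_eq_add_of_le hD
  obtain ⟨φ, ψ, c, h⟩ := h
  refine ⟨fun x => Fin.append (φ x) 0, fun y => Fin.append (ψ y) 0, c, fun x y => ?_⟩
  rw [h x y]
  congr 1
  simp only [dotProduct, Fin.sum_univ_add, Fin.append_left, Fin.append_right, Pi.zero_apply,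
    mul_zero, Finset.sum_const_zero, add_zero]

/-- every polynomial has a finite rank -/
theorem exists_rankLE {k : ℕ} (q : MvPolynomial (Fin k ⊕ Fin k) ℝ) : ∃ D, RankLE q D := by
  obtain ⟨N, φ, ψ, h⟩ := exists_bilinear q
  refine ⟨N, fun x => φ x, fun y => ψ y, fun _ => 0, fun x y => ?_⟩
  rw [h x y, add_zero]
  simp only [dotProduct, PiLp.inner_apply, RCLike.inner_apply, conj_trivial]
  exact Finset.sum_congr rfl fun i _ => mul_comm _ _

theorem halfRel_rankLE {k D n : ℕ} {q : MvPolynomial (Fin k ⊕ Fin k) ℝ} (h : RankLE q D)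
    (f : Fin n → Fin k → ℝ) :
    HalfRel (D + 1) n (fun v w => MvPolynomial.eval (Sum.elim (f v) (f w)) q ≤ 0) := by
  obtain ⟨φ, ψ, c, h⟩ := h
  have h1 := halfRel_of_le (E := D + 1) (n := n)
    (fun v => Fin.snoc (α := fun _ => ℝ) (φ (f v)) 1)
    (fun w => Fin.snoc (α := fun _ => ℝ) (ψ (f w)) (c (f w)))
    (Fin.snoc (α := fun _ => ℝ) (fun _ => 0) 1) (fun p => by
      simp only [dotProduct, Fin.sum_univ_castSucc, Fin.snoc_castSucc, Fin.snoc_last, zero_mul,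
        Finset.sum_const_zero, zero_add, mul_one])
  refine Eq.mp (congrArg (HalfRel (D + 1) n) ?_) h1
  funext v w
  have h2 : (Fin.snoc (α := fun _ => ℝ) (ψ (f w)) (c (f w))) ⬝ᵥ
      (Fin.snoc (α := fun _ => ℝ) (φ (f v)) 1) = ψ (f w) ⬝ᵥ φ (f v) + c (f w) := by
    simp only [dotProduct, Fin.sum_univ_castSucc, Fin.snoc_castSucc, Fin.snoc_last, mul_one]
  rw [h2, h]

/-- semialgebraic graphs, with an explicit exponent -/
theorem labels_rank {k m : ℕ} (p : Fin m → MvPolynomial (Fin k ⊕ Fin k) ℝ)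
    (Φ : (Fin m → Prop) → Prop) (D : ℕ) (hD : 2 ≤ D) (hp : ∀ i, RankLE (p i) D) :
    ∃ C : ℝ, 0 < C ∧
      HasLabels (SemialgebraicGraph p Φ) (bd C (((D : ℝ) - 1) / (2 * D - 1)) (D + 1)) := by
  obtain ⟨C, hC, h⟩ := relLabels_halfRel D hD
  set γ : ℝ := ((D : ℝ) - 1) / (2 * D - 1) with hγ
  have hγ0 : 0 ≤ γ := exponent_nonneg hD
  have h1 := relLabels_prod (fun _ : Fin m => HalfRel (D + 1)) (fun _ => bd C γ (D + 1))
    (fun _ => h) Φ
  have h2 : RelLabels (fun n R => ∃ T : Fin m → Fin n → Fin n → Prop,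
      (∀ i, HalfRel (D + 1) n (T i)) ∧ ∀ p q, (R p q ↔ Φ fun i => T i p q))
      (bd (m * C) γ (D + 1)) := by
    refine h1.mono (fun _ _ h => h) fun n _ => le_of_eq ?_
    rw [Finset.sum_const, Finset.card_univ, Fintype.card_fin, nsmul_eq_mul]
    unfold bd
    ring
  refine hasLabels_of_bd hγ0 (by omega) h2 (fun _ _ r _ => r) ?_
  rintro n G ⟨f, hG⟩
  exact ⟨fun v w => Φ (fun i => MvPolynomial.eval (Sum.elim (f v) (f w)) (p i) ≤ 0),
    ⟨fun i v w => MvPolynomial.eval (Sum.elim (f v) (f w)) (p i) ≤ 0,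
      fun i => halfRel_rankLE (hp i) f, fun _ _ => Iff.rfl⟩,
    fun _ => true, fun v w hvw => hG v w hvw⟩

/-- semialgebraic graphs -/
theorem labels_semialg {k m : ℕ} (p : Fin m → MvPolynomial (Fin k ⊕ Fin k) ℝ)
    (Φ : (Fin m → Prop) → Prop) : ∃ ε C : ℝ, 0 < ε ∧ 0 < C ∧
      HasLabels (SemialgebraicGraph p Φ) (fun n => C * (n : ℝ) ^ (1 / 2 - ε)) := by
  choose E hE using fun i => exists_rankLE (p i)
  set D : ℕ := ∑ i, E i + 2 with hD
  have hDE : ∀ i, E i ≤ D := fun i => by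
    have := Finset.single_le_sum (f := E) (fun _ _ => Nat.zero_le _) (mem_univ i)
    omega
  obtain ⟨C', hC', h3⟩ := labels_rank p Φ D (by omega) fun i => (hE i).mono (hDE i)
  set γ : ℝ := ((D : ℝ) - 1) / (2 * D - 1) with hγ
  have hγ1 : γ < 1 / 2 := exponent_lt (by omega)
  obtain ⟨C'', hC'', h4⟩ := bd_le_rpow (C := C') (γ := γ) hC'.le (D + 1)
    (δ := (1 / 2 - γ) / 2) (by linarith)
  refine ⟨(1 / 2 - γ) / 2, C'', by linarith, hC'', h3.mono fun n hn => (h4 n hn).trans ?_⟩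
  have e : γ + (1 / 2 - γ) / 2 = 1 / 2 - (1 / 2 - γ) / 2 := by ring
  rw [e]

end Pool.Agent.Helper69.LB
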