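import Pool.Agent.Helper69.LB.Defs

/-! Project LB, piece L2: from the rounds to the labels. -/

open Finset Matrix

namespace Pool.Agent.Helper69.LB

/-- A set of at most `s` elements is in the range of a function on `Fin s`. -/
private lemma l2_cover {n s : ℕ} (hn : 0 < n) (F : Finset (Fin n)) (hF : F.card ≤ s) :
    ∃ e : Fin s → Fin n, ∀ p ∈ F, ∃ k, e k = p := by
  refine ⟨fun k => if h : k.1 < F.card then F.orderEmbOfFin rfl ⟨k.1, h⟩ else ⟨0, hn⟩,
    fun p hp => ?_⟩
  have hp' : p ∈ Set.range (F.orderEmbOfFin rfl) := by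
    rw [Finset.range_orderEmbOfFin]
    exact hp
  obtain ⟨k, hk⟩ := hp'
  exact ⟨⟨k.1, lt_of_lt_of_le k.2 hF⟩, by simp [k.2, hk]⟩

/-- The list of the pairs `(g, f g)`, `g ∈ Y`, as a function on `Fin x`. -/
private lemma l2_list {n x : ℕ} {P : Type} (Y : Finset (Fin n)) (hY : Y.card ≤ x)
    (f : Fin n → P) :
    ∃ l : Fin x → Option (Fin n × P), ∀ g π, (∃ j, l j = some (g, π)) ↔ g ∈ Y ∧ π = f g := by
  refine ⟨fun j => if h : j.1 < Y.card then
    some (Y.orderEmbOfFin rfl ⟨j.1, h⟩, f (Y.orderEmbOfFin rfl ⟨j.1, h⟩)) else none,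
    fun g π => ⟨?_, ?_⟩⟩
  · rintro ⟨j, hj⟩
    by_cases h : j.1 < Y.card
    · simp only [h, dite_true, Option.some.injEq, Prod.mk.injEq] at hj
      obtain ⟨h1, h2⟩ := hj
      rw [h1] at h2
      refine ⟨?_, h2.symm⟩
      rw [← h1]
      exact Finset.orderEmbOfFin_mem _ _ _
    · simp [h] at hj
  · rintro ⟨hg, rfl⟩
    have hp' : g ∈ Set.range (Y.orderEmbOfFin rfl) := by
      rw [Finset.range_orderEmbOfFin]
      exact hg
    obtain ⟨k, hk⟩ := hp'
    exact ⟨⟨k.1, lt_of_lt_of_le k.2 hY⟩, by simp [k.2, hk]⟩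

/-- The halving: every element is chosen in one of the first `Nat.log 2 n + 1` rounds. -/
private lemma l2_rounds {n : ℕ} (Q' : Finset (Fin n) → Finset (Fin n))
    (h1 : ∀ Q, Q' Q ⊆ Q) (h2 : ∀ Q, Q.card ≤ 2 * (Q' Q).card) :
    ∃ Qs : ℕ → Finset (Fin n), ∀ q, ∃ i : Fin (Nat.log 2 n + 1), q ∈ Q' (Qs i.1) := by
  let Qs : ℕ → Finset (Fin n) := fun i => Nat.rec univ (fun _ Q => Q \ Q' Q) i
  have hs : ∀ i, Qs (i + 1) = Qs i \ Q' (Qs i) := fun i => rfl
  have hc : ∀ i, 2 ^ i * (Qs i).card ≤ n := by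
    intro i
    induction i with
    | zero => simp [Qs]
    | succ i ih =>
      have h3 : (Qs (i + 1)).card + (Q' (Qs i)).card = (Qs i).card := by
        rw [hs, Finset.card_sdiff_add_card_eq_card (h1 _)]
      have h4 := h2 (Qs i)
      have h5 : 2 * (Qs (i + 1)).card ≤ (Qs i).card := by omega
      calc 2 ^ (i + 1) * (Qs (i + 1)).card = 2 ^ i * (2 * (Qs (i + 1)).card) := by ring
        _ ≤ 2 ^ i * (Qs i).card := Nat.mul_le_mul_left _ h5
        _ ≤ n := ih
  refine ⟨Qs, fun q => ?_⟩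
  by_contra hq
  push Not at hq
  have hm : ∀ i, i ≤ Nat.log 2 n + 1 → q ∈ Qs i := by
    intro i
    induction i with
    | zero => intro _; simp [Qs]
    | succ i ih =>
      intro hi
      rw [hs, Finset.mem_sdiff]
      exact ⟨ih (by omega), hq ⟨i, by omega⟩⟩
  have h6 := hc (Nat.log 2 n + 1)
  have h7 : n < 2 ^ (Nat.log 2 n + 1) := Nat.lt_pow_succ_log_self (by norm_num) n
  have h8 : 0 < (Qs (Nat.log 2 n + 1)).card := Finset.card_pos.2 ⟨q, hm _ le_rfl⟩
  have h9 : 2 ^ (Nat.log 2 n + 1) * 1 ≤ 2 ^ (Nat.log 2 n + 1) * (Qs (Nat.log 2 n + 1)).card :=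
    Nat.mul_le_mul_left _ h8
  omega

/-- Proof. Put `Q 0 = univ` and, as long as `Q i` is not empty, let `Q' i ⊆ Q i` be as in
`RoundFor` for `Q i` (with `pub`, `grp`, `cod`, `X`) and `Q (i + 1) = Q i \ Q' i`, so
`2 * (Q (i + 1)).card ≤ (Q i).card` and `2 ^ i * (Q i).card ≤ n`; `Q i` is empty for
`i = Nat.log 2 n + 1`. So every `q` is in `Q' i` for some `i < Nat.log 2 n + 1`: its round (for the
later rounds with an empty `Q i` repeat the data of the round `0`). For every round and every group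
`g` let `e : Fin s → Fin n` be a function whose range contains the group (at most `s` elements;
if `p` is in the group then `s ≥ 1`), `c g` its code and `π g q` the pointer by `hT`. The label of
`p` contains for every round `(pub p, grp p, c (grp p), k)` with `e k = p`; the label of `q`
contains its round, `cod q` and a list of the pairs `(g, π g q)`, `g ∈ X q` (at most `x` of them,
filled up with `none`). -/
theorem exists_lab {n s x : ℕ} {R : Fin n → Fin n → Prop} {Pub Cod S P : Type}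
    (dec : Cod → Pub → Prop) (dcd : S → P → Fin s → Prop)
    (hR : ∀ Q : Finset (Fin n), Q.Nonempty → RoundFor R dec s x Q)
    (hT : ∀ e : Fin s → Fin n, ∃ c : S, ∀ q, ∃ π : P, ∀ k, R (e k) q ↔ dcd c π k) :
    ∃ lab : Fin n → Lab n s x Pub Cod S P, ∀ p q, R p q ↔ labDec dec dcd (lab p) (lab q) := by
  classical
  rcases Nat.eq_zero_or_pos n with hn | hn
  · subst hn
    exact ⟨fun p => p.elim0, fun p => p.elim0⟩
  -- the rounds also exist for the empty set
  have hR' : ∀ Q : Finset (Fin n), RoundFor R dec s x Q := by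
    intro Q
    rcases Q.eq_empty_or_nonempty with hQ | hQ
    · subst hQ
      obtain ⟨Q', -, -, pub, grp, cod, X, h1, -, -⟩ := hR univ ⟨⟨0, hn⟩, Finset.mem_univ _⟩
      exact ⟨∅, Finset.Subset.refl _, by simp, pub, grp, cod, X, h1, by simp, by simp⟩
    · exact hR Q hQ
  choose Q' hsub hhalf pub grp cod X hgrp hX hdec using hR'
  obtain ⟨Qs, hQs⟩ := l2_rounds Q' hsub hhalf
  choose r hr using hQs
  -- the tuples of the groups
  have hcov : ∀ (Q : Finset (Fin n)) (g : Fin n), ∃ e : Fin s → Fin n,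
      ∀ p ∈ univ.filter (fun p => grp Q p = g), ∃ k, e k = p :=
    fun Q g => l2_cover hn _ (hgrp Q g)
  choose e he using hcov
  have he' : ∀ (Q : Finset (Fin n)) (p : Fin n), ∃ k, e Q (grp Q p) k = p :=
    fun Q p => he Q (grp Q p) p (by simp)
  choose k hk using he'
  choose c hc using hT
  choose π hπ using hc
  -- the lists
  have hlist : ∀ q : Fin n, ∃ l : Fin x → Option (Fin n × P), ∀ g π',
      (∃ j, l j = some (g, π')) ↔ g ∈ X (Qs (r q).1) q ∧ π' = π (e (Qs (r q).1) g) q :=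
    fun q => l2_list _ (hX _ q (hr q)) (fun g => π (e (Qs (r q).1) g) q)
  choose l hl using hlist
  refine ⟨fun p => (fun i => (pub (Qs i.1) p, grp (Qs i.1) p,
    c (e (Qs i.1) (grp (Qs i.1) p)), k (Qs i.1) p), (r p, cod (Qs (r p).1) p, l p)), ?_⟩
  intro p q
  unfold labDec
  simp only
  have hmain : R p q ↔ dcd (c (e (Qs (r q).1) (grp (Qs (r q).1) p)))
      (π (e (Qs (r q).1) (grp (Qs (r q).1) p)) q) (k (Qs (r q).1) p) := by
    have h := hπ (e (Qs (r q).1) (grp (Qs (r q).1) p)) q (k (Qs (r q).1) p)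
    rw [hk] at h
    exact h
  by_cases hx : grp (Qs (r q).1) p ∈ X (Qs (r q).1) q
  · constructor
    · intro h
      left
      obtain ⟨j, hj⟩ := (hl q (grp (Qs (r q).1) p) _).2 ⟨hx, rfl⟩
      exact ⟨j, _, hj, hmain.1 h⟩
    · rintro (⟨j, π', hj, h⟩ | ⟨h, -⟩)
      · have h2 := ((hl q (grp (Qs (r q).1) p) π').1 ⟨j, hj⟩).2
        rw [h2] at h
        exact hmain.2 h
      · obtain ⟨j, hj⟩ := (hl q (grp (Qs (r q).1) p) _).2 ⟨hx, rfl⟩
        exact absurd hj (h j _)
  · have hd := hdec (Qs (r q).1) q (hr q) p hx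
    constructor
    · intro h
      right
      refine ⟨fun j π' hj => hx ((hl q (grp (Qs (r q).1) p) π').1 ⟨j, hj⟩).1, hd.1 h⟩
    · rintro (⟨j, π', hj, -⟩ | ⟨-, h⟩)
      · exact absurd ((hl q (grp (Qs (r q).1) p) π').1 ⟨j, hj⟩).1 hx
      · exact hd.2 h

end Pool.Agent.Helper69.LB
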