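import Pool.Agent.Helper69.LB.S1

/-! Project LB, piece L3: the number of the labels. -/

open Finset Matrix

namespace Pool.Agent.Helper69.LB

/-- the types of the labels for given parameters -/
abbrev LabT (D n s s₂ g₂ x : ℕ) : Type :=
  Lab n s x (Fin g₂ × Chiro (D + 1) s₂ × Fin s₂) (Fin g₂ → Ptr D s₂) (Chiro (D + 1) s) (Ptr D s)

theorem l3_card_ptr (D s : ℕ) : Nat.card (Ptr D s) = s ^ D * (2 * 2 ^ D) := by
  unfold Ptr
  rw [Nat.card_prod, Nat.card_prod, Nat.card_fun]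
  have h : Nat.card (Set (Fin D)) = 2 ^ D := by
    rw [Nat.card_eq_fintype_card, Fintype.card_set, Fintype.card_fin]
  rw [h]
  simp

/-- Proof. `Nat.card` of products and functions, S1 for the two types of chirotopes, and
`Nat.card (Ptr D s) = s ^ D * (2 * 2 ^ D)`. -/
theorem card_labT_le (D n s s₂ g₂ x : ℕ) :
    Nat.card (LabT D n s s₂ g₂ x) ≤
      ((g₂ * (((D + 1) * s₂ * ((D + 1) * s₂ ^ (D + 1) + 2) + 1) ^ ((D + 1) * s₂) * s₂)) *
        (n * (((D + 1) * s * ((D + 1) * s ^ (D + 1) + 2) + 1) ^ ((D + 1) * s) * s))) ^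
          (Nat.log 2 n + 1) *
      ((Nat.log 2 n + 1) * ((s₂ ^ D * (2 * 2 ^ D)) ^ g₂ * (n * (s ^ D * (2 * 2 ^ D)) + 1) ^ x)) := by
  have hS : Nat.card (Set (Fin D)) = 2 ^ D := by
    rw [Nat.card_eq_fintype_card, Fintype.card_set, Fintype.card_fin]
  have hB : Nat.card Bool = 2 := by simp
  have hO : Nat.card (Option (Fin n × Ptr D s)) = n * (s ^ D * (2 * 2 ^ D)) + 1 := by
    rw [Finite.card_option, Nat.card_prod, l3_card_ptr]
    simp
  have e : Nat.card (LabT D n s s₂ g₂ x) =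
      ((g₂ * (Nat.card (Chiro (D + 1) s₂) * s₂)) *
        (n * (Nat.card (Chiro (D + 1) s) * s))) ^ (Nat.log 2 n + 1) *
      ((Nat.log 2 n + 1) * ((s₂ ^ D * (2 * 2 ^ D)) ^ g₂ * (n * (s ^ D * (2 * 2 ^ D)) + 1) ^ x)) := by
    unfold LabT Lab
    simp only [Nat.card_prod, Nat.card_fun, hO, hS, hB, Nat.card_fin]
  rw [e]
  gcongr
  · exact card_chiro_le _ _
  · exact card_chiro_le _ _

/-- finiteness -/
theorem finite_labT (D n s s₂ g₂ x : ℕ) : Finite (LabT D n s s₂ g₂ x) := by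
  have h1 : Finite (Chiro (D + 1) s₂) := by unfold Chiro; infer_instance
  have h2 : Finite (Chiro (D + 1) s) := by unfold Chiro; infer_instance
  have h3 : Finite (Ptr D s₂) := by unfold Ptr; infer_instance
  have h4 : Finite (Ptr D s) := by unfold Ptr; infer_instance
  unfold LabT Lab
  infer_instance

end Pool.Agent.Helper69.LB
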