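import Pool.Agent.Helper69.LB.LA4

/-! Project LB2, piece LA4b: the numerical estimate for the number of the labels (compare L4b). -/

open Finset Real

namespace Pool.Agent.Helper69.LB

private def la4b_BO (f g : ℕ → ℝ) : Prop := ∃ C : ℝ, 0 < C ∧ ∀ n : ℕ, 1 ≤ n → f n ≤ C * g n

private theorem la4b_trans {f g h : ℕ → ℝ} (h1 : la4b_BO f g) (h2 : la4b_BO g h) : la4b_BO f h := by
  obtain ⟨C, hC, h1⟩ := h1
  obtain ⟨C', hC', h2⟩ := h2
  refine ⟨C * C', by positivity, fun n hn => ?_⟩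
  calc f n ≤ C * g n := h1 n hn
    _ ≤ C * (C' * h n) := mul_le_mul_of_nonneg_left (h2 n hn) hC.le
    _ = C * C' * h n := by ring

private theorem la4b_of_le {f g : ℕ → ℝ} (h : ∀ n : ℕ, 1 ≤ n → f n ≤ g n) : la4b_BO f g :=
  ⟨1, one_pos, fun n hn => by rw [one_mul]; exact h n hn⟩

private theorem la4b_add {f g h : ℕ → ℝ} (h1 : la4b_BO f h) (h2 : la4b_BO g h) :
    la4b_BO (fun n => f n + g n) h := by
  obtain ⟨C, hC, h1⟩ := h1
  obtain ⟨C', hC', h2⟩ := h2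
  refine ⟨C + C', by positivity, fun n hn => ?_⟩
  have := h1 n hn
  have := h2 n hn
  calc f n + g n ≤ C * h n + C' * h n := by linarith
    _ = (C + C') * h n := by ring

private theorem la4b_mul {f g f' g' : ℕ → ℝ} (h1 : la4b_BO f g) (h2 : la4b_BO f' g')
    (hf : ∀ n : ℕ, 1 ≤ n → 0 ≤ f' n) (hg : ∀ n : ℕ, 1 ≤ n → 0 ≤ g n) :
    la4b_BO (fun n => f n * f' n) (fun n => g n * g' n) := by
  obtain ⟨C, hC, h1⟩ := h1
  obtain ⟨C', hC', h2⟩ := h2
  refine ⟨C * C', by positivity, fun n hn => ?_⟩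
  calc f n * f' n ≤ (C * g n) * f' n := mul_le_mul_of_nonneg_right (h1 n hn) (hf n hn)
    _ ≤ (C * g n) * (C' * g' n) :=
        mul_le_mul_of_nonneg_left (h2 n hn) (mul_nonneg hC.le (hg n hn))
    _ = C * C' * (g n * g' n) := by ring

private theorem la4b_cmul {f g : ℕ → ℝ} {c : ℝ} (hc : 0 ≤ c) (h1 : la4b_BO f g)
    (hg : ∀ n : ℕ, 1 ≤ n → 0 ≤ g n) : la4b_BO (fun n => c * f n) g := by
  obtain ⟨C, hC, h1⟩ := h1
  refine ⟨(c + 1) * C, by positivity, fun n hn => ?_⟩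
  have h2 := h1 n hn
  have h3 := hg n hn
  calc c * f n ≤ c * (C * g n) := mul_le_mul_of_nonneg_left h2 hc
    _ ≤ (c + 1) * C * g n := by nlinarith [mul_nonneg hC.le h3]

private theorem la4b_pow {f g : ℕ → ℝ} (h1 : la4b_BO f g) (hf : ∀ n : ℕ, 1 ≤ n → 0 ≤ f n) (k : ℕ) :
    la4b_BO (fun n => f n ^ k) (fun n => g n ^ k) := by
  obtain ⟨C, hC, h1⟩ := h1
  refine ⟨C ^ k, by positivity, fun n hn => ?_⟩
  rw [← mul_pow]
  exact pow_le_pow_left₀ (hf n hn) (h1 n hn) k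

private theorem la4b_const {g : ℕ → ℝ} {c : ℝ} (hc : 0 < c) (hg : ∀ n : ℕ, 1 ≤ n → c ≤ g n)
    (a : ℝ) : la4b_BO (fun _ => a) g := by
  refine ⟨|a| / c + 1, by positivity, fun n hn => ?_⟩
  have h := hg n hn
  have h0 : (0 : ℝ) ≤ |a| / c := by positivity
  calc a ≤ |a| := le_abs_self a
    _ = |a| / c * c := by field_simp
    _ ≤ |a| / c * g n := mul_le_mul_of_nonneg_left h h0
    _ ≤ (|a| / c + 1) * g n := by nlinarith

private noncomputable def la4b_l (n : ℕ) : ℝ := Real.log (n + 1)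

private theorem la4b_l_ge (n : ℕ) (hn : 1 ≤ n) : (1 / 2 : ℝ) ≤ la4b_l n := by
  unfold la4b_l
  have h1 : (2 : ℝ) ≤ (n : ℝ) + 1 := by
    have : (1 : ℝ) ≤ (n : ℝ) := by exact_mod_cast hn
    linarith
  have h2 := Real.log_le_log (by norm_num) h1
  have h3 := Real.log_two_gt_d9
  linarith

private theorem la4b_l_nonneg (n : ℕ) (hn : 1 ≤ n) : 0 ≤ la4b_l n :=
  le_trans (by norm_num) (la4b_l_ge n hn)

/-- polynomially bounded functions have logarithms `O(ℓ)` -/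
private theorem la4b_log {f : ℕ → ℝ} {k : ℕ} (h : la4b_BO f (fun n => ((n : ℝ) + 1) ^ k))
    (hf : ∀ n : ℕ, 1 ≤ n → 0 < f n) : la4b_BO (fun n => Real.log (f n)) la4b_l := by
  obtain ⟨C, hC, h⟩ := h
  refine ⟨2 * |Real.log C| + k + 1, by positivity, fun n hn => ?_⟩
  have h1 := h n hn
  have h2 := Real.log_le_log (hf n hn) h1
  have hn0 : (0 : ℝ) < (n : ℝ) + 1 := by positivity
  rw [Real.log_mul hC.ne' (by positivity), Real.log_pow] at h2
  have h3 := la4b_l_ge n hn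
  have h4 : Real.log C ≤ |Real.log C| := le_abs_self _
  have h5 : (0 : ℝ) ≤ |Real.log C| := abs_nonneg _
  have h6 : la4b_l n = Real.log ((n : ℝ) + 1) := rfl
  rw [← h6] at h2
  nlinarith [mul_nonneg h5 (by linarith : (0 : ℝ) ≤ la4b_l n - 1 / 2)]

private noncomputable def la4b_u (D n : ℕ) : ℝ := (n : ℝ) ^ (1 / (2 * (D : ℝ) - 1))

section

variable {D : ℕ} (hD : 2 ≤ D)

include hD

private theorem la4b_D : (2 : ℝ) ≤ (D : ℝ) := by exact_mod_cast hD

private theorem la4b_u_ge (n : ℕ) (hn : 1 ≤ n) : 1 ≤ la4b_u D n := by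
  have h2 := la4b_D hD
  have hn' : (1 : ℝ) ≤ (n : ℝ) := by exact_mod_cast hn
  exact Real.one_le_rpow hn' (by apply div_nonneg <;> linarith)

private theorem la4b_u_nonneg (n : ℕ) (hn : 1 ≤ n) : 0 ≤ la4b_u D n :=
  le_trans (by norm_num) (la4b_u_ge hD n hn)

private theorem la4b_u_pow (n : ℕ) (hn : 1 ≤ n) : la4b_u D n ^ (2 * D - 1) = (n : ℝ) := by
  have h2 := la4b_D hD
  have hn0 : (0 : ℝ) ≤ (n : ℝ) := Nat.cast_nonneg _
  unfold la4b_u
  rw [← Real.rpow_natCast, ← Real.rpow_mul hn0]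
  have h3 : ((2 * D - 1 : ℕ) : ℝ) = 2 * (D : ℝ) - 1 := by
    rw [Nat.cast_sub (by omega)]
    push_cast
    ring
  rw [h3, one_div, inv_mul_cancel₀ (by linarith), Real.rpow_one]

private theorem la4b_target (n : ℕ) :
    (n : ℝ) ^ (((D : ℝ) - 1) / (2 * D - 1)) = la4b_u D n ^ (D - 1) := by
  have h2 := la4b_D hD
  have hn0 : (0 : ℝ) ≤ (n : ℝ) := Nat.cast_nonneg _
  unfold la4b_u
  rw [← Real.rpow_natCast, ← Real.rpow_mul hn0]
  congr 1
  rw [Nat.cast_sub (by omega)]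
  push_cast
  field_simp

private theorem la4b_u_le (n : ℕ) (hn : 1 ≤ n) : la4b_u D n ≤ (n : ℝ) + 1 := by
  have h1 := la4b_u_ge hD n hn
  have h2 := la4b_u_pow hD n hn
  have h3 : la4b_u D n ^ 1 ≤ la4b_u D n ^ (2 * D - 1) := pow_le_pow_right₀ h1 (by omega)
  rw [pow_one, h2] at h3
  linarith

private theorem la4b_l_le (n : ℕ) : la4b_l n ≤ (n : ℝ) + 1 := by
  unfold la4b_l
  have hn0 : (0 : ℝ) < (n : ℝ) + 1 := by positivity
  have := Real.log_le_sub_one_of_pos hn0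
  linarith

/-- (a) -/
private theorem la4b_r : la4b_BO (fun n => (rrA D n : ℝ)) (la4b_u D) := by
  refine ⟨2, by norm_num, fun n hn => ?_⟩
  have h1 := la4b_u_ge hD n hn
  have h2 : (rrA D n : ℝ) < la4b_u D n + 1 := Nat.ceil_lt_add_one (la4b_u_nonneg hD n hn)
  linarith

private theorem la4b_r_ge (n : ℕ) : la4b_u D n ≤ (rrA D n : ℝ) := Nat.le_ceil _

private theorem la4b_natlog (m : ℕ) (hm : 1 ≤ m) :
    ((Nat.log 2 m + 1 : ℕ) : ℝ) ≤ 2 * Real.log m + 1 := by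
  have h1 : 2 ^ Nat.log 2 m ≤ m := Nat.pow_log_le_self 2 (by omega)
  have h2 : (2 : ℝ) ^ Nat.log 2 m ≤ (m : ℝ) := by exact_mod_cast h1
  have h3 := Real.log_le_log (by positivity) h2
  rw [Real.log_pow] at h3
  have h4 := Real.log_two_gt_d9
  have h5 : (0 : ℝ) ≤ (Nat.log 2 m : ℝ) := Nat.cast_nonneg _
  push_cast
  nlinarith

/-- (b) -/
private theorem la4b_L : la4b_BO (fun n => ((Nat.log 2 n + 1 : ℕ) : ℝ)) la4b_l := by
  refine ⟨4, by norm_num, fun n hn => ?_⟩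
  have h1 := la4b_natlog hD n hn
  have h2 := la4b_l_ge n hn
  have hn0 : (0 : ℝ) < (n : ℝ) := by exact_mod_cast hn
  have h3 : Real.log (n : ℝ) ≤ la4b_l n := Real.log_le_log hn0 (by linarith)
  show ((Nat.log 2 n + 1 : ℕ) : ℝ) ≤ 4 * la4b_l n
  linarith

/-- (c) -/
private theorem la4b_L' : la4b_BO (fun n => ((Nat.log 2 (n + D + 2) + 1 : ℕ) : ℝ)) la4b_l := by
  have h := la4b_log (f := fun n => ((n + D + 2 : ℕ) : ℝ)) (k := 1) ⟨(D : ℝ) + 2, by positivity,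
    fun n hn => by
      push_cast
      have : (0 : ℝ) ≤ (n : ℝ) * D := by positivity
      nlinarith⟩ (fun n hn => by positivity)
  obtain ⟨C, hC, h⟩ := h
  refine ⟨2 * C + 2, by positivity, fun n hn => ?_⟩
  have h1 := la4b_natlog hD (n + D + 2) (by omega)
  have h2 := la4b_l_ge n hn
  have h3 := h n hn
  dsimp only at h3 ⊢
  linarith

private theorem la4b_ul_ge (n : ℕ) (hn : 1 ≤ n) : 1 / 2 ≤ la4b_u D n * la4b_l n := by
  have h1 := la4b_u_ge hD n hn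
  have h2 := la4b_l_ge n hn
  nlinarith

private theorem la4b_ul_nonneg (n : ℕ) (hn : 1 ≤ n) : 0 ≤ la4b_u D n * la4b_l n :=
  le_trans (by norm_num) (la4b_ul_ge hD n hn)

/-- (d) -/
private theorem la4b_N : la4b_BO (fun n => (nnA D n : ℝ)) (fun n => la4b_u D n * la4b_l n) := by
  have h1 := la4b_mul (la4b_r hD) (la4b_cmul (c := ((D : ℝ) + 2) ^ 2) (by positivity) (la4b_L' hD)
    la4b_l_nonneg) (fun n hn => by positivity) (fun n hn => la4b_u_nonneg hD n hn)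
  refine la4b_trans (la4b_of_le fun n hn => ?_) h1
  simp only [nnA]
  push_cast
  exact le_rfl

/-- the logarithm of the size of the sample -/
private theorem la4b_LN : la4b_BO
    (fun n => ((Nat.log 2 (nnA D n + (D + 1) + 1) + 1 : ℕ) : ℝ)) la4b_l := by
  have h0 : la4b_BO (fun n => ((nnA D n + (D + 1) + 1 : ℕ) : ℝ))
      (fun n => ((n : ℝ) + 1) ^ 2) := by
    have h1 : la4b_BO (fun n => (nnA D n : ℝ)) (fun n => ((n : ℝ) + 1) ^ 2) := by
      refine la4b_trans (la4b_N hD) (la4b_of_le fun n hn => ?_)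
      rw [sq]
      exact mul_le_mul (la4b_u_le hD n hn) (la4b_l_le hD n) (la4b_l_nonneg n hn) (by positivity)
    have h2 : la4b_BO (fun _ => ((D : ℝ) + 2)) (fun n => ((n : ℝ) + 1) ^ 2) :=
      la4b_const (c := 1) one_pos (fun n hn => one_le_pow₀ (by
        have : (0 : ℝ) ≤ (n : ℝ) := Nat.cast_nonneg _
        linarith)) _
    refine la4b_trans (la4b_of_le fun n hn => ?_) (la4b_add h1 h2)
    push_cast
    linarith
  obtain ⟨C, hC, h⟩ := la4b_log h0 (fun n hn => by positivity)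
  refine ⟨2 * C + 2, by positivity, fun n hn => ?_⟩
  have h1 := la4b_natlog hD (nnA D n + (D + 1) + 1) (by omega)
  have h2 := la4b_l_ge n hn
  have h3 := h n hn
  dsimp only at h3 ⊢
  linarith

/-- (e) -/
private theorem la4b_t : la4b_BO (fun n => (cellNumA (D + 1) (nnA D n) : ℝ))
    (fun n => (la4b_u D n * la4b_l n) ^ D * la4b_l n ^ D) := by
  have h1 : la4b_BO (fun n => (nnA D n : ℝ) + ((D : ℝ) + 2)) (fun n => la4b_u D n * la4b_l n) :=
    la4b_add (la4b_N hD) (la4b_const (c := 1 / 2) (by norm_num) (la4b_ul_ge hD) _)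
  have h2 := la4b_pow h1 (fun n hn => by positivity) D
  have h3 := la4b_pow (la4b_LN hD) (fun n hn => by positivity) D
  have h4 := la4b_mul h2 h3 (fun n hn => by positivity)
    (fun n hn => pow_nonneg (la4b_ul_nonneg hD n hn) _)
  have h5 := la4b_cmul (c := 8 * ((D : ℝ) + 1) * ((D : ℝ) + 2) ^ (D + 1)) (by positivity) h4
    (fun n hn => mul_nonneg (pow_nonneg (la4b_ul_nonneg hD n hn) _)
      (pow_nonneg (la4b_l_nonneg n hn) _))
  refine la4b_trans (la4b_of_le fun n hn => le_of_eq ?_) h5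
  simp only [cellNumA, Nat.add_sub_cancel]
  push_cast
  ring

private theorem la4b_ul_pow {a b : ℕ} (hab : a ≤ b) :
    la4b_BO (fun n => (la4b_u D n * la4b_l n) ^ a) (fun n => (la4b_u D n * la4b_l n) ^ b) := by
  refine ⟨2 ^ (b - a), by positivity, fun n hn => ?_⟩
  have h1 := la4b_ul_ge hD n hn
  have h0 := la4b_ul_nonneg hD n hn
  have h2 : (1 : ℝ) ≤ (2 * (la4b_u D n * la4b_l n)) ^ (b - a) := one_le_pow₀ (by linarith)
  have h3 : (la4b_u D n * la4b_l n) ^ b =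
      (la4b_u D n * la4b_l n) ^ a * (la4b_u D n * la4b_l n) ^ (b - a) := by
    rw [← pow_add]; congr 1; omega
  dsimp only
  rw [h3]
  rw [mul_pow] at h2
  calc (la4b_u D n * la4b_l n) ^ a = (la4b_u D n * la4b_l n) ^ a * 1 := by ring
    _ ≤ (la4b_u D n * la4b_l n) ^ a * (2 ^ (b - a) * (la4b_u D n * la4b_l n) ^ (b - a)) :=
        mul_le_mul_of_nonneg_left h2 (by positivity)
    _ = _ := by ring

private theorem la4b_l_pow {a b : ℕ} (hab : a ≤ b) :
    la4b_BO (fun n => la4b_l n ^ a) (fun n => la4b_l n ^ b) := by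
  refine ⟨2 ^ (b - a), by positivity, fun n hn => ?_⟩
  have h1 := la4b_l_ge n hn
  have h0 := la4b_l_nonneg n hn
  have h2 : (1 : ℝ) ≤ (2 * la4b_l n) ^ (b - a) := one_le_pow₀ (by linarith)
  have h3 : la4b_l n ^ b = la4b_l n ^ a * la4b_l n ^ (b - a) := by
    rw [← pow_add]; congr 1; omega
  dsimp only
  rw [h3]
  rw [mul_pow] at h2
  calc la4b_l n ^ a = la4b_l n ^ a * 1 := by ring
    _ ≤ la4b_l n ^ a * (2 ^ (b - a) * la4b_l n ^ (b - a)) :=
        mul_le_mul_of_nonneg_left h2 (by positivity)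
    _ = _ := by ring

/-- (i) -/
private theorem la4b_s2 : la4b_BO (fun n => (ss₂A D n : ℝ))
    (fun n => la4b_u D n ^ (D - 1) * la4b_l n ^ D) := by
  obtain ⟨C, hC, h⟩ := la4b_t hD
  have h1 : la4b_BO (fun n => ((Nat.sqrt (cellNumA (D + 1) (nnA D n)) : ℕ) : ℝ))
      (fun n => la4b_u D n ^ (D - 1) * la4b_l n ^ D) := by
    refine ⟨Real.sqrt C, by positivity, fun n hn => ?_⟩
    have hu := la4b_u_ge hD n hn
    have hu0 : 0 ≤ la4b_u D n := by linarith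
    have hl0 := la4b_l_nonneg n hn
    have h2 : ((Nat.sqrt (cellNumA (D + 1) (nnA D n)) : ℕ) : ℝ) ^ 2 ≤
        (Real.sqrt C * (la4b_u D n ^ (D - 1) * la4b_l n ^ D)) ^ 2 := by
      have h5 : (la4b_u D n * la4b_l n) ^ D * la4b_l n ^ D ≤
          (la4b_u D n ^ (D - 1) * la4b_l n ^ D) ^ 2 := by
        have h6 : la4b_u D n ^ D ≤ la4b_u D n ^ (2 * (D - 1)) :=
          pow_le_pow_right₀ hu (by omega)
        calc (la4b_u D n * la4b_l n) ^ D * la4b_l n ^ D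
            = la4b_u D n ^ D * (la4b_l n ^ D) ^ 2 := by rw [mul_pow]; ring
          _ ≤ la4b_u D n ^ (2 * (D - 1)) * (la4b_l n ^ D) ^ 2 :=
              mul_le_mul_of_nonneg_right h6 (by positivity)
          _ = (la4b_u D n ^ (D - 1) * la4b_l n ^ D) ^ 2 := by
              rw [pow_mul' (la4b_u D n) 2 (D - 1)]
              ring
      rw [mul_pow, Real.sq_sqrt hC.le]
      refine le_trans ?_ ((h n hn).trans (mul_le_mul_of_nonneg_left h5 hC.le))
      have h3 : Nat.sqrt (cellNumA (D + 1) (nnA D n)) * Nat.sqrt (cellNumA (D + 1) (nnA D n)) ≤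
        cellNumA (D + 1) (nnA D n) := Nat.sqrt_le _
      have h4 : ((Nat.sqrt (cellNumA (D + 1) (nnA D n)) *
          Nat.sqrt (cellNumA (D + 1) (nnA D n)) : ℕ) : ℝ) ≤
        (cellNumA (D + 1) (nnA D n) : ℝ) := by exact_mod_cast h3
      rw [sq, ← Nat.cast_mul]
      exact h4
    exact (pow_le_pow_iff_left₀ (by positivity) (by positivity) two_ne_zero).1 h2
  have h3 : la4b_BO (fun _ => ((D : ℝ) + 2)) (fun n => la4b_u D n ^ (D - 1) * la4b_l n ^ D) := by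
    have hc : la4b_BO (fun _ => ((D : ℝ) + 2)) (fun n => la4b_l n ^ D) := by
      refine la4b_trans ?_ (la4b_l_pow hD (a := 0) (b := D) (by omega))
      exact la4b_const (c := 1) one_pos (fun n hn => by simp) _
    refine la4b_trans hc (la4b_of_le fun n hn => ?_)
    have h1 : (1 : ℝ) ≤ la4b_u D n ^ (D - 1) := one_le_pow₀ (la4b_u_ge hD n hn)
    have h2 : 0 ≤ la4b_l n ^ D := pow_nonneg (la4b_l_nonneg n hn) _
    nlinarith
  refine la4b_trans (la4b_of_le fun n hn => ?_) (la4b_add h1 h3)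
  simp only [ss₂A]
  push_cast
  linarith

/-- (f) -/
private theorem la4b_s : la4b_BO (fun n => (ssA D n : ℝ)) (fun n => la4b_u D n ^ (D - 1)) := by
  have h1 := la4b_pow (la4b_r hD) (fun n hn => by positivity) (D - 1)
  have h3 : la4b_BO (fun _ => ((D : ℝ) + 2)) (fun n => la4b_u D n ^ (D - 1)) :=
    la4b_const (c := 1) one_pos (fun n hn => one_le_pow₀ (la4b_u_ge hD n hn)) _
  refine la4b_trans (la4b_of_le fun n hn => ?_) (la4b_add h1 h3)
  simp only [ssA]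
  push_cast
  rw [add_assoc]

/-- (g) -/
private theorem la4b_ns (n : ℕ) (hn : 1 ≤ n) : ((n / ssA D n : ℕ) : ℝ) ≤ la4b_u D n ^ D := by
  have hu := la4b_u_ge hD n hn
  have hu0 : 0 < la4b_u D n := by linarith
  have h1 : la4b_u D n ^ (D - 1) ≤ (ssA D n : ℝ) := by
    have h2 : la4b_u D n ^ (D - 1) ≤ (rrA D n : ℝ) ^ (D - 1) :=
      pow_le_pow_left₀ hu0.le (la4b_r_ge hD n) _
    simp only [ssA]
    push_cast
    have : (0 : ℝ) ≤ (D : ℝ) := Nat.cast_nonneg _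
    linarith
  have h2 : ((n / ssA D n : ℕ) : ℝ) ≤ (n : ℝ) / (ssA D n : ℝ) := Nat.cast_div_le
  have hp : 0 < la4b_u D n ^ (D - 1) := by positivity
  refine h2.trans ?_
  rw [div_le_iff₀ (lt_of_lt_of_le hp h1)]
  calc (n : ℝ) = la4b_u D n ^ D * la4b_u D n ^ (D - 1) := by
        rw [← la4b_u_pow hD n hn, ← pow_add]
        congr 1
        omega
    _ ≤ la4b_u D n ^ D * (ssA D n : ℝ) := mul_le_mul_of_nonneg_left h1 (by positivity)

/-- (h) -/
private theorem la4b_x : la4b_BO (fun n => (xxA D n : ℝ))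
    (fun n => la4b_u D n ^ (D - 1) * la4b_l n ^ (2 * D)) := by
  obtain ⟨C, hC, ht⟩ := la4b_t hD
  refine ⟨2 * C + 2 * 2 ^ (2 * D) + 2 ^ (2 * D), by positivity, fun n hn => ?_⟩
  have hu := la4b_u_ge hD n hn
  have hu0 : 0 < la4b_u D n := by linarith
  have hl := la4b_l_ge n hn
  have hl0 : 0 < la4b_l n := by linarith
  have hr := la4b_r_ge hD n
  have hr0 : 0 < (rrA D n : ℝ) := by linarith
  have ht' := ht n hn
  dsimp only at ht'
  have hns := la4b_ns hD n hn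
  have hl2 : (1 : ℝ) ≤ 2 ^ (2 * D) * la4b_l n ^ (2 * D) := by
    rw [← mul_pow]; exact one_le_pow₀ (by linarith)
  have hupow : la4b_u D n ^ D = la4b_u D n ^ (D - 1) * la4b_u D n := by
    rw [← pow_succ]; congr 1; omega
  have hlpow : la4b_l n ^ (2 * D) = la4b_l n ^ D * la4b_l n ^ D := by
    rw [← pow_add]; congr 1; omega
  have hp : 1 ≤ la4b_u D n ^ (D - 1) := one_le_pow₀ hu
  have h1 : ((2 * (cellNumA (D + 1) (nnA D n) + n / ssA D n) / rrA D n : ℕ) : ℝ) ≤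
      ((2 * (cellNumA (D + 1) (nnA D n) + n / ssA D n) : ℕ) : ℝ) / (rrA D n : ℝ) :=
    Nat.cast_div_le
  have h2 : ((2 * (cellNumA (D + 1) (nnA D n) + n / ssA D n) : ℕ) : ℝ) ≤
      (2 * (C * (la4b_u D n ^ (D - 1) * la4b_l n ^ (2 * D)) + la4b_u D n ^ (D - 1))) *
        la4b_u D n := by
    push_cast
    calc 2 * ((cellNumA (D + 1) (nnA D n) : ℝ) + ((n / ssA D n : ℕ) : ℝ))
        ≤ 2 * (C * ((la4b_u D n * la4b_l n) ^ D * la4b_l n ^ D) + la4b_u D n ^ D) := by linarith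
      _ = _ := by rw [mul_pow, hupow, hlpow]; ring
  have h3 : ((2 * (cellNumA (D + 1) (nnA D n) + n / ssA D n) : ℕ) : ℝ) / (rrA D n : ℝ) ≤
      2 * (C * (la4b_u D n ^ (D - 1) * la4b_l n ^ (2 * D)) + la4b_u D n ^ (D - 1)) := by
    rw [div_le_iff₀ hr0]
    refine h2.trans (mul_le_mul_of_nonneg_left hr (by positivity))
  have h4 : la4b_u D n ^ (D - 1) ≤
      2 ^ (2 * D) * (la4b_u D n ^ (D - 1) * la4b_l n ^ (2 * D)) := by
    calc la4b_u D n ^ (D - 1) = la4b_u D n ^ (D - 1) * 1 := by ring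
      _ ≤ la4b_u D n ^ (D - 1) * (2 ^ (2 * D) * la4b_l n ^ (2 * D)) :=
          mul_le_mul_of_nonneg_left hl2 (by positivity)
      _ = _ := by ring
  have h5 : (xxA D n : ℝ) =
      ((2 * (cellNumA (D + 1) (nnA D n) + n / ssA D n) / rrA D n : ℕ) : ℝ) + 1 := by
    simp only [xxA]
    push_cast
    ring
  dsimp only
  rw [h5]
  calc ((2 * (cellNumA (D + 1) (nnA D n) + n / ssA D n) / rrA D n : ℕ) : ℝ) + 1
      ≤ 2 * (C * (la4b_u D n ^ (D - 1) * la4b_l n ^ (2 * D)) + la4b_u D n ^ (D - 1)) +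
        la4b_u D n ^ (D - 1) := by linarith
    _ ≤ (2 * C + 2 * 2 ^ (2 * D) + 2 ^ (2 * D)) *
        (la4b_u D n ^ (D - 1) * la4b_l n ^ (2 * D)) := by nlinarith

/-! logarithms -/

private theorem la4b_up (k : ℕ) : la4b_BO (fun n => la4b_u D n ^ k) (fun n => ((n : ℝ) + 1) ^ k) :=
  la4b_of_le fun n hn => pow_le_pow_left₀ (la4b_u_nonneg hD n hn) (la4b_u_le hD n hn) k

private theorem la4b_s_poly : la4b_BO (fun n => (ssA D n : ℝ)) (fun n => ((n : ℝ) + 1) ^ (D - 1)) :=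
  la4b_trans (la4b_s hD) (la4b_up hD _)

private theorem la4b_s2_poly :
    la4b_BO (fun n => (ss₂A D n : ℝ)) (fun n => ((n : ℝ) + 1) ^ (D - 1 + D)) := by
  refine la4b_trans (la4b_s2 hD) (la4b_of_le fun n hn => ?_)
  rw [pow_add]
  exact mul_le_mul (pow_le_pow_left₀ (la4b_u_nonneg hD n hn) (la4b_u_le hD n hn) _)
    (pow_le_pow_left₀ (la4b_l_nonneg n hn) (la4b_l_le hD n) _)
    (pow_nonneg (la4b_l_nonneg n hn) _) (by positivity)

private theorem la4b_ss_pos (n : ℕ) : (1 : ℝ) ≤ (ssA D n : ℝ) := by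
  have : 1 ≤ ssA D n := by simp only [ssA]; omega
  exact_mod_cast this

private theorem la4b_ss2_pos (n : ℕ) : (1 : ℝ) ≤ (ss₂A D n : ℝ) := by
  have : 1 ≤ ss₂A D n := by simp only [ss₂A]; omega
  exact_mod_cast this

/-- the number of chirotopes, polynomial base -/
private theorem la4b_X {f : ℕ → ℝ} {k : ℕ} (h : la4b_BO f (fun n => ((n : ℝ) + 1) ^ k))
    (hf : ∀ n : ℕ, 1 ≤ n → 1 ≤ f n) :
    la4b_BO (fun n => Real.log (((D : ℝ) + 2) * f n * (((D : ℝ) + 2) * f n ^ (D + 2) + 2) + 1))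
      la4b_l := by
  refine la4b_log (k := k * (D + 3)) ?_ (fun n hn => ?_)
  · have h1 := la4b_pow h (fun n hn => le_trans zero_le_one (hf n hn)) (D + 3)
    obtain ⟨C, hC, h1⟩ := h1
    refine ⟨(((D : ℝ) + 2) ^ 2 + 2 * ((D : ℝ) + 2) + 1) * C, by positivity, fun n hn => ?_⟩
    have h2 := h1 n hn
    dsimp only at h2
    rw [← pow_mul] at h2
    have h3 := hf n hn
    have h4 : f n ≤ f n ^ (D + 3) := by
      calc f n = f n ^ 1 := (pow_one _).symm
        _ ≤ f n ^ (D + 3) := pow_le_pow_right₀ h3 (by omega)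
    have h5 : (1 : ℝ) ≤ f n ^ (D + 3) := one_le_pow₀ h3
    have h6 : f n ^ (D + 3) = f n * f n ^ (D + 2) := by ring
    have hD0 : (0 : ℝ) ≤ (D : ℝ) := Nat.cast_nonneg _
    calc ((D : ℝ) + 2) * f n * (((D : ℝ) + 2) * f n ^ (D + 2) + 2) + 1
        = ((D : ℝ) + 2) ^ 2 * f n ^ (D + 3) + 2 * ((D : ℝ) + 2) * f n + 1 := by
          rw [h6]; ring
      _ ≤ ((D : ℝ) + 2) ^ 2 * f n ^ (D + 3) + 2 * ((D : ℝ) + 2) * f n ^ (D + 3) +
          f n ^ (D + 3) := by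
          have := mul_le_mul_of_nonneg_left h4 (by positivity : (0 : ℝ) ≤ 2 * ((D : ℝ) + 2))
          linarith
      _ = (((D : ℝ) + 2) ^ 2 + 2 * ((D : ℝ) + 2) + 1) * f n ^ (D + 3) := by ring
      _ ≤ (((D : ℝ) + 2) ^ 2 + 2 * ((D : ℝ) + 2) + 1) * (C * ((n : ℝ) + 1) ^ (k * (D + 3))) :=
          mul_le_mul_of_nonneg_left h2 (by positivity)
      _ = _ := by ring
  · have h3 := hf n hn
    have : (0 : ℝ) ≤ f n := by linarith
    positivity

private noncomputable def la4b_W (D n : ℕ) : ℝ := la4b_u D n ^ (D - 1) * la4b_l n ^ (2 * D + 1)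

private theorem la4b_W_nonneg (n : ℕ) (hn : 1 ≤ n) : 0 ≤ la4b_W D n :=
  mul_nonneg (pow_nonneg (la4b_u_nonneg hD n hn) _) (pow_nonneg (la4b_l_nonneg n hn) _)

/-- `ℓ ^ 2 * s₂` -/
private theorem la4b_s2W : la4b_BO (fun n => (ss₂A D n : ℝ) * la4b_l n ^ 2) (la4b_W D) := by
  have h1 := la4b_mul (la4b_s2 hD) (la4b_of_le (f := fun n => la4b_l n ^ 2)
    (g := fun n => la4b_l n ^ 2)
    fun n hn => le_rfl) (fun n hn => pow_nonneg (la4b_l_nonneg n hn) _)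
    (fun n hn => mul_nonneg (pow_nonneg (la4b_u_nonneg hD n hn) _)
      (pow_nonneg (la4b_l_nonneg n hn) _))
  obtain ⟨C, hC, h2⟩ := la4b_l_pow hD (a := D + 2) (b := 2 * D + 1) (by omega)
  refine la4b_trans h1 ⟨C, hC, fun n hn => ?_⟩
  have h3 := h2 n hn
  unfold la4b_W
  calc la4b_u D n ^ (D - 1) * la4b_l n ^ D * la4b_l n ^ 2
      = la4b_u D n ^ (D - 1) * la4b_l n ^ (D + 2) := by ring
    _ ≤ la4b_u D n ^ (D - 1) * (C * la4b_l n ^ (2 * D + 1)) :=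
        mul_le_mul_of_nonneg_left h3 (pow_nonneg (la4b_u_nonneg hD n hn) _)
    _ = _ := by ring

/-- `ℓ ^ 2 * s` -/
private theorem la4b_sW : la4b_BO (fun n => (ssA D n : ℝ) * la4b_l n ^ 2) (la4b_W D) := by
  have h1 := la4b_mul (la4b_s hD) (la4b_l_pow hD (a := 2) (b := 2 * D + 1) (by omega))
    (fun n hn => pow_nonneg (la4b_l_nonneg n hn) _)
    (fun n hn => pow_nonneg (la4b_u_nonneg hD n hn) _)
  exact h1

private theorem la4b_lW : la4b_BO (fun n => la4b_l n ^ 2) (la4b_W D) := by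
  refine la4b_trans (la4b_of_le fun n hn => ?_) (la4b_sW hD)
  have h1 := la4b_ss_pos hD n
  have h2 : 0 ≤ la4b_l n ^ 2 := sq_nonneg _
  nlinarith

/-- `ℓ * x` -/
private theorem la4b_xW : la4b_BO (fun n => (xxA D n : ℝ) * la4b_l n) (la4b_W D) := by
  have h1 := la4b_mul (la4b_x hD) (la4b_of_le (f := la4b_l) (g := la4b_l)
    fun n hn => le_rfl) (fun n hn => la4b_l_nonneg n hn)
    (fun n hn => mul_nonneg (pow_nonneg (la4b_u_nonneg hD n hn) _)
      (pow_nonneg (la4b_l_nonneg n hn) _))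
  refine la4b_trans h1 (la4b_of_le fun n hn => ?_)
  unfold la4b_W
  rw [mul_assoc, ← pow_succ]

end

/-- Proof as in L4b. Write `u = n ^ (1 / (2 d - 1)) ≥ 1` and `ℓ = log (n + 1) ≥ log 2`; the
constants depend only on `d`. Then `r ≤ 2 u`, `n ≤ r ^ (2 d - 1)`, `log₂ (n + d + 2) + 1 ≤ C ℓ`,
`N₀ ≤ C u ℓ`, `t = cellNumA (d + 1) N₀ ≤ C u ^ d ℓ ^ (2 d)`
(`log₂ (N₀ + d + 2) + 1 ≤ C ℓ`), `s ≤ C u ^ (d - 1)`, `n / s ≤ r ^ d ≤ C u ^ d`,
`x ≤ C u ^ (d - 1) ℓ ^ (2 d)`, and `s₂ ≤ C u ^ (d / 2) ℓ ^ d ≤ C u ^ (d - 1) ℓ ^ d` (`d ≥ 2`);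
`log s`, `log s₂`, `log x`, `log n` are at most `C ℓ`. The logarithm of the number below is at most
`C ℓ * (s₂ ℓ + s ℓ + ℓ) + C s₂ ℓ + C x ℓ + C ℓ ≤ C u ^ (d - 1) ℓ ^ (2 d + 1)`
(`ℓ ^ 2 s₂ ≤ C u ^ (d - 1) ℓ ^ (d + 2)` and `d + 2 ≤ 2 d + 1`). -/
theorem numbersA (d : ℕ) (hd : 2 ≤ d) : ∃ C : ℝ, 0 < C ∧ ∀ n : ℕ, 1 ≤ n →
    ((((ss₂A d n * (((d + 2) * ss₂A d n * ((d + 2) * ss₂A d n ^ (d + 2) + 2) + 1) ^
          ((d + 2) * ss₂A d n) * ss₂A d n)) *
        (n * (((d + 2) * ssA d n * ((d + 2) * ssA d n ^ (d + 2) + 2) + 1) ^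
          ((d + 2) * ssA d n) * ssA d n))) ^ (Nat.log 2 n + 1) *
      ((Nat.log 2 n + 1) * ((ss₂A d n ^ (d + 1) * (2 * 2 ^ (d + 1))) ^ ss₂A d n *
        (n * (ssA d n ^ (d + 1) * (2 * 2 ^ (d + 1))) + 1) ^ xxA d n)) : ℕ) : ℝ) ≤
      2 ^ (C * (n : ℝ) ^ (((d : ℝ) - 1) / (2 * d - 1)) * (Real.log (n + 1)) ^ (2 * d + 1)) := by
  have hWn := la4b_W_nonneg hd
  have hl0 := la4b_l_nonneg
  have hLpos : ∀ n : ℕ, 1 ≤ n → (0 : ℝ) ≤ ((Nat.log 2 n + 1 : ℕ) : ℝ) := fun n hn => by positivity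
  -- the logarithms of the parts
  have hs := la4b_log (la4b_s_poly hd) (fun n hn => lt_of_lt_of_le one_pos (la4b_ss_pos hd n))
  have hs2 := la4b_log (la4b_s2_poly hd) (fun n hn => lt_of_lt_of_le one_pos (la4b_ss2_pos hd n))
  have hX1 := la4b_X hd (la4b_s_poly hd) (fun n hn => la4b_ss_pos hd n)
  have hX2 := la4b_X hd (la4b_s2_poly hd) (fun n hn => la4b_ss2_pos hd n)
  have hn1 := la4b_log (f := fun n => (n : ℝ)) (k := 1)
    (la4b_of_le fun n hn => by simp) (fun n hn => by exact_mod_cast hn)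
  have hLog := la4b_log (f := fun n => ((Nat.log 2 n + 1 : ℕ) : ℝ)) (k := 1)
    (la4b_trans (la4b_L hd) (la4b_of_le fun n hn => by rw [pow_one]; exact la4b_l_le hd n))
    (fun n hn => by positivity)
  -- powers of `ℓ`
  have hll : la4b_BO la4b_l (fun n => la4b_l n ^ 2) := by
    have := la4b_l_pow hd (a := 1) (b := 2) (by norm_num)
    simpa using this
  have hlW : la4b_BO la4b_l (la4b_W d) := la4b_trans hll (la4b_lW hd)
  have hs2l : ∀ n : ℕ, 1 ≤ n → 0 ≤ (ss₂A d n : ℝ) * la4b_l n := fun n hn =>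
    mul_nonneg (by positivity) (hl0 n hn)
  have hsl : ∀ n : ℕ, 1 ≤ n → 0 ≤ (ssA d n : ℝ) * la4b_l n := fun n hn =>
    mul_nonneg (by positivity) (hl0 n hn)
  have hls2 : la4b_BO la4b_l (fun n => (ss₂A d n : ℝ) * la4b_l n) := la4b_of_le fun n hn => by
    have := la4b_ss2_pos hd n
    have := hl0 n hn
    nlinarith
  have hls : la4b_BO la4b_l (fun n => (ssA d n : ℝ) * la4b_l n) := la4b_of_le fun n hn => by
    have := la4b_ss_pos hd n
    have := hl0 n hn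
    nlinarith
  -- first part
  have hA : la4b_BO (fun n => Real.log (ss₂A d n : ℝ) + (((d : ℝ) + 2) * ((ss₂A d n : ℝ) *
      Real.log (((d : ℝ) + 2) * (ss₂A d n : ℝ) * (((d : ℝ) + 2) * (ss₂A d n : ℝ) ^ (d + 2) + 2)
        + 1)) + Real.log (ss₂A d n : ℝ))) (fun n => (ss₂A d n : ℝ) * la4b_l n) := by
    refine la4b_add (la4b_trans hs2 hls2) (la4b_add (la4b_cmul (by positivity) ?_ hs2l)
      (la4b_trans hs2 hls2))
    refine la4b_mul (la4b_of_le fun n hn => le_rfl) hX2 (fun n hn => Real.log_nonneg ?_)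
      (fun n hn => by positivity)
    have : (0 : ℝ) ≤ ((d : ℝ) + 2) * (ss₂A d n : ℝ) * (((d : ℝ) + 2) * (ss₂A d n : ℝ) ^ (d + 2)
      + 2) := by positivity
    linarith
  have hB : la4b_BO (fun n => Real.log (n : ℝ) + (((d : ℝ) + 2) * ((ssA d n : ℝ) *
      Real.log (((d : ℝ) + 2) * (ssA d n : ℝ) * (((d : ℝ) + 2) * (ssA d n : ℝ) ^ (d + 2) + 2)
        + 1)) + Real.log (ssA d n : ℝ))) (fun n => (ssA d n : ℝ) * la4b_l n) := by
    refine la4b_add (la4b_trans hn1 hls) (la4b_add (la4b_cmul (by positivity) ?_ hsl)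
      (la4b_trans hs hls))
    refine la4b_mul (la4b_of_le fun n hn => le_rfl) hX1 (fun n hn => Real.log_nonneg ?_)
      (fun n hn => by positivity)
    have : (0 : ℝ) ≤ ((d : ℝ) + 2) * (ssA d n : ℝ) * (((d : ℝ) + 2) * (ssA d n : ℝ) ^ (d + 2)
      + 2) := by positivity
    linarith
  have hAnn : ∀ n : ℕ, 1 ≤ n → 0 ≤ Real.log (ss₂A d n : ℝ) + (((d : ℝ) + 2) * ((ss₂A d n : ℝ) *
      Real.log (((d : ℝ) + 2) * (ss₂A d n : ℝ) * (((d : ℝ) + 2) * (ss₂A d n : ℝ) ^ (d + 2) + 2)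
        + 1)) + Real.log (ss₂A d n : ℝ)) := by
    intro n hn
    have h1 : (0 : ℝ) ≤ Real.log (ss₂A d n : ℝ) := Real.log_nonneg (la4b_ss2_pos hd n)
    have h2 : (0 : ℝ) ≤ Real.log (((d : ℝ) + 2) * (ss₂A d n : ℝ) * (((d : ℝ) + 2) *
        (ss₂A d n : ℝ) ^ (d + 2) + 2) + 1) := by
      apply Real.log_nonneg
      have : (0 : ℝ) ≤ ((d : ℝ) + 2) * (ss₂A d n : ℝ) * (((d : ℝ) + 2) * (ss₂A d n : ℝ) ^ (d + 2)
        + 2) := by positivity
      linarith
    positivity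
  have hBnn : ∀ n : ℕ, 1 ≤ n → 0 ≤ Real.log (n : ℝ) + (((d : ℝ) + 2) * ((ssA d n : ℝ) *
      Real.log (((d : ℝ) + 2) * (ssA d n : ℝ) * (((d : ℝ) + 2) * (ssA d n : ℝ) ^ (d + 2) + 2)
        + 1)) + Real.log (ssA d n : ℝ)) := by
    intro n hn
    have h1 : (0 : ℝ) ≤ Real.log (ssA d n : ℝ) := Real.log_nonneg (la4b_ss_pos hd n)
    have h3 : (0 : ℝ) ≤ Real.log (n : ℝ) := Real.log_nonneg (by exact_mod_cast hn)
    have h2 : (0 : ℝ) ≤ Real.log (((d : ℝ) + 2) * (ssA d n : ℝ) * (((d : ℝ) + 2) *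
        (ssA d n : ℝ) ^ (d + 2) + 2) + 1) := by
      apply Real.log_nonneg
      have : (0 : ℝ) ≤ ((d : ℝ) + 2) * (ssA d n : ℝ) * (((d : ℝ) + 2) * (ssA d n : ℝ) ^ (d + 2)
        + 2) := by positivity
      linarith
    positivity
  have hP1 := la4b_trans (la4b_mul (la4b_L hd) hA hAnn hl0)
    (la4b_trans (la4b_of_le fun n hn => by
      show la4b_l n * ((ss₂A d n : ℝ) * la4b_l n) ≤ (ss₂A d n : ℝ) * la4b_l n ^ 2
      exact le_of_eq (by ring)) (la4b_s2W hd))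
  have hP2 := la4b_trans (la4b_mul (la4b_L hd) hB hBnn hl0)
    (la4b_trans (la4b_of_le fun n hn => by
      show la4b_l n * ((ssA d n : ℝ) * la4b_l n) ≤ (ssA d n : ℝ) * la4b_l n ^ 2
      exact le_of_eq (by ring)) (la4b_sW hd))
  have hP3 := la4b_trans hLog hlW
  -- fourth part
  have hE : la4b_BO (fun n => ((d : ℝ) + 1) * Real.log (ss₂A d n : ℝ) +
      Real.log (2 * 2 ^ (d + 1))) la4b_l :=
    la4b_add (la4b_cmul (by positivity) hs2 hl0)
      (la4b_const (c := 1 / 2) (by norm_num) (fun n hn => la4b_l_ge n hn) _)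
  have hlog2 : (0 : ℝ) ≤ Real.log (2 * 2 ^ (d + 1)) := by
    apply Real.log_nonneg
    have : (1 : ℝ) ≤ 2 ^ (d + 1) := one_le_pow₀ (by norm_num)
    linarith
  have hEnn : ∀ n : ℕ, 1 ≤ n → 0 ≤ ((d : ℝ) + 1) * Real.log (ss₂A d n : ℝ) +
      Real.log (2 * 2 ^ (d + 1)) :=
    fun n hn => add_nonneg (mul_nonneg (by positivity) (Real.log_nonneg (la4b_ss2_pos hd n))) hlog2
  have hP4 := la4b_trans (la4b_mul (la4b_of_le (f := fun n => (ss₂A d n : ℝ))
    (g := fun n => (ss₂A d n : ℝ)) fun n hn => le_rfl) hE hEnn (fun n hn => by positivity))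
    (la4b_trans ⟨2, by norm_num, fun n hn => by
      show (ss₂A d n : ℝ) * la4b_l n ≤ 2 * ((ss₂A d n : ℝ) * la4b_l n ^ 2)
      have h1 := la4b_l_ge n hn
      have h2 := hs2l n hn
      nlinarith⟩ (la4b_s2W hd))
  -- fifth part
  have hF : la4b_BO (fun n => Real.log ((n : ℝ) * ((ssA d n : ℝ) ^ (d + 1) *
      (2 * 2 ^ (d + 1))) + 1)) la4b_l := by
    refine la4b_log (k := 1 + (d - 1) * (d + 1)) ?_ (fun n hn => by positivity)
    have h1 := la4b_mul (la4b_of_le (f := fun n => (n : ℝ)) (g := fun n => ((n : ℝ) + 1) ^ 1)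
      fun n hn => by simp) (la4b_pow (la4b_s_poly hd) (fun n hn => by positivity) (d + 1))
      (fun n hn => by positivity) (fun n hn => by positivity)
    obtain ⟨C, hC, h1⟩ := h1
    refine ⟨2 * 2 ^ (d + 1) * C + 1, by positivity, fun n hn => ?_⟩
    have h2 := h1 n hn
    dsimp only at h2 ⊢
    rw [← pow_mul, ← pow_add] at h2
    have h3 : (1 : ℝ) ≤ ((n : ℝ) + 1) ^ (1 + (d - 1) * (d + 1)) := one_le_pow₀ (by
      have : (0 : ℝ) ≤ (n : ℝ) := Nat.cast_nonneg _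
      linarith)
    calc (n : ℝ) * ((ssA d n : ℝ) ^ (d + 1) * (2 * 2 ^ (d + 1))) + 1
        = 2 * 2 ^ (d + 1) * ((n : ℝ) * (ssA d n : ℝ) ^ (d + 1)) + 1 := by ring
      _ ≤ 2 * 2 ^ (d + 1) * (C * ((n : ℝ) + 1) ^ (1 + (d - 1) * (d + 1))) +
          ((n : ℝ) + 1) ^ (1 + (d - 1) * (d + 1)) := by
          have := mul_le_mul_of_nonneg_left h2 (by positivity : (0 : ℝ) ≤ 2 * 2 ^ (d + 1))
          linarith
      _ = _ := by ring
  have hFnn : ∀ n : ℕ, 1 ≤ n →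
      0 ≤ Real.log ((n : ℝ) * ((ssA d n : ℝ) ^ (d + 1) * (2 * 2 ^ (d + 1))) + 1) := by
    intro n hn
    apply Real.log_nonneg
    have : (0 : ℝ) ≤ (n : ℝ) * ((ssA d n : ℝ) ^ (d + 1) * (2 * 2 ^ (d + 1))) := by positivity
    linarith
  have hP5 := la4b_trans (la4b_mul (la4b_of_le (f := fun n => (xxA d n : ℝ))
    (g := fun n => (xxA d n : ℝ)) fun n hn => le_rfl) hF hFnn (fun n hn => by positivity))
    (la4b_xW hd)
  obtain ⟨C, hC, hT⟩ := la4b_add (la4b_add hP1 hP2) (la4b_add hP3 (la4b_add hP4 hP5))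
  have hln2 : 0 < Real.log 2 := Real.log_pos (by norm_num)
  refine ⟨C / Real.log 2, by positivity, fun n hn => ?_⟩
  have h1 := hT n hn
  have hn0 : (0 : ℝ) < (n : ℝ) := by exact_mod_cast hn
  have hb0 : (0 : ℝ) < (ssA d n : ℝ) := lt_of_lt_of_le one_pos (la4b_ss_pos hd n)
  have ha0 : (0 : ℝ) < (ss₂A d n : ℝ) := lt_of_lt_of_le one_pos (la4b_ss2_pos hd n)
  have hn0' : 0 < n := hn
  have hb0' : 0 < ssA d n := by exact_mod_cast hb0
  have ha0' : 0 < ss₂A d n := by exact_mod_cast ha0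
  rw [← Real.log_le_log_iff (by positivity) (by positivity), Real.log_rpow (by norm_num)]
  have hR : C / Real.log 2 * (n : ℝ) ^ (((d : ℝ) - 1) / (2 * d - 1)) *
      (Real.log (n + 1)) ^ (2 * d + 1) * Real.log 2 = C * la4b_W d n := by
    rw [la4b_target hd]
    unfold la4b_W la4b_l
    field_simp
  rw [hR]
  refine le_trans (le_of_eq ?_) h1
  push_cast
  rw [Real.log_mul (by positivity) (by positivity), Real.log_pow,
    Real.log_mul (by positivity) (by positivity), Real.log_mul (by positivity) (by positivity),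
    Real.log_mul (by positivity) (by positivity), Real.log_pow,
    Real.log_mul (by positivity) (by positivity), Real.log_mul (by positivity) (by positivity),
    Real.log_pow,
    Real.log_mul (by positivity) (by positivity), Real.log_mul (by positivity) (by positivity),
    Real.log_pow, Real.log_mul (by positivity) (by positivity), Real.log_pow, Real.log_pow]
  push_cast
  ring

end Pool.Agent.Helper69.LB
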