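import Pool.Agent.Helper69.LB.M2

/-! Project LB2, piece MA: unit balls and the paraboloid. -/

open Finset Matrix

namespace Pool.Agent.Helper69.LB

open Pool.Agent.Helper72.ELR

/-- Point versus open half-space relations in homogeneous coordinates, no point on a boundary, with
all points in the closure of the convex cone `A` but not in `A`. -/
def HalfRelIn {E : ℕ} (A : ConvexCone ℝ (Fin E → ℝ)) (n : ℕ) (R : Fin n → Fin n → Prop) : Prop :=
  ∃ x a : Fin n → Fin E → ℝ,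
    (∀ p, x p ∉ A ∧ ∃ e : Fin E → ℝ, ∀ ε : ℝ, 0 < ε → x p + ε • e ∈ A) ∧
    ∀ p q, a q ⬝ᵥ x p ≠ 0 ∧ (R p q ↔ 0 < a q ⬝ᵥ x p)

private theorem ma_sq {s t : ℝ} (hs : 0 < s) (ht : 0 < t) (a b : ℝ) :
    (a + b) ^ 2 ≤ (s + t) * (a ^ 2 / s + b ^ 2 / t) := by
  have h1 : (s + t) * (a ^ 2 / s + b ^ 2 / t) - (a + b) ^ 2 = (t * a - s * b) ^ 2 / (s * t) := by
    field_simp
    ring
  have h2 : 0 ≤ (t * a - s * b) ^ 2 / (s * t) := by positivity
  linarith

private theorem ma_delta {n : ℕ} (v : Fin n → Fin n → ℝ) :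
    ∃ δ : ℝ, 0 < δ ∧ ∀ p q, 0 < v p q → δ < v p q := by
  have h1 : ∀ᶠ δ in nhdsWithin (0 : ℝ) (Set.Ioi 0), ∀ p q, 0 < v p q → δ < v p q := by
    rw [Filter.eventually_all]
    intro p
    rw [Filter.eventually_all]
    intro q
    by_cases h : 0 < v p q
    · filter_upwards [Ioo_mem_nhdsGT h] with δ hδ _
      exact hδ.2
    · exact Filter.Eventually.of_forall (fun δ h' => absurd h' h)
  have h2 : ∀ᶠ δ in nhdsWithin (0 : ℝ) (Set.Ioi 0), δ ∈ Set.Ioi (0 : ℝ) := self_mem_nhdsWithin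
  obtain ⟨δ, h3, h4⟩ := (h2.and h1).exists
  exact ⟨δ, h3, h4⟩

/-- the open cone over the points above the paraboloid -/
def ballCone (d : ℕ) : ConvexCone ℝ (Fin (d + 2) → ℝ) where
  carrier := {y | 0 < y 0 ∧ ∑ i : Fin d, y i.castSucc.succ ^ 2 < y 0 * y (Fin.last (d + 1))}
  smul_mem' := by
    rintro c hc y ⟨h1, h2⟩
    refine ⟨mul_pos hc h1, ?_⟩
    have h3 : ∑ i : Fin d, (c • y) i.castSucc.succ ^ 2 =
        c ^ 2 * ∑ i : Fin d, y i.castSucc.succ ^ 2 := by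
      rw [Finset.mul_sum]
      refine Finset.sum_congr rfl fun i _ => ?_
      simp only [Pi.smul_apply, smul_eq_mul]
      ring
    have h4 : (c • y) 0 * (c • y) (Fin.last (d + 1)) = c ^ 2 * (y 0 * y (Fin.last (d + 1))) := by
      simp only [Pi.smul_apply, smul_eq_mul]
      ring
    rw [h3, h4]
    exact mul_lt_mul_of_pos_left h2 (by positivity)
  add_mem' := by
    rintro y ⟨h1, h2⟩ z ⟨h3, h4⟩
    refine ⟨add_pos h1 h3, ?_⟩
    have h5 : ∑ i : Fin d, (y + z) i.castSucc.succ ^ 2 ≤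
        (y 0 + z 0) * ((∑ i : Fin d, y i.castSucc.succ ^ 2) / y 0 +
          (∑ i : Fin d, z i.castSucc.succ ^ 2) / z 0) := by
      rw [Finset.sum_div, Finset.sum_div, ← Finset.sum_add_distrib, Finset.mul_sum]
      refine Finset.sum_le_sum fun i _ => ?_
      rw [Pi.add_apply]
      exact ma_sq h1 h3 _ _
    have h6 : (∑ i : Fin d, y i.castSucc.succ ^ 2) / y 0 < y (Fin.last (d + 1)) := by
      rw [div_lt_iff₀ h1, mul_comm]
      exact h2
    have h7 : (∑ i : Fin d, z i.castSucc.succ ^ 2) / z 0 < z (Fin.last (d + 1)) := by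
      rw [div_lt_iff₀ h3, mul_comm]
      exact h4
    refine lt_of_le_of_lt h5 ?_
    rw [Pi.add_apply, Pi.add_apply]
    exact mul_lt_mul_of_pos_left (add_lt_add h6 h7) (add_pos h1 h3)

/-- Proof. As `halfRel_unitBall` in M2, with the same vectors `x v = (1, f v, ‖f v‖ ^ 2)`; they are
not in the cone, and `x v + ε • (0, 0, 1)` is in the cone. (`add_mem'` above: with
`S = ∑ y i ^ 2`, `S' = ∑ y' i ^ 2` and Cauchy-Schwarz
`∑ (y i + y' i) ^ 2 ≤ S + S' + 2 √S √S'` and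
`(y₀ + y₀') (y₁ + y₁') = y₀ y₁ + y₀' y₁' + y₀ y₁' + y₀' y₁`, where
`y₀ y₁' + y₀' y₁ ≥ 2 √(y₀ y₁') √(y₀' y₁) = 2 √(y₀ y₁) √(y₀' y₁')`.) -/
theorem halfRelIn_unitBall {d n : ℕ} (f : Fin n → EuclideanSpace ℝ (Fin d)) :
    HalfRelIn (ballCone d) n (fun v w => dist (f v) (f w) ≤ 1) := by
  classical
  let x : Fin n → Fin (d + 2) → ℝ := fun v =>
    Fin.cons 1 (Fin.snoc (α := fun _ => ℝ) (fun i => f v i) (‖f v‖ ^ 2))
  let a : Fin n → Fin (d + 2) → ℝ := fun w =>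
    Fin.cons (‖f w‖ ^ 2 - 1) (Fin.snoc (α := fun _ => ℝ) (fun i => -2 * f w i) 1)
  let u : Fin (d + 2) → ℝ := Fin.cons 1 (fun _ => 0)
  have hu : ∀ p, u ⬝ᵥ x p = 1 := by
    intro p
    simp only [u, x, dotProduct, Fin.sum_univ_succ (n := d + 1), Fin.cons_zero, Fin.cons_succ,
      zero_mul, Finset.sum_const_zero, add_zero, mul_one]
  have hax : ∀ v w, a w ⬝ᵥ x v = dist (f v) (f w) ^ 2 - 1 := by
    intro v w
    rw [dist_eq_norm, norm_sub_sq_real]
    simp only [a, x, dotProduct, Fin.sum_univ_succ (n := d + 1), Fin.cons_zero, Fin.cons_succ,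
      Fin.sum_univ_castSucc (n := d), Fin.snoc_castSucc, Fin.snoc_last, mul_one, one_mul,
      PiLp.inner_apply, RCLike.inner_apply, conj_trivial]
    have h3 : ∑ i, -2 * f w i * f v i = -(2 * ∑ i, f w i * f v i) := by
      rw [Finset.mul_sum, ← Finset.sum_neg_distrib]
      exact Finset.sum_congr rfl (fun i _ => by ring)
    rw [h3]
    ring
  have hx0 : ∀ v, x v 0 = 1 := fun v => rfl
  have hxl : ∀ v, x v (Fin.last (d + 1)) = ‖f v‖ ^ 2 := by
    intro v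
    have h1 : (Fin.last (d + 1) : Fin (d + 2)) = (Fin.last d).succ := rfl
    simp only [x]
    rw [h1, Fin.cons_succ, Fin.snoc_last]
  have hxi : ∀ v (i : Fin d), x v i.castSucc.succ = f v i := by
    intro v i
    simp only [x]
    rw [Fin.cons_succ, Fin.snoc_castSucc]
  have hsum : ∀ v, ∑ i : Fin d, f v i ^ 2 = ‖f v‖ ^ 2 := by
    intro v
    rw [EuclideanSpace.norm_eq, Real.sq_sqrt (Finset.sum_nonneg fun i _ => sq_nonneg _)]
    refine Finset.sum_congr rfl fun i _ => ?_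
    rw [Real.norm_eq_abs, sq_abs]
  obtain ⟨δ, hδ, h⟩ := ma_delta (fun p q => a q ⬝ᵥ x p)
  refine ⟨x, fun q => δ • u - a q, fun p => ⟨?_, Pi.single (Fin.last (d + 1)) 1, ?_⟩,
    fun p q => ?_⟩
  · rintro ⟨_, h2⟩
    simp only [hx0, hxl, hxi, hsum, one_mul] at h2
    exact lt_irrefl _ h2
  · intro ε hε
    have h0 : ((0 : Fin (d + 2)) = Fin.last (d + 1)) = False := by
      rw [eq_iff_iff, iff_false]
      exact Fin.ne_of_val_ne (by simp)
    have hi : ∀ i : Fin d, (i.castSucc.succ = Fin.last (d + 1)) = False := by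
      intro i
      rw [eq_iff_iff, iff_false]
      refine Fin.ne_of_val_ne ?_
      simp only [Fin.val_succ, Fin.val_castSucc, Fin.val_last]
      omega
    refine ⟨?_, ?_⟩
    · simp only [Pi.add_apply, Pi.smul_apply, hx0, Pi.single_apply, h0, if_false, smul_eq_mul,
        mul_zero, add_zero, zero_lt_one]
    · simp only [Pi.add_apply, Pi.smul_apply, hx0, hxl, hxi, Pi.single_apply, h0, hi, if_false,
        if_true, smul_eq_mul, mul_zero, mul_one, add_zero, one_mul, hsum]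
      linarith
  · have h1 : (δ • u - a q) ⬝ᵥ x p = δ - a q ⬝ᵥ x p := by
      rw [sub_dotProduct, smul_dotProduct, hu, smul_eq_mul, mul_one]
    have h6 : dist (f p) (f q) ≤ 1 ↔ a q ⬝ᵥ x p ≤ 0 := by
      rw [hax, sub_nonpos, ← sq_le_one_iff₀ dist_nonneg]
    change (δ • u - a q) ⬝ᵥ x p ≠ 0 ∧ (dist (f p) (f q) ≤ 1 ↔ 0 < (δ • u - a q) ⬝ᵥ x p)
    rw [h1, h6]
    by_cases h2 : a q ⬝ᵥ x p ≤ 0
    · have h3 : 0 < δ - a q ⬝ᵥ x p := by linarith
      exact ⟨h3.ne', ⟨fun _ => h3, fun _ => h2⟩⟩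
    · have h3 : δ < a q ⬝ᵥ x p := h p q (not_le.mp h2)
      have h4 : δ - a q ⬝ᵥ x p < 0 := by linarith
      exact ⟨h4.ne, ⟨fun h5 => absurd h5 h2, fun h5 => absurd h5 (not_lt.mpr h4.le)⟩⟩

end Pool.Agent.Helper69.LB
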