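import Pool.Agent.Helper69.LB.KA4
import Pool.Agent.Helper69.LB.L2
import Pool.Agent.Helper69.LB.L3
import Pool.Agent.Helper69.LB.LA4b
import Pool.Agent.Helper69.LB.MA

/-! Project LB2, piece LA5: labels for points in the zone of a convex cone. -/

open Finset Matrix

namespace Pool.Agent.Helper69.LB

theorem la5_one (d : ℕ) (hd : 2 ≤ d) (A : ConvexCone ℝ (Fin (d + 2) → ℝ)) (n : ℕ) (hn : 1 ≤ n)
    (R : Fin n → Fin n → Prop) (hR : HalfRelIn A n R) :
    ∃ lab : Fin n → LabT (d + 1) n (ssA d n) (ss₂A d n) (ss₂A d n) (xxA d n), ∀ p q, R p q ↔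
      labDec (fun (cod : Fin (ss₂A d n) → Ptr (d + 1) (ss₂A d n))
          (pb : Fin (ss₂A d n) × Chiro (d + 2) (ss₂A d n) × Fin (ss₂A d n)) =>
        dcd pb.2.1.1 (cod pb.1) pb.2.2)
        (fun (c : Chiro (d + 2) (ssA d n)) (π : Ptr (d + 1) (ssA d n)) k => dcd c.1 π k)
        (lab p) (lab q) := by
  obtain ⟨y, a, hA, hya⟩ := hR
  have h : ∀ p q, a q ⬝ᵥ y p ≠ 0 := fun p q => (hya p q).1
  have hRe : ∀ p q, R p q ↔ 0 < a q ⬝ᵥ y p := fun p q => (hya p q).2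
  have hs : d + 2 ≤ ssA d n := by
    unfold ssA
    omega
  have hs₂ : d + 2 ≤ ss₂A d n := by
    unfold ss₂A
    omega
  obtain ⟨lab, hlab⟩ := exists_lab (R := R)
    (fun (cod : Fin (ss₂A d n) → Ptr (d + 1) (ss₂A d n))
          (pb : Fin (ss₂A d n) × Chiro (d + 2) (ss₂A d n) × Fin (ss₂A d n)) =>
        dcd pb.2.1.1 (cod pb.1) pb.2.2)
    (fun (c : Chiro (d + 2) (ssA d n)) (π : Ptr (d + 1) (ssA d n)) k => dcd c.1 π k)
    (s := ssA d n) (x := xxA d n)
    (by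
      intro Q hQ
      have h1 := exists_roundA (D := d + 1) (r := rrA d n) (N₀ := nnA d n) (s := ssA d n) (s₂ := ss₂A d n)
        (g₂ := ss₂A d n) (x := xxA d n) (by omega) (rrA_pos hd hn) (by omega) hs₂ cellNumA_le (xxA_ok hd hn)
        y a h A hA (sample_smallA hd hn) Q hQ
      have h2 : (fun p q => 0 < a q ⬝ᵥ y p) = R := by
        funext p q
        exact propext (hRe p q).symm
      rwa [h2] at h1)
    (by
      intro e
      obtain ⟨c, hc⟩ := coded hs y a h e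
      refine ⟨c, fun q => ?_⟩
      obtain ⟨π, hπ⟩ := hc q
      exact ⟨π, fun k => (hRe (e k) q).trans (hπ k)⟩)
  exact ⟨lab, hlab⟩

/-- labels for points in the zone of a convex cone -/
theorem halfRelIn_labels (d : ℕ) (hd : 2 ≤ d) (A : ConvexCone ℝ (Fin (d + 2) → ℝ)) :
    ∃ C : ℝ, 0 < C ∧ RelLabels (HalfRelIn A) (fun n =>
      C * (n : ℝ) ^ (((d : ℝ) - 1) / (2 * d - 1)) * (Real.log (n + 1)) ^ (2 * d + 1)) := by
  obtain ⟨C, hC, hnum⟩ := numbersA d hd
  refine ⟨C, hC, fun n => LabT (d + 1) n (ssA d n) (ss₂A d n) (ss₂A d n) (xxA d n), fun n =>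
    labDec (fun (cod : Fin (ss₂A d n) → Ptr (d + 1) (ss₂A d n))
          (pb : Fin (ss₂A d n) × Chiro (d + 2) (ss₂A d n) × Fin (ss₂A d n)) =>
        dcd pb.2.1.1 (cod pb.1) pb.2.2)
        (fun (c : Chiro (d + 2) (ssA d n)) (π : Ptr (d + 1) (ssA d n)) k => dcd c.1 π k),
    fun n => finite_labT _ _ _ _ _ _, ?_, ?_⟩
  · intro n hn
    refine le_trans ?_ (hnum n hn)
    exact_mod_cast card_labT_le (d + 1) n (ssA d n) (ss₂A d n) (ss₂A d n) (xxA d n)
  · intro n R hR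
    rcases Nat.eq_zero_or_pos n with h0 | hn
    · subst h0
      exact ⟨fun p => p.elim0, fun p => p.elim0⟩
    · exact la5_one d hd A n hn R hR

end Pool.Agent.Helper69.LB
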