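import Pool.Agent.Helper69.LB.Final
import Pool.Agent.Helper69.LB.LA5

/-! Project LB2: the label bound for unit ball graphs. -/

open Finset Matrix

namespace Pool.Agent.Helper69.LB

open Pool.Agent.Helper72.ELR

theorem labels_unitBallA (d : ℕ) (hd : 2 ≤ d) : ∃ C : ℝ, 0 < C ∧
    HasLabels (UnitBall d) (bd C (((d : ℝ) - 1) / (2 * d - 1)) (2 * d + 1)) := by
  obtain ⟨C, -, h⟩ := halfRelIn_labels d hd (ballCone d)
  have h' : RelLabels (HalfRelIn (ballCone d))
      (bd C (((d : ℝ) - 1) / (2 * d - 1)) (2 * d + 1)) := h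
  refine hasLabels_of_bd (exponent_nonneg hd) (by omega) h' (fun _ _ r _ => r) ?_
  rintro n G ⟨f, hG⟩
  exact ⟨_, halfRelIn_unitBall f, fun _ => true, fun v w hvw => hG v w hvw⟩

end Pool.Agent.Helper69.LB
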