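import Mathlib

/-! Project LB, piece S3: extreme rays of polyhedral cones. -/

open Finset Matrix

namespace Pool.Agent.Helper69.LB

/-- one step towards an extreme ray -/
private theorem s3_step {E : ℕ} {ι : Type} [Fintype ι] (l : ι → Fin E → ℝ) (x w : Fin E → ℝ)
    (h : ∀ i, 0 ≤ l i ⬝ᵥ x) (hw : ∀ i, l i ⬝ᵥ x = 0 → l i ⬝ᵥ w = 0)
    (hc : ∀ c : ℝ, w ≠ c • x) (hneg : ∃ i, l i ⬝ᵥ w < 0) :
    ∃ y : Fin E → ℝ, y ≠ 0 ∧ (∀ i, 0 ≤ l i ⬝ᵥ y) ∧ (∀ i, l i ⬝ᵥ x = 0 → l i ⬝ᵥ y = 0) ∧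
      ∃ i, l i ⬝ᵥ x ≠ 0 ∧ l i ⬝ᵥ y = 0 := by
  classical
  obtain ⟨i₁, hi₁⟩ := hneg
  obtain ⟨i₀, hi₀, hmin⟩ := Finset.exists_min_image (univ.filter fun i => l i ⬝ᵥ w < 0)
    (fun i => (l i ⬝ᵥ x) / (-(l i ⬝ᵥ w))) ⟨i₁, by simp [hi₁]⟩
  have hi₀' : l i₀ ⬝ᵥ w < 0 := by simpa using hi₀
  have hx₀ : l i₀ ⬝ᵥ x ≠ 0 := fun h0 => hi₀'.ne (hw i₀ h0)
  have hx₀' : 0 < l i₀ ⬝ᵥ x := lt_of_le_of_ne (h i₀) (Ne.symm hx₀)
  set t : ℝ := (l i₀ ⬝ᵥ x) / (-(l i₀ ⬝ᵥ w)) with ht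
  have htpos : 0 < t := div_pos hx₀' (by linarith)
  have hval : ∀ i, l i ⬝ᵥ (x + t • w) = l i ⬝ᵥ x + t * (l i ⬝ᵥ w) := by
    intro i
    rw [dotProduct_add, dotProduct_smul, smul_eq_mul]
  refine ⟨x + t • w, ?_, ?_, ?_, i₀, hx₀, ?_⟩
  · intro h0
    apply hc (-(1 / t))
    have h1 : t • w = -x := by
      rw [eq_neg_iff_add_eq_zero, add_comm]; exact h0
    calc w = (1 / t) • (t • w) := by rw [smul_smul, one_div, inv_mul_cancel₀ htpos.ne', one_smul]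
      _ = -(1 / t) • x := by rw [h1, smul_neg, neg_smul]
  · intro i
    rw [hval]
    by_cases hi : l i ⬝ᵥ w < 0
    · have h1 := hmin i (by simp [hi])
      have h2 : 0 < -(l i ⬝ᵥ w) := by linarith
      have h3 : t ≤ (l i ⬝ᵥ x) / (-(l i ⬝ᵥ w)) := h1
      rw [le_div_iff₀ h2] at h3
      linarith
    · have h2 : 0 ≤ l i ⬝ᵥ w := not_lt.mp hi
      have := h i
      positivity
  · intro i hi
    rw [hval, hi, hw i hi]; simp
  · rw [hval, ht]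
    have h2 : l i₀ ⬝ᵥ w ≠ 0 := hi₀'.ne
    rw [div_neg, neg_mul, div_mul_cancel₀ _ h2, add_neg_cancel]

/-- Proof. Consider the `θ ≠ 0` with `0 ≤ l i ⬝ᵥ θ` for all `i` and
`l i ⬝ᵥ x = 0 → l i ⬝ᵥ θ = 0` (for example `x`), and take one for which the span of the `l i` with
`l i ⬝ᵥ θ = 0` has the greatest dimension (or: the number of the `i` with `l i ⬝ᵥ θ = 0` is
maximal). Suppose that some `w` with `l i ⬝ᵥ w = 0` for all `i` with `l i ⬝ᵥ θ = 0` is not a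
multiple of `θ`. By `hspan` some `l i ⬝ᵥ w ≠ 0`; replace `w` by `- w` if necessary so that some
`l i ⬝ᵥ w < 0`. Let `t > 0` be the least of the numbers `(l i ⬝ᵥ θ) / (- (l i ⬝ᵥ w))` over the `i`
with `l i ⬝ᵥ w < 0`. Then `θ + t • w ≠ 0` is admissible and has more tight `i`: those of `θ` and
the `i` where the minimum is attained. -/
theorem exists_ray {E : ℕ} {ι : Type} [Fintype ι] (l : ι → Fin E → ℝ)
    (hspan : ∀ w : Fin E → ℝ, (∀ i, l i ⬝ᵥ w = 0) → w = 0) (x : Fin E → ℝ) (hx : x ≠ 0)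
    (h : ∀ i, 0 ≤ l i ⬝ᵥ x) :
    ∃ θ : Fin E → ℝ, θ ≠ 0 ∧ (∀ i, 0 ≤ l i ⬝ᵥ θ) ∧ (∀ i, l i ⬝ᵥ x = 0 → l i ⬝ᵥ θ = 0) ∧
      ∀ w : Fin E → ℝ, (∀ i, l i ⬝ᵥ θ = 0 → l i ⬝ᵥ w = 0) → ∃ c : ℝ, w = c • θ := by
  classical
  induction hn : (univ.filter fun i => l i ⬝ᵥ x ≠ 0).card using Nat.strong_induction_on
    generalizing x with
  | _ n ih =>
    by_cases hall : ∀ w : Fin E → ℝ, (∀ i, l i ⬝ᵥ x = 0 → l i ⬝ᵥ w = 0) → ∃ c : ℝ, w = c • x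
    · exact ⟨x, hx, h, fun i hi => hi, hall⟩
    · push Not at hall
      obtain ⟨w, hw, hc⟩ := hall
      have hw0 : w ≠ 0 := fun h0 => hc 0 (by rw [h0, zero_smul])
      obtain ⟨w', hw', hc', hneg⟩ : ∃ w' : Fin E → ℝ, (∀ i, l i ⬝ᵥ x = 0 → l i ⬝ᵥ w' = 0) ∧
          (∀ c : ℝ, w' ≠ c • x) ∧ ∃ i, l i ⬝ᵥ w' < 0 := by
        have hex : ∃ i, l i ⬝ᵥ w ≠ 0 := by
          by_contra hcon
          push Not at hcon
          exact hw0 (hspan w hcon)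
        obtain ⟨i, hi⟩ := hex
        rcases lt_or_gt_of_ne hi with hlt | hgt
        · exact ⟨w, hw, hc, i, hlt⟩
        · refine ⟨-w, fun j hj => by rw [dotProduct_neg, hw j hj, neg_zero], fun c hcc => ?_, i, ?_⟩
          · apply hc (-c)
            rw [neg_smul, ← hcc, neg_neg]
          · rw [dotProduct_neg]; linarith
      obtain ⟨y, hy0, hy, hxy, i, hi, hiy⟩ := s3_step l x w' h hw' hc' hneg
      have hlt : (univ.filter fun i => l i ⬝ᵥ y ≠ 0).card < n := by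
        rw [← hn]
        apply Finset.card_lt_card
        refine ⟨fun j hj => ?_, fun hsub => ?_⟩
        · simp only [mem_filter, mem_univ, true_and] at hj ⊢
          exact fun h0 => hj (hxy j h0)
        · have h1 := hsub (show i ∈ univ.filter fun i => l i ⬝ᵥ x ≠ 0 by simp [hi])
          simp [hiy] at h1
      obtain ⟨θ, hθ, hθ1, hθ2, hθ3⟩ := ih _ hlt y hy0 hy rfl
      exact ⟨θ, hθ, hθ1, fun j hj => hθ2 j (hxy j hj), hθ3⟩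

end Pool.Agent.Helper69.LB
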