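import Pool.Agent.Helper69.LB.KDefs
import Pool.Agent.Helper69.LB.S3

/-! Project LB, piece K1: the cells of a sample (a triangulation of the arrangement). -/

open Finset Matrix

namespace Pool.Agent.Helper69.LB

/-- the sign of a Boolean -/
private noncomputable def k1_sg (b : Bool) : ℝ := if b then 1 else -1

private theorem k1_sg_ne (b : Bool) : k1_sg b ≠ 0 := by
  cases b <;> simp [k1_sg]

private theorem k1_sg_mul (b : Bool) : k1_sg b * k1_sg b = 1 := by
  cases b <;> simp [k1_sg]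

/-- the closed cone of a sign vector -/
private def k1_C {D N : ℕ} (l : Fin N → Fin (D + 1) → ℝ) (R : Finset (Fin N))
    (σ : Fin N → Bool) (y : Fin (D + 1) → ℝ) : Prop :=
  ∀ i ∈ R, 0 ≤ k1_sg (σ i) * (l i ⬝ᵥ y)

/-- the pairs allowed for the set `T` -/
private def k1_Good {D N : ℕ} (l : Fin N → Fin (D + 1) → ℝ) (R : Finset (Fin N))
    (σ : Fin N → Bool) (T : Finset (Fin N))
    (p : {T : Finset (Fin N) // T.card = D} × Bool) : Prop :=
  T ⊆ p.1.1 ∧ p.1.1 ⊆ R ∧ ray l p.1.1 p.2 ≠ 0 ∧ k1_C l R σ (ray l p.1.1 p.2)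

/-- the pair chosen for the set `T` -/
private noncomputable def k1_beta {D N : ℕ} (l : Fin N → Fin (D + 1) → ℝ) (R : Finset (Fin N))
    (p0 : {T : Finset (Fin N) // T.card = D} × Bool) (σ : Fin N → Bool) (T : Finset (Fin N)) :
    {T : Finset (Fin N) // T.card = D} × Bool :=
  open Classical in
  if h : ∃ p, k1_Good l R σ T p then h.choose else p0

private theorem k1_beta_good {D N : ℕ} {l : Fin N → Fin (D + 1) → ℝ} {R : Finset (Fin N)}
    (p0 : {T : Finset (Fin N) // T.card = D} × Bool) {σ : Fin N → Bool} {T : Finset (Fin N)}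
    (h : ∃ p, k1_Good l R σ T p) : k1_Good l R σ T (k1_beta l R p0 σ T) := by
  unfold k1_beta
  rw [dif_pos h]
  exact h.choose_spec

private theorem k1_ker {D N : ℕ} {l : Fin N → Fin (D + 1) → ℝ} (hl : GenPos l)
    {T : Finset (Fin N)} (hT : D + 1 ≤ T.card) {w : Fin (D + 1) → ℝ}
    (hw : ∀ i ∈ T, l i ⬝ᵥ w = 0) : w = 0 := by
  have hdet := hl (T.orderEmbOfCardLe hT) (T.orderEmbOfCardLe hT).injective
  apply Matrix.eq_zero_of_mulVec_eq_zero hdet
  funext i
  exact hw _ (Finset.orderEmbOfCardLe_mem T hT i)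

private theorem k1_card {D N : ℕ} {l : Fin N → Fin (D + 1) → ℝ} (hl : GenPos l)
    {T : Finset (Fin N)} {w : Fin (D + 1) → ℝ} (hw0 : w ≠ 0)
    (hw : ∀ i ∈ T, l i ⬝ᵥ w = 0) : T.card ≤ D := by
  by_contra hcon
  exact hw0 (k1_ker hl (by omega) hw)

private theorem k1_dim {D N : ℕ} (l : Fin N → Fin (D + 1) → ℝ)
    {T : Finset (Fin N)} {θ : Fin (D + 1) → ℝ}
    (h : ∀ w : Fin (D + 1) → ℝ, (∀ i ∈ T, l i ⬝ᵥ w = 0) → ∃ c : ℝ, w = c • θ) :
    D ≤ T.card := by
  set M : Matrix T (Fin (D + 1)) ℝ := Matrix.of fun i : T => l i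
  have h1 := LinearMap.finrank_range_add_finrank_ker (Matrix.mulVecLin M)
  have h2 : Module.finrank ℝ (LinearMap.ker (Matrix.mulVecLin M)) ≤ 1 := by
    have h3 : LinearMap.ker (Matrix.mulVecLin M) ≤ Submodule.span ℝ {θ} := by
      intro w hw
      rw [LinearMap.mem_ker, Matrix.mulVecLin_apply] at hw
      obtain ⟨c, hc⟩ := h w (fun i hi => congrFun hw ⟨i, hi⟩)
      rw [Submodule.mem_span_singleton]
      exact ⟨c, hc.symm⟩
    refine (Submodule.finrank_mono h3).trans ?_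
    have h4 := finrank_span_le_card (R := ℝ) ({θ} : Set (Fin (D + 1) → ℝ))
    simpa using h4
  have h5 : Module.finrank ℝ (LinearMap.range (Matrix.mulVecLin M)) ≤ T.card := by
    refine (Submodule.finrank_le _).trans ?_
    simp
  have h6 : Module.finrank ℝ (Fin (D + 1) → ℝ) = D + 1 := by simp
  omega

private theorem k1_kerVec {E N : ℕ} {l : Fin N → Fin E → ℝ} {T : Finset (Fin N)}
    (h : ∃ v : Fin E → ℝ, v ≠ 0 ∧ (∀ i ∈ T, l i ⬝ᵥ v = 0) ∧
      ∀ w : Fin E → ℝ, (∀ i ∈ T, l i ⬝ᵥ w = 0) → ∃ c : ℝ, w = c • v) :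
    kerVec l T ≠ 0 ∧ (∀ i ∈ T, l i ⬝ᵥ kerVec l T = 0) ∧
      ∀ w : Fin E → ℝ, (∀ i ∈ T, l i ⬝ᵥ w = 0) → ∃ c : ℝ, w = c • kerVec l T := by
  unfold kerVec
  rw [dif_pos h]
  exact h.choose_spec

private theorem k1_kill {E N : ℕ} (l : Fin N → Fin E → ℝ) (T : Finset (Fin N)) (b : Bool) :
    ∀ i ∈ T, l i ⬝ᵥ ray l T b = 0 := by
  have h0 : ∀ i ∈ T, l i ⬝ᵥ kerVec l T = 0 := by
    intro i hi
    by_cases h : ∃ v : Fin E → ℝ, v ≠ 0 ∧ (∀ i ∈ T, l i ⬝ᵥ v = 0) ∧
      ∀ w : Fin E → ℝ, (∀ i ∈ T, l i ⬝ᵥ w = 0) → ∃ c : ℝ, w = c • v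
    · exact (k1_kerVec h).2.1 i hi
    · unfold kerVec
      rw [dif_neg h, dotProduct_zero]
  intro i hi
  unfold ray
  split_ifs
  · exact h0 i hi
  · rw [dotProduct_neg, h0 i hi, neg_zero]

/-- a pair exists for the tight set of every nonzero vector of the cone -/
private theorem k1_exists {D N : ℕ} {l : Fin N → Fin (D + 1) → ℝ} (hl : GenPos l)
    {R : Finset (Fin N)} (hR : D + 1 ≤ R.card) {σ : Fin N → Bool} {x : Fin (D + 1) → ℝ}
    (hx : x ≠ 0) (hC : k1_C l R σ x) :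
    ∃ p, k1_Good l R σ (R.filter fun i => l i ⬝ᵥ x = 0) p := by
  classical
  have hdot : ∀ (i : R) (w : Fin (D + 1) → ℝ),
      (k1_sg (σ i) • l i) ⬝ᵥ w = k1_sg (σ i) * (l i ⬝ᵥ w) := by
    intro i w
    rw [smul_dotProduct, smul_eq_mul]
  have hz : ∀ (i : R) (w : Fin (D + 1) → ℝ),
      (k1_sg (σ i) • l i) ⬝ᵥ w = 0 ↔ l i ⬝ᵥ w = 0 := by
    intro i w
    rw [hdot, mul_eq_zero]
    simp [k1_sg_ne]
  obtain ⟨θ, hθ0, hθC, hθx, hθu⟩ := exists_ray (fun i : R => k1_sg (σ i) • l i)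
    (fun w hw => k1_ker hl hR (fun i hi => (hz ⟨i, hi⟩ w).1 (hw ⟨i, hi⟩))) x hx
    (fun i => by rw [hdot]; exact hC i i.2)
  set T' : Finset (Fin N) := R.filter fun i => l i ⬝ᵥ θ = 0 with hT'
  have hkill : ∀ i ∈ T', l i ⬝ᵥ θ = 0 := fun i hi => (mem_filter.1 hi).2
  have huniq : ∀ w : Fin (D + 1) → ℝ, (∀ i ∈ T', l i ⬝ᵥ w = 0) → ∃ c : ℝ, w = c • θ := by
    intro w hw
    apply hθu w
    intro i hi
    rw [hz] at hi ⊢
    exact hw i (mem_filter.2 ⟨i.2, hi⟩)
  have hcard : T'.card = D := le_antisymm (k1_card hl hθ0 hkill) (k1_dim l huniq)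
  obtain ⟨hk0, hk1, hk2⟩ := k1_kerVec (l := l) (T := T') ⟨θ, hθ0, hkill, huniq⟩
  obtain ⟨c, hc⟩ := huniq (kerVec l T') hk1
  have hc0 : c ≠ 0 := by
    rintro rfl
    exact hk0 (by rw [hc, zero_smul])
  have hsub : (R.filter fun i => l i ⬝ᵥ x = 0) ⊆ T' := by
    intro i hi
    obtain ⟨hi1, hi2⟩ := mem_filter.1 hi
    exact mem_filter.2 ⟨hi1, (hz ⟨i, hi1⟩ θ).1 (hθx ⟨i, hi1⟩ ((hz ⟨i, hi1⟩ x).2 hi2))⟩
  have hfin : ∀ b : Bool, ∀ c' : ℝ, 0 < c' → ray l T' b = c' • θ →
      k1_Good l R σ (R.filter fun i => l i ⬝ᵥ x = 0) (⟨T', hcard⟩, b) := by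
    intro b c' hc' hb
    refine ⟨hsub, filter_subset _ _, ?_, ?_⟩
    · show ray l T' b ≠ 0
      rw [hb]
      exact smul_ne_zero hc'.ne' hθ0
    · intro i hi
      show 0 ≤ k1_sg (σ i) * (l i ⬝ᵥ ray l T' b)
      have h1 := hθC ⟨i, hi⟩
      rw [hdot] at h1
      rw [hb, dotProduct_smul, smul_eq_mul]
      have h2 : k1_sg (σ i) * (c' * (l i ⬝ᵥ θ)) = c' * (k1_sg (σ i) * (l i ⬝ᵥ θ)) := by ring
      rw [h2]
      exact mul_nonneg hc'.le h1
  rcases lt_or_gt_of_ne hc0 with hneg | hpos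
  · refine ⟨_, hfin false (-c) (by linarith) ?_⟩
    unfold ray
    rw [if_neg (by simp), hc, neg_smul]
  · refine ⟨_, hfin true c hpos ?_⟩
    unfold ray
    rw [if_pos rfl, hc]

/-- one step of the chain -/
private theorem k1_step {D N : ℕ} {l : Fin N → Fin (D + 1) → ℝ} (hl : GenPos l)
    {R : Finset (Fin N)} (hR : D + 1 ≤ R.card)
    {σ : Fin N → Bool} {x : Fin (D + 1) → ℝ} (hx : x ≠ 0) (hC : k1_C l R σ x)
    {p : {T : Finset (Fin N) // T.card = D} × Bool}
    (hp : k1_Good l R σ (R.filter fun i => l i ⬝ᵥ x = 0) p) :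
    ∃ t : ℝ, 0 ≤ t ∧ ((x = t • ray l p.1.1 p.2 ∧ (R.filter fun i => l i ⬝ᵥ x = 0) = p.1.1) ∨
      (x - t • ray l p.1.1 p.2 ≠ 0 ∧ k1_C l R σ (x - t • ray l p.1.1 p.2) ∧
        (R.filter fun i => l i ⬝ᵥ x = 0) ⊂
          (R.filter fun i => l i ⬝ᵥ (x - t • ray l p.1.1 p.2) = 0))) := by
  classical
  obtain ⟨hp1, hp2, hp3, hp4⟩ := hp
  set v := ray l p.1.1 p.2 with hv
  have hkill : ∀ i ∈ p.1.1, l i ⬝ᵥ v = 0 := k1_kill l p.1.1 p.2
  have hex : (R.filter fun i => l i ⬝ᵥ v ≠ 0).Nonempty := by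
    by_contra hcon
    rw [not_nonempty_iff_eq_empty, filter_eq_empty_iff] at hcon
    exact hp3 (k1_ker hl hR (fun i hi => by simpa using hcon hi))
  obtain ⟨i₀, hi₀, hmin⟩ := exists_min_image _ (fun i => (l i ⬝ᵥ x) / (l i ⬝ᵥ v)) hex
  obtain ⟨hi₀R, hi₀v⟩ := mem_filter.1 hi₀
  set t : ℝ := (l i₀ ⬝ᵥ x) / (l i₀ ⬝ᵥ v) with ht
  have hsg : ∀ i, k1_sg (σ i) * k1_sg (σ i) = 1 := fun i => k1_sg_mul _
  have hpos : ∀ i ∈ R, l i ⬝ᵥ v ≠ 0 → 0 < k1_sg (σ i) * (l i ⬝ᵥ v) := by
    intro i hi hne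
    exact lt_of_le_of_ne (hp4 i hi) (Ne.symm (mul_ne_zero (k1_sg_ne _) hne))
  have hdiv : ∀ i, (l i ⬝ᵥ x) / (l i ⬝ᵥ v) =
      (k1_sg (σ i) * (l i ⬝ᵥ x)) / (k1_sg (σ i) * (l i ⬝ᵥ v)) := by
    intro i
    rw [mul_div_mul_left _ _ (k1_sg_ne _)]
  have ht0 : 0 ≤ t := by
    rw [ht, hdiv]
    exact div_nonneg (hC i₀ hi₀R) (hpos i₀ hi₀R hi₀v).le
  have hval : ∀ i, l i ⬝ᵥ (x - t • v) = l i ⬝ᵥ x - t * (l i ⬝ᵥ v) := by
    intro i
    rw [dotProduct_sub, dotProduct_smul, smul_eq_mul]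
  have hC' : k1_C l R σ (x - t • v) := by
    intro i hi
    rw [hval]
    by_cases hne : l i ⬝ᵥ v = 0
    · rw [hne, mul_zero, sub_zero]; exact hC i hi
    · have h1 := hmin i (mem_filter.2 ⟨hi, hne⟩)
      have h2 : t ≤ (l i ⬝ᵥ x) / (l i ⬝ᵥ v) := h1
      rw [hdiv, le_div_iff₀ (hpos i hi hne)] at h2
      have h3 : k1_sg (σ i) * (l i ⬝ᵥ x - t * (l i ⬝ᵥ v)) =
          k1_sg (σ i) * (l i ⬝ᵥ x) - t * (k1_sg (σ i) * (l i ⬝ᵥ v)) := by ring
      rw [h3]
      linarith
  have hi₀T : i₀ ∉ (R.filter fun i => l i ⬝ᵥ x = 0) := fun h => hi₀v (hkill i₀ (hp1 h))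
  have hss : (R.filter fun i => l i ⬝ᵥ x = 0) ⊂
      (R.filter fun i => l i ⬝ᵥ (x - t • v) = 0) := by
    rw [ssubset_iff_of_subset]
    · refine ⟨i₀, mem_filter.2 ⟨hi₀R, ?_⟩, hi₀T⟩
      rw [hval, ht, div_mul_cancel₀ _ hi₀v, sub_self]
    · intro i hi
      obtain ⟨hiR, hix⟩ := mem_filter.1 hi
      refine mem_filter.2 ⟨hiR, ?_⟩
      rw [hval, hix, hkill i (hp1 hi), mul_zero, sub_zero]
  refine ⟨t, ht0, ?_⟩
  by_cases h0 : x - t • v = 0
  · left
    have hxt : x = t • v := sub_eq_zero.1 h0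
    refine ⟨hxt, subset_antisymm hp1 ?_⟩
    intro i hi
    refine mem_filter.2 ⟨hp2 hi, ?_⟩
    rw [hxt, dotProduct_smul, hkill i hi, smul_zero]
  · right
    exact ⟨h0, hC', hss⟩

/-- the chain of a vector of the cone -/
private theorem k1_chain {D N : ℕ} {l : Fin N → Fin (D + 1) → ℝ} (hl : GenPos l)
    {R : Finset (Fin N)} (hR : D + 1 ≤ R.card)
    (p0 : {T : Finset (Fin N) // T.card = D} × Bool) {σ : Fin N → Bool} (n : ℕ) :
    ∀ (j : ℕ) (x : Fin (D + 1) → ℝ), j + n = D → x ≠ 0 → k1_C l R σ x →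
      j ≤ (R.filter fun i => l i ⬝ᵥ x = 0).card →
      ∃ (F : Finset (Fin N)) (S : ℕ → Finset (Fin N)) (t : ℕ → ℝ),
        F.card = D ∧ k1_Good l R σ F (k1_beta l R p0 σ F) ∧ S D = F ∧ Monotone S ∧
        S j = (R.filter fun i => l i ⬝ᵥ x = 0) ∧ (∀ i, 0 ≤ t i) ∧
        x = ∑ i ∈ Icc j D, t i • ray l (k1_beta l R p0 σ (S i)).1.1 (k1_beta l R p0 σ (S i)).2 := by
  classical
  induction n with
  | zero =>
    intro j x hj hx hC hcard
    have hg := k1_beta_good p0 (k1_exists hl hR hx hC)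
    obtain ⟨t, ht0, h | h⟩ := k1_step hl hR hx hC hg
    · refine ⟨_, fun _ => R.filter fun i => l i ⬝ᵥ x = 0, fun i => if i = j then t else 0,
        ?_, hg, rfl, monotone_const, rfl, ?_, ?_⟩
      · rw [h.2]; exact (k1_beta l R p0 σ _).1.2
      · intro i
        dsimp only
        split_ifs
        · exact ht0
        · exact le_rfl
      · beta_reduce
        rw [sum_eq_single j]
        · rw [if_pos rfl]; exact h.1
        · intro i _ hne
          rw [if_neg hne, zero_smul]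
        · intro hn
          exact absurd (mem_Icc.2 ⟨le_rfl, by omega⟩) hn
    · exfalso
      obtain ⟨h0, -, hss⟩ := h
      have h1 := card_lt_card hss
      have h2 := k1_card hl h0 (T := R.filter fun i => l i ⬝ᵥ
        (x - t • ray l (k1_beta l R p0 σ (R.filter fun i => l i ⬝ᵥ x = 0)).1.1
          (k1_beta l R p0 σ (R.filter fun i => l i ⬝ᵥ x = 0)).2) = 0)
        (fun i hi => (mem_filter.1 hi).2)
      omega
  | succ n ih =>
    intro j x hj hx hC hcard
    have hg := k1_beta_good p0 (k1_exists hl hR hx hC)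
    obtain ⟨t, ht0, h | h⟩ := k1_step hl hR hx hC hg
    · refine ⟨_, fun _ => R.filter fun i => l i ⬝ᵥ x = 0, fun i => if i = j then t else 0,
        ?_, hg, rfl, monotone_const, rfl, ?_, ?_⟩
      · rw [h.2]; exact (k1_beta l R p0 σ _).1.2
      · intro i
        dsimp only
        split_ifs
        · exact ht0
        · exact le_rfl
      · beta_reduce
        rw [sum_eq_single j]
        · rw [if_pos rfl]; exact h.1
        · intro i _ hne
          rw [if_neg hne, zero_smul]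
        · intro hn
          exact absurd (mem_Icc.2 ⟨le_rfl, by omega⟩) hn
    · obtain ⟨h0, hC', hss⟩ := h
      have h1 := card_lt_card hss
      obtain ⟨F, S, t', hF, hgF, hSD, hmono, hSj, ht', hsum⟩ :=
        ih (j + 1) _ (by omega) h0 hC' (by omega)
      refine ⟨F, fun i => if i ≤ j then R.filter fun i => l i ⬝ᵥ x = 0 else S i,
        fun i => if i ≤ j then t else t' i, hF, hgF, ?_, ?_, ?_, ?_, ?_⟩
      · beta_reduce
        rw [if_neg (by omega)]
        exact hSD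
      · intro a b hab
        dsimp only
        split_ifs with h2 h3 h3
        · exact le_rfl
        · refine le_trans ?_ (hmono (show j + 1 ≤ b by omega))
          rw [hSj]
          exact hss.subset
        · omega
        · exact hmono hab
      · beta_reduce
        rw [if_pos le_rfl]
      · intro i
        dsimp only
        split_ifs
        · exact ht0
        · exact ht' i
      · have hIcc : Icc j D = insert j (Icc (j + 1) D) := by
          ext i
          simp only [mem_Icc, mem_insert]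
          omega
        beta_reduce
        rw [hIcc, sum_insert (by simp), if_pos le_rfl, if_pos le_rfl]
        have hsum2 : ∑ i ∈ Icc (j + 1) D, (if i ≤ j then t else t' i) •
            ray l (k1_beta l R p0 σ
              (if i ≤ j then R.filter fun i => l i ⬝ᵥ x = 0 else S i)).1.1
            (k1_beta l R p0 σ (if i ≤ j then R.filter fun i => l i ⬝ᵥ x = 0 else S i)).2 =
            ∑ i ∈ Icc (j + 1) D, t' i • ray l (k1_beta l R p0 σ (S i)).1.1
              (k1_beta l R p0 σ (S i)).2 := by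
          apply sum_congr rfl
          intro i hi
          have hi' : ¬ i ≤ j := by have := (mem_Icc.1 hi).1; omega
          rw [if_neg hi', if_neg hi']
        rw [hsum2, ← hsum]
        exact (add_sub_cancel _ _).symm

/-- the sign vector of a code -/
private noncomputable def k1_sig {D N : ℕ} (l : Fin N → Fin (D + 1) → ℝ) (R : Finset (Fin N))
    (I : Fin D → R) (b : Bool) (ε : Fin D → Bool) (i : Fin N) : Bool :=
  open Classical in
  if i ∈ R then
    (if h : ∃ c, (I c : Fin N) = i then ε h.choose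
      else decide (0 < l i ⬝ᵥ ray l (univ.image fun c => (I c : Fin N)) b))
  else false

/-- Proof. For a sign vector `σ : Fin N → Bool` and `T ⊆ R` let `β σ T` be a pair
`({T' // T'.card = D}, b)` chosen (by `Classical.choice`) among those with `T ⊆ T' ⊆ R` and
`ray l T' b` in the cone `C σ = {y | ∀ i ∈ R, 0 ≤ σ i * (l i ⬝ᵥ y)}`, `ray l T' b ≠ 0` (arbitrary if
there is none). A code is `(I, b, ε, lev)` with `I : Fin D → R`, `ε : Fin D → Bool`,
`lev : Fin D → Fin (D + 1)`; there are `R.card ^ D * (2 * (2 * (D + 1)) ^ D)` codes. Its key is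
`j ↦ β σ {I c | lev c ≤ j}` where `σ (I c) = ε c` and `σ i` is the sign of
`l i ⬝ᵥ ray l (image I) b` for the other `i`. `𝒦` is the set of these keys.
Let `x` be given, with sign vector `σ` on `R`; `x ≠ 0` as `R` is not empty. Put `x₀ = x`.
As long as `xⱼ ≠ 0` let `Tⱼ = {i ∈ R | l i ⬝ᵥ xⱼ = 0}`; by general position `Tⱼ` has at most `D`
elements. By S3 (for `σ i • l i`, `i ∈ R`, which separate the vectors since `D + 1 ≤ R.card`) there
is a `θ ≠ 0` in `C σ` with `l i ⬝ᵥ θ = 0` on `Tⱼ` and a set `T'` of tight `i ∈ R` whose common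
kernel is the line of `θ`; by general position `T'` has exactly `D` elements, and `θ` is a positive
multiple of `ray l T' b` for some `b`. So `β σ Tⱼ` is one of the pairs wanted; let `vⱼ` be its ray.
Let `tⱼ > 0` be the least of the `(l i ⬝ᵥ xⱼ) / (l i ⬝ᵥ vⱼ)` over the `i ∈ R` with
`l i ⬝ᵥ vⱼ ≠ 0` (there are some; they are not in `Tⱼ`), `xⱼ₊₁ = xⱼ - tⱼ vⱼ`, again in `C σ`, and
`Tⱼ₊₁` is strictly larger than `Tⱼ`. So `x_(k+1) = 0` for some `k ≤ D`; then `x_k = t_k v_k`, so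
`T_k` is the set of the `i ∈ R` with `l i ⬝ᵥ v_k = 0`: it has `D` elements (the set of the pair
`β σ T_k`). Let `I` be an enumeration of `T_k`, `b` the sign in `β σ T_k`, `ε c = σ (I c)`,
`lev c` the least `j` with `I c ∈ Tⱼ` (`1 ≤ lev c ≤ k ≤ D`). The sign vector of this code agrees
with `σ` on `R`, its key is `β σ Tⱼ` for `j ≤ k` and `β σ T_k` for `j > k` (put `tⱼ = 0` for
`j > k`). (Make `β` depend only on `σ` restricted to `R`, for example by `σ i = false` for
`i ∉ R`.) -/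
theorem exists_keys {D N : ℕ} (l : Fin N → Fin (D + 1) → ℝ) (hl : GenPos l)
    (R : Finset (Fin N)) (hR : D + 1 ≤ R.card) :
    ∃ 𝒦 : Finset (Key D N), 𝒦.card ≤ R.card ^ D * (2 * (2 * (D + 1)) ^ D) ∧
      ∀ x : Fin (D + 1) → ℝ, (∀ i ∈ R, l i ⬝ᵥ x ≠ 0) → ∃ κ ∈ 𝒦,
        (∀ i ∈ R, ∀ j, 0 ≤ (l i ⬝ᵥ x) * (l i ⬝ᵥ ray l (κ j).1.1 (κ j).2)) ∧
        ∃ t : Fin (D + 1) → ℝ, (∀ j, 0 ≤ t j) ∧
          x = ∑ j, t j • ray l (κ j).1.1 (κ j).2 := by
  classical
  obtain ⟨T0, -, hT0⟩ := Finset.exists_subset_card_eq (s := R) (n := D) (by omega)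
  set p0 : {T : Finset (Fin N) // T.card = D} × Bool := (⟨T0, hT0⟩, true)
  set key : (Fin D → R) × Bool × (Fin D → Bool) × (Fin D → Fin (D + 1)) → Key D N := fun c j =>
    k1_beta l R p0 (k1_sig l R c.1 c.2.1 c.2.2.1)
      ((univ.filter fun k => c.2.2.2 k ≤ j).image fun k => (c.1 k : Fin N)) with hkey
  refine ⟨univ.image key, ?_, ?_⟩
  · refine card_image_le.trans ?_
    rw [card_univ, Fintype.card_prod, Fintype.card_prod, Fintype.card_prod, Fintype.card_fun,
      Fintype.card_fun, Fintype.card_fun, Fintype.card_bool, Fintype.card_fin, Fintype.card_fin,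
      Fintype.card_coe, mul_pow]
  · intro x hx
    have hx0 : x ≠ 0 := by
      rintro rfl
      obtain ⟨i, hi⟩ := card_pos.1 (show 0 < R.card by omega)
      exact hx i hi (dotProduct_zero _)
    set σ : Fin N → Bool := fun i => if i ∈ R then decide (0 < l i ⬝ᵥ x) else false with hσ
    have hσR : ∀ i ∈ R, σ i = decide (0 < l i ⬝ᵥ x) := fun i hi => by
      rw [hσ]; beta_reduce; rw [if_pos hi]
    have hpos : ∀ i ∈ R, 0 < k1_sg (σ i) * (l i ⬝ᵥ x) := by
      intro i hi
      rw [hσR i hi]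
      rcases lt_or_gt_of_ne (hx i hi) with h | h
      · rw [decide_eq_false (not_lt.2 h.le)]
        simp only [k1_sg, Bool.false_eq_true, if_false]
        linarith
      · rw [decide_eq_true h]
        simp only [k1_sg, if_true]
        linarith
    have hC : k1_C l R σ x := fun i hi => (hpos i hi).le
    obtain ⟨F, S, t, hF, hg, hSD, hmono, hS0, ht, hsum⟩ :=
      k1_chain hl hR p0 D 0 x (by omega) hx0 hC (Nat.zero_le _)
    obtain ⟨hg1, hg2, hg3, hg4⟩ := hg
    have hFR : F ⊆ R := hg1.trans hg2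
    have hpF : (k1_beta l R p0 σ F).1.1 = F :=
      (eq_of_subset_of_card_le hg1 (by rw [hF, (k1_beta l R p0 σ F).1.2])).symm
    rw [hpF] at hg3 hg4
    set b := (k1_beta l R p0 σ F).2 with hb
    set e := F.orderIsoOfFin hF with he
    set I : Fin D → R := fun k => ⟨e k, hFR (e k).2⟩ with hI
    have hIv : ∀ k, (I k : Fin N) = (e k : Fin N) := fun k => rfl
    have hex : ∀ k, ∃ n, (e k : Fin N) ∈ S n := fun k => ⟨D, by rw [hSD]; exact (e k).2⟩
    have hfle : ∀ k, Nat.find (hex k) ≤ D :=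
      fun k => Nat.find_min' (hex k) (by rw [hSD]; exact (e k).2)
    set lev : Fin D → Fin (D + 1) := fun k => ⟨Nat.find (hex k), Nat.lt_succ_of_le (hfle k)⟩
      with hlev
    have himS : ∀ j : Fin (D + 1),
        ((univ.filter fun k => lev k ≤ j).image fun k => (I k : Fin N)) = S j := by
      intro j
      ext i
      rw [mem_image]
      constructor
      · rintro ⟨k, hk, rfl⟩
        have hk' : lev k ≤ j := (mem_filter.1 hk).2
        have h1 : Nat.find (hex k) ≤ (j : ℕ) := hk'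
        exact hmono h1 (Nat.find_spec (hex k))
      · intro hi
        have hiF : i ∈ F := by
          rw [← hSD]
          exact hmono (show (j : ℕ) ≤ D by omega) hi
        obtain ⟨k, hk⟩ := e.surjective ⟨i, hiF⟩
        have hki : (e k : Fin N) = i := by rw [hk]
        refine ⟨k, mem_filter.2 ⟨mem_univ _, ?_⟩, hki⟩
        show Nat.find (hex k) ≤ (j : ℕ)
        exact Nat.find_min' (hex k) (by rw [hki]; exact hi)
    have himF : (univ.image fun k => (I k : Fin N)) = F := by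
      ext i
      rw [mem_image]
      constructor
      · rintro ⟨k, -, rfl⟩
        exact (e k).2
      · intro hi
        obtain ⟨k, hk⟩ := e.surjective ⟨i, hi⟩
        exact ⟨k, mem_univ _, by rw [hIv, hk]⟩
    have hsig : k1_sig l R I b (fun k => σ (I k)) = σ := by
      funext i
      unfold k1_sig
      by_cases hiR : i ∈ R
      · rw [if_pos hiR]
        by_cases h : ∃ c, (I c : Fin N) = i
        · rw [dif_pos h]
          have h1 := h.choose_spec
          show σ (I h.choose : Fin N) = σ i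
          rw [h1]
        · rw [dif_neg h, himF]
          have hiF : i ∉ F := by
            intro hi
            obtain ⟨k, hk⟩ := e.surjective ⟨i, hi⟩
            exact h ⟨k, by rw [hIv, hk]⟩
          have hne : l i ⬝ᵥ ray l F b ≠ 0 := by
            intro h0
            have h1 := k1_card hl hg3 (T := insert i F) (by
              intro i' hi'
              rcases mem_insert.1 hi' with rfl | h2
              · exact h0
              · exact k1_kill l F b i' h2)
            rw [card_insert_of_notMem hiF] at h1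
            omega
          have h2 := hg4 i hiR
          rw [hσR i hiR] at h2 ⊢
          by_cases h3 : 0 < l i ⬝ᵥ x
          · rw [decide_eq_true h3] at h2 ⊢
            simp only [k1_sg, if_true, one_mul] at h2
            exact decide_eq_true (lt_of_le_of_ne h2 (Ne.symm hne))
          · rw [decide_eq_false h3] at h2 ⊢
            simp only [k1_sg, Bool.false_eq_true, if_false] at h2
            exact decide_eq_false (by linarith)
      · rw [if_neg hiR, hσ]
        beta_reduce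
        rw [if_neg hiR]
    have hkeyeq : key (I, b, (fun k => σ (I k)), lev) =
        fun j : Fin (D + 1) => k1_beta l R p0 σ (S (j : ℕ)) := by
      funext j
      rw [hkey]
      beta_reduce
      dsimp only
      rw [hsig, himS]
    refine ⟨_, mem_image_of_mem key (mem_univ (I, b, (fun k => σ (I k)), lev)), ?_, ?_⟩
    · rw [hkeyeq]
      intro i hi j
      have hSF : S j ⊆ F := by
        rw [← hSD]
        exact hmono (show (j : ℕ) ≤ D by omega)
      have h1 : k1_Good l R σ (S j) (k1_beta l R p0 σ (S j)) := by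
        apply k1_beta_good
        refine ⟨k1_beta l R p0 σ F, hSF.trans hg1, hg2, ?_, ?_⟩
        · rw [hpF]; exact hg3
        · rw [hpF]; exact hg4
      have h2 := h1.2.2.2 i hi
      have h3 := hpos i hi
      have h4 := k1_sg_mul (σ i)
      have h5 : (l i ⬝ᵥ x) * (l i ⬝ᵥ ray l (k1_beta l R p0 σ (S j)).1.1
          (k1_beta l R p0 σ (S j)).2) = (k1_sg (σ i) * (l i ⬝ᵥ x)) *
          (k1_sg (σ i) * (l i ⬝ᵥ ray l (k1_beta l R p0 σ (S j)).1.1
          (k1_beta l R p0 σ (S j)).2)) := by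
        calc _ = (k1_sg (σ i) * k1_sg (σ i)) * ((l i ⬝ᵥ x) *
            (l i ⬝ᵥ ray l (k1_beta l R p0 σ (S j)).1.1 (k1_beta l R p0 σ (S j)).2)) := by
              rw [h4, one_mul]
          _ = _ := by ring
      show 0 ≤ (l i ⬝ᵥ x) * (l i ⬝ᵥ ray l (k1_beta l R p0 σ (S j)).1.1
          (k1_beta l R p0 σ (S j)).2)
      rw [h5]
      exact mul_nonneg h3.le h2
    · rw [hkeyeq]
      refine ⟨fun j => t j, fun j => ht j, ?_⟩
      have h1 : Icc 0 D = range (D + 1) := by
        ext i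
        simp only [mem_Icc, mem_range]
        omega
      rw [hsum, h1, sum_range]

end Pool.Agent.Helper69.LB
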