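import Mathlib

/-! Project LB, piece K2: random samples. -/

open Finset

namespace Pool.Agent.Helper69.LB

/-- Proof. Let `m = Q.card`. For a `κ` with `m ≤ r * (X κ).card` the number of the functions
`Fin N₀ → Q` which avoid `X κ` is `(m - (X κ).card) ^ N₀ ≤ (m * (1 - 1 / r)) ^ N₀`. The sum over
`κ` is less than `m ^ N₀`, so some function avoids none of these `X κ`. Take its image. -/
theorem exists_sample {K β : Type} [Fintype K] [DecidableEq β] (Q : Finset β)
    (hQ : Q.Nonempty) (X : K → Finset β) (hX : ∀ κ, X κ ⊆ Q) {r N₀ : ℕ} (hr : 1 ≤ r)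
    (h : (Fintype.card K : ℝ) * (1 - 1 / r) ^ N₀ < 1) :
    ∃ R ⊆ Q, R.card ≤ N₀ ∧ ∀ κ, Q.card ≤ r * (X κ).card → ∃ q ∈ R, q ∈ X κ := by
  classical
  have hm : (0 : ℝ) < Q.card := by exact_mod_cast hQ.card_pos
  have hr0 : (0 : ℝ) < r := by exact_mod_cast hr
  by_contra hcon
  have key : Fintype.piFinset (fun _ : Fin N₀ => Q) ⊆
      (univ.filter fun κ => Q.card ≤ r * (X κ).card).biUnion
        (fun κ => Fintype.piFinset (fun _ : Fin N₀ => Q \ X κ)) := by
    intro f hf
    rw [Fintype.mem_piFinset] at hf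
    by_contra hf'
    apply hcon
    refine ⟨univ.image f, ?_, ?_, ?_⟩
    · intro q hq
      rw [mem_image] at hq
      obtain ⟨i, -, rfl⟩ := hq
      exact hf i
    · exact card_image_le.trans (by simp)
    · intro κ hκ
      by_contra hno
      apply hf'
      rw [mem_biUnion]
      refine ⟨κ, mem_filter.2 ⟨mem_univ _, hκ⟩, ?_⟩
      rw [Fintype.mem_piFinset]
      intro i
      rw [mem_sdiff]
      refine ⟨hf i, fun hi => hno ⟨f i, mem_image_of_mem _ (mem_univ _), hi⟩⟩
  have h1 := (card_le_card key).trans card_biUnion_le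
  have h2 : ((Q.card : ℝ)) ^ N₀ ≤ ∑ κ ∈ univ.filter (fun κ => Q.card ≤ r * (X κ).card),
      ((Q.card : ℝ) * (1 - 1 / r)) ^ N₀ := by
    calc ((Q.card : ℝ)) ^ N₀ = ((Fintype.piFinset (fun _ : Fin N₀ => Q)).card : ℝ) := by
          rw [Fintype.card_piFinset]
          simp
      _ ≤ ((∑ κ ∈ univ.filter (fun κ => Q.card ≤ r * (X κ).card),
            (Fintype.piFinset (fun _ : Fin N₀ => Q \ X κ)).card : ℕ) : ℝ) := by exact_mod_cast h1
      _ ≤ _ := by
          rw [Nat.cast_sum]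
          apply sum_le_sum
          intro κ hκ
          rw [mem_filter] at hκ
          rw [Fintype.card_piFinset]
          simp only [prod_const, card_univ, Fintype.card_fin, Nat.cast_pow]
          apply pow_le_pow_left₀ (Nat.cast_nonneg _)
          rw [card_sdiff_of_subset (hX κ), Nat.cast_sub (card_le_card (hX κ))]
          have h3 : (Q.card : ℝ) ≤ r * (X κ).card := by exact_mod_cast hκ.2
          have h4 : (Q.card : ℝ) / r ≤ (X κ).card := by
            rw [div_le_iff₀ hr0]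
            linarith
          have h5 : (Q.card : ℝ) * (1 - 1 / r) = Q.card - Q.card / r := by ring
          rw [h5]
          linarith
  rw [sum_const, nsmul_eq_mul, mul_pow] at h2
  have h6 : (0 : ℝ) ≤ 1 - 1 / r := by
    rw [sub_nonneg, div_le_one hr0]
    exact_mod_cast hr
  have h7 : ((univ.filter fun κ => Q.card ≤ r * (X κ).card).card : ℝ) ≤ Fintype.card K := by
    exact_mod_cast card_le_univ _
  have h8 : (0 : ℝ) < (Q.card : ℝ) ^ N₀ := by positivity
  have h9 : (0 : ℝ) ≤ (1 - 1 / (r : ℝ)) ^ N₀ := pow_nonneg h6 _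
  have h10 : ((univ.filter fun κ => Q.card ≤ r * (X κ).card).card : ℝ) *
      ((Q.card : ℝ) ^ N₀ * (1 - 1 / (r : ℝ)) ^ N₀) ≤
      (Q.card : ℝ) ^ N₀ * ((Fintype.card K : ℝ) * (1 - 1 / (r : ℝ)) ^ N₀) := by
    calc _ ≤ (Fintype.card K : ℝ) * ((Q.card : ℝ) ^ N₀ * (1 - 1 / (r : ℝ)) ^ N₀) :=
          mul_le_mul_of_nonneg_right h7 (by positivity)
      _ = _ := by ring
  have h11 : (Q.card : ℝ) ^ N₀ * ((Fintype.card K : ℝ) * (1 - 1 / (r : ℝ)) ^ N₀) <
      (Q.card : ℝ) ^ N₀ * 1 := mul_lt_mul_of_pos_left h h8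
  linarith

end Pool.Agent.Helper69.LB
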