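import Pool.Agent.Helper69.LB.Defs

/-! Project LB, piece S2: perturbation to general position. -/

open Finset Matrix

namespace Pool.Agent.Helper69.LB

/-- the moment vectors -/
private noncomputable def s2_v {E s : ℕ} (i : Fin s) (j : Fin E) : ℝ := (i : ℝ) ^ (j : ℕ)

private theorem s2_v_det {E s : ℕ} (J : Fin E → Fin s) (hJ : Function.Injective J) :
    (Matrix.of fun i => s2_v (E := E) (J i)).det ≠ 0 := by
  have h : (Matrix.of fun i => s2_v (E := E) (J i)) =
      Matrix.vandermonde (fun i => ((J i : ℕ) : ℝ)) := by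
    ext i j
    simp [s2_v, Matrix.vandermonde_apply]
  rw [h, Matrix.det_vandermonde_ne_zero_iff]
  intro a b hab
  apply hJ
  apply Fin.ext
  have hab' : ((J a : ℕ) : ℝ) = ((J b : ℕ) : ℝ) := hab
  exact_mod_cast hab'

/-- the determinant as a polynomial -/
private noncomputable def s2_P {E s : ℕ} (y : Fin s → Fin E → ℝ) (J : Fin E → Fin s) :
    Polynomial ℝ :=
  (Matrix.of fun i j => (Polynomial.C (y (J i) j) * (1 - Polynomial.X) +
    Polynomial.C (s2_v (J i) j) * Polynomial.X : Polynomial ℝ)).det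

private theorem s2_P_eval {E s : ℕ} (y : Fin s → Fin E → ℝ) (J : Fin E → Fin s) (t : ℝ) :
    (s2_P y J).eval t =
      (Matrix.of fun i => ((1 - t) • y (J i) + t • s2_v (J i) : Fin E → ℝ)).det := by
  rw [s2_P, ← Polynomial.coe_evalRingHom, RingHom.map_det]
  congr 1
  ext i j
  simp
  ring

private theorem s2_P_ne {E s : ℕ} (y : Fin s → Fin E → ℝ) (J : Fin E → Fin s)
    (hJ : Function.Injective J) : s2_P y J ≠ 0 := by
  intro h0
  have h1 := s2_P_eval y J 1
  rw [h0] at h1
  simp only [Polynomial.eval_zero, sub_self, zero_smul, one_smul, zero_add] at h1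
  exact s2_v_det J hJ h1.symm

/-- Proof. Let `v i = (1, i, i ^ 2, ..., i ^ (E - 1))`; by the Vandermonde determinant `v` is in
general position. Take `y' = (1 - t) • y + t • v` with small `t > 0`: for every injective `J` the
determinant is a polynomial in `t`, not `0` at `t = 1`, so it has finitely many zeros; and the
conditions on the signs hold for all small `t ≥ 0` by continuity. -/
theorem exists_genPos {E s n : ℕ} (y : Fin s → Fin E → ℝ) (z : Fin n → Fin E → ℝ)
    (h : ∀ i p, y i ⬝ᵥ z p ≠ 0) :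
    ∃ y' : Fin s → Fin E → ℝ, GenPos y' ∧ ∀ i p, 0 < (y' i ⬝ᵥ z p) * (y i ⬝ᵥ z p) := by
  have h1 : ∀ᶠ t : ℝ in nhdsWithin 0 {0}ᶜ, ∀ J : Fin E → Fin s, Function.Injective J →
      (s2_P y J).eval t ≠ 0 := by
    rw [Filter.eventually_all]
    intro J
    by_cases hJ : Function.Injective J
    · have hfin : {t : ℝ | (s2_P y J).eval t = 0}.Finite := by
        have := (s2_P y J).roots.toFinset.finite_toSet
        refine this.subset ?_
        intro t ht
        simp only [Finset.mem_coe, Multiset.mem_toFinset]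
        exact (Polynomial.mem_roots (s2_P_ne y J hJ)).2 ht
      have hc := hfin.compl_mem_cofinite
      have hle : nhdsWithin (0 : ℝ) {0}ᶜ ≤ Filter.cofinite := by
        exact nhdsNE_le_cofinite 0
      filter_upwards [hle hc] with t ht _
      exact ht
    · exact Filter.Eventually.of_forall (fun t hh => absurd hh hJ)
  have h2 : ∀ᶠ t : ℝ in nhdsWithin 0 {0}ᶜ, ∀ i p,
      0 < (((1 - t) • y i + t • s2_v i : Fin E → ℝ) ⬝ᵥ z p) * (y i ⬝ᵥ z p) := by
    apply Filter.Eventually.filter_mono nhdsWithin_le_nhds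
    rw [Filter.eventually_all]
    intro i
    rw [Filter.eventually_all]
    intro p
    have hcont : Continuous (fun t : ℝ =>
        (((1 - t) • y i + t • s2_v i : Fin E → ℝ) ⬝ᵥ z p) * (y i ⬝ᵥ z p)) := by
      simp only [add_dotProduct, smul_dotProduct, smul_eq_mul]
      fun_prop
    have h0 : 0 < (fun t : ℝ =>
        (((1 - t) • y i + t • s2_v i : Fin E → ℝ) ⬝ᵥ z p) * (y i ⬝ᵥ z p)) 0 := by
      simp only [sub_zero, one_smul, zero_smul, add_zero]
      exact mul_self_pos.2 (h i p)
    exact hcont.continuousAt.eventually (lt_mem_nhds h0)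
  obtain ⟨t, ht1, ht2⟩ := (h1.and h2).exists
  refine ⟨fun i => (1 - t) • y i + t • s2_v i, ?_, ht2⟩
  intro J hJ
  have := ht1 J hJ
  rwa [s2_P_eval] at this

end Pool.Agent.Helper69.LB
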