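import Mathlib

/-! Project LB, piece L1: small groups inside the cells. -/

open Finset

namespace Pool.Agent.Helper69.LB

/-- Proof. The rank of `p` is the number of the `p' < p` with `cell p' = cell p`; the block of `p`
is the set of the `p'` in the same cell with `rank p' / s = rank p / s`; `grp p` is the least
element of the block of `p`. A block has at most `s` elements (the rank is injective on a cell). A
cell with `m` elements has at most `m / s + 1` blocks; the sum over the cells is at most
`n / s + t` (`∑ ⌊m_c / s⌋ ≤ ⌊∑ m_c / s⌋`). -/
theorem exists_groups {n t s : ℕ} (hs : 1 ≤ s) (cell : Fin n → Fin t) :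
    ∃ grp : Fin n → Fin n, (∀ p p', grp p = grp p' → cell p = cell p') ∧
      (∀ g, (univ.filter fun p => grp p = g).card ≤ s) ∧
      (univ.image grp).card ≤ t + n / s := by
  classical
  -- the rank of an element in its cell
  set rank : Fin n → ℕ := fun p => (univ.filter fun p' => p' < p ∧ cell p' = cell p).card
    with hrank
  set key : Fin n → (_ : Fin t) × ℕ := fun p => ⟨cell p, rank p / s⟩ with hkey
  have hne : ∀ p, (univ.filter fun p' => key p' = key p).Nonempty := fun p => ⟨p, by simp⟩
  set grp : Fin n → Fin n := fun p => (univ.filter fun p' => key p' = key p).min' (hne p)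
    with hgrp
  have hkg : ∀ p, key (grp p) = key p := by
    intro p
    have := Finset.min'_mem _ (hne p)
    exact (Finset.mem_filter.1 this).2
  have hg1 : ∀ p p', grp p = grp p' → key p = key p' := by
    intro p p' h
    rw [← hkg p, ← hkg p', h]
  -- the rank is injective on a cell
  have hlt : ∀ p p', cell p = cell p' → p < p' → rank p < rank p' := by
    intro p p' hc h
    apply Finset.card_lt_card
    refine ⟨fun q hq => ?_, fun hsub => ?_⟩
    · simp only [Finset.mem_filter, Finset.mem_univ, true_and] at hq ⊢
      exact ⟨hq.1.trans h, hq.2.trans hc⟩
    · have hp : p ∈ univ.filter fun q => q < p' ∧ cell q = cell p' := by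
        simp [h, hc]
      have := hsub hp
      simp at this
  have hinj : ∀ p p', cell p = cell p' → rank p = rank p' → p = p' := by
    intro p p' hc hr
    rcases lt_trichotomy p p' with h | h | h
    · exact absurd hr (hlt p p' hc h).ne
    · exact h
    · exact absurd hr (hlt p' p hc.symm h).ne'
  have hkc : ∀ p p', key p = key p' → cell p = cell p' ∧ rank p / s = rank p' / s := by
    intro p p' h
    simp only [hkey, Sigma.mk.injEq, heq_eq_eq] at h
    exact h
  refine ⟨grp, fun p p' h => (hkc p p' (hg1 p p' h)).1, fun g => ?_, ?_⟩
  · by_cases hg : ∃ p0, grp p0 = g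
    · obtain ⟨p0, hp0⟩ := hg
      have hc : (univ.filter fun p => grp p = g).card ≤
          (Finset.Ico (rank p0 / s * s) (rank p0 / s * s + s)).card := by
        refine Finset.card_le_card_of_injOn rank ?_ ?_
        · intro p hp
          have hp' : grp p = g := by simpa using hp
          have h := (hkc p p0 (hg1 p p0 (hp'.trans hp0.symm))).2
          simp only [Finset.coe_Ico, Set.mem_Ico]
          rw [← h]
          have h1 := Nat.div_add_mod (rank p) s
          have h2 := Nat.mod_lt (rank p) (show 0 < s by omega)
          rw [mul_comm] at h1
          constructor <;> omega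
        · intro p hp p' hp' hr
          have hp1 : grp p = g := by simpa using hp
          have hp2 : grp p' = g := by simpa using hp'
          exact hinj p p' (hkc p p' (hg1 p p' (hp1.trans hp2.symm))).1 hr
      simpa using hc
    · have : (univ.filter fun p => grp p = g) = ∅ := by
        apply Finset.filter_eq_empty_iff.2
        intro p _ h
        exact hg ⟨p, h⟩
      rw [this]
      simp
  · -- the number of the groups
    set m : Fin t → ℕ := fun c => (univ.filter fun p => cell p = c).card with hm
    have h1 : (univ.image grp).card ≤ (univ.image key).card := by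
      refine Finset.card_le_card_of_injOn key ?_ ?_
      · intro g _
        simp
      · intro g hg g' hg' h
        have hg1' : ∃ p, grp p = g := by simpa using hg
        have hg2' : ∃ p, grp p = g' := by simpa using hg'
        obtain ⟨p, rfl⟩ := hg1'
        obtain ⟨p', rfl⟩ := hg2'
        rw [hkg, hkg] at h
        simp only [hgrp, h]
    have h2 : univ.image key ⊆ (univ : Finset (Fin t)).sigma fun c => Finset.range (m c / s + 1) := by
      intro k hk
      obtain ⟨p, -, rfl⟩ := Finset.mem_image.1 hk
      simp only [Finset.mem_sigma, Finset.mem_univ, true_and, Finset.mem_range, hkey]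
      have : rank p ≤ m (cell p) := by
        apply Finset.card_le_card
        intro q hq
        simp only [Finset.mem_filter, Finset.mem_univ, true_and] at hq ⊢
        exact hq.2
      exact Nat.lt_succ_of_le (Nat.div_le_div_right this)
    have h3 : ∑ c, m c = n := by
      have := Finset.card_eq_sum_card_fiberwise (s := (univ : Finset (Fin n)))
        (t := (univ : Finset (Fin t))) (f := cell) (fun _ _ => by simp)
      simpa [hm] using this.symm
    have h4 : ∑ c, m c / s ≤ n / s := by
      rw [Nat.le_div_iff_mul_le (by omega), Finset.sum_mul]
      calc ∑ c, m c / s * s ≤ ∑ c, m c := Finset.sum_le_sum fun c _ => Nat.div_mul_le_self _ _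
        _ = n := h3
    calc (univ.image grp).card ≤ (univ.image key).card := h1
      _ ≤ ((univ : Finset (Fin t)).sigma fun c => Finset.range (m c / s + 1)).card :=
        Finset.card_le_card h2
      _ = ∑ c, (m c / s + 1) := by rw [Finset.card_sigma]; simp
      _ = ∑ c, m c / s + t := by rw [Finset.sum_add_distrib]; simp
      _ ≤ t + n / s := by omega

end Pool.Agent.Helper69.LB
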