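import Pool.Agent.Helper69.LB.Defs
import Pool.Agent.Helper69.LB.S3

/-! Project LB, piece S4: half-spaces are described by pointers. -/

open Finset Matrix

namespace Pool.Agent.Helper69.LB

/-- the vectors orthogonal to `D + 1` vectors in general position vanish -/
private theorem s4_zero {D s : ℕ} (x : Fin s → Fin (D + 1) → ℝ) (hx : GenPos x)
    (J : Fin (D + 1) → Fin s) (hJ : Function.Injective J) (w : Fin (D + 1) → ℝ)
    (h : ∀ i, x (J i) ⬝ᵥ w = 0) : w = 0 := by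
  apply Matrix.eq_zero_of_mulVec_eq_zero (hx J hJ)
  funext i
  exact h i

/-- the vectors of `T` leave a space of dimension at least two if `T` has less than `D`
elements -/
private theorem s4_card {D s : ℕ} (x : Fin s → Fin (D + 1) → ℝ) (T : Finset (Fin s))
    (θ : Fin (D + 1) → ℝ)
    (h : ∀ w : Fin (D + 1) → ℝ, (∀ k ∈ T, x k ⬝ᵥ w = 0) → ∃ c : ℝ, w = c • θ) :
    D ≤ T.card := by
  classical
  let A : Matrix T (Fin (D + 1)) ℝ := Matrix.of fun k => x k.1
  have h1 := LinearMap.finrank_range_add_finrank_ker A.mulVecLin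
  have h2 : Module.finrank ℝ (LinearMap.range A.mulVecLin) ≤ T.card := by
    have := Submodule.finrank_le (LinearMap.range A.mulVecLin)
    simpa using this
  have h3 : Module.finrank ℝ (LinearMap.ker A.mulVecLin) ≤ 1 := by
    have h4 : LinearMap.ker A.mulVecLin ≤ Submodule.span ℝ {θ} := by
      intro w hw
      rw [LinearMap.mem_ker, Matrix.mulVecLin_apply] at hw
      obtain ⟨c, hc⟩ := h w fun k hk => congrFun hw ⟨k, hk⟩
      rw [hc]
      exact Submodule.smul_mem _ _ (Submodule.mem_span_singleton_self θ)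
    exact (Submodule.finrank_mono h4).trans
      ((finrank_span_le_card ({θ} : Set (Fin (D + 1) → ℝ))).trans (by simp))
  have h5 : Module.finrank ℝ (Fin (D + 1) → ℝ) = D + 1 := by simp
  omega

/-- the determinant as a function of the last row -/
private theorem s4_det {D : ℕ} (A : Matrix (Fin (D + 1)) (Fin (D + 1)) ℝ)
    (θ : Fin (D + 1) → ℝ) (hθ : θ ≠ 0) (hA : ∀ i : Fin D, A i.castSucc ⬝ᵥ θ = 0)
    (u v : Fin (D + 1) → ℝ) :
    (A.updateRow (Fin.last D) v).det * (u ⬝ᵥ θ) =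
      (A.updateRow (Fin.last D) u).det * (v ⬝ᵥ θ) := by
  have h1 : (A.updateRow (Fin.last D) ((u ⬝ᵥ θ) • v + (-(v ⬝ᵥ θ)) • u)).det = 0 := by
    apply Matrix.exists_mulVec_eq_zero_iff.1
    refine ⟨θ, hθ, ?_⟩
    funext i
    refine Fin.lastCases ?_ (fun j => ?_) i
    · show (A.updateRow (Fin.last D) ((u ⬝ᵥ θ) • v + (-(v ⬝ᵥ θ)) • u)) (Fin.last D) ⬝ᵥ θ = 0
      rw [Matrix.updateRow_self, add_dotProduct, smul_dotProduct, smul_dotProduct]
      simp only [smul_eq_mul]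
      ring
    · show (A.updateRow (Fin.last D) ((u ⬝ᵥ θ) • v + (-(v ⬝ᵥ θ)) • u)) j.castSucc ⬝ᵥ θ = 0
      rw [Matrix.updateRow_ne (Fin.castSucc_lt_last j).ne]
      exact hA j
  rw [Matrix.det_updateRow_add, Matrix.det_updateRow_smul, Matrix.det_updateRow_smul] at h1
  linarith

/-- Proof. Let `σ k` be the sign of `a ⬝ᵥ x k` and apply S3 to the functionals `l k = σ k • x k`
(they separate the vectors `w` since any `D + 1` of the `x k` are linearly independent and
`D + 1 ≤ s`) and the vector `a`. It gives `θ ≠ 0` with `0 ≤ σ k * (x k ⬝ᵥ θ)`; let `T` be the set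
of the `k` with `x k ⬝ᵥ θ = 0`. By general position `T` has at most `D` elements, and since the
vectors orthogonal to all `x k`, `k ∈ T`, are multiples of `θ`, it has exactly `D` elements.
Let `I : Fin D → Fin s` be an enumeration of `T`. For `k ∉ T` the tuple `(I, k)` is injective and
`det (x (I 0), ..., x (I (D - 1)), x k) = c * (x k ⬝ᵥ θ)` with a constant `c ≠ 0` (both sides are
linear in the last row and vanish on the `x (I j)`; the determinant is not `0`). So
`0 < a ⬝ᵥ x k ↔ 0 < x k ⬝ᵥ θ ↔ (0 < det ↔ 0 < c)`. Take the pointer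
`(I, decide (0 < c), {j | 0 < a ⬝ᵥ x (I j)})`. -/
theorem exists_ptr {D s : ℕ} (hs : D + 1 ≤ s) (x : Fin s → Fin (D + 1) → ℝ) (hx : GenPos x)
    (a : Fin (D + 1) → ℝ) (ha : ∀ k, a ⬝ᵥ x k ≠ 0) :
    ∃ π : Ptr D s, ∀ k, 0 < a ⬝ᵥ x k ↔ dcd (chi x) π k := by
  classical
  let σ : Fin s → ℝ := fun k => if 0 < a ⬝ᵥ x k then 1 else -1
  have hσ0 : ∀ k, σ k ≠ 0 := by
    intro k
    show (if 0 < a ⬝ᵥ x k then (1 : ℝ) else -1) ≠ 0
    split_ifs <;> norm_num
  have hl : ∀ k (w : Fin (D + 1) → ℝ), (σ k • x k) ⬝ᵥ w = σ k * (x k ⬝ᵥ w) := by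
    intro k w
    rw [smul_dotProduct, smul_eq_mul]
  have hl0 : ∀ k (w : Fin (D + 1) → ℝ), (σ k • x k) ⬝ᵥ w = 0 ↔ x k ⬝ᵥ w = 0 := by
    intro k w
    rw [hl, mul_eq_zero]
    exact ⟨fun h => h.resolve_left (hσ0 k), Or.inr⟩
  have ha0 : a ≠ 0 := by
    intro h0
    exact ha ⟨0, by omega⟩ (by rw [h0, zero_dotProduct])
  obtain ⟨θ, hθ0, hθ1, -, hθ3⟩ := exists_ray (fun k => σ k • x k)
    (fun w hw => s4_zero x hx (Fin.castLE hs) (Fin.castLE_injective hs) w
      fun i => (hl0 _ _).1 (hw _)) a ha0 (fun k => by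
        show 0 ≤ (σ k • x k) ⬝ᵥ a
        rw [hl, dotProduct_comm]
        show 0 ≤ (if 0 < a ⬝ᵥ x k then (1 : ℝ) else -1) * (a ⬝ᵥ x k)
        split_ifs with h
        · linarith
        · linarith)
  let T : Finset (Fin s) := univ.filter fun k => x k ⬝ᵥ θ = 0
  have hT : ∀ k, k ∈ T ↔ x k ⬝ᵥ θ = 0 := by
    intro k
    simp [T]
  have hT1 : D ≤ T.card := by
    apply s4_card x T θ
    intro w hw
    apply hθ3 w
    intro k hk
    exact (hl0 k w).2 (hw k ((hT k).2 ((hl0 k θ).1 hk)))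
  have hT2 : T.card ≤ D := by
    by_contra hcon
    push Not at hcon
    obtain ⟨T', hT', hc'⟩ := Finset.exists_subset_card_eq (show D + 1 ≤ T.card from hcon)
    apply hθ0
    apply s4_zero x hx (T'.orderEmbOfFin hc') (T'.orderEmbOfFin hc').injective θ
    intro i
    exact (hT _).1 (hT' (Finset.orderEmbOfFin_mem T' hc' i))
  have hTc : T.card = D := le_antisymm hT2 hT1
  let I : Fin D → Fin s := T.orderEmbOfFin hTc
  have hI : ∀ j, I j ∈ T := fun j => Finset.orderEmbOfFin_mem T hTc j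
  have hIinj : Function.Injective I := (T.orderEmbOfFin hTc).injective
  have hIsurj : ∀ k ∈ T, ∃ j, I j = k := by
    intro k hk
    have h1 : k ∈ Set.range (T.orderEmbOfFin hTc) := by
      rw [Finset.range_orderEmbOfFin]
      exact hk
    exact h1
  have hsn : ∀ k, k ∉ T → Function.Injective (Fin.snoc (α := fun _ => Fin s) I k) := by
    intro k hk
    rw [Fin.snoc_injective_iff]
    refine ⟨hIinj, ?_⟩
    rintro ⟨j, hj⟩
    exact hk (hj ▸ hI j)
  obtain ⟨k₀, hk₀⟩ : ∃ k, k ∉ T := by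
    by_contra hcon
    push Not at hcon
    have h1 : T = univ := Finset.eq_univ_of_forall hcon
    have h2 : T.card = s := by rw [h1]; simp
    omega
  let A : Matrix (Fin (D + 1)) (Fin (D + 1)) ℝ :=
    Matrix.of fun i => x (Fin.snoc (α := fun _ => Fin s) I k₀ i)
  have hA : ∀ i : Fin D, A i.castSucc ⬝ᵥ θ = 0 := by
    intro i
    show x (Fin.snoc (α := fun _ => Fin s) I k₀ i.castSucc) ⬝ᵥ θ = 0
    rw [Fin.snoc_castSucc]
    exact (hT _).1 (hI i)
  have hAk : ∀ k, (Matrix.of fun i => x (Fin.snoc (α := fun _ => Fin s) I k i)) =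
      A.updateRow (Fin.last D) (x k) := by
    intro k
    ext i j
    revert j
    refine Fin.lastCases ?_ (fun i' => ?_) i
    · intro j
      rw [Matrix.updateRow_self]
      show x (Fin.snoc (α := fun _ => Fin s) I k (Fin.last D)) j = x k j
      rw [Fin.snoc_last]
    · intro j
      rw [Matrix.updateRow_ne (Fin.castSucc_lt_last i').ne]
      show x (Fin.snoc (α := fun _ => Fin s) I k i'.castSucc) j =
        x (Fin.snoc (α := fun _ => Fin s) I k₀ i'.castSucc) j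
      rw [Fin.snoc_castSucc, Fin.snoc_castSucc]
  have hx₀ : x k₀ ⬝ᵥ θ ≠ 0 := fun h => hk₀ ((hT _).2 h)
  set c : ℝ := (A.updateRow (Fin.last D) (x k₀)).det / (x k₀ ⬝ᵥ θ) with hc
  have hdet₀ : (A.updateRow (Fin.last D) (x k₀)).det ≠ 0 := by
    rw [← hAk]
    exact hx _ (hsn k₀ hk₀)
  have hc0 : c ≠ 0 := div_ne_zero hdet₀ hx₀
  have hdet : ∀ k, (Matrix.of fun i => x (Fin.snoc (α := fun _ => Fin s) I k i)).det =
      c * (x k ⬝ᵥ θ) := by
    intro k
    rw [hAk, hc, div_mul_eq_mul_div, eq_div_iff hx₀]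
    exact s4_det A θ hθ0 hA (x k₀) (x k)
  have hsgn : ∀ k, k ∉ T → (0 < a ⬝ᵥ x k ↔ 0 < x k ⬝ᵥ θ) := by
    intro k hk
    have h0 : x k ⬝ᵥ θ ≠ 0 := fun h => hk ((hT _).2 h)
    have h1 : 0 ≤ σ k * (x k ⬝ᵥ θ) := by
      rw [← hl]
      exact hθ1 k
    have h2 : 0 ≤ (if 0 < a ⬝ᵥ x k then (1 : ℝ) else -1) * (x k ⬝ᵥ θ) := h1
    split_ifs at h2 with h
    · refine ⟨fun _ => lt_of_le_of_ne (by linarith) (Ne.symm h0), fun _ => h⟩
    · refine ⟨fun h' => absurd h' h, fun h' => ?_⟩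
      linarith
  refine ⟨(I, decide (0 < c), {j | 0 < a ⬝ᵥ x (I j)}), fun k => ?_⟩
  show 0 < a ⬝ᵥ x k ↔ (∃ j ∈ {j | 0 < a ⬝ᵥ x (I j)}, I j = k) ∨ ((∀ j, I j ≠ k) ∧
    ((∃ h : Function.Injective (Fin.snoc (α := fun _ => Fin s) I k),
      (⟨_, h⟩ : Inj (D + 1) s) ∈ chi x) ↔ decide (0 < c) = true))
  by_cases hk : k ∈ T
  · obtain ⟨j, hj⟩ := hIsurj k hk
    constructor
    · intro h
      exact Or.inl ⟨j, by show 0 < a ⬝ᵥ x (I j); rw [hj]; exact h, hj⟩
    · rintro (⟨j', h1, h2⟩ | ⟨h1, -⟩)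
      · have h3 : 0 < a ⬝ᵥ x (I j') := h1
        rw [h2] at h3
        exact h3
      · exact absurd hj (h1 j)
  · have hne : ∀ j, I j ≠ k := fun j hj => hk (hj ▸ hI j)
    have hiff : (∃ h : Function.Injective (Fin.snoc (α := fun _ => Fin s) I k),
        (⟨_, h⟩ : Inj (D + 1) s) ∈ chi x) ↔ 0 < c * (x k ⬝ᵥ θ) := by
      rw [← hdet]
      constructor
      · rintro ⟨h, h'⟩
        exact h'
      · intro h'
        exact ⟨hsn k hk, h'⟩
    rw [hiff, decide_eq_true_iff, hsgn k hk]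
    have h0 : x k ⬝ᵥ θ ≠ 0 := fun h => hk ((hT _).2 h)
    constructor
    · intro hpos
      refine Or.inr ⟨hne, ?_⟩
      constructor
      · intro h
        exact (pos_iff_pos_of_mul_pos h).2 hpos
      · intro h
        exact mul_pos h hpos
    · rintro (⟨j, -, hj⟩ | ⟨-, h⟩)
      · exact absurd hj (hne j)
      · by_contra hcon
        have hneg : x k ⬝ᵥ θ < 0 := lt_of_le_of_ne (not_lt.1 hcon) h0
        rcases lt_or_gt_of_ne hc0 with h1 | h1
        · have := h.1 (mul_pos_of_neg_of_neg h1 hneg)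
          linarith
        · have := h.2 h1
          have h2 : c * (x k ⬝ᵥ θ) < 0 := mul_neg_of_pos_of_neg h1 hneg
          linarith

end Pool.Agent.Helper69.LB
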