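import Pool.Agent.Helper69.LB.S2
import Pool.Agent.Helper69.LB.S4

/-! Project LB, piece S5: the code of a group. -/

open Finset Matrix

namespace Pool.Agent.Helper69.LB

/-- Proof. S2 for the vectors `x (e k)` and the test vectors `a q`, then S4. -/
theorem coded {D s n : ℕ} (hs : D + 1 ≤ s) (x a : Fin n → Fin (D + 1) → ℝ)
    (h : ∀ p q, a q ⬝ᵥ x p ≠ 0) (e : Fin s → Fin n) :
    ∃ c : Chiro (D + 1) s, ∀ q, ∃ π : Ptr D s, ∀ k, 0 < a q ⬝ᵥ x (e k) ↔ dcd c.1 π k := by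
  obtain ⟨y', hy', hsgn⟩ := exists_genPos (fun k => x (e k)) a (fun i p => by
    rw [dotProduct_comm]; exact h (e i) p)
  refine ⟨⟨chi y', y', hy', rfl⟩, fun q => ?_⟩
  have hne : ∀ k, a q ⬝ᵥ y' k ≠ 0 := by
    intro k h0
    have h1 := hsgn k q
    rw [dotProduct_comm] at h0
    rw [h0, zero_mul] at h1
    exact lt_irrefl _ h1
  obtain ⟨π, hπ⟩ := exists_ptr hs y' hy' (a q) hne
  refine ⟨π, fun k => ?_⟩
  rw [← hπ k]
  have h1 := hsgn k q
  rw [dotProduct_comm (y' k) (a q), dotProduct_comm (x (e k)) (a q)] at h1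
  rcases pos_and_pos_or_neg_and_neg_of_mul_pos h1 with h2 | h2
  · exact ⟨fun _ => h2.1, fun _ => h2.2⟩
  · exact ⟨fun h3 => absurd h3 (not_lt.2 h2.2.le), fun h3 => absurd h3 (not_lt.2 h2.1.le)⟩

end Pool.Agent.Helper69.LB
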