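import Pool.Agent.Helper69.LB.Z0
import Pool.Agent.Helper69.LB.S3

/-! Project LB2, piece KA1: the cells of a sample which meet the zone of a convex cone. -/

open Finset Matrix

namespace Pool.Agent.Helper69.LB

/-- the sign of a Boolean -/
private noncomputable def ka1_sg (b : Bool) : ℝ := if b then 1 else -1

private theorem ka1_sg_ne (b : Bool) : ka1_sg b ≠ 0 := by
  cases b <;> simp [ka1_sg]

private theorem ka1_sg_mul (b : Bool) : ka1_sg b * ka1_sg b = 1 := by
  cases b <;> simp [ka1_sg]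

/-- the closed cone of a sign vector -/
private def ka1_C {D N : ℕ} (l : Fin N → Fin (D + 1) → ℝ) (R : Finset (Fin N))
    (σ : Fin N → Bool) (y : Fin (D + 1) → ℝ) : Prop :=
  ∀ i ∈ R, 0 ≤ ka1_sg (σ i) * (l i ⬝ᵥ y)

/-- the pairs allowed for the set `T` -/
private def ka1_Good {D N : ℕ} (l : Fin N → Fin (D + 1) → ℝ) (R : Finset (Fin N))
    (σ : Fin N → Bool) (T : Finset (Fin N))
    (p : {T : Finset (Fin N) // T.card = D} × Bool) : Prop :=
  T ⊆ p.1.1 ∧ p.1.1 ⊆ R ∧ ray l p.1.1 p.2 ≠ 0 ∧ ka1_C l R σ (ray l p.1.1 p.2)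

/-- the pair chosen for the set `T`, with its ray in `A` if possible -/
private noncomputable def ka1_beta {D N : ℕ} (l : Fin N → Fin (D + 1) → ℝ) (R : Finset (Fin N))
    (A : ConvexCone ℝ (Fin (D + 1) → ℝ))
    (p0 : {T : Finset (Fin N) // T.card = D} × Bool) (σ : Fin N → Bool) (T : Finset (Fin N)) :
    {T : Finset (Fin N) // T.card = D} × Bool :=
  open Classical in
  if h : ∃ p, ka1_Good l R σ T p ∧ ray l p.1.1 p.2 ∈ A then h.choose
  else if h : ∃ p, ka1_Good l R σ T p then h.choose else p0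

private theorem ka1_beta_good {D N : ℕ} {l : Fin N → Fin (D + 1) → ℝ} {R : Finset (Fin N)}
    (A : ConvexCone ℝ (Fin (D + 1) → ℝ))
    (p0 : {T : Finset (Fin N) // T.card = D} × Bool) {σ : Fin N → Bool} {T : Finset (Fin N)}
    (h : ∃ p, ka1_Good l R σ T p) : ka1_Good l R σ T (ka1_beta l R A p0 σ T) := by
  unfold ka1_beta
  by_cases h1 : ∃ p, ka1_Good l R σ T p ∧ ray l p.1.1 p.2 ∈ A
  · rw [dif_pos h1]
    exact h1.choose_spec.1
  · rw [dif_neg h1, dif_pos h]
    exact h.choose_spec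

private theorem ka1_beta_mem {D N : ℕ} {l : Fin N → Fin (D + 1) → ℝ} {R : Finset (Fin N)}
    {A : ConvexCone ℝ (Fin (D + 1) → ℝ)}
    (p0 : {T : Finset (Fin N) // T.card = D} × Bool) {σ : Fin N → Bool} {T : Finset (Fin N)}
    (h : ∃ p, ka1_Good l R σ T p ∧ ray l p.1.1 p.2 ∈ A) :
    ray l (ka1_beta l R A p0 σ T).1.1 (ka1_beta l R A p0 σ T).2 ∈ A := by
  unfold ka1_beta
  rw [dif_pos h]
  exact h.choose_spec.2

private theorem ka1_ker {D N : ℕ} {l : Fin N → Fin (D + 1) → ℝ} (hl : GenPos l)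
    {T : Finset (Fin N)} (hT : D + 1 ≤ T.card) {w : Fin (D + 1) → ℝ}
    (hw : ∀ i ∈ T, l i ⬝ᵥ w = 0) : w = 0 := by
  have hdet := hl (T.orderEmbOfCardLe hT) (T.orderEmbOfCardLe hT).injective
  apply Matrix.eq_zero_of_mulVec_eq_zero hdet
  funext i
  exact hw _ (Finset.orderEmbOfCardLe_mem T hT i)

private theorem ka1_card {D N : ℕ} {l : Fin N → Fin (D + 1) → ℝ} (hl : GenPos l)
    {T : Finset (Fin N)} {w : Fin (D + 1) → ℝ} (hw0 : w ≠ 0)
    (hw : ∀ i ∈ T, l i ⬝ᵥ w = 0) : T.card ≤ D := by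
  by_contra hcon
  exact hw0 (ka1_ker hl (by omega) hw)

private theorem ka1_dim {D N : ℕ} (l : Fin N → Fin (D + 1) → ℝ)
    {T : Finset (Fin N)} {θ : Fin (D + 1) → ℝ}
    (h : ∀ w : Fin (D + 1) → ℝ, (∀ i ∈ T, l i ⬝ᵥ w = 0) → ∃ c : ℝ, w = c • θ) :
    D ≤ T.card := by
  set M : Matrix T (Fin (D + 1)) ℝ := Matrix.of fun i : T => l i
  have h1 := LinearMap.finrank_range_add_finrank_ker (Matrix.mulVecLin M)
  have h2 : Module.finrank ℝ (LinearMap.ker (Matrix.mulVecLin M)) ≤ 1 := by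
    have h3 : LinearMap.ker (Matrix.mulVecLin M) ≤ Submodule.span ℝ {θ} := by
      intro w hw
      rw [LinearMap.mem_ker, Matrix.mulVecLin_apply] at hw
      obtain ⟨c, hc⟩ := h w (fun i hi => congrFun hw ⟨i, hi⟩)
      rw [Submodule.mem_span_singleton]
      exact ⟨c, hc.symm⟩
    refine (Submodule.finrank_mono h3).trans ?_
    have h4 := finrank_span_le_card (R := ℝ) ({θ} : Set (Fin (D + 1) → ℝ))
    simpa using h4
  have h5 : Module.finrank ℝ (LinearMap.range (Matrix.mulVecLin M)) ≤ T.card := by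
    refine (Submodule.finrank_le _).trans ?_
    simp
  have h6 : Module.finrank ℝ (Fin (D + 1) → ℝ) = D + 1 := by simp
  omega

private theorem ka1_kerVec {E N : ℕ} {l : Fin N → Fin E → ℝ} {T : Finset (Fin N)}
    (h : ∃ v : Fin E → ℝ, v ≠ 0 ∧ (∀ i ∈ T, l i ⬝ᵥ v = 0) ∧
      ∀ w : Fin E → ℝ, (∀ i ∈ T, l i ⬝ᵥ w = 0) → ∃ c : ℝ, w = c • v) :
    kerVec l T ≠ 0 ∧ (∀ i ∈ T, l i ⬝ᵥ kerVec l T = 0) ∧
      ∀ w : Fin E → ℝ, (∀ i ∈ T, l i ⬝ᵥ w = 0) → ∃ c : ℝ, w = c • kerVec l T := by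
  unfold kerVec
  rw [dif_pos h]
  exact h.choose_spec

private theorem ka1_kill {E N : ℕ} (l : Fin N → Fin E → ℝ) (T : Finset (Fin N)) (b : Bool) :
    ∀ i ∈ T, l i ⬝ᵥ ray l T b = 0 := by
  have h0 : ∀ i ∈ T, l i ⬝ᵥ kerVec l T = 0 := by
    intro i hi
    by_cases h : ∃ v : Fin E → ℝ, v ≠ 0 ∧ (∀ i ∈ T, l i ⬝ᵥ v = 0) ∧
      ∀ w : Fin E → ℝ, (∀ i ∈ T, l i ⬝ᵥ w = 0) → ∃ c : ℝ, w = c • v
    · exact (ka1_kerVec h).2.1 i hi
    · unfold kerVec
      rw [dif_neg h, dotProduct_zero]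
  intro i hi
  unfold ray
  split_ifs
  · exact h0 i hi
  · rw [dotProduct_neg, h0 i hi, neg_zero]

/-- a pair exists for the tight set of every nonzero vector of the cone -/
private theorem ka1_exists {D N : ℕ} {l : Fin N → Fin (D + 1) → ℝ} (hl : GenPos l)
    {R : Finset (Fin N)} (hR : D + 1 ≤ R.card) {σ : Fin N → Bool} {x : Fin (D + 1) → ℝ}
    (hx : x ≠ 0) (hC : ka1_C l R σ x) :
    ∃ p, ka1_Good l R σ (R.filter fun i => l i ⬝ᵥ x = 0) p := by
  classical
  have hdot : ∀ (i : R) (w : Fin (D + 1) → ℝ),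
      (ka1_sg (σ i) • l i) ⬝ᵥ w = ka1_sg (σ i) * (l i ⬝ᵥ w) := by
    intro i w
    rw [smul_dotProduct, smul_eq_mul]
  have hz : ∀ (i : R) (w : Fin (D + 1) → ℝ),
      (ka1_sg (σ i) • l i) ⬝ᵥ w = 0 ↔ l i ⬝ᵥ w = 0 := by
    intro i w
    rw [hdot, mul_eq_zero]
    simp [ka1_sg_ne]
  obtain ⟨θ, hθ0, hθC, hθx, hθu⟩ := exists_ray (fun i : R => ka1_sg (σ i) • l i)
    (fun w hw => ka1_ker hl hR (fun i hi => (hz ⟨i, hi⟩ w).1 (hw ⟨i, hi⟩))) x hx
    (fun i => by rw [hdot]; exact hC i i.2)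
  set T' : Finset (Fin N) := R.filter fun i => l i ⬝ᵥ θ = 0 with hT'
  have hkill : ∀ i ∈ T', l i ⬝ᵥ θ = 0 := fun i hi => (mem_filter.1 hi).2
  have huniq : ∀ w : Fin (D + 1) → ℝ, (∀ i ∈ T', l i ⬝ᵥ w = 0) → ∃ c : ℝ, w = c • θ := by
    intro w hw
    apply hθu w
    intro i hi
    rw [hz] at hi ⊢
    exact hw i (mem_filter.2 ⟨i.2, hi⟩)
  have hcard : T'.card = D := le_antisymm (ka1_card hl hθ0 hkill) (ka1_dim l huniq)
  obtain ⟨hk0, hk1, hk2⟩ := ka1_kerVec (l := l) (T := T') ⟨θ, hθ0, hkill, huniq⟩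
  obtain ⟨c, hc⟩ := huniq (kerVec l T') hk1
  have hc0 : c ≠ 0 := by
    rintro rfl
    exact hk0 (by rw [hc, zero_smul])
  have hsub : (R.filter fun i => l i ⬝ᵥ x = 0) ⊆ T' := by
    intro i hi
    obtain ⟨hi1, hi2⟩ := mem_filter.1 hi
    exact mem_filter.2 ⟨hi1, (hz ⟨i, hi1⟩ θ).1 (hθx ⟨i, hi1⟩ ((hz ⟨i, hi1⟩ x).2 hi2))⟩
  have hfin : ∀ b : Bool, ∀ c' : ℝ, 0 < c' → ray l T' b = c' • θ →
      ka1_Good l R σ (R.filter fun i => l i ⬝ᵥ x = 0) (⟨T', hcard⟩, b) := by
    intro b c' hc' hb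
    refine ⟨hsub, filter_subset _ _, ?_, ?_⟩
    · show ray l T' b ≠ 0
      rw [hb]
      exact smul_ne_zero hc'.ne' hθ0
    · intro i hi
      show 0 ≤ ka1_sg (σ i) * (l i ⬝ᵥ ray l T' b)
      have h1 := hθC ⟨i, hi⟩
      rw [hdot] at h1
      rw [hb, dotProduct_smul, smul_eq_mul]
      have h2 : ka1_sg (σ i) * (c' * (l i ⬝ᵥ θ)) = c' * (ka1_sg (σ i) * (l i ⬝ᵥ θ)) := by ring
      rw [h2]
      exact mul_nonneg hc'.le h1
  rcases lt_or_gt_of_ne hc0 with hneg | hpos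
  · refine ⟨_, hfin false (-c) (by linarith) ?_⟩
    unfold ray
    rw [if_neg (by simp), hc, neg_smul]
  · refine ⟨_, hfin true c hpos ?_⟩
    unfold ray
    rw [if_pos rfl, hc]

/-- one step of the chain -/
private theorem ka1_step {D N : ℕ} {l : Fin N → Fin (D + 1) → ℝ} (hl : GenPos l)
    {R : Finset (Fin N)} (hR : D + 1 ≤ R.card)
    {σ : Fin N → Bool} {x : Fin (D + 1) → ℝ} (hC : ka1_C l R σ x)
    {p : {T : Finset (Fin N) // T.card = D} × Bool}
    (hp : ka1_Good l R σ (R.filter fun i => l i ⬝ᵥ x = 0) p) :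
    ∃ t : ℝ, 0 ≤ t ∧ ((x = t • ray l p.1.1 p.2 ∧ (R.filter fun i => l i ⬝ᵥ x = 0) = p.1.1) ∨
      (x - t • ray l p.1.1 p.2 ≠ 0 ∧ ka1_C l R σ (x - t • ray l p.1.1 p.2) ∧
        (R.filter fun i => l i ⬝ᵥ x = 0) ⊂
          (R.filter fun i => l i ⬝ᵥ (x - t • ray l p.1.1 p.2) = 0))) := by
  classical
  obtain ⟨hp1, hp2, hp3, hp4⟩ := hp
  set v := ray l p.1.1 p.2 with hv
  have hkill : ∀ i ∈ p.1.1, l i ⬝ᵥ v = 0 := ka1_kill l p.1.1 p.2
  have hex : (R.filter fun i => l i ⬝ᵥ v ≠ 0).Nonempty := by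
    by_contra hcon
    rw [not_nonempty_iff_eq_empty, filter_eq_empty_iff] at hcon
    exact hp3 (ka1_ker hl hR (fun i hi => by simpa using hcon hi))
  obtain ⟨i₀, hi₀, hmin⟩ := exists_min_image _ (fun i => (l i ⬝ᵥ x) / (l i ⬝ᵥ v)) hex
  obtain ⟨hi₀R, hi₀v⟩ := mem_filter.1 hi₀
  set t : ℝ := (l i₀ ⬝ᵥ x) / (l i₀ ⬝ᵥ v) with ht
  have hsg : ∀ i, ka1_sg (σ i) * ka1_sg (σ i) = 1 := fun i => ka1_sg_mul _
  have hpos : ∀ i ∈ R, l i ⬝ᵥ v ≠ 0 → 0 < ka1_sg (σ i) * (l i ⬝ᵥ v) := by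
    intro i hi hne
    exact lt_of_le_of_ne (hp4 i hi) (Ne.symm (mul_ne_zero (ka1_sg_ne _) hne))
  have hdiv : ∀ i, (l i ⬝ᵥ x) / (l i ⬝ᵥ v) =
      (ka1_sg (σ i) * (l i ⬝ᵥ x)) / (ka1_sg (σ i) * (l i ⬝ᵥ v)) := by
    intro i
    rw [mul_div_mul_left _ _ (ka1_sg_ne _)]
  have ht0 : 0 ≤ t := by
    rw [ht, hdiv]
    exact div_nonneg (hC i₀ hi₀R) (hpos i₀ hi₀R hi₀v).le
  have hval : ∀ i, l i ⬝ᵥ (x - t • v) = l i ⬝ᵥ x - t * (l i ⬝ᵥ v) := by
    intro i
    rw [dotProduct_sub, dotProduct_smul, smul_eq_mul]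
  have hC' : ka1_C l R σ (x - t • v) := by
    intro i hi
    rw [hval]
    by_cases hne : l i ⬝ᵥ v = 0
    · rw [hne, mul_zero, sub_zero]; exact hC i hi
    · have h1 := hmin i (mem_filter.2 ⟨hi, hne⟩)
      have h2 : t ≤ (l i ⬝ᵥ x) / (l i ⬝ᵥ v) := h1
      rw [hdiv, le_div_iff₀ (hpos i hi hne)] at h2
      have h3 : ka1_sg (σ i) * (l i ⬝ᵥ x - t * (l i ⬝ᵥ v)) =
          ka1_sg (σ i) * (l i ⬝ᵥ x) - t * (ka1_sg (σ i) * (l i ⬝ᵥ v)) := by ring
      rw [h3]
      linarith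
  have hi₀T : i₀ ∉ (R.filter fun i => l i ⬝ᵥ x = 0) := fun h => hi₀v (hkill i₀ (hp1 h))
  have hss : (R.filter fun i => l i ⬝ᵥ x = 0) ⊂
      (R.filter fun i => l i ⬝ᵥ (x - t • v) = 0) := by
    rw [ssubset_iff_of_subset]
    · refine ⟨i₀, mem_filter.2 ⟨hi₀R, ?_⟩, hi₀T⟩
      rw [hval, ht, div_mul_cancel₀ _ hi₀v, sub_self]
    · intro i hi
      obtain ⟨hiR, hix⟩ := mem_filter.1 hi
      refine mem_filter.2 ⟨hiR, ?_⟩
      rw [hval, hix, hkill i (hp1 hi), mul_zero, sub_zero]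
  refine ⟨t, ht0, ?_⟩
  by_cases h0 : x - t • v = 0
  · left
    have hxt : x = t • v := sub_eq_zero.1 h0
    refine ⟨hxt, subset_antisymm hp1 ?_⟩
    intro i hi
    refine mem_filter.2 ⟨hp2 hi, ?_⟩
    rw [hxt, dotProduct_smul, hkill i hi, smul_zero]
  · right
    exact ⟨h0, hC', hss⟩

/-- the chain of a vector of the cone -/
private theorem ka1_chain {D N : ℕ} {l : Fin N → Fin (D + 1) → ℝ} (hl : GenPos l)
    {R : Finset (Fin N)} (hR : D + 1 ≤ R.card) (A : ConvexCone ℝ (Fin (D + 1) → ℝ))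
    (p0 : {T : Finset (Fin N) // T.card = D} × Bool) {σ : Fin N → Bool} (n : ℕ) :
    ∀ (j : ℕ) (x : Fin (D + 1) → ℝ), j + n = D → x ≠ 0 → ka1_C l R σ x →
      j ≤ (R.filter fun i => l i ⬝ᵥ x = 0).card →
      ∃ (F : Finset (Fin N)) (S : ℕ → Finset (Fin N)) (t : ℕ → ℝ),
        F.card = D ∧ ka1_Good l R σ F (ka1_beta l R A p0 σ F) ∧ S D = F ∧ Monotone S ∧
        (ray l (ka1_beta l R A p0 σ F).1.1 (ka1_beta l R A p0 σ F).2 ∈ A → x ∈ A) ∧
        S j = (R.filter fun i => l i ⬝ᵥ x = 0) ∧ (∀ i, 0 ≤ t i) ∧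
        x = ∑ i ∈ Icc j D, t i • ray l (ka1_beta l R A p0 σ (S i)).1.1 (ka1_beta l R A p0 σ (S i)).2 := by
  classical
  induction n with
  | zero =>
    intro j x hj hx hC hcard
    have hg := ka1_beta_good A p0 (ka1_exists hl hR hx hC)
    obtain ⟨t, ht0, h | h⟩ := ka1_step hl hR hC hg
    · refine ⟨_, fun _ => R.filter fun i => l i ⬝ᵥ x = 0, fun i => if i = j then t else 0,
        ?_, hg, rfl, monotone_const, ?_, rfl, ?_, ?_⟩
      · rw [h.2]; exact (ka1_beta l R A p0 σ _).1.2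
      · intro hv
        have htp : 0 < t := by
          refine lt_of_le_of_ne ht0 ?_
          rintro rfl
          exact hx (by rw [h.1, zero_smul])
        rw [h.1]
        exact A.smul_mem htp hv
      · intro i
        dsimp only
        split_ifs
        · exact ht0
        · exact le_rfl
      · beta_reduce
        rw [sum_eq_single j]
        · rw [if_pos rfl]; exact h.1
        · intro i _ hne
          rw [if_neg hne, zero_smul]
        · intro hn
          exact absurd (mem_Icc.2 ⟨le_rfl, by omega⟩) hn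
    · exfalso
      obtain ⟨h0, -, hss⟩ := h
      have h1 := card_lt_card hss
      have h2 := ka1_card hl h0 (T := R.filter fun i => l i ⬝ᵥ
        (x - t • ray l (ka1_beta l R A p0 σ (R.filter fun i => l i ⬝ᵥ x = 0)).1.1
          (ka1_beta l R A p0 σ (R.filter fun i => l i ⬝ᵥ x = 0)).2) = 0)
        (fun i hi => (mem_filter.1 hi).2)
      omega
  | succ n ih =>
    intro j x hj hx hC hcard
    have hg := ka1_beta_good A p0 (ka1_exists hl hR hx hC)
    obtain ⟨t, ht0, h | h⟩ := ka1_step hl hR hC hg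
    · refine ⟨_, fun _ => R.filter fun i => l i ⬝ᵥ x = 0, fun i => if i = j then t else 0,
        ?_, hg, rfl, monotone_const, ?_, rfl, ?_, ?_⟩
      · rw [h.2]; exact (ka1_beta l R A p0 σ _).1.2
      · intro hv
        have htp : 0 < t := by
          refine lt_of_le_of_ne ht0 ?_
          rintro rfl
          exact hx (by rw [h.1, zero_smul])
        rw [h.1]
        exact A.smul_mem htp hv
      · intro i
        dsimp only
        split_ifs
        · exact ht0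
        · exact le_rfl
      · beta_reduce
        rw [sum_eq_single j]
        · rw [if_pos rfl]; exact h.1
        · intro i _ hne
          rw [if_neg hne, zero_smul]
        · intro hn
          exact absurd (mem_Icc.2 ⟨le_rfl, by omega⟩) hn
    · obtain ⟨h0, hC', hss⟩ := h
      have h1 := card_lt_card hss
      obtain ⟨F, S, t', hF, hgF, hSD, hmono, hvA, hSj, ht', hsum⟩ :=
        ih (j + 1) _ (by omega) h0 hC' (by omega)
      have hTF : (R.filter fun i => l i ⬝ᵥ x = 0) ⊆ F := by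
        rw [← hSD]
        refine hss.subset.trans ?_
        rw [← hSj]
        exact hmono (show j + 1 ≤ D by omega)
      refine ⟨F, fun i => if i ≤ j then R.filter fun i => l i ⬝ᵥ x = 0 else S i,
        fun i => if i ≤ j then t else t' i, hF, hgF, ?_, ?_, ?_, ?_, ?_, ?_⟩
      · beta_reduce
        rw [if_neg (by omega)]
        exact hSD
      · intro a b hab
        dsimp only
        split_ifs with h2 h3 h3
        · exact le_rfl
        · refine le_trans ?_ (hmono (show j + 1 ≤ b by omega))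
          rw [hSj]
          exact hss.subset
        · omega
        · exact hmono hab
      · intro hv
        have h2 := hvA hv
        have h3 : ray l (ka1_beta l R A p0 σ (R.filter fun i => l i ⬝ᵥ x = 0)).1.1
            (ka1_beta l R A p0 σ (R.filter fun i => l i ⬝ᵥ x = 0)).2 ∈ A :=
          ka1_beta_mem p0 ⟨_, ⟨hTF.trans hgF.1, hgF.2⟩, hv⟩
        rcases ht0.eq_or_lt with h4 | h4
        · rw [← h4, zero_smul, sub_zero] at h2
          exact h2
        · have h5 := A.add_mem h2 (A.smul_mem h4 h3)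
          rwa [sub_add_cancel] at h5
      · beta_reduce
        rw [if_pos le_rfl]
      · intro i
        dsimp only
        split_ifs
        · exact ht0
        · exact ht' i
      · have hIcc : Icc j D = insert j (Icc (j + 1) D) := by
          ext i
          simp only [mem_Icc, mem_insert]
          omega
        beta_reduce
        rw [hIcc, sum_insert (by simp), if_pos le_rfl, if_pos le_rfl]
        have hsum2 : ∑ i ∈ Icc (j + 1) D, (if i ≤ j then t else t' i) •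
            ray l (ka1_beta l R A p0 σ
              (if i ≤ j then R.filter fun i => l i ⬝ᵥ x = 0 else S i)).1.1
            (ka1_beta l R A p0 σ (if i ≤ j then R.filter fun i => l i ⬝ᵥ x = 0 else S i)).2 =
            ∑ i ∈ Icc (j + 1) D, t' i • ray l (ka1_beta l R A p0 σ (S i)).1.1
              (ka1_beta l R A p0 σ (S i)).2 := by
          apply sum_congr rfl
          intro i hi
          have hi' : ¬ i ≤ j := by have := (mem_Icc.1 hi).1; omega
          rw [if_neg hi', if_neg hi']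
        rw [hsum2, ← hsum]
        exact (add_sub_cancel _ _).symm

/-- This is a variant of K1 (`exists_keys`), for the points `x` outside the convex cone `A` whose
cell meets `A`; the keys are counted by `zone`. Proof. For `P ⊆ R` let
`C P = {y | ∀ i ∈ R, (i ∈ P → 0 ≤ l i ⬝ᵥ y) ∧ (i ∉ P → l i ⬝ᵥ y ≤ 0)}`. For `P` and `T ⊆ R` let
`β P T` be a pair `({T' // T'.card = D}, b)` with `T ⊆ T' ⊆ R`, `ray l T' b ≠ 0` and
`ray l T' b ∈ C P`, chosen among those with `ray l T' b ∈ A` if there are any (arbitrary if there is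
no such pair). A code is `((P, T), lev)` with `(P, T) ∈ zone` and `lev : Fin D → Fin (D + 1)`
(levels of the `D` elements of `T`, in an enumeration of `T` which depends only on `T`), its key is
`j ↦ β P {c ∈ T | lev c ≤ j}`, and `𝒦` is the set of these keys. Let `x` be given, `P` the set of
the `i ∈ R` with `0 < l i ⬝ᵥ x`; `x ≠ 0`. Put `x₀ = x`. As long as `xⱼ ≠ 0` let
`Tⱼ = {i ∈ R | l i ⬝ᵥ xⱼ = 0}`. As in K1 (by S3) there is a pair as wanted for `Tⱼ`; let `vⱼ` be the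
ray of `β P Tⱼ`, `tⱼ > 0` the least of the `(l i ⬝ᵥ xⱼ) / (l i ⬝ᵥ vⱼ)` over the `i ∈ R` with
`l i ⬝ᵥ vⱼ ≠ 0`, and `xⱼ₊₁ = xⱼ - tⱼ vⱼ ∈ C P`; `Tⱼ₊₁` is strictly larger than `Tⱼ`, so
`x_(k+1) = 0` for some `k ≤ D` and `x_k = t_k v_k`, and `T_k` is the set of the pair `β P T_k`.
Claim: `v_k ∉ A`. Otherwise, for every `j ≤ k`, the pair of `v_k` is possible for `Tⱼ ⊆ T_k` and has
its ray in `A`, so `vⱼ ∈ A` for all `j ≤ k`; then `x_k = t_k v_k ∈ A` and
`xⱼ = xⱼ₊₁ + tⱼ vⱼ ∈ A` for `j < k`, so `x ∈ A`, a contradiction. Hence `(P, T_k) ∈ zone` with the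
vertex `v_k` (the cell `P` meets `A` by the last hypothesis on `x`). With `lev c` the least `j` with
`c ∈ Tⱼ` (`1 ≤ lev c ≤ k`) the key of the code `((P, T_k), lev)` is `β P Tⱼ` for `j ≤ k` and
`β P T_k` for `j > k` (put `tⱼ = 0` for `j > k`). -/
theorem exists_keysA {D N : ℕ} (l : Fin N → Fin (D + 1) → ℝ) (hl : GenPos l)
    (R : Finset (Fin N)) (hR : D + 1 ≤ R.card) (A : ConvexCone ℝ (Fin (D + 1) → ℝ)) :
    ∃ 𝒦 : Finset (Key D N),
      𝒦.card ≤ (zone (fun i => dotL (l i)) R A D).card * (D + 1) ^ D ∧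
      ∀ x : Fin (D + 1) → ℝ, x ∉ A → (∀ i ∈ R, l i ⬝ᵥ x ≠ 0) →
        (∃ z ∈ A, ∀ i ∈ R, 0 < (l i ⬝ᵥ x) * (l i ⬝ᵥ z)) → ∃ κ ∈ 𝒦,
        (∀ i ∈ R, ∀ j, 0 ≤ (l i ⬝ᵥ x) * (l i ⬝ᵥ ray l (κ j).1.1 (κ j).2)) ∧
        ∃ t : Fin (D + 1) → ℝ, (∀ j, 0 ≤ t j) ∧
          x = ∑ j, t j • ray l (κ j).1.1 (κ j).2 := by
  classical
  obtain ⟨T0, -, hT0⟩ := Finset.exists_subset_card_eq (s := R) (n := D) (by omega)
  set p0 : {T : Finset (Fin N) // T.card = D} × Bool := (⟨T0, hT0⟩, true)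
  set key : (Finset (Fin N) × Finset (Fin N)) × (Fin D → Fin (D + 1)) → Key D N := fun c j =>
    ka1_beta l R A p0 (fun i => decide (i ∈ c.1.1))
      (if h : c.1.2.card = D then
        (univ.filter fun k => c.2 k ≤ j).image (c.1.2.orderEmbOfFin h) else ∅) with hkey
  refine ⟨((zone (fun i => dotL (l i)) R A D) ×ˢ univ).image key, ?_, ?_⟩
  · refine card_image_le.trans ?_
    rw [card_product, card_univ, Fintype.card_fun, Fintype.card_fin, Fintype.card_fin]
  · intro x hxA hx hz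
    have hx0 : x ≠ 0 := by
      rintro rfl
      obtain ⟨i, hi⟩ := card_pos.1 (show 0 < R.card by omega)
      exact hx i hi (dotProduct_zero _)
    set P : Finset (Fin N) := R.filter fun i => 0 < l i ⬝ᵥ x with hP
    set σ : Fin N → Bool := fun i => decide (i ∈ P) with hσ
    have hσR : ∀ i ∈ R, σ i = decide (0 < l i ⬝ᵥ x) := fun i hi => by
      rw [hσ]; beta_reduce
      rw [decide_eq_decide, hP, mem_filter]
      exact ⟨fun h => h.2, fun h => ⟨hi, h⟩⟩
    have hpos : ∀ i ∈ R, 0 < ka1_sg (σ i) * (l i ⬝ᵥ x) := by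
      intro i hi
      rw [hσR i hi]
      rcases lt_or_gt_of_ne (hx i hi) with h | h
      · rw [decide_eq_false (not_lt.2 h.le)]
        simp only [ka1_sg, Bool.false_eq_true, if_false]
        linarith
      · rw [decide_eq_true h]
        simp only [ka1_sg, if_true]
        linarith
    have hC : ka1_C l R σ x := fun i hi => (hpos i hi).le
    obtain ⟨F, S, t, hF, hg, hSD, hmono, hvA, hS0, ht, hsum⟩ :=
      ka1_chain hl hR A p0 D 0 x (by omega) hx0 hC (Nat.zero_le _)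
    obtain ⟨hg1, hg2, hg3, hg4⟩ := hg
    have hFR : F ⊆ R := hg1.trans hg2
    have hpF : (ka1_beta l R A p0 σ F).1.1 = F :=
      (eq_of_subset_of_card_le hg1 (by rw [hF, (ka1_beta l R A p0 σ F).1.2])).symm
    rw [hpF] at hg3 hg4 hvA
    set b := (ka1_beta l R A p0 σ F).2 with hb
    have hvnA : ray l F b ∉ A := fun h => hxA (hvA h)
    have hne : ∀ i, i ∉ F → l i ⬝ᵥ ray l F b ≠ 0 := by
      intro i hiF h0
      have h1 := ka1_card hl hg3 (T := insert i F) (by
        intro i' hi'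
        rcases mem_insert.1 hi' with rfl | h2
        · exact h0
        · exact ka1_kill l F b i' h2)
      rw [card_insert_of_notMem hiF] at h1
      omega
    have hzone : (P, F) ∈ zone (fun i => dotL (l i)) R A D := by
      rw [mem_zone]
      refine ⟨filter_subset _ _, hFR, hF, ?_, ray l F b, hvnA, ?_, ?_⟩
      · obtain ⟨z, hzA, hzx⟩ := hz
        refine ⟨z, hzA, fun i hi => ⟨fun hiP => ?_, fun hiP => ?_⟩⟩
        · have h1 : 0 < l i ⬝ᵥ x := (mem_filter.1 hiP).2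
          show 0 < l i ⬝ᵥ z
          exact (mul_pos_iff_of_pos_left h1).1 (hzx i hi)
        · have h1 : l i ⬝ᵥ x < 0 := by
            rcases lt_or_gt_of_ne (hx i hi) with h | h
            · exact h
            · exact absurd (mem_filter.2 ⟨hi, h⟩) hiP
          show l i ⬝ᵥ z < 0
          have h2 := hzx i hi
          by_contra h3
          have h4 : (l i ⬝ᵥ x) * (l i ⬝ᵥ z) ≤ 0 :=
            mul_nonpos_of_nonpos_of_nonneg h1.le (not_lt.1 h3)
          linarith
      · intro i hi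
        exact ka1_kill l F b i hi
      · intro i hi hiF
        have h1 := hne i hiF
        have h2 := hg4 i hi
        refine ⟨fun hiP => ?_, fun hiP => ?_⟩
        · show 0 < l i ⬝ᵥ ray l F b
          have h3 : σ i = true := decide_eq_true hiP
          rw [h3] at h2
          simp only [ka1_sg, if_true, one_mul] at h2
          exact lt_of_le_of_ne h2 (Ne.symm h1)
        · show l i ⬝ᵥ ray l F b < 0
          have h3 : σ i = false := decide_eq_false hiP
          rw [h3] at h2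
          simp only [ka1_sg, Bool.false_eq_true, if_false] at h2
          exact lt_of_le_of_ne (by linarith) h1
    set e := F.orderIsoOfFin hF with he
    have hex : ∀ k, ∃ n, (e k : Fin N) ∈ S n := fun k => ⟨D, by rw [hSD]; exact (e k).2⟩
    have hfle : ∀ k, Nat.find (hex k) ≤ D :=
      fun k => Nat.find_min' (hex k) (by rw [hSD]; exact (e k).2)
    set lev : Fin D → Fin (D + 1) := fun k => ⟨Nat.find (hex k), Nat.lt_succ_of_le (hfle k)⟩
      with hlev
    have himS : ∀ j : Fin (D + 1),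
        ((univ.filter fun k => lev k ≤ j).image (F.orderEmbOfFin hF)) = S j := by
      intro j
      ext i
      rw [mem_image]
      constructor
      · rintro ⟨k, hk, rfl⟩
        have hk' : lev k ≤ j := (mem_filter.1 hk).2
        have h1 : Nat.find (hex k) ≤ (j : ℕ) := hk'
        exact hmono h1 (Nat.find_spec (hex k))
      · intro hi
        have hiF : i ∈ F := by
          rw [← hSD]
          exact hmono (show (j : ℕ) ≤ D by omega) hi
        obtain ⟨k, hk⟩ := e.surjective ⟨i, hiF⟩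
        have hki : (e k : Fin N) = i := by rw [hk]
        refine ⟨k, mem_filter.2 ⟨mem_univ _, ?_⟩, hki⟩
        show Nat.find (hex k) ≤ (j : ℕ)
        exact Nat.find_min' (hex k) (by rw [hki]; exact hi)
    have hkeyeq : key ((P, F), lev) =
        fun j : Fin (D + 1) => ka1_beta l R A p0 σ (S (j : ℕ)) := by
      funext j
      rw [hkey]
      beta_reduce
      dsimp only
      rw [dif_pos hF, himS]
    have hmem : ((P, F), lev) ∈ (zone (fun i => dotL (l i)) R A D) ×ˢ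
        (univ : Finset (Fin D → Fin (D + 1))) := mem_product.2 ⟨hzone, mem_univ _⟩
    refine ⟨_, mem_image_of_mem key hmem, ?_, ?_⟩
    · rw [hkeyeq]
      intro i hi j
      have hSF : S j ⊆ F := by
        rw [← hSD]
        exact hmono (show (j : ℕ) ≤ D by omega)
      have h1 : ka1_Good l R σ (S j) (ka1_beta l R A p0 σ (S j)) := by
        apply ka1_beta_good
        refine ⟨ka1_beta l R A p0 σ F, hSF.trans hg1, hg2, ?_, ?_⟩
        · rw [hpF]; exact hg3
        · rw [hpF]; exact hg4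
      have h2 := h1.2.2.2 i hi
      have h3 := hpos i hi
      have h4 := ka1_sg_mul (σ i)
      have h5 : (l i ⬝ᵥ x) * (l i ⬝ᵥ ray l (ka1_beta l R A p0 σ (S j)).1.1
          (ka1_beta l R A p0 σ (S j)).2) = (ka1_sg (σ i) * (l i ⬝ᵥ x)) *
          (ka1_sg (σ i) * (l i ⬝ᵥ ray l (ka1_beta l R A p0 σ (S j)).1.1
          (ka1_beta l R A p0 σ (S j)).2)) := by
        calc _ = (ka1_sg (σ i) * ka1_sg (σ i)) * ((l i ⬝ᵥ x) *
            (l i ⬝ᵥ ray l (ka1_beta l R A p0 σ (S j)).1.1 (ka1_beta l R A p0 σ (S j)).2)) := by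
              rw [h4, one_mul]
          _ = _ := by ring
      show 0 ≤ (l i ⬝ᵥ x) * (l i ⬝ᵥ ray l (ka1_beta l R A p0 σ (S j)).1.1
          (ka1_beta l R A p0 σ (S j)).2)
      rw [h5]
      exact mul_nonneg h3.le h2
    · rw [hkeyeq]
      refine ⟨fun j => t j, fun j => ht j, ?_⟩
      have h1 : Icc 0 D = range (D + 1) := by
        ext i
        simp only [mem_Icc, mem_range]
        omega
      rw [hsum, h1, sum_range]

end Pool.Agent.Helper69.LB
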