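import Pool.Agent.Helper69.LB.Z0

/-! Project LB2, piece Z2b: general position. -/

open Finset Matrix

namespace Pool.Agent.Helper69.LB

/-- Proof. A functional which vanishes on the kernel of `l i` is a multiple of `l i`. So a linear
relation between the restrictions of the `l k`, `k ∈ T`, gives one between the `l k`,
`k ∈ insert i T`. -/
theorem genPosD_kres {ι V : Type} [DecidableEq ι] [AddCommGroup V] [Module ℝ V] {E : ℕ}
    (l : ι → V →ₗ[ℝ] ℝ) (R : Finset ι) (hl : GenPosD l R (E + 1)) {i : ι} (hi : i ∈ R) :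
    GenPosD (kres l i) (R.erase i) E := by
  intro T hT hc
  have hiT : i ∉ T := fun h => (Finset.mem_erase.1 (hT h)).1 rfl
  have hsub : insert i T ⊆ R := by
    intro k hk
    rcases Finset.mem_insert.1 hk with rfl | hk
    · exact hi
    · exact Finset.mem_of_mem_erase (hT hk)
  have hcard : (insert i T).card ≤ E + 1 := by
    rw [Finset.card_insert_of_notMem hiT]; omega
  have h1 : LinearIndepOn ℝ l (↑(insert i T) : Set ι) := hl _ hsub hcard
  rw [linearIndepOn_finset_iff] at h1
  change LinearIndepOn ℝ (kres l i) (↑T : Set ι)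
  rw [linearIndepOn_finset_iff]
  intro g hg
  -- the functional `l i` is not zero
  have hne : l i ≠ 0 := by
    intro h0
    have := h1 (Pi.single i 1) (by
      apply Finset.sum_eq_zero
      intro k hk
      by_cases hki : k = i
      · subst hki; rw [h0, smul_zero]
      · rw [Pi.single_eq_of_ne hki, zero_smul]) i (Finset.mem_insert_self i T)
    rw [Pi.single_eq_same] at this
    exact one_ne_zero this
  obtain ⟨v, hv⟩ : ∃ v, l i v ≠ 0 := by
    by_contra hcon
    push Not at hcon
    exact hne (LinearMap.ext hcon)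
  set f : V →ₗ[ℝ] ℝ := ∑ k ∈ T, g k • l k with hf
  have hker : ∀ x, l i x = 0 → f x = 0 := by
    intro x hx
    have := congrArg (fun (φ : LinearMap.ker (l i) →ₗ[ℝ] ℝ) => φ ⟨x, hx⟩) hg
    simp only [LinearMap.sum_apply, LinearMap.smul_apply, LinearMap.zero_apply] at this
    rw [hf]
    simp only [LinearMap.sum_apply, LinearMap.smul_apply]
    exact this
  have hfx : f = (f v / l i v) • l i := by
    ext x
    have h2 : l i (x - (l i x / l i v) • v) = 0 := by
      rw [map_sub, map_smul, smul_eq_mul, div_mul_cancel₀ _ hv, sub_self]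
    have h3 := hker _ h2
    rw [map_sub, map_smul, smul_eq_mul, sub_eq_zero] at h3
    rw [h3, LinearMap.smul_apply, smul_eq_mul]
    ring
  have h4 := h1 (fun k => if k = i then - (f v / l i v) else g k) (by
    rw [Finset.sum_insert hiT, if_pos rfl]
    have h5 : ∑ k ∈ T, (if k = i then - (f v / l i v) else g k) • l k = f := by
      rw [hf]
      apply Finset.sum_congr rfl
      intro k hk
      rw [if_neg (fun h : k = i => hiT (h ▸ hk))]
    rw [h5, neg_smul, ← hfx, neg_add_cancel])
  intro k hk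
  have h6 := h4 k (Finset.mem_insert_of_mem hk)
  rwa [if_neg (fun h : k = i => hiT (h ▸ hk))] at h6

theorem finrank_ker {ι V : Type} [AddCommGroup V] [Module ℝ V] [FiniteDimensional ℝ V] {E : ℕ}
    (hV : Module.finrank ℝ V = E + 1) (l : ι → V →ₗ[ℝ] ℝ) (R : Finset ι)
    (hl : GenPosD l R (E + 1)) {i : ι} (hi : i ∈ R) :
    Module.finrank ℝ (LinearMap.ker (l i)) = E := by
  have h1 : LinearIndependent ℝ (fun k : {k // k ∈ ({i} : Finset ι)} => l k) :=
    hl {i} (Finset.singleton_subset_iff.2 hi) (by simp)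
  have hne : l i ≠ 0 := h1.ne_zero ⟨i, Finset.mem_singleton_self i⟩
  have h2 := Module.Dual.finrank_ker_add_one_of_ne_zero (f := l i) hne
  omega

/-- Proof. Pad with zeros: by `hR` every `T ⊆ R` with at most `D + 1` elements is contained in a
`T' ⊆ R` with `D + 1` elements; the rows `l i`, `i ∈ T'`, have a determinant which is not `0`. -/
theorem genPosD_of_genPos {D N : ℕ} (l : Fin N → Fin (D + 1) → ℝ) (hl : GenPos l)
    (R : Finset (Fin N)) (hR : D + 1 ≤ R.card) : GenPosD (fun i => dotL (l i)) R (D + 1) := by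
  intro T hT hc
  obtain ⟨T', h1, h2, h3⟩ := Finset.exists_subsuperset_card_eq hT hc hR
  have hdet := hl (T'.orderEmbOfFin h3) (T'.orderEmbOfFin h3).injective
  have hrow := Matrix.linearIndependent_rows_of_det_ne_zero hdet
  let φ : (Fin (D + 1) → ℝ) →ₗ[ℝ] ((Fin (D + 1) → ℝ) →ₗ[ℝ] ℝ) :=
    { toFun := dotL
      map_add' := fun a b => by ext v; simp
      map_smul' := fun c a => by ext v; simp }
  have hφ : LinearMap.ker φ = ⊥ := by
    rw [LinearMap.ker_eq_bot']
    intro a ha
    have h4 : a ⬝ᵥ a = 0 := by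
      have := congrArg (fun (ψ : (Fin (D + 1) → ℝ) →ₗ[ℝ] ℝ) => ψ a) ha
      exact this
    exact dotProduct_self_eq_zero.1 h4
  have h5 := hrow.map' φ hφ
  have h6 := h5.comp (fun k : {k // k ∈ T} => (T'.orderIsoOfFin h3).symm ⟨k.1, h1 k.2⟩) (by
    intro a b hab
    have h8 := (T'.orderIsoOfFin h3).symm.injective hab
    have h9 : a.1 = b.1 := congrArg (fun x : {x // x ∈ T'} => x.1) h8
    exact Subtype.ext h9)
  have h7 : (fun k : {k // k ∈ T} => dotL (l k.1)) =
      ((φ ∘ fun i => (Matrix.of fun i => l (T'.orderEmbOfFin h3 i)) i) ∘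
        fun k : {k // k ∈ T} => (T'.orderIsoOfFin h3).symm ⟨k.1, h1 k.2⟩) := by
    funext k
    change dotL (l k.1) =
      dotL (l (T'.orderEmbOfFin h3 ((T'.orderIsoOfFin h3).symm ⟨k.1, h1 k.2⟩)))
    rw [← Finset.coe_orderIsoOfFin_apply, OrderIso.apply_symm_apply]
  change LinearIndependent ℝ (fun k : {k // k ∈ T} => dotL (l k.1))
  rw [h7]
  exact h6

end Pool.Agent.Helper69.LB
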