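import Pool.Agent.Helper69.LB.Z3
import Pool.Agent.Helper69.LB.Z2b

/-! Project LB2, piece Z4: the weak zone theorem. -/

open Finset Matrix

namespace Pool.Agent.Helper69.LB

private theorem z4_genPos_mono {ι V : Type} [AddCommGroup V] [Module ℝ V] {l : ι → V →ₗ[ℝ] ℝ}
    {R R' : Finset ι} {E : ℕ} (h : R' ⊆ R) (hl : GenPosD l R E) : GenPosD l R' E :=
  fun T hT hE => hl T (hT.trans h) hE

private theorem z4_empty {ι V : Type} [AddCommGroup V] [Module ℝ V]
    (hV : Module.finrank ℝ V = 1) (l : ι → V →ₗ[ℝ] ℝ) (R : Finset ι) (hR : R.Nonempty)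
    (A : ConvexCone ℝ V) : zone l R A 0 = ∅ := by
  rw [Finset.eq_empty_iff_forall_notMem]
  rintro ⟨P, T⟩ hPT
  obtain ⟨-, -, hT, ⟨z, hz, hz'⟩, v, hv, -, hv'⟩ := mem_zone.1 hPT
  obtain ⟨i, hi⟩ := hR
  have hT0 : T = ∅ := Finset.card_eq_zero.1 hT
  have hiT : i ∉ T := by rw [hT0]; simp
  have hz0 : z ≠ 0 := by
    intro h0
    have h1 := hz' i hi
    rw [h0, map_zero] at h1
    by_cases hiP : i ∈ P
    · exact lt_irrefl _ (h1.1 hiP)
    · exact lt_irrefl _ (h1.2 hiP)
  obtain ⟨c, hc⟩ := (finrank_eq_one_iff_of_nonzero' z hz0).1 hV v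
  have h1 : l i v = c * l i z := by rw [← hc, map_smul, smul_eq_mul]
  have hcpos : 0 < c := by
    by_cases hiP : i ∈ P
    · have h2 := (hz' i hi).1 hiP
      have h3 := (hv' i hi hiT).1 hiP
      rw [h1] at h3
      exact (pos_iff_pos_of_mul_pos h3).2 h2
    · have h2 := (hz' i hi).2 hiP
      have h3 := (hv' i hi hiT).2 hiP
      rw [h1] at h3
      by_contra hcon
      have := mul_nonneg_of_nonpos_of_nonpos (not_lt.1 hcon) h2.le
      linarith
  apply hv
  rw [← hc]
  exact A.smul_mem hcpos hz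

private theorem z4_two_pow (d : ℕ) : 2 ^ d ≤ (d + 1).factorial := by
  induction d with
  | zero => simp
  | succ d ih =>
    rw [pow_succ, Nat.factorial_succ, mul_comm]
    exact Nat.mul_le_mul (by omega) ih

private theorem z4_base {ι V : Type} [AddCommGroup V] [Module ℝ V] (d : ℕ)
    (l : ι → V →ₗ[ℝ] ℝ) (R : Finset ι) (hR : R.card = d + 2) (A : ConvexCone ℝ V) :
    (zone l R A (d + 1)).card ≤ 8 * R.card.descFactorial d := by
  have h1 : (zone l R A (d + 1)).card ≤ (R.powerset ×ˢ R.powersetCard (d + 1)).card := by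
    classical
    exact Finset.card_filter_le _ _
  rw [Finset.card_product, Finset.card_powerset, Finset.card_powersetCard, hR] at h1
  have h2 : (d + 2).choose (d + 1) = d + 2 := Nat.choose_succ_self_right (d + 1)
  rw [h2] at h1
  have h3 : (d + 2 - d).factorial * (d + 2).descFactorial d = (d + 2).factorial :=
    Nat.factorial_mul_descFactorial (by omega)
  have h4 : d + 2 - d = 2 := by omega
  rw [h4] at h3
  have h5 : (2 : ℕ).factorial = 2 := rfl
  rw [h5] at h3
  have h6 : (d + 2).factorial = (d + 2) * (d + 1).factorial := Nat.factorial_succ (d + 1)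
  have h7 := z4_two_pow d
  have h8 : 2 ^ (d + 2) * (d + 2) = 4 * ((d + 2) * 2 ^ d) := by ring
  have h9 : (d + 2) * 2 ^ d ≤ (d + 2) * (d + 1).factorial := Nat.mul_le_mul_left _ h7
  rw [hR]
  omega

private theorem z4_harm {n M : ℕ} (hn : n ≤ M) (hn1 : 1 ≤ n) :
    ((harmonic n : ℚ) : ℝ) - 3 / 2 ≤ (Nat.log 2 M : ℝ) + 1 := by
  have h1 := harmonic_le_one_add_log n
  have hn0 : (0 : ℝ) < n := by exact_mod_cast hn1
  have h2 : Real.log n ≤ Real.log M := Real.log_le_log hn0 (by exact_mod_cast hn)
  have hM0 : (0 : ℝ) < M := lt_of_lt_of_le hn0 (by exact_mod_cast hn)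
  have h3 : Real.log M ≤ (Nat.log 2 M : ℝ) + 1 := by
    have h4 : (M : ℝ) ≤ 2 ^ (Nat.log 2 M + 1) := by
      exact_mod_cast (Nat.lt_pow_succ_log_self (by norm_num) M).le
    have h5 := Real.log_le_log hM0 h4
    rw [Real.log_pow] at h5
    have h6 : Real.log 2 ≤ 1 := by
      have := Real.log_two_lt_d9
      linarith
    have h7 : (0 : ℝ) ≤ ((Nat.log 2 M + 1 : ℕ) : ℝ) := by positivity
    have h8 := mul_le_mul_of_nonneg_left h6 h7
    push_cast at h5 h8
    linarith
  linarith

private theorem z4_zero {ι : Type} [DecidableEq ι] (n : ℕ) :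
    ∀ (V : Type) [AddCommGroup V] [Module ℝ V] [FiniteDimensional ℝ V],
      Module.finrank ℝ V = 2 → ∀ (l : ι → V →ₗ[ℝ] ℝ) (R : Finset ι), GenPosD l R 2 →
        R.card = n + 2 → ∀ A : ConvexCone ℝ V, (zone l R A 1).card ≤ 8 := by
  induction n with
  | zero =>
    intro V _ _ _ hV l R hl hR A
    have := z4_base 0 l R hR A
    simpa using this
  | succ n ih =>
    intro V _ _ _ hV l R hl hR A
    have h1 := zone_rec (D := 0) hV l R hl (by omega) A
    have h2 : ∑ h ∈ R, (zone (kres l h) (R.erase h) (cres l A h) 0).card = 0 := by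
      apply Finset.sum_eq_zero
      intro h hh
      have hk : Module.finrank ℝ (LinearMap.ker (l h)) = 1 := finrank_ker hV l R hl hh
      have hc : (R.erase h).card = n + 2 := by rw [Finset.card_erase_of_mem hh]; omega
      rw [z4_empty hk (kres l h) (R.erase h) (Finset.card_pos.1 (by omega)) (cres l A h)]
      rfl
    have h3 : ∑ h ∈ R, (zone l (R.erase h) A (0 + 1)).card ≤ ∑ _h ∈ R, 8 := by
      apply Finset.sum_le_sum
      intro h hh
      apply ih V hV l (R.erase h) (z4_genPos_mono (Finset.erase_subset _ _) hl)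
      rw [Finset.card_erase_of_mem hh]; omega
    rw [Finset.sum_const, smul_eq_mul] at h3
    rw [h2] at h1
    simp only [zero_add, Nat.sub_zero, one_mul, mul_zero, add_zero] at h1 h3
    have h4 : R.card * (zone l R A 1).card ≤ R.card * 8 := h1.trans h3
    exact Nat.le_of_mul_le_mul_left h4 (by omega)

private theorem z4_main {ι : Type} [DecidableEq ι] (M d : ℕ) :
    ∀ (V : Type) [AddCommGroup V] [Module ℝ V] [FiniteDimensional ℝ V],
      Module.finrank ℝ V = d + 2 → ∀ (l : ι → V →ₗ[ℝ] ℝ) (R : Finset ι), GenPosD l R (d + 2) →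
        d + 2 ≤ R.card → R.card ≤ M → ∀ A : ConvexCone ℝ V,
          ((zone l R A (d + 1)).card : ℝ) ≤
            8 * (d + 1) * (R.card.descFactorial d : ℝ) * ((Nat.log 2 M : ℝ) + 1) ^ d := by
  induction d with
  | zero =>
    intro V _ _ _ hV l R hl hR hM A
    have h1 := z4_zero (R.card - 2) V hV l R hl (by omega) A
    have h2 : ((zone l R A (0 + 1)).card : ℝ) ≤ 8 := by exact_mod_cast h1
    simpa using h2
  | succ e IH =>
    intro V _ _ _ hV l R hl hR hM A
    set L : ℝ := (Nat.log 2 M : ℝ) + 1 with hL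
    have hL1 : 1 ≤ L := by
      have : (0 : ℝ) ≤ (Nat.log 2 M : ℝ) := by positivity
      linarith
    set c : ℝ := 16 * (e + 1) / (e + 2) * L ^ e with hc
    have hc0 : 0 ≤ c := by positivity
    have key : ∀ n : ℕ, ∀ R : Finset ι, GenPosD l R (e + 1 + 2) → R.card = n + (e + 1) + 2 →
        R.card ≤ M → ((zone l R A (e + 1 + 1)).card : ℝ) ≤
          (R.card.descFactorial (e + 1) : ℝ) *
            (8 + c * (((harmonic (n + 2) : ℚ) : ℝ) - 3 / 2)) := by
      intro n
      induction n with
      | zero =>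
        intro R hl hR hM
        have h1 := z4_base (e + 1) l R (by omega) A
        have h2 : ((zone l R A (e + 1 + 1)).card : ℝ) ≤
            8 * (R.card.descFactorial (e + 1) : ℝ) := by exact_mod_cast h1
        have h3 : ((harmonic (0 + 2) : ℚ) : ℝ) - 3 / 2 = 0 := by
          have : harmonic (0 + 2) = 3 / 2 := by
            rw [harmonic_succ, harmonic_succ, harmonic_zero]
            norm_num
          rw [this]
          norm_num
        rw [h3]
        linarith
      | succ n ih =>
        intro R hl hR hM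
        have h1 := zone_rec (D := e + 1) hV l R hl (by omega) A
        have hm : R.card = (n + (e + 1) + 2) + 1 := by omega
        set m : ℕ := n + (e + 1) + 2 with hmdef
        set B : ℝ := 8 + c * (((harmonic (n + 2) : ℚ) : ℝ) - 3 / 2) with hB
        have h2 : ∀ h ∈ R, ((zone l (R.erase h) A (e + 1 + 1)).card : ℝ) ≤
            (m.descFactorial (e + 1) : ℝ) * B := by
          intro h hh
          have hcd : (R.erase h).card = m := by rw [Finset.card_erase_of_mem hh]; omega
          have := ih (R.erase h) (z4_genPos_mono (Finset.erase_subset _ _) hl)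
            (by rw [hcd]) (by rw [hcd]; omega)
          rw [hcd] at this
          exact this
        have h3 : ∀ h ∈ R,
            ((zone (kres l h) (R.erase h) (cres l A h) (e + 1)).card : ℝ) ≤
              8 * (e + 1) * (m.descFactorial e : ℝ) * L ^ e := by
          intro h hh
          have hcd : (R.erase h).card = m := by rw [Finset.card_erase_of_mem hh]; omega
          have := IH (LinearMap.ker (l h)) (finrank_ker hV l R hl hh) (kres l h) (R.erase h)
            (genPosD_kres l R hl hh) (by rw [hcd]; omega) (by rw [hcd]; omega) (cres l A h)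
          rw [hcd] at this
          exact this
        have h4 : ((∑ h ∈ R, (zone l (R.erase h) A (e + 1 + 1)).card : ℕ) : ℝ) ≤
            ((m : ℝ) + 1) * ((m.descFactorial (e + 1) : ℝ) * B) := by
          rw [Nat.cast_sum]
          refine (Finset.sum_le_sum h2).trans (le_of_eq ?_)
          rw [Finset.sum_const, nsmul_eq_mul, hm]
          push_cast
          ring
        have h5 : ((∑ h ∈ R, (zone (kres l h) (R.erase h) (cres l A h) (e + 1)).card : ℕ) : ℝ) ≤
            ((m : ℝ) + 1) * (8 * (e + 1) * (m.descFactorial e : ℝ) * L ^ e) := by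
          rw [Nat.cast_sum]
          refine (Finset.sum_le_sum h3).trans (le_of_eq ?_)
          rw [Finset.sum_const, nsmul_eq_mul, hm]
          push_cast
          ring
        have h6 : ((m : ℝ) + 1) * (m.descFactorial (e + 1) : ℝ) =
            ((n : ℝ) + 3) * (R.card.descFactorial (e + 1) : ℝ) := by
          have h7 : (m + 1).descFactorial (e + 1 + 1) = (m + 1) * m.descFactorial (e + 1) :=
            Nat.succ_descFactorial_succ m (e + 1)
          have h8 : (m + 1).descFactorial (e + 1 + 1) =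
              (m + 1 - (e + 1)) * (m + 1).descFactorial (e + 1) :=
            Nat.descFactorial_succ (m + 1) (e + 1)
          have h9 : m + 1 - (e + 1) = n + 3 := by omega
          rw [h9] at h8
          rw [hm]
          have h10 : (m + 1) * m.descFactorial (e + 1) =
              (n + 3) * (m + 1).descFactorial (e + 1) := by rw [← h7, h8]
          exact_mod_cast h10
        have h7 : ((m : ℝ) + 1) * (m.descFactorial e : ℝ) =
            (R.card.descFactorial (e + 1) : ℝ) := by
          have h8 : (m + 1).descFactorial (e + 1) = (m + 1) * m.descFactorial e :=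
            Nat.succ_descFactorial_succ m e
          rw [hm, h8]
          push_cast
          ring
        have h8 : ((e : ℝ) + 2) * ((n : ℝ) + 3) * ((zone l R A (e + 1 + 1)).card : ℝ) ≤
            ((e : ℝ) + 2) * ((∑ h ∈ R, (zone l (R.erase h) A (e + 1 + 1)).card : ℕ) : ℝ) +
              2 * ((∑ h ∈ R,
                (zone (kres l h) (R.erase h) (cres l A h) (e + 1)).card : ℕ) : ℝ) := by
          have h9 : R.card - (e + 1) = n + 3 := by omega
          rw [h9] at h1
          have h10 := (Nat.cast_le (α := ℝ)).2 h1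
          push_cast at h10 ⊢
          have e1 : (e : ℝ) + 1 + 1 = e + 2 := by ring
          rw [e1] at h10
          exact h10
        set F : ℝ := (R.card.descFactorial (e + 1) : ℝ) with hF
        have hF0 : 0 ≤ F := by positivity
        have h9 : ((e : ℝ) + 2) * ((n : ℝ) + 3) * ((zone l R A (e + 1 + 1)).card : ℝ) ≤
            ((e : ℝ) + 2) * (((n : ℝ) + 3) * F * B) + 16 * (e + 1) * F * L ^ e := by
          have a1 := mul_le_mul_of_nonneg_left h4 (show (0 : ℝ) ≤ (e : ℝ) + 2 by positivity)
          have a2 : ((m : ℝ) + 1) * ((m.descFactorial (e + 1) : ℝ) * B) =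
              ((n : ℝ) + 3) * F * B := by rw [← mul_assoc, h6]
          have a3 : ((m : ℝ) + 1) * (8 * (e + 1) * (m.descFactorial e : ℝ) * L ^ e) =
              8 * (e + 1) * F * L ^ e := by rw [← h7]; ring
          rw [a2] at a1
          rw [a3] at h5
          linarith
        have hpos : (0 : ℝ) < ((e : ℝ) + 2) * ((n : ℝ) + 3) := by positivity
        have h10 : harmonic (n + 1 + 2) = harmonic (n + 2) + ((n : ℚ) + 3)⁻¹ := by
          have : n + 1 + 2 = (n + 2) + 1 := by ring
          rw [this, harmonic_succ]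
          push_cast
          ring
        have h11 : F * (8 + c * (((harmonic (n + 1 + 2) : ℚ) : ℝ) - 3 / 2)) =
            F * B + F * (c * ((n : ℝ) + 3)⁻¹) := by
          rw [h10, hB]
          push_cast
          ring
        rw [h11]
        have h12 : ((e : ℝ) + 2) * ((n : ℝ) + 3) * (F * B + F * (c * ((n : ℝ) + 3)⁻¹)) =
            ((e : ℝ) + 2) * (((n : ℝ) + 3) * F * B) + 16 * (e + 1) * F * L ^ e := by
          have hn3 : (n : ℝ) + 3 ≠ 0 := by positivity
          have he2 : (e : ℝ) + 2 ≠ 0 := by positivity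
          rw [hc]
          field_simp
        have h13 := h9.trans_eq h12.symm
        exact le_of_mul_le_mul_left h13 hpos
    obtain ⟨n, hn⟩ : ∃ n, R.card = n + (e + 1) + 2 := ⟨R.card - (e + 1 + 2), by omega⟩
    have h1 := key n R hl hn hM
    have h2 : ((harmonic (n + 2) : ℚ) : ℝ) - 3 / 2 ≤ L := z4_harm (by omega) (by omega)
    set F : ℝ := (R.card.descFactorial (e + 1) : ℝ) with hF
    have hF0 : 0 ≤ F := by positivity
    refine h1.trans ?_
    have h3 : 8 + c * (((harmonic (n + 2) : ℚ) : ℝ) - 3 / 2) ≤ 8 + c * L := by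
      have := mul_le_mul_of_nonneg_left h2 hc0
      linarith
    have h4 : 8 + c * L ≤ 8 * ((e : ℝ) + 1 + 1) * L ^ (e + 1) := by
      have h5 : c * L = 16 * (e + 1) / (e + 2) * L ^ (e + 1) := by rw [hc, pow_succ]; ring
      have h6 : (1 : ℝ) ≤ L ^ (e + 1) := one_le_pow₀ hL1
      have h7 : (8 : ℝ) ≤ 8 * ((e : ℝ) + 1 + 1) - 16 * (e + 1) / (e + 2) := by
        have he2 : (0 : ℝ) < (e : ℝ) + 2 := by positivity
        have he0 : (0 : ℝ) ≤ (e : ℝ) := by positivity
        rw [le_sub_iff_add_le, ← le_sub_iff_add_le', div_le_iff₀ he2]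
        nlinarith [mul_nonneg he0 he0]
      rw [h5]
      nlinarith
    calc F * (8 + c * (((harmonic (n + 2) : ℚ) : ℝ) - 3 / 2))
        ≤ F * (8 * ((e : ℝ) + 1 + 1) * L ^ (e + 1)) :=
          mul_le_mul_of_nonneg_left (h3.trans h4) hF0
      _ = 8 * (((e + 1 : ℕ) : ℝ) + 1) * F * L ^ (e + 1) := by push_cast; ring

/-- Proof. Write `N = R.card`, `(N)_k` for `N.descFactorial k` and `L = Nat.log 2 M + 1`, where
`M ≥ N` is a fixed number. Claim: `|zone| ≤ 8 * D * (N)_(D - 1) * L ^ (D - 1)` for `D ≥ 1` and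
`D + 1 ≤ N ≤ M`; with `M = N` and `(N)_(D - 1) ≤ N ^ (D - 1)` this is the theorem. Induction on
`D`, for all `V`, `l`, `R`, `A`. In all dimensions: for `N = D + 1` there are at most
`(D + 1) * 2 ^ (D + 1) ≤ 8 * (D + 1)_(D - 1)` pairs (`2 ^ (D - 1) ≤ D!`).
`D = 1`: `zone (kres l h) (R.erase h) (cres l A h) 0 = ∅`, since in a space of dimension `1` two
vectors which have the same strict sign at one functional are positive multiples of each other. So
Z3 (with `D = 0`) gives `N * |zone R| ≤ ∑ h, |zone (R.erase h)|`, and `|zone R| ≤ 8` by induction on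
`N`. `D ≥ 2`: by Z3 (with `D - 1` for `D`), the induction hypothesis for `D - 1` in the kernels
(Z2) and induction on `N`, starting from `N = D + 1`: if `|zone| ≤ (N - 1)_(D - 1) * b` for all sets
of `N - 1` functionals, then `D * (N - D + 1) * |zone R| ≤
D * N * (N - 1)_(D - 1) * b + 2 * N * (8 * (D - 1) * (N - 1)_(D - 2) * L ^ (D - 2))`, and
`N * (N - 1)_(D - 1) = (N)_(D - 1) * (N - D + 1)`, `N * (N - 1)_(D - 2) = (N)_(D - 1)`, so
`|zone R| ≤ (N)_(D - 1) * (b + 16 * (D - 1) / D * L ^ (D - 2) / (N - D + 1))`. Hence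
`|zone R| ≤ (N)_(D - 1) * (8 + 16 * (D - 1) / D * L ^ (D - 2) * ∑ 1 / k)`, the sum over
`3 ≤ k ≤ N - D + 1`; it is at most `L` (the harmonic sum up to `N` is at most
`1 + Nat.log 2 N`). Finally `8 + 16 * (D - 1) / D * L ^ (D - 1) ≤ 8 * D * L ^ (D - 1)` for
`D ≥ 2`. -/
theorem zone_card_le {ι V : Type} [DecidableEq ι] [AddCommGroup V] [Module ℝ V]
    [FiniteDimensional ℝ V] {D : ℕ} (hD : 1 ≤ D) (hV : Module.finrank ℝ V = D + 1)
    (l : ι → V →ₗ[ℝ] ℝ) (R : Finset ι) (hl : GenPosD l R (D + 1)) (hR : D + 1 ≤ R.card)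
    (A : ConvexCone ℝ V) :
    (zone l R A D).card ≤ 8 * D * R.card ^ (D - 1) * (Nat.log 2 R.card + 1) ^ (D - 1) := by
  obtain ⟨d, rfl⟩ : ∃ d, D = d + 1 := ⟨D - 1, by omega⟩
  have h1 := z4_main R.card d V hV l R hl hR le_rfl A
  have h2 : (zone l R A (d + 1)).card ≤
      8 * (d + 1) * R.card.descFactorial d * (Nat.log 2 R.card + 1) ^ d := by
    exact_mod_cast h1
  have h3 : R.card.descFactorial d ≤ R.card ^ d := Nat.descFactorial_le_pow _ _
  rw [Nat.add_sub_cancel]
  refine h2.trans ?_
  gcongr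

end Pool.Agent.Helper69.LB
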