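import Pool.Agent.Helper69.LB.KA1
import Pool.Agent.Helper69.LB.K3
import Pool.Agent.Helper69.LB.Z4

/-! Project LB2, piece KA3: cells of the zone which are crossed by few half-spaces. -/

open Finset Matrix

namespace Pool.Agent.Helper69.LB

theorem ka3_card (D N : ℕ) : Fintype.card (Key D N) ≤ (N ^ D * 2) ^ (D + 1) := by
  unfold Key
  rw [Fintype.card_fun, Fintype.card_prod, Fintype.card_finset_len, Fintype.card_fin,
    Fintype.card_fin, Fintype.card_bool]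
  exact Nat.pow_le_pow_left (Nat.mul_le_mul_right _ (Nat.choose_le_pow _ _)) _

theorem ka3_sign {D N : ℕ} (l : Fin N → Fin (D + 1) → ℝ) (κ : Key D N) (i : Fin N)
    (hc : ¬ Cross l κ i) (x : Fin (D + 1) → ℝ) (hx : l i ⬝ᵥ x ≠ 0) (t : Fin (D + 1) → ℝ)
    (ht : ∀ j, 0 ≤ t j) (hxt : x = ∑ j, t j • ray l (κ j).1.1 (κ j).2) :
    0 < l i ⬝ᵥ x ↔ ∀ j, 0 ≤ l i ⬝ᵥ ray l (κ j).1.1 (κ j).2 := by
  have hsum : l i ⬝ᵥ x = ∑ j, t j * (l i ⬝ᵥ ray l (κ j).1.1 (κ j).2) := by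
    conv_lhs => rw [hxt]
    rw [dotProduct_sum]
    apply Finset.sum_congr rfl
    intro j _
    rw [dotProduct_smul, smul_eq_mul]
  constructor
  · intro hpos j
    by_contra hneg
    push Not at hneg
    have hall : ∀ k, l i ⬝ᵥ ray l (κ k).1.1 (κ k).2 ≤ 0 := by
      intro k
      by_contra hk
      push Not at hk
      exact hc ⟨⟨k, hk⟩, ⟨j, hneg⟩⟩
    have : l i ⬝ᵥ x ≤ 0 := by
      rw [hsum]
      apply Finset.sum_nonpos
      intro k _
      exact mul_nonpos_of_nonneg_of_nonpos (ht k) (hall k)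
    linarith
  · intro hall
    have : 0 ≤ l i ⬝ᵥ x := by
      rw [hsum]
      apply Finset.sum_nonneg
      intro k _
      exact mul_nonneg (ht k) (hall k)
    exact lt_of_le_of_ne this (Ne.symm hx)

theorem ka3_near {E N : ℕ} {A : ConvexCone ℝ (Fin E → ℝ)} {x : Fin E → ℝ}
    {l : Fin N → Fin E → ℝ} {R : Finset (Fin N)}
    (hx : ∃ e : Fin E → ℝ, ∀ ε : ℝ, 0 < ε → x + ε • e ∈ A) (hne : ∀ i, l i ⬝ᵥ x ≠ 0) :
    ∃ z ∈ A, ∀ i ∈ R, 0 < (l i ⬝ᵥ x) * (l i ⬝ᵥ z) := by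
  obtain ⟨e, he⟩ := hx
  have h1 : ∀ i, ∀ᶠ ε in nhdsWithin (0 : ℝ) (Set.Ioi 0),
      0 < (l i ⬝ᵥ x) * (l i ⬝ᵥ (x + ε • e)) := by
    intro i
    have hc : Continuous fun ε : ℝ => (l i ⬝ᵥ x) * (l i ⬝ᵥ (x + ε • e)) := by
      simp only [dotProduct_add, dotProduct_smul, smul_eq_mul]
      fun_prop
    have h2 : (0 : ℝ) < (l i ⬝ᵥ x) * (l i ⬝ᵥ (x + (0 : ℝ) • e)) := by
      rw [zero_smul, add_zero]
      exact mul_self_pos.2 (hne i)
    exact nhdsWithin_le_nhds (hc.continuousAt.eventually (lt_mem_nhds h2))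
  have h3 : ∀ᶠ ε in nhdsWithin (0 : ℝ) (Set.Ioi 0), ∀ i,
      0 < (l i ⬝ᵥ x) * (l i ⬝ᵥ (x + ε • e)) := Filter.eventually_all.2 h1
  have h4 : ∀ᶠ ε in nhdsWithin (0 : ℝ) (Set.Ioi 0), (0 : ℝ) < ε := self_mem_nhdsWithin
  obtain ⟨ε, h5, h6⟩ := (h3.and h4).exists
  exact ⟨x + ε • e, he ε h6, fun i _ => h5 i⟩

/-- as in K3 -/
theorem exists_cellsA {n D r N₀ : ℕ} (hD : 1 ≤ D) (hr : 1 ≤ r) (x a : Fin n → Fin (D + 1) → ℝ)
    (h : ∀ p q, a q ⬝ᵥ x p ≠ 0) (A : ConvexCone ℝ (Fin (D + 1) → ℝ))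
    (hA : ∀ p, x p ∉ A ∧ ∃ e : Fin (D + 1) → ℝ, ∀ ε : ℝ, 0 < ε → x p + ε • e ∈ A)
    (hN : ((((n + D + 1 : ℕ) : ℝ) ^ D * 2) ^ (D + 1)) * (1 - 1 / (r : ℝ)) ^ N₀ < 1)
    (Q : Finset (Fin n)) (hQ : Q.Nonempty) :
    ∃ (cell : Fin n → Fin (cellNumA D N₀)) (Y : Fin (cellNumA D N₀) → Finset (Fin n)),
      (∀ p, r * (Y (cell p)).card < Q.card) ∧
      ∀ q ∈ Q, ∀ p p', cell p = cell p' → q ∉ Y (cell p) →
        (0 < a q ⬝ᵥ x p ↔ 0 < a q ⬝ᵥ x p') := by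
  classical
  obtain ⟨q₀, hq₀⟩ := hQ
  -- the vectors in general position
  obtain ⟨l, hl, hsg⟩ := exists_genPos
    (Fin.append a (fun _ : Fin (D + 1) => a q₀)) x (by
      intro i p
      refine Fin.addCases (fun q => ?_) (fun j => ?_) i
      · rw [Fin.append_left]; exact h p q
      · rw [Fin.append_right]; exact h p q₀)
  have hne : ∀ i p, l i ⬝ᵥ x p ≠ 0 := by
    intro i p h0
    have := hsg i p
    rw [h0, zero_mul] at this
    exact lt_irrefl _ this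
  have hsign : ∀ q p, 0 < l (Fin.castAdd (D + 1) q) ⬝ᵥ x p ↔ 0 < a q ⬝ᵥ x p := by
    intro q p
    have h1 := hsg (Fin.castAdd (D + 1) q) p
    rw [Fin.append_left] at h1
    rcases mul_pos_iff.1 h1 with h2 | h2
    · exact ⟨fun _ => h2.2, fun _ => h2.1⟩
    · exact ⟨fun h3 => absurd h3 (not_lt.2 h2.1.le), fun h3 => absurd h3 (not_lt.2 h2.2.le)⟩
  -- the sample
  let X : Key D (n + (D + 1)) → Finset (Fin n) :=
    fun κ => Q.filter fun q => Cross l κ (Fin.castAdd (D + 1) q)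
  have hcardK : (Fintype.card (Key D (n + (D + 1))) : ℝ) * (1 - 1 / (r : ℝ)) ^ N₀ < 1 := by
    refine lt_of_le_of_lt (mul_le_mul_of_nonneg_right ?_ ?_) hN
    · have := ka3_card D (n + (D + 1))
      calc (Fintype.card (Key D (n + (D + 1))) : ℝ)
          ≤ (((n + (D + 1)) ^ D * 2) ^ (D + 1) : ℕ) := by exact_mod_cast this
        _ = _ := by push_cast; ring
    · apply pow_nonneg
      have hr0 : (0 : ℝ) < r := by exact_mod_cast hr
      rw [sub_nonneg, div_le_one hr0]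
      exact_mod_cast hr
  obtain ⟨R₁, hR₁Q, hR₁c, hR₁⟩ := exists_sample (K := Key D (n + (D + 1))) Q ⟨q₀, hq₀⟩ X
    (fun κ => Finset.filter_subset _ _) hr hcardK
  let R : Finset (Fin (n + (D + 1))) :=
    R₁.image (Fin.castAdd (D + 1)) ∪ (univ : Finset (Fin (D + 1))).image (Fin.natAdd n)
  have hRup : R.card ≤ N₀ + D + 1 := by
    have h1 : R.card ≤ (R₁.image (Fin.castAdd (D + 1))).card +
        ((univ : Finset (Fin (D + 1))).image (Fin.natAdd n)).card := Finset.card_union_le _ _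
    have h2 : (R₁.image (Fin.castAdd (D + 1))).card ≤ R₁.card := Finset.card_image_le
    have h3 : ((univ : Finset (Fin (D + 1))).image (Fin.natAdd n)).card ≤ D + 1 := by
      refine Finset.card_image_le.trans ?_
      rw [Finset.card_univ, Fintype.card_fin]
    omega
  have hRlo : D + 1 ≤ R.card := by
    have h1 : ((univ : Finset (Fin (D + 1))).image (Fin.natAdd n)).card ≤ R.card :=
      Finset.card_le_card Finset.subset_union_right
    rw [Finset.card_image_of_injective _ (Fin.natAdd_injective _ _), Finset.card_univ,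
      Fintype.card_fin] at h1
    exact h1
  obtain ⟨𝒦, h𝒦c, h𝒦⟩ := exists_keysA l hl R hRlo A
  have h𝒦num : 𝒦.card ≤ cellNumA D N₀ := by
    refine h𝒦c.trans ?_
    unfold cellNumA
    refine Nat.mul_le_mul_right _ ?_
    refine (zone_card_le hD (by simp) _ R (genPosD_of_genPos l hl R hRlo) hRlo A).trans ?_
    exact Nat.mul_le_mul (Nat.mul_le_mul_left _ (Nat.pow_le_pow_left hRup _))
      (Nat.pow_le_pow_left (Nat.add_le_add_right (Nat.log_mono_right hRup) 1) _)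
  have hchoose : ∀ p, ∃ κ ∈ 𝒦,
      (∀ i ∈ R, ∀ j, 0 ≤ (l i ⬝ᵥ x p) * (l i ⬝ᵥ ray l (κ j).1.1 (κ j).2)) ∧
      ∃ t : Fin (D + 1) → ℝ, (∀ j, 0 ≤ t j) ∧
        x p = ∑ j, t j • ray l (κ j).1.1 (κ j).2 :=
    fun p => h𝒦 (x p) (hA p).1 (fun i _ => hne i p) (ka3_near (hA p).2 (fun i => hne i p))
  choose κ hκ𝒦 hκA t ht hxt using hchoose
  let num : {κ // κ ∈ 𝒦} → Fin (cellNumA D N₀) := fun k => Fin.castLE h𝒦num (𝒦.equivFin k)
  have hnum : Function.Injective num := by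
    intro k k' hk
    exact 𝒦.equivFin.injective (Fin.castLE_injective h𝒦num hk)
  let Y : Fin (cellNumA D N₀) → Finset (Fin n) := fun c =>
    if hc : ∃ k : {κ // κ ∈ 𝒦}, num k = c then X hc.choose.1 else ∅
  have hY : ∀ k, Y (num k) = X k.1 := by
    intro k
    have hc : ∃ k' : {κ // κ ∈ 𝒦}, num k' = num k := ⟨k, rfl⟩
    have h1 : Y (num k) = X hc.choose.1 := dif_pos hc
    rw [h1, hnum hc.choose_spec]
  refine ⟨fun p => num ⟨κ p, hκ𝒦 p⟩, Y, ?_, ?_⟩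
  · intro p
    show r * (Y (num ⟨κ p, hκ𝒦 p⟩)).card < Q.card
    rw [hY]
    by_contra hcon
    push Not at hcon
    obtain ⟨q, hqR, hqX⟩ := hR₁ (κ p) hcon
    have hcr : Cross l (κ p) (Fin.castAdd (D + 1) q) := (Finset.mem_filter.1 hqX).2
    have hiR : Fin.castAdd (D + 1) q ∈ R :=
      Finset.mem_union_left _ (Finset.mem_image_of_mem _ hqR)
    obtain ⟨⟨j, hj⟩, j', hj'⟩ := hcr
    have h1 := hκA p _ hiR j
    have h2 := hκA p _ hiR j'
    have h3 : 0 ≤ l (Fin.castAdd (D + 1) q) ⬝ᵥ x p := nonneg_of_mul_nonneg_left h1 hj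
    have h4 : l (Fin.castAdd (D + 1) q) ⬝ᵥ x p ≤ 0 := by
      by_contra h5
      push Not at h5
      have := mul_neg_of_pos_of_neg h5 hj'
      linarith
    exact hne _ p (le_antisymm h4 h3)
  · intro q hq p p' hpp hqY
    have hk : (⟨κ p, hκ𝒦 p⟩ : {κ // κ ∈ 𝒦}) = ⟨κ p', hκ𝒦 p'⟩ := hnum hpp
    have hkk : κ p = κ p' := congrArg Subtype.val hk
    have hqY' : q ∉ Y (num ⟨κ p, hκ𝒦 p⟩) := hqY
    rw [hY] at hqY'
    have hnc : ¬ Cross l (κ p) (Fin.castAdd (D + 1) q) := fun hc =>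
      hqY' (Finset.mem_filter.2 ⟨hq, hc⟩)
    have hnc' : ¬ Cross l (κ p') (Fin.castAdd (D + 1) q) := by rw [← hkk]; exact hnc
    rw [← hsign q p, ← hsign q p',
      ka3_sign l (κ p) _ hnc (x p) (hne _ p) (t p) (ht p) (hxt p),
      ka3_sign l (κ p') _ hnc' (x p') (hne _ p') (t p') (ht p') (hxt p'), hkk]

end Pool.Agent.Helper69.LB
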