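import Pool.Agent.Helper69.LB.KA3
import Pool.Agent.Helper69.LB.L1
import Pool.Agent.Helper69.LB.S5

/-! Project LB2, piece KA4: one round. -/

open Finset Matrix

namespace Pool.Agent.Helper69.LB

/-- as K4, with the cells of KA3 -/
theorem exists_roundA {n D r N₀ s s₂ g₂ x : ℕ} (hD : 1 ≤ D) (hr : 1 ≤ r) (hs : 1 ≤ s)
    (hs₂ : D + 1 ≤ s₂)
    (hg₂ : cellNumA D N₀ ≤ g₂ * s₂) (hx : 2 * (cellNumA D N₀ + n / s) ≤ x * r)
    (y a : Fin n → Fin (D + 1) → ℝ) (h : ∀ p q, a q ⬝ᵥ y p ≠ 0)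
    (A : ConvexCone ℝ (Fin (D + 1) → ℝ))
    (hA : ∀ p, y p ∉ A ∧ ∃ e : Fin (D + 1) → ℝ, ∀ ε : ℝ, 0 < ε → y p + ε • e ∈ A)
    (hN : ((((n + D + 1 : ℕ) : ℝ) ^ D * 2) ^ (D + 1)) * (1 - 1 / (r : ℝ)) ^ N₀ < 1)
    (Q : Finset (Fin n)) (hQ : Q.Nonempty) :
    RoundFor (fun p q => 0 < a q ⬝ᵥ y p)
      (fun (cod : Fin g₂ → Ptr D s₂) (pb : Fin g₂ × Chiro (D + 1) s₂ × Fin s₂) =>
        dcd pb.2.1.1 (cod pb.1) pb.2.2) s x Q := by
  classical
  obtain ⟨cell, Y, hY1, hY2⟩ := exists_cellsA hD hr y a h A hA hN Q hQ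
  obtain ⟨grp, hg1, hg2, hg3⟩ := exists_groups hs cell
  obtain ⟨p₀, -⟩ := id hQ
  have hs₂0 : 0 < s₂ := by omega
  let z : ℕ → Fin n := fun i => if hz : ∃ p, (cell p : ℕ) = i then hz.choose else p₀
  have hz : ∀ p, cell (z (cell p)) = cell p := by
    intro p
    have hex : ∃ p', (cell p' : ℕ) = (cell p : ℕ) := ⟨p, rfl⟩
    have h1 : z (cell p) = hex.choose := dif_pos hex
    rw [h1]
    exact Fin.ext hex.choose_spec
  have hco : ∀ g : Fin g₂, ∃ c : Chiro (D + 1) s₂, ∀ q, ∃ π : Ptr D s₂,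
      ∀ k : Fin s₂, 0 < a q ⬝ᵥ y (z ((g : ℕ) * s₂ + (k : ℕ))) ↔ dcd c.1 π k := fun g =>
    coded hs₂ y a h fun k : Fin s₂ => z ((g : ℕ) * s₂ + (k : ℕ))
  choose C hC using hco
  choose π hπ using hC
  have hlt : ∀ p, (cell p : ℕ) / s₂ < g₂ := fun p =>
    (Nat.div_lt_iff_lt_mul hs₂0).2 (lt_of_lt_of_le (cell p).2 hg₂)
  let gi : Fin n → Fin g₂ := fun p => ⟨(cell p : ℕ) / s₂, hlt p⟩
  let ki : Fin n → Fin s₂ := fun p => ⟨(cell p : ℕ) % s₂, Nat.mod_lt _ hs₂0⟩
  let X : Fin n → Finset (Fin n) := fun q => univ.filter fun g => ∃ p, grp p = g ∧ q ∈ Y (cell p)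
  have hXm : ∀ q g, g ∈ X q ↔ ∃ p, grp p = g ∧ q ∈ Y (cell p) := by
    intro q g
    simp [X]
  refine ⟨Q.filter fun q => (X q).card ≤ x, filter_subset _ _, ?_,
    fun p => (gi p, C (gi p), ki p), grp, fun q g => π g q, X, hg2, ?_, ?_⟩
  · have hsub : ∀ q, (univ.image grp).filter (fun g => g ∈ X q) = X q := by
      intro q
      ext g
      simp only [mem_filter, mem_image, mem_univ, true_and]
      constructor
      · exact fun h => h.2
      · intro h
        obtain ⟨p, hp, -⟩ := (hXm q g).1 h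
        exact ⟨⟨p, hp⟩, h⟩
    have hdc : ∑ q ∈ Q, (X q).card = ∑ g ∈ univ.image grp, (Q.filter fun q => g ∈ X q).card := by
      have h1 := Finset.sum_card_bipartiteAbove_eq_sum_card_bipartiteBelow
        (s := Q) (t := univ.image grp) (fun q g => g ∈ X q)
      simp only [Finset.bipartiteAbove, Finset.bipartiteBelow] at h1
      rw [← h1]
      exact sum_congr rfl fun q _ => by rw [hsub q]
    have hgc : ∀ g ∈ univ.image grp, r * (Q.filter fun q => g ∈ X q).card ≤ Q.card := by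
      intro g hg
      obtain ⟨p, -, rfl⟩ := mem_image.1 hg
      have h2 : (Q.filter fun q => grp p ∈ X q) ⊆ Y (cell p) := by
        intro q hq
        obtain ⟨p', hp', hq'⟩ := (hXm q _).1 (mem_filter.1 hq).2
        rwa [hg1 p' p hp'] at hq'
      exact le_trans (Nat.mul_le_mul_left r (card_le_card h2)) (hY1 p).le
    have hsum : r * ∑ q ∈ Q, (X q).card ≤ (cellNumA D N₀ + n / s) * Q.card := by
      rw [hdc, mul_sum]
      refine le_trans (sum_le_card_nsmul _ _ _ hgc) ?_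
      rw [smul_eq_mul]
      exact Nat.mul_le_mul_right _ hg3
    have hbad : (x + 1) * (Q.filter fun q => ¬ (X q).card ≤ x).card ≤ ∑ q ∈ Q, (X q).card := by
      refine le_trans ?_ (sum_le_sum_of_subset (filter_subset (fun q => ¬ (X q).card ≤ x) Q))
      rw [mul_comm, ← smul_eq_mul]
      refine card_nsmul_le_sum _ _ _ fun q hq => ?_
      have := (mem_filter.1 hq).2
      omega
    have hsplit := card_filter_add_card_filter_not (s := Q) (fun q => (X q).card ≤ x)
    generalize (Q.filter fun q => ¬ (X q).card ≤ x).card = b at *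
    generalize (Q.filter fun q => (X q).card ≤ x).card = b' at *
    generalize ∑ q ∈ Q, (X q).card = S at *
    generalize Q.card = m at *
    generalize cellNumA D N₀ + n / s = T at *
    have h3 : r * ((x + 1) * (2 * b)) ≤ r * (x * m) := by
      calc r * ((x + 1) * (2 * b)) = 2 * (r * ((x + 1) * b)) := by ring
        _ ≤ 2 * (T * m) := Nat.mul_le_mul_left 2 (le_trans (Nat.mul_le_mul_left r hbad) hsum)
        _ = (2 * T) * m := by ring
        _ ≤ (x * r) * m := Nat.mul_le_mul_right m hx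
        _ = r * (x * m) := by ring
    have h4 : (x + 1) * (2 * b) ≤ x * m := Nat.le_of_mul_le_mul_left h3 (by omega)
    have h5 : 2 * b ≤ m := by
      by_contra hcon
      push Not at hcon
      have h6 : x * m ≤ x * (2 * b) := Nat.mul_le_mul_left x hcon.le
      have h7 : (x + 1) * (2 * b) = x * (2 * b) + 2 * b := by ring
      omega
    omega
  · intro q hq
    exact (mem_filter.1 hq).2
  · intro q hq p hp
    have hqQ : q ∈ Q := (mem_filter.1 hq).1
    have hnot : q ∉ Y (cell p) := fun hmem => hp ((hXm q _).2 ⟨p, rfl, hmem⟩)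
    have h8 := hY2 q hqQ p (z (cell p)) (hz p).symm hnot
    have h9 := hπ (gi p) q (ki p)
    have h10 : ((gi p : Fin g₂) : ℕ) * s₂ + ((ki p : Fin s₂) : ℕ) = (cell p : ℕ) := by
      simp only [gi, ki]
      exact Nat.div_add_mod' _ _
    rw [h10] at h9
    exact h8.trans h9

end Pool.Agent.Helper69.LB
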