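import Pool.Agent.Helper69.LB.Defs

/-! Project LB: rays and keys. -/

open Finset Matrix

namespace Pool.Agent.Helper69.LB

/-- a vector which spans the common kernel of the functionals `l i`, `i ∈ T`, if it is a line -/
noncomputable def kerVec {E N : ℕ} (l : Fin N → Fin E → ℝ) (T : Finset (Fin N)) : Fin E → ℝ :=
  open Classical in
  if h : ∃ v : Fin E → ℝ, v ≠ 0 ∧ (∀ i ∈ T, l i ⬝ᵥ v = 0) ∧
      ∀ w : Fin E → ℝ, (∀ i ∈ T, l i ⬝ᵥ w = 0) → ∃ c : ℝ, w = c • v
  then h.choose else 0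

/-- the two rays of a set of `D` functionals -/
noncomputable def ray {E N : ℕ} (l : Fin N → Fin E → ℝ) (T : Finset (Fin N)) (b : Bool) :
    Fin E → ℝ :=
  if b then kerVec l T else - kerVec l T

/-- `D + 1` rays, each of them given by `D` functionals and a sign -/
abbrev Key (D N : ℕ) : Type := Fin (D + 1) → {T : Finset (Fin N) // T.card = D} × Bool

/-- the hyperplane of `i` crosses the cone over the rays of `κ` -/
def Cross {D N : ℕ} (l : Fin N → Fin (D + 1) → ℝ) (κ : Key D N) (i : Fin N) : Prop :=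
  (∃ j, 0 < l i ⬝ᵥ ray l (κ j).1.1 (κ j).2) ∧ ∃ j, l i ⬝ᵥ ray l (κ j).1.1 (κ j).2 < 0

end Pool.Agent.Helper69.LB
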