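import Pool.Agent.Helper69.LB.Defs

/-! Project LB, piece L4: the numerical estimates. -/

open Finset Real

namespace Pool.Agent.Helper69.LB

/-- the number `r` of the cutting -/
noncomputable def rr (D n : ℕ) : ℕ := ⌈(n : ℝ) ^ (1 / (2 * (D : ℝ) - 1))⌉₊

/-- the size of the sample -/
noncomputable def nn (D n : ℕ) : ℕ := rr D n * ((D + 1) ^ 2 * (Nat.log 2 (n + D + 1) + 1))

/-- the size of the groups -/
noncomputable def ss (D n : ℕ) : ℕ := rr D n ^ (D - 1) + D + 1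

/-- the size of the groups of representatives -/
noncomputable def ss₂ (D n : ℕ) : ℕ := Nat.sqrt (cellNum D (nn D n)) + D + 1

/-- the number of the pointers -/
noncomputable def xx (D n : ℕ) : ℕ := 2 * (cellNum D (nn D n) + n / ss D n) / rr D n + 1

theorem rr_pos {D n : ℕ} (hD : 2 ≤ D) (hn : 1 ≤ n) : 1 ≤ rr D n := by
  have h : (0 : ℝ) < (n : ℝ) ^ (1 / (2 * (D : ℝ) - 1)) :=
    Real.rpow_pos_of_pos (by exact_mod_cast hn) _
  exact Nat.ceil_pos.2 h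

/-- Proof. `(1 - 1 / r) ^ N₀ ≤ exp (- N₀ / r)` with
`N₀ / r = (D + 1) ^ 2 (⌊log₂ (n + D + 1)⌋ + 1) > (D + 1) ^ 2 log (n + D + 1)`, and
`((n + D + 1) ^ D * 2) ^ (D + 1) ≤ (n + D + 1) ^ ((D + 1) ^ 2)`. -/
theorem sample_small {D n : ℕ} (hD : 2 ≤ D) (hn : 1 ≤ n) :
    ((((n + D + 1 : ℕ) : ℝ) ^ D * 2) ^ (D + 1)) * (1 - 1 / (rr D n : ℝ)) ^ nn D n < 1 := by
  set r := rr D n with hr
  have hr1 : 1 ≤ r := rr_pos hD hn
  have hr0 : (0 : ℝ) < (r : ℝ) := by exact_mod_cast hr1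
  have hr1' : (1 : ℝ) ≤ (r : ℝ) := by exact_mod_cast hr1
  set M : ℕ := n + D + 1 with hM
  set L : ℕ := Nat.log 2 M + 1 with hL
  have hM1 : 1 ≤ M := by omega
  have hM2 : (2 : ℝ) ≤ (M : ℝ) := by
    have : 2 ≤ M := by omega
    exact_mod_cast this
  have hM0 : (0 : ℝ) < (M : ℝ) := by linarith
  have hnn : ((nn D n : ℕ) : ℝ) = (r : ℝ) * (((D : ℝ) + 1) ^ 2 * (L : ℝ)) := by
    simp only [nn, ← hr, hL, hM]
    push_cast
    ring
  -- the power
  have h0 : (0 : ℝ) ≤ 1 - 1 / (r : ℝ) := by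
    rw [sub_nonneg, div_le_one hr0]
    exact hr1'
  have h1 : (1 - 1 / (r : ℝ)) ^ nn D n ≤ Real.exp (-(((D : ℝ) + 1) ^ 2 * (L : ℝ))) := by
    calc (1 - 1 / (r : ℝ)) ^ nn D n ≤ (Real.exp (-(1 / (r : ℝ)))) ^ nn D n :=
          pow_le_pow_left₀ h0 (Real.one_sub_le_exp_neg _) _
      _ = Real.exp (-(((D : ℝ) + 1) ^ 2 * (L : ℝ))) := by
          rw [← Real.exp_nat_mul, hnn]
          congr 1
          field_simp
  have hlog : Real.log (M : ℝ) < (L : ℝ) := by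
    have h2 : M < 2 ^ L := Nat.lt_pow_succ_log_self (by norm_num) M
    have h3 : (M : ℝ) < (2 : ℝ) ^ L := by exact_mod_cast h2
    have h4 : Real.log (M : ℝ) < (L : ℝ) * Real.log 2 := by
      have := Real.log_lt_log hM0 h3
      rwa [Real.log_pow] at this
    have h5 : Real.log 2 ≤ 1 := by
      have := Real.log_two_lt_d9
      linarith
    have h6 : (0 : ℝ) ≤ (L : ℝ) := Nat.cast_nonneg _
    nlinarith
  have h2 : ((M : ℝ) ^ D * 2) ^ (D + 1) ≤ Real.exp (((D : ℝ) + 1) ^ 2 * Real.log (M : ℝ)) := by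
    have h3 : (M : ℝ) ^ D * 2 ≤ (M : ℝ) ^ (D + 1) := by
      rw [pow_succ]
      exact mul_le_mul_of_nonneg_left hM2 (by positivity)
    calc ((M : ℝ) ^ D * 2) ^ (D + 1) ≤ ((M : ℝ) ^ (D + 1)) ^ (D + 1) :=
          pow_le_pow_left₀ (by positivity) h3 _
      _ = (M : ℝ) ^ ((D + 1) * (D + 1)) := by rw [← pow_mul]
      _ = Real.exp (((D : ℝ) + 1) ^ 2 * Real.log (M : ℝ)) := by
          rw [← Real.exp_log hM0, ← Real.exp_nat_mul, Real.log_exp]
          congr 1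
          push_cast
          ring
  have hpos : (0 : ℝ) ≤ (1 - 1 / (r : ℝ)) ^ nn D n := pow_nonneg h0 _
  calc ((M : ℝ) ^ D * 2) ^ (D + 1) * (1 - 1 / (r : ℝ)) ^ nn D n
      ≤ Real.exp (((D : ℝ) + 1) ^ 2 * Real.log (M : ℝ)) *
          Real.exp (-(((D : ℝ) + 1) ^ 2 * (L : ℝ))) :=
        mul_le_mul h2 h1 hpos (Real.exp_pos _).le
    _ = Real.exp (((D : ℝ) + 1) ^ 2 * (Real.log (M : ℝ) - (L : ℝ))) := by
        rw [← Real.exp_add]
        congr 1
        ring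
    _ < 1 := by
        rw [Real.exp_lt_one_iff]
        exact mul_neg_of_pos_of_neg (by positivity) (by linarith)

theorem cellNum_le {D n : ℕ} : cellNum D (nn D n) ≤ ss₂ D n * ss₂ D n := by
  have h1 := Nat.lt_succ_sqrt (cellNum D (nn D n))
  have h2 : Nat.succ (Nat.sqrt (cellNum D (nn D n))) ≤ ss₂ D n := by
    simp only [ss₂]; omega
  exact h1.le.trans (Nat.mul_le_mul h2 h2)

theorem xx_ok {D n : ℕ} (hD : 2 ≤ D) (hn : 1 ≤ n) :
    2 * (cellNum D (nn D n) + n / ss D n) ≤ xx D n * rr D n := by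
  have hr : 0 < rr D n := rr_pos hD hn
  have h := Nat.lt_mul_div_succ (2 * (cellNum D (nn D n) + n / ss D n)) hr
  simp only [xx]
  rw [mul_comm (2 * (cellNum D (nn D n) + n / ss D n) / rr D n + 1) (rr D n)]
  exact h.le

end Pool.Agent.Helper69.LB
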