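import Pool.Agent.Helper69.LB.L4

/-! Project LB, piece L4b: the numerical estimate for the number of the labels. -/

open Finset Real

namespace Pool.Agent.Helper69.LB

private def l4b_BO (f g : ℕ → ℝ) : Prop := ∃ C : ℝ, 0 < C ∧ ∀ n : ℕ, 1 ≤ n → f n ≤ C * g n

private theorem l4b_trans {f g h : ℕ → ℝ} (h1 : l4b_BO f g) (h2 : l4b_BO g h) : l4b_BO f h := by
  obtain ⟨C, hC, h1⟩ := h1
  obtain ⟨C', hC', h2⟩ := h2
  refine ⟨C * C', by positivity, fun n hn => ?_⟩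
  calc f n ≤ C * g n := h1 n hn
    _ ≤ C * (C' * h n) := mul_le_mul_of_nonneg_left (h2 n hn) hC.le
    _ = C * C' * h n := by ring

private theorem l4b_of_le {f g : ℕ → ℝ} (h : ∀ n : ℕ, 1 ≤ n → f n ≤ g n) : l4b_BO f g :=
  ⟨1, one_pos, fun n hn => by rw [one_mul]; exact h n hn⟩

private theorem l4b_add {f g h : ℕ → ℝ} (h1 : l4b_BO f h) (h2 : l4b_BO g h) :
    l4b_BO (fun n => f n + g n) h := by
  obtain ⟨C, hC, h1⟩ := h1
  obtain ⟨C', hC', h2⟩ := h2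
  refine ⟨C + C', by positivity, fun n hn => ?_⟩
  have := h1 n hn
  have := h2 n hn
  calc f n + g n ≤ C * h n + C' * h n := by linarith
    _ = (C + C') * h n := by ring

private theorem l4b_mul {f g f' g' : ℕ → ℝ} (h1 : l4b_BO f g) (h2 : l4b_BO f' g')
    (hf : ∀ n : ℕ, 1 ≤ n → 0 ≤ f' n) (hg : ∀ n : ℕ, 1 ≤ n → 0 ≤ g n) :
    l4b_BO (fun n => f n * f' n) (fun n => g n * g' n) := by
  obtain ⟨C, hC, h1⟩ := h1
  obtain ⟨C', hC', h2⟩ := h2
  refine ⟨C * C', by positivity, fun n hn => ?_⟩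
  calc f n * f' n ≤ (C * g n) * f' n := mul_le_mul_of_nonneg_right (h1 n hn) (hf n hn)
    _ ≤ (C * g n) * (C' * g' n) :=
        mul_le_mul_of_nonneg_left (h2 n hn) (mul_nonneg hC.le (hg n hn))
    _ = C * C' * (g n * g' n) := by ring

private theorem l4b_cmul {f g : ℕ → ℝ} {c : ℝ} (hc : 0 ≤ c) (h1 : l4b_BO f g)
    (hg : ∀ n : ℕ, 1 ≤ n → 0 ≤ g n) : l4b_BO (fun n => c * f n) g := by
  obtain ⟨C, hC, h1⟩ := h1
  refine ⟨(c + 1) * C, by positivity, fun n hn => ?_⟩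
  have h2 := h1 n hn
  have h3 := hg n hn
  calc c * f n ≤ c * (C * g n) := mul_le_mul_of_nonneg_left h2 hc
    _ ≤ (c + 1) * C * g n := by nlinarith [mul_nonneg hC.le h3]

private theorem l4b_pow {f g : ℕ → ℝ} (h1 : l4b_BO f g) (hf : ∀ n : ℕ, 1 ≤ n → 0 ≤ f n) (k : ℕ) :
    l4b_BO (fun n => f n ^ k) (fun n => g n ^ k) := by
  obtain ⟨C, hC, h1⟩ := h1
  refine ⟨C ^ k, by positivity, fun n hn => ?_⟩
  rw [← mul_pow]
  exact pow_le_pow_left₀ (hf n hn) (h1 n hn) k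

private theorem l4b_const {g : ℕ → ℝ} {c : ℝ} (hc : 0 < c) (hg : ∀ n : ℕ, 1 ≤ n → c ≤ g n)
    (a : ℝ) : l4b_BO (fun _ => a) g := by
  refine ⟨|a| / c + 1, by positivity, fun n hn => ?_⟩
  have h := hg n hn
  have h0 : (0 : ℝ) ≤ |a| / c := by positivity
  calc a ≤ |a| := le_abs_self a
    _ = |a| / c * c := by field_simp
    _ ≤ |a| / c * g n := mul_le_mul_of_nonneg_left h h0
    _ ≤ (|a| / c + 1) * g n := by nlinarith

private noncomputable def l4b_l (n : ℕ) : ℝ := Real.log (n + 1)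

private theorem l4b_l_ge (n : ℕ) (hn : 1 ≤ n) : (1 / 2 : ℝ) ≤ l4b_l n := by
  unfold l4b_l
  have h1 : (2 : ℝ) ≤ (n : ℝ) + 1 := by
    have : (1 : ℝ) ≤ (n : ℝ) := by exact_mod_cast hn
    linarith
  have h2 := Real.log_le_log (by norm_num) h1
  have h3 := Real.log_two_gt_d9
  linarith

private theorem l4b_l_nonneg (n : ℕ) (hn : 1 ≤ n) : 0 ≤ l4b_l n :=
  le_trans (by norm_num) (l4b_l_ge n hn)

/-- polynomially bounded functions have logarithms `O(ℓ)` -/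
private theorem l4b_log {f : ℕ → ℝ} {k : ℕ} (h : l4b_BO f (fun n => ((n : ℝ) + 1) ^ k))
    (hf : ∀ n : ℕ, 1 ≤ n → 0 < f n) : l4b_BO (fun n => Real.log (f n)) l4b_l := by
  obtain ⟨C, hC, h⟩ := h
  refine ⟨2 * |Real.log C| + k + 1, by positivity, fun n hn => ?_⟩
  have h1 := h n hn
  have h2 := Real.log_le_log (hf n hn) h1
  have hn0 : (0 : ℝ) < (n : ℝ) + 1 := by positivity
  rw [Real.log_mul hC.ne' (by positivity), Real.log_pow] at h2
  have h3 := l4b_l_ge n hn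
  have h4 : Real.log C ≤ |Real.log C| := le_abs_self _
  have h5 : (0 : ℝ) ≤ |Real.log C| := abs_nonneg _
  have h6 : l4b_l n = Real.log ((n : ℝ) + 1) := rfl
  rw [← h6] at h2
  nlinarith [mul_nonneg h5 (by linarith : (0 : ℝ) ≤ l4b_l n - 1 / 2)]

private noncomputable def l4b_u (D n : ℕ) : ℝ := (n : ℝ) ^ (1 / (2 * (D : ℝ) - 1))

section

variable {D : ℕ} (hD : 2 ≤ D)

include hD

private theorem l4b_D : (2 : ℝ) ≤ (D : ℝ) := by exact_mod_cast hD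

private theorem l4b_u_ge (n : ℕ) (hn : 1 ≤ n) : 1 ≤ l4b_u D n := by
  have h2 := l4b_D hD
  have hn' : (1 : ℝ) ≤ (n : ℝ) := by exact_mod_cast hn
  exact Real.one_le_rpow hn' (by apply div_nonneg <;> linarith)

private theorem l4b_u_nonneg (n : ℕ) (hn : 1 ≤ n) : 0 ≤ l4b_u D n :=
  le_trans (by norm_num) (l4b_u_ge hD n hn)

private theorem l4b_u_pow (n : ℕ) (hn : 1 ≤ n) : l4b_u D n ^ (2 * D - 1) = (n : ℝ) := by
  have h2 := l4b_D hD
  have hn0 : (0 : ℝ) ≤ (n : ℝ) := Nat.cast_nonneg _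
  unfold l4b_u
  rw [← Real.rpow_natCast, ← Real.rpow_mul hn0]
  have h3 : ((2 * D - 1 : ℕ) : ℝ) = 2 * (D : ℝ) - 1 := by
    rw [Nat.cast_sub (by omega)]
    push_cast
    ring
  rw [h3, one_div, inv_mul_cancel₀ (by linarith), Real.rpow_one]

private theorem l4b_target (n : ℕ) :
    (n : ℝ) ^ (((D : ℝ) - 1) / (2 * D - 1)) = l4b_u D n ^ (D - 1) := by
  have h2 := l4b_D hD
  have hn0 : (0 : ℝ) ≤ (n : ℝ) := Nat.cast_nonneg _
  unfold l4b_u
  rw [← Real.rpow_natCast, ← Real.rpow_mul hn0]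
  congr 1
  rw [Nat.cast_sub (by omega)]
  push_cast
  field_simp

private theorem l4b_u_le (n : ℕ) (hn : 1 ≤ n) : l4b_u D n ≤ (n : ℝ) + 1 := by
  have h1 := l4b_u_ge hD n hn
  have h2 := l4b_u_pow hD n hn
  have h3 : l4b_u D n ^ 1 ≤ l4b_u D n ^ (2 * D - 1) := pow_le_pow_right₀ h1 (by omega)
  rw [pow_one, h2] at h3
  linarith

private theorem l4b_l_le (n : ℕ) : l4b_l n ≤ (n : ℝ) + 1 := by
  unfold l4b_l
  have hn0 : (0 : ℝ) < (n : ℝ) + 1 := by positivity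
  have := Real.log_le_sub_one_of_pos hn0
  linarith

/-- (a) -/
private theorem l4b_r : l4b_BO (fun n => (rr D n : ℝ)) (l4b_u D) := by
  refine ⟨2, by norm_num, fun n hn => ?_⟩
  have h1 := l4b_u_ge hD n hn
  have h2 : (rr D n : ℝ) < l4b_u D n + 1 := Nat.ceil_lt_add_one (l4b_u_nonneg hD n hn)
  linarith

private theorem l4b_r_ge (n : ℕ) : l4b_u D n ≤ (rr D n : ℝ) := Nat.le_ceil _

private theorem l4b_natlog (m : ℕ) (hm : 1 ≤ m) :
    ((Nat.log 2 m + 1 : ℕ) : ℝ) ≤ 2 * Real.log m + 1 := by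
  have h1 : 2 ^ Nat.log 2 m ≤ m := Nat.pow_log_le_self 2 (by omega)
  have h2 : (2 : ℝ) ^ Nat.log 2 m ≤ (m : ℝ) := by exact_mod_cast h1
  have h3 := Real.log_le_log (by positivity) h2
  rw [Real.log_pow] at h3
  have h4 := Real.log_two_gt_d9
  have h5 : (0 : ℝ) ≤ (Nat.log 2 m : ℝ) := Nat.cast_nonneg _
  push_cast
  nlinarith

/-- (b) -/
private theorem l4b_L : l4b_BO (fun n => ((Nat.log 2 n + 1 : ℕ) : ℝ)) l4b_l := by
  refine ⟨4, by norm_num, fun n hn => ?_⟩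
  have h1 := l4b_natlog hD n hn
  have h2 := l4b_l_ge n hn
  have hn0 : (0 : ℝ) < (n : ℝ) := by exact_mod_cast hn
  have h3 : Real.log (n : ℝ) ≤ l4b_l n := Real.log_le_log hn0 (by linarith)
  show ((Nat.log 2 n + 1 : ℕ) : ℝ) ≤ 4 * l4b_l n
  linarith

/-- (c) -/
private theorem l4b_L' : l4b_BO (fun n => ((Nat.log 2 (n + D + 1) + 1 : ℕ) : ℝ)) l4b_l := by
  have h := l4b_log (f := fun n => ((n + D + 1 : ℕ) : ℝ)) (k := 1) ⟨(D : ℝ) + 1, by positivity,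
    fun n hn => by
      push_cast
      have : (0 : ℝ) ≤ (n : ℝ) * D := by positivity
      nlinarith⟩ (fun n hn => by positivity)
  obtain ⟨C, hC, h⟩ := h
  refine ⟨2 * C + 2, by positivity, fun n hn => ?_⟩
  have h1 := l4b_natlog hD (n + D + 1) (by omega)
  have h2 := l4b_l_ge n hn
  have h3 := h n hn
  dsimp only at h3 ⊢
  linarith

private theorem l4b_ul_ge (n : ℕ) (hn : 1 ≤ n) : 1 / 2 ≤ l4b_u D n * l4b_l n := by
  have h1 := l4b_u_ge hD n hn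
  have h2 := l4b_l_ge n hn
  nlinarith

private theorem l4b_ul_nonneg (n : ℕ) (hn : 1 ≤ n) : 0 ≤ l4b_u D n * l4b_l n :=
  le_trans (by norm_num) (l4b_ul_ge hD n hn)

/-- (d) -/
private theorem l4b_N : l4b_BO (fun n => (nn D n : ℝ)) (fun n => l4b_u D n * l4b_l n) := by
  have h1 := l4b_mul (l4b_r hD) (l4b_cmul (c := ((D : ℝ) + 1) ^ 2) (by positivity) (l4b_L' hD)
    l4b_l_nonneg) (fun n hn => by positivity) (fun n hn => l4b_u_nonneg hD n hn)
  refine l4b_trans (l4b_of_le fun n hn => ?_) h1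
  simp only [nn]
  push_cast
  exact le_rfl

/-- (e) -/
private theorem l4b_t : l4b_BO (fun n => (cellNum D (nn D n) : ℝ))
    (fun n => (l4b_u D n * l4b_l n) ^ D) := by
  have h1 : l4b_BO (fun n => (nn D n : ℝ) + ((D : ℝ) + 1)) (fun n => l4b_u D n * l4b_l n) :=
    l4b_add (l4b_N hD) (l4b_const (c := 1 / 2) (by norm_num) (l4b_ul_ge hD) _)
  have h2 := l4b_cmul (c := 2 * (2 * ((D : ℝ) + 1)) ^ D) (by positivity)
    (l4b_pow h1 (fun n hn => by positivity) D)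
    (fun n hn => pow_nonneg (l4b_ul_nonneg hD n hn) _)
  refine l4b_trans (l4b_of_le fun n hn => ?_) h2
  simp only [cellNum]
  push_cast
  rw [mul_comm, add_assoc]

private theorem l4b_ul_pow {a b : ℕ} (hab : a ≤ b) :
    l4b_BO (fun n => (l4b_u D n * l4b_l n) ^ a) (fun n => (l4b_u D n * l4b_l n) ^ b) := by
  refine ⟨2 ^ (b - a), by positivity, fun n hn => ?_⟩
  have h1 := l4b_ul_ge hD n hn
  have h0 := l4b_ul_nonneg hD n hn
  have h2 : (1 : ℝ) ≤ (2 * (l4b_u D n * l4b_l n)) ^ (b - a) := one_le_pow₀ (by linarith)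
  have h3 : (l4b_u D n * l4b_l n) ^ b =
      (l4b_u D n * l4b_l n) ^ a * (l4b_u D n * l4b_l n) ^ (b - a) := by
    rw [← pow_add]; congr 1; omega
  dsimp only
  rw [h3]
  rw [mul_pow] at h2
  calc (l4b_u D n * l4b_l n) ^ a = (l4b_u D n * l4b_l n) ^ a * 1 := by ring
    _ ≤ (l4b_u D n * l4b_l n) ^ a * (2 ^ (b - a) * (l4b_u D n * l4b_l n) ^ (b - a)) :=
        mul_le_mul_of_nonneg_left h2 (by positivity)
    _ = _ := by ring

private theorem l4b_l_pow {a b : ℕ} (hab : a ≤ b) :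
    l4b_BO (fun n => l4b_l n ^ a) (fun n => l4b_l n ^ b) := by
  refine ⟨2 ^ (b - a), by positivity, fun n hn => ?_⟩
  have h1 := l4b_l_ge n hn
  have h0 := l4b_l_nonneg n hn
  have h2 : (1 : ℝ) ≤ (2 * l4b_l n) ^ (b - a) := one_le_pow₀ (by linarith)
  have h3 : l4b_l n ^ b = l4b_l n ^ a * l4b_l n ^ (b - a) := by
    rw [← pow_add]; congr 1; omega
  dsimp only
  rw [h3]
  rw [mul_pow] at h2
  calc l4b_l n ^ a = l4b_l n ^ a * 1 := by ring
    _ ≤ l4b_l n ^ a * (2 ^ (b - a) * l4b_l n ^ (b - a)) :=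
        mul_le_mul_of_nonneg_left h2 (by positivity)
    _ = _ := by ring

/-- (i) -/
private theorem l4b_s2 : l4b_BO (fun n => (ss₂ D n : ℝ))
    (fun n => (l4b_u D n * l4b_l n) ^ (D - 1)) := by
  obtain ⟨C, hC, h⟩ := l4b_trans (l4b_t hD) (l4b_ul_pow hD (a := D) (b := 2 * (D - 1)) (by omega))
  have h1 : l4b_BO (fun n => ((Nat.sqrt (cellNum D (nn D n)) : ℕ) : ℝ))
      (fun n => (l4b_u D n * l4b_l n) ^ (D - 1)) := by
    refine ⟨Real.sqrt C, by positivity, fun n hn => ?_⟩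
    have h0 := l4b_ul_nonneg hD n hn
    have h2 : ((Nat.sqrt (cellNum D (nn D n)) : ℕ) : ℝ) ^ 2 ≤
        (Real.sqrt C * (l4b_u D n * l4b_l n) ^ (D - 1)) ^ 2 := by
      rw [mul_pow, Real.sq_sqrt hC.le, ← pow_mul, mul_comm (D - 1) 2]
      refine le_trans ?_ (h n hn)
      have h3 : Nat.sqrt (cellNum D (nn D n)) * Nat.sqrt (cellNum D (nn D n)) ≤
        cellNum D (nn D n) := Nat.sqrt_le _
      have h4 : ((Nat.sqrt (cellNum D (nn D n)) * Nat.sqrt (cellNum D (nn D n)) : ℕ) : ℝ) ≤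
        (cellNum D (nn D n) : ℝ) := by exact_mod_cast h3
      rw [sq, ← Nat.cast_mul]
      exact h4
    exact (pow_le_pow_iff_left₀ (by positivity) (by positivity) two_ne_zero).1 h2
  have h3 : l4b_BO (fun _ => ((D : ℝ) + 1)) (fun n => (l4b_u D n * l4b_l n) ^ (D - 1)) := by
    refine l4b_trans ?_ (l4b_ul_pow hD (a := 0) (b := D - 1) (by omega))
    exact l4b_const (c := 1) one_pos (fun n hn => by simp) _
  refine l4b_trans (l4b_of_le fun n hn => ?_) (l4b_add h1 h3)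
  simp only [ss₂]
  push_cast
  rw [add_assoc]

/-- (f) -/
private theorem l4b_s : l4b_BO (fun n => (ss D n : ℝ)) (fun n => l4b_u D n ^ (D - 1)) := by
  have h1 := l4b_pow (l4b_r hD) (fun n hn => by positivity) (D - 1)
  have h3 : l4b_BO (fun _ => ((D : ℝ) + 1)) (fun n => l4b_u D n ^ (D - 1)) :=
    l4b_const (c := 1) one_pos (fun n hn => one_le_pow₀ (l4b_u_ge hD n hn)) _
  refine l4b_trans (l4b_of_le fun n hn => ?_) (l4b_add h1 h3)
  simp only [ss]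
  push_cast
  rw [add_assoc]

/-- (g) -/
private theorem l4b_ns (n : ℕ) (hn : 1 ≤ n) : ((n / ss D n : ℕ) : ℝ) ≤ l4b_u D n ^ D := by
  have hu := l4b_u_ge hD n hn
  have hu0 : 0 < l4b_u D n := by linarith
  have h1 : l4b_u D n ^ (D - 1) ≤ (ss D n : ℝ) := by
    have h2 : l4b_u D n ^ (D - 1) ≤ (rr D n : ℝ) ^ (D - 1) :=
      pow_le_pow_left₀ hu0.le (l4b_r_ge hD n) _
    simp only [ss]
    push_cast
    have : (0 : ℝ) ≤ (D : ℝ) := Nat.cast_nonneg _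
    linarith
  have h2 : ((n / ss D n : ℕ) : ℝ) ≤ (n : ℝ) / (ss D n : ℝ) := Nat.cast_div_le
  have hp : 0 < l4b_u D n ^ (D - 1) := by positivity
  refine h2.trans ?_
  rw [div_le_iff₀ (lt_of_lt_of_le hp h1)]
  calc (n : ℝ) = l4b_u D n ^ D * l4b_u D n ^ (D - 1) := by
        rw [← l4b_u_pow hD n hn, ← pow_add]
        congr 1
        omega
    _ ≤ l4b_u D n ^ D * (ss D n : ℝ) := mul_le_mul_of_nonneg_left h1 (by positivity)

/-- (h) -/
private theorem l4b_x : l4b_BO (fun n => (xx D n : ℝ))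
    (fun n => l4b_u D n ^ (D - 1) * l4b_l n ^ D) := by
  obtain ⟨C, hC, ht⟩ := l4b_t hD
  refine ⟨2 * C + 2 * 2 ^ D + 2 ^ D, by positivity, fun n hn => ?_⟩
  have hu := l4b_u_ge hD n hn
  have hu0 : 0 < l4b_u D n := by linarith
  have hl := l4b_l_ge n hn
  have hl0 : 0 < l4b_l n := by linarith
  have hr := l4b_r_ge hD n
  have hr0 : 0 < (rr D n : ℝ) := by linarith
  have ht' := ht n hn
  dsimp only at ht'
  have hns := l4b_ns hD n hn
  have hl2 : (1 : ℝ) ≤ 2 ^ D * l4b_l n ^ D := by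
    rw [← mul_pow]; exact one_le_pow₀ (by linarith)
  have hupow : l4b_u D n ^ D = l4b_u D n ^ (D - 1) * l4b_u D n := by
    rw [← pow_succ]; congr 1; omega
  have hp : 1 ≤ l4b_u D n ^ (D - 1) := one_le_pow₀ hu
  have h1 : ((2 * (cellNum D (nn D n) + n / ss D n) / rr D n : ℕ) : ℝ) ≤
      ((2 * (cellNum D (nn D n) + n / ss D n) : ℕ) : ℝ) / (rr D n : ℝ) := Nat.cast_div_le
  have h2 : ((2 * (cellNum D (nn D n) + n / ss D n) : ℕ) : ℝ) ≤
      (2 * (C * (l4b_u D n ^ (D - 1) * l4b_l n ^ D) + l4b_u D n ^ (D - 1))) * l4b_u D n := by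
    push_cast
    calc 2 * ((cellNum D (nn D n) : ℝ) + ((n / ss D n : ℕ) : ℝ))
        ≤ 2 * (C * (l4b_u D n * l4b_l n) ^ D + l4b_u D n ^ D) := by linarith
      _ = _ := by rw [mul_pow, hupow]; ring
  have h3 : ((2 * (cellNum D (nn D n) + n / ss D n) : ℕ) : ℝ) / (rr D n : ℝ) ≤
      2 * (C * (l4b_u D n ^ (D - 1) * l4b_l n ^ D) + l4b_u D n ^ (D - 1)) := by
    rw [div_le_iff₀ hr0]
    refine h2.trans (mul_le_mul_of_nonneg_left hr (by positivity))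
  have h4 : l4b_u D n ^ (D - 1) ≤ 2 ^ D * (l4b_u D n ^ (D - 1) * l4b_l n ^ D) := by
    calc l4b_u D n ^ (D - 1) = l4b_u D n ^ (D - 1) * 1 := by ring
      _ ≤ l4b_u D n ^ (D - 1) * (2 ^ D * l4b_l n ^ D) :=
          mul_le_mul_of_nonneg_left hl2 (by positivity)
      _ = _ := by ring
  have h5 : (xx D n : ℝ) =
      ((2 * (cellNum D (nn D n) + n / ss D n) / rr D n : ℕ) : ℝ) + 1 := by
    simp only [xx]
    push_cast
    ring
  dsimp only
  rw [h5]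
  calc ((2 * (cellNum D (nn D n) + n / ss D n) / rr D n : ℕ) : ℝ) + 1
      ≤ 2 * (C * (l4b_u D n ^ (D - 1) * l4b_l n ^ D) + l4b_u D n ^ (D - 1)) +
        l4b_u D n ^ (D - 1) := by linarith
    _ ≤ (2 * C + 2 * 2 ^ D + 2 ^ D) * (l4b_u D n ^ (D - 1) * l4b_l n ^ D) := by nlinarith

/-! logarithms -/

private theorem l4b_up (k : ℕ) : l4b_BO (fun n => l4b_u D n ^ k) (fun n => ((n : ℝ) + 1) ^ k) :=
  l4b_of_le fun n hn => pow_le_pow_left₀ (l4b_u_nonneg hD n hn) (l4b_u_le hD n hn) k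

private theorem l4b_s_poly : l4b_BO (fun n => (ss D n : ℝ)) (fun n => ((n : ℝ) + 1) ^ (D - 1)) :=
  l4b_trans (l4b_s hD) (l4b_up hD _)

private theorem l4b_s2_poly :
    l4b_BO (fun n => (ss₂ D n : ℝ)) (fun n => ((n : ℝ) + 1) ^ (2 * (D - 1))) := by
  refine l4b_trans (l4b_s2 hD) (l4b_of_le fun n hn => ?_)
  rw [pow_mul]
  refine pow_le_pow_left₀ (l4b_ul_nonneg hD n hn) ?_ _
  rw [sq]
  exact mul_le_mul (l4b_u_le hD n hn) (l4b_l_le hD n) (l4b_l_nonneg n hn) (by positivity)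

private theorem l4b_ss_pos (n : ℕ) : (1 : ℝ) ≤ (ss D n : ℝ) := by
  have : 1 ≤ ss D n := by simp only [ss]; omega
  exact_mod_cast this

private theorem l4b_ss2_pos (n : ℕ) : (1 : ℝ) ≤ (ss₂ D n : ℝ) := by
  have : 1 ≤ ss₂ D n := by simp only [ss₂]; omega
  exact_mod_cast this

/-- the number of chirotopes, polynomial base -/
private theorem l4b_X {f : ℕ → ℝ} {k : ℕ} (h : l4b_BO f (fun n => ((n : ℝ) + 1) ^ k))
    (hf : ∀ n : ℕ, 1 ≤ n → 1 ≤ f n) :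
    l4b_BO (fun n => Real.log (((D : ℝ) + 1) * f n * (((D : ℝ) + 1) * f n ^ (D + 1) + 2) + 1))
      l4b_l := by
  refine l4b_log (k := k * (D + 2)) ?_ (fun n hn => ?_)
  · have h1 := l4b_pow h (fun n hn => le_trans zero_le_one (hf n hn)) (D + 2)
    obtain ⟨C, hC, h1⟩ := h1
    refine ⟨(((D : ℝ) + 1) ^ 2 + 2 * ((D : ℝ) + 1) + 1) * C, by positivity, fun n hn => ?_⟩
    have h2 := h1 n hn
    dsimp only at h2
    rw [← pow_mul] at h2
    have h3 := hf n hn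
    have h4 : f n ≤ f n ^ (D + 2) := by
      calc f n = f n ^ 1 := (pow_one _).symm
        _ ≤ f n ^ (D + 2) := pow_le_pow_right₀ h3 (by omega)
    have h5 : (1 : ℝ) ≤ f n ^ (D + 2) := one_le_pow₀ h3
    have h6 : f n ^ (D + 2) = f n * f n ^ (D + 1) := by ring
    have hD0 : (0 : ℝ) ≤ (D : ℝ) := Nat.cast_nonneg _
    calc ((D : ℝ) + 1) * f n * (((D : ℝ) + 1) * f n ^ (D + 1) + 2) + 1
        = ((D : ℝ) + 1) ^ 2 * f n ^ (D + 2) + 2 * ((D : ℝ) + 1) * f n + 1 := by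
          rw [h6]; ring
      _ ≤ ((D : ℝ) + 1) ^ 2 * f n ^ (D + 2) + 2 * ((D : ℝ) + 1) * f n ^ (D + 2) +
          f n ^ (D + 2) := by
          have := mul_le_mul_of_nonneg_left h4 (by positivity : (0 : ℝ) ≤ 2 * ((D : ℝ) + 1))
          linarith
      _ = (((D : ℝ) + 1) ^ 2 + 2 * ((D : ℝ) + 1) + 1) * f n ^ (D + 2) := by ring
      _ ≤ (((D : ℝ) + 1) ^ 2 + 2 * ((D : ℝ) + 1) + 1) * (C * ((n : ℝ) + 1) ^ (k * (D + 2))) :=
          mul_le_mul_of_nonneg_left h2 (by positivity)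
      _ = _ := by ring
  · have h3 := hf n hn
    have : (0 : ℝ) ≤ f n := by linarith
    positivity

private noncomputable def l4b_W (D n : ℕ) : ℝ := l4b_u D n ^ (D - 1) * l4b_l n ^ (D + 1)

private theorem l4b_W_nonneg (n : ℕ) (hn : 1 ≤ n) : 0 ≤ l4b_W D n :=
  mul_nonneg (pow_nonneg (l4b_u_nonneg hD n hn) _) (pow_nonneg (l4b_l_nonneg n hn) _)

/-- `ℓ ^ 2 * s₂` -/
private theorem l4b_s2W : l4b_BO (fun n => (ss₂ D n : ℝ) * l4b_l n ^ 2) (l4b_W D) := by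
  have h1 := l4b_mul (l4b_s2 hD) (l4b_of_le (f := fun n => l4b_l n ^ 2) (g := fun n => l4b_l n ^ 2)
    fun n hn => le_rfl) (fun n hn => pow_nonneg (l4b_l_nonneg n hn) _)
    (fun n hn => pow_nonneg (l4b_ul_nonneg hD n hn) _)
  refine l4b_trans h1 (l4b_of_le fun n hn => ?_)
  unfold l4b_W
  rw [mul_pow, mul_assoc, ← pow_add]
  have : D - 1 + 2 = D + 1 := by omega
  rw [this]

/-- `ℓ ^ 2 * s` -/
private theorem l4b_sW : l4b_BO (fun n => (ss D n : ℝ) * l4b_l n ^ 2) (l4b_W D) := by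
  have h1 := l4b_mul (l4b_s hD) (l4b_l_pow hD (a := 2) (b := D + 1) (by omega))
    (fun n hn => pow_nonneg (l4b_l_nonneg n hn) _)
    (fun n hn => pow_nonneg (l4b_u_nonneg hD n hn) _)
  exact h1

private theorem l4b_lW : l4b_BO (fun n => l4b_l n ^ 2) (l4b_W D) := by
  refine l4b_trans (l4b_of_le fun n hn => ?_) (l4b_sW hD)
  have h1 := l4b_ss_pos hD n
  have h2 : 0 ≤ l4b_l n ^ 2 := sq_nonneg _
  nlinarith

/-- `ℓ * x` -/
private theorem l4b_xW : l4b_BO (fun n => (xx D n : ℝ) * l4b_l n) (l4b_W D) := by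
  have h1 := l4b_mul (l4b_x hD) (l4b_of_le (f := l4b_l) (g := l4b_l)
    fun n hn => le_rfl) (fun n hn => l4b_l_nonneg n hn)
    (fun n hn => mul_nonneg (pow_nonneg (l4b_u_nonneg hD n hn) _)
      (pow_nonneg (l4b_l_nonneg n hn) _))
  refine l4b_trans h1 (l4b_of_le fun n hn => ?_)
  unfold l4b_W
  rw [mul_assoc, ← pow_succ]

end

/-- Proof. Write `u = n ^ (1 / (2 D - 1)) ≥ 1` and `ℓ = log (n + 1) ≥ log 2`; the constants depend
only on `D`. Then `r ≤ 2 u`, `n ≤ r ^ (2 D - 1)`, `log₂ (n + D + 1) + 1 ≤ C ℓ`, `N₀ ≤ C u ℓ`,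
`t = cellNum D N₀ ≤ C u ^ D ℓ ^ D`, `s ≤ C u ^ (D - 1)`, `n / s ≤ r ^ D ≤ C u ^ D`,
`x ≤ C u ^ (D - 1) ℓ ^ D`, and `s₂ ≤ C u ^ (D / 2) ℓ ^ (D / 2) ≤ C u ^ (D - 1) ℓ ^ D` (`D ≥ 2`);
`log s`, `log s₂`, `log x`, `log n` are at most `C ℓ`. The logarithm of the number below is at most
`C ℓ * (s₂ ℓ + s ℓ + ℓ) + C s₂ ℓ + C x ℓ + C ℓ`. The first term is at most
`C ℓ ^ 2 * u ^ (D - 1) + C ℓ ^ 2 s₂`. So everything is at most `C u ^ (D - 1) ℓ ^ (D + 1)`; for the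
term `ℓ ^ 2 s₂` use `s₂ ≤ C u ^ (D / 2) ℓ ^ (D / 2)`, and `ℓ ^ (2 + D / 2) ≤ C ℓ ^ (D + 1)` as
`D ≥ 2`. -/
theorem numbers (D : ℕ) (hD : 2 ≤ D) : ∃ C : ℝ, 0 < C ∧ ∀ n : ℕ, 1 ≤ n →
    ((((ss₂ D n * (((D + 1) * ss₂ D n * ((D + 1) * ss₂ D n ^ (D + 1) + 2) + 1) ^
          ((D + 1) * ss₂ D n) * ss₂ D n)) *
        (n * (((D + 1) * ss D n * ((D + 1) * ss D n ^ (D + 1) + 2) + 1) ^
          ((D + 1) * ss D n) * ss D n))) ^ (Nat.log 2 n + 1) *
      ((Nat.log 2 n + 1) * ((ss₂ D n ^ D * (2 * 2 ^ D)) ^ ss₂ D n *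
        (n * (ss D n ^ D * (2 * 2 ^ D)) + 1) ^ xx D n)) : ℕ) : ℝ) ≤
      2 ^ (C * (n : ℝ) ^ (((D : ℝ) - 1) / (2 * D - 1)) * (Real.log (n + 1)) ^ (D + 1)) := by
  have hWn := l4b_W_nonneg hD
  have hl0 := l4b_l_nonneg
  have hLpos : ∀ n : ℕ, 1 ≤ n → (0 : ℝ) ≤ ((Nat.log 2 n + 1 : ℕ) : ℝ) := fun n hn => by positivity
  -- the logarithms of the parts
  have hs := l4b_log (l4b_s_poly hD) (fun n hn => lt_of_lt_of_le one_pos (l4b_ss_pos hD n))
  have hs2 := l4b_log (l4b_s2_poly hD) (fun n hn => lt_of_lt_of_le one_pos (l4b_ss2_pos hD n))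
  have hX1 := l4b_X hD (l4b_s_poly hD) (fun n hn => l4b_ss_pos hD n)
  have hX2 := l4b_X hD (l4b_s2_poly hD) (fun n hn => l4b_ss2_pos hD n)
  have hn1 := l4b_log (f := fun n => (n : ℝ)) (k := 1)
    (l4b_of_le fun n hn => by simp) (fun n hn => by exact_mod_cast hn)
  have hLog := l4b_log (f := fun n => ((Nat.log 2 n + 1 : ℕ) : ℝ)) (k := 1)
    (l4b_trans (l4b_L hD) (l4b_of_le fun n hn => by rw [pow_one]; exact l4b_l_le hD n))
    (fun n hn => by positivity)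
  -- powers of `ℓ`
  have hll : l4b_BO l4b_l (fun n => l4b_l n ^ 2) := by
    have := l4b_l_pow hD (a := 1) (b := 2) (by norm_num)
    simpa using this
  have hlW : l4b_BO l4b_l (l4b_W D) := l4b_trans hll (l4b_lW hD)
  have hs2l : ∀ n : ℕ, 1 ≤ n → 0 ≤ (ss₂ D n : ℝ) * l4b_l n := fun n hn =>
    mul_nonneg (by positivity) (hl0 n hn)
  have hsl : ∀ n : ℕ, 1 ≤ n → 0 ≤ (ss D n : ℝ) * l4b_l n := fun n hn =>
    mul_nonneg (by positivity) (hl0 n hn)
  have hls2 : l4b_BO l4b_l (fun n => (ss₂ D n : ℝ) * l4b_l n) := l4b_of_le fun n hn => by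
    have := l4b_ss2_pos hD n
    have := hl0 n hn
    nlinarith
  have hls : l4b_BO l4b_l (fun n => (ss D n : ℝ) * l4b_l n) := l4b_of_le fun n hn => by
    have := l4b_ss_pos hD n
    have := hl0 n hn
    nlinarith
  -- first part
  have hA : l4b_BO (fun n => Real.log (ss₂ D n : ℝ) + (((D : ℝ) + 1) * ((ss₂ D n : ℝ) *
      Real.log (((D : ℝ) + 1) * (ss₂ D n : ℝ) * (((D : ℝ) + 1) * (ss₂ D n : ℝ) ^ (D + 1) + 2)
        + 1)) + Real.log (ss₂ D n : ℝ))) (fun n => (ss₂ D n : ℝ) * l4b_l n) := by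
    refine l4b_add (l4b_trans hs2 hls2) (l4b_add (l4b_cmul (by positivity) ?_ hs2l)
      (l4b_trans hs2 hls2))
    refine l4b_mul (l4b_of_le fun n hn => le_rfl) hX2 (fun n hn => Real.log_nonneg ?_)
      (fun n hn => by positivity)
    have : (0 : ℝ) ≤ ((D : ℝ) + 1) * (ss₂ D n : ℝ) * (((D : ℝ) + 1) * (ss₂ D n : ℝ) ^ (D + 1)
      + 2) := by positivity
    linarith
  have hB : l4b_BO (fun n => Real.log (n : ℝ) + (((D : ℝ) + 1) * ((ss D n : ℝ) *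
      Real.log (((D : ℝ) + 1) * (ss D n : ℝ) * (((D : ℝ) + 1) * (ss D n : ℝ) ^ (D + 1) + 2)
        + 1)) + Real.log (ss D n : ℝ))) (fun n => (ss D n : ℝ) * l4b_l n) := by
    refine l4b_add (l4b_trans hn1 hls) (l4b_add (l4b_cmul (by positivity) ?_ hsl)
      (l4b_trans hs hls))
    refine l4b_mul (l4b_of_le fun n hn => le_rfl) hX1 (fun n hn => Real.log_nonneg ?_)
      (fun n hn => by positivity)
    have : (0 : ℝ) ≤ ((D : ℝ) + 1) * (ss D n : ℝ) * (((D : ℝ) + 1) * (ss D n : ℝ) ^ (D + 1)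
      + 2) := by positivity
    linarith
  have hAnn : ∀ n : ℕ, 1 ≤ n → 0 ≤ Real.log (ss₂ D n : ℝ) + (((D : ℝ) + 1) * ((ss₂ D n : ℝ) *
      Real.log (((D : ℝ) + 1) * (ss₂ D n : ℝ) * (((D : ℝ) + 1) * (ss₂ D n : ℝ) ^ (D + 1) + 2)
        + 1)) + Real.log (ss₂ D n : ℝ)) := by
    intro n hn
    have h1 : (0 : ℝ) ≤ Real.log (ss₂ D n : ℝ) := Real.log_nonneg (l4b_ss2_pos hD n)
    have h2 : (0 : ℝ) ≤ Real.log (((D : ℝ) + 1) * (ss₂ D n : ℝ) * (((D : ℝ) + 1) *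
        (ss₂ D n : ℝ) ^ (D + 1) + 2) + 1) := by
      apply Real.log_nonneg
      have : (0 : ℝ) ≤ ((D : ℝ) + 1) * (ss₂ D n : ℝ) * (((D : ℝ) + 1) * (ss₂ D n : ℝ) ^ (D + 1)
        + 2) := by positivity
      linarith
    positivity
  have hBnn : ∀ n : ℕ, 1 ≤ n → 0 ≤ Real.log (n : ℝ) + (((D : ℝ) + 1) * ((ss D n : ℝ) *
      Real.log (((D : ℝ) + 1) * (ss D n : ℝ) * (((D : ℝ) + 1) * (ss D n : ℝ) ^ (D + 1) + 2)
        + 1)) + Real.log (ss D n : ℝ)) := by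
    intro n hn
    have h1 : (0 : ℝ) ≤ Real.log (ss D n : ℝ) := Real.log_nonneg (l4b_ss_pos hD n)
    have h3 : (0 : ℝ) ≤ Real.log (n : ℝ) := Real.log_nonneg (by exact_mod_cast hn)
    have h2 : (0 : ℝ) ≤ Real.log (((D : ℝ) + 1) * (ss D n : ℝ) * (((D : ℝ) + 1) *
        (ss D n : ℝ) ^ (D + 1) + 2) + 1) := by
      apply Real.log_nonneg
      have : (0 : ℝ) ≤ ((D : ℝ) + 1) * (ss D n : ℝ) * (((D : ℝ) + 1) * (ss D n : ℝ) ^ (D + 1)
        + 2) := by positivity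
      linarith
    positivity
  have hP1 := l4b_trans (l4b_mul (l4b_L hD) hA hAnn hl0)
    (l4b_trans (l4b_of_le fun n hn => by
      show l4b_l n * ((ss₂ D n : ℝ) * l4b_l n) ≤ (ss₂ D n : ℝ) * l4b_l n ^ 2
      exact le_of_eq (by ring)) (l4b_s2W hD))
  have hP2 := l4b_trans (l4b_mul (l4b_L hD) hB hBnn hl0)
    (l4b_trans (l4b_of_le fun n hn => by
      show l4b_l n * ((ss D n : ℝ) * l4b_l n) ≤ (ss D n : ℝ) * l4b_l n ^ 2
      exact le_of_eq (by ring)) (l4b_sW hD))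
  have hP3 := l4b_trans hLog hlW
  -- fourth part
  have hE : l4b_BO (fun n => (D : ℝ) * Real.log (ss₂ D n : ℝ) + Real.log (2 * 2 ^ D)) l4b_l :=
    l4b_add (l4b_cmul (by positivity) hs2 hl0)
      (l4b_const (c := 1 / 2) (by norm_num) (fun n hn => l4b_l_ge n hn) _)
  have hlog2 : (0 : ℝ) ≤ Real.log (2 * 2 ^ D) := by
    apply Real.log_nonneg
    have : (1 : ℝ) ≤ 2 ^ D := one_le_pow₀ (by norm_num)
    linarith
  have hEnn : ∀ n : ℕ, 1 ≤ n → 0 ≤ (D : ℝ) * Real.log (ss₂ D n : ℝ) + Real.log (2 * 2 ^ D) :=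
    fun n hn => add_nonneg (mul_nonneg (by positivity) (Real.log_nonneg (l4b_ss2_pos hD n))) hlog2
  have hP4 := l4b_trans (l4b_mul (l4b_of_le (f := fun n => (ss₂ D n : ℝ))
    (g := fun n => (ss₂ D n : ℝ)) fun n hn => le_rfl) hE hEnn (fun n hn => by positivity))
    (l4b_trans ⟨2, by norm_num, fun n hn => by
      show (ss₂ D n : ℝ) * l4b_l n ≤ 2 * ((ss₂ D n : ℝ) * l4b_l n ^ 2)
      have h1 := l4b_l_ge n hn
      have h2 := hs2l n hn
      nlinarith⟩ (l4b_s2W hD))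
  -- fifth part
  have hF : l4b_BO (fun n => Real.log ((n : ℝ) * ((ss D n : ℝ) ^ D * (2 * 2 ^ D)) + 1)) l4b_l := by
    refine l4b_log (k := 1 + (D - 1) * D) ?_ (fun n hn => by positivity)
    have h1 := l4b_mul (l4b_of_le (f := fun n => (n : ℝ)) (g := fun n => ((n : ℝ) + 1) ^ 1)
      fun n hn => by simp) (l4b_pow (l4b_s_poly hD) (fun n hn => by positivity) D)
      (fun n hn => by positivity) (fun n hn => by positivity)
    obtain ⟨C, hC, h1⟩ := h1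
    refine ⟨2 * 2 ^ D * C + 1, by positivity, fun n hn => ?_⟩
    have h2 := h1 n hn
    dsimp only at h2 ⊢
    rw [← pow_mul, ← pow_add] at h2
    have h3 : (1 : ℝ) ≤ ((n : ℝ) + 1) ^ (1 + (D - 1) * D) := one_le_pow₀ (by
      have : (0 : ℝ) ≤ (n : ℝ) := Nat.cast_nonneg _
      linarith)
    calc (n : ℝ) * ((ss D n : ℝ) ^ D * (2 * 2 ^ D)) + 1
        = 2 * 2 ^ D * ((n : ℝ) * (ss D n : ℝ) ^ D) + 1 := by ring
      _ ≤ 2 * 2 ^ D * (C * ((n : ℝ) + 1) ^ (1 + (D - 1) * D)) +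
          ((n : ℝ) + 1) ^ (1 + (D - 1) * D) := by
          have := mul_le_mul_of_nonneg_left h2 (by positivity : (0 : ℝ) ≤ 2 * 2 ^ D)
          linarith
      _ = _ := by ring
  have hFnn : ∀ n : ℕ, 1 ≤ n →
      0 ≤ Real.log ((n : ℝ) * ((ss D n : ℝ) ^ D * (2 * 2 ^ D)) + 1) := by
    intro n hn
    apply Real.log_nonneg
    have : (0 : ℝ) ≤ (n : ℝ) * ((ss D n : ℝ) ^ D * (2 * 2 ^ D)) := by positivity
    linarith
  have hP5 := l4b_trans (l4b_mul (l4b_of_le (f := fun n => (xx D n : ℝ))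
    (g := fun n => (xx D n : ℝ)) fun n hn => le_rfl) hF hFnn (fun n hn => by positivity))
    (l4b_xW hD)
  obtain ⟨C, hC, hT⟩ := l4b_add (l4b_add hP1 hP2) (l4b_add hP3 (l4b_add hP4 hP5))
  have hln2 : 0 < Real.log 2 := Real.log_pos (by norm_num)
  refine ⟨C / Real.log 2, by positivity, fun n hn => ?_⟩
  have h1 := hT n hn
  have hn0 : (0 : ℝ) < (n : ℝ) := by exact_mod_cast hn
  have hb0 : (0 : ℝ) < (ss D n : ℝ) := lt_of_lt_of_le one_pos (l4b_ss_pos hD n)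
  have ha0 : (0 : ℝ) < (ss₂ D n : ℝ) := lt_of_lt_of_le one_pos (l4b_ss2_pos hD n)
  have hn0' : 0 < n := hn
  have hb0' : 0 < ss D n := by exact_mod_cast hb0
  have ha0' : 0 < ss₂ D n := by exact_mod_cast ha0
  rw [← Real.log_le_log_iff (by positivity) (by positivity), Real.log_rpow (by norm_num)]
  have hR : C / Real.log 2 * (n : ℝ) ^ (((D : ℝ) - 1) / (2 * D - 1)) *
      (Real.log (n + 1)) ^ (D + 1) * Real.log 2 = C * l4b_W D n := by
    rw [l4b_target hD]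
    unfold l4b_W l4b_l
    field_simp
  rw [hR]
  refine le_trans (le_of_eq ?_) h1
  push_cast
  rw [Real.log_mul (by positivity) (by positivity), Real.log_pow,
    Real.log_mul (by positivity) (by positivity), Real.log_mul (by positivity) (by positivity),
    Real.log_mul (by positivity) (by positivity), Real.log_pow,
    Real.log_mul (by positivity) (by positivity), Real.log_mul (by positivity) (by positivity),
    Real.log_pow,
    Real.log_mul (by positivity) (by positivity), Real.log_mul (by positivity) (by positivity),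
    Real.log_pow, Real.log_mul (by positivity) (by positivity), Real.log_pow, Real.log_pow]
  push_cast
  ring

end Pool.Agent.Helper69.LB
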