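import Pool.Agent.Helper69.LB.K4
import Pool.Agent.Helper69.LB.L2
import Pool.Agent.Helper69.LB.L3
import Pool.Agent.Helper69.LB.L4b

/-! Project LB, piece L5: labels for point versus half-space relations. -/

open Finset Matrix

namespace Pool.Agent.Helper69.LB

theorem l5_one (D : ℕ) (hD : 2 ≤ D) (n : ℕ) (hn : 1 ≤ n) (R : Fin n → Fin n → Prop)
    (hR : HalfRel (D + 1) n R) :
    ∃ lab : Fin n → LabT D n (ss D n) (ss₂ D n) (ss₂ D n) (xx D n), ∀ p q, R p q ↔
      labDec (fun (cod : Fin (ss₂ D n) → Ptr D (ss₂ D n))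
          (pb : Fin (ss₂ D n) × Chiro (D + 1) (ss₂ D n) × Fin (ss₂ D n)) =>
        dcd pb.2.1.1 (cod pb.1) pb.2.2)
        (fun (c : Chiro (D + 1) (ss D n)) (π : Ptr D (ss D n)) k => dcd c.1 π k)
        (lab p) (lab q) := by
  obtain ⟨y, a, hya⟩ := hR
  have h : ∀ p q, a q ⬝ᵥ y p ≠ 0 := fun p q => (hya p q).1
  have hRe : ∀ p q, R p q ↔ 0 < a q ⬝ᵥ y p := fun p q => (hya p q).2
  have hs : D + 1 ≤ ss D n := by
    unfold ss
    omega
  have hs₂ : D + 1 ≤ ss₂ D n := by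
    unfold ss₂
    omega
  obtain ⟨lab, hlab⟩ := exists_lab (R := R)
    (fun (cod : Fin (ss₂ D n) → Ptr D (ss₂ D n))
          (pb : Fin (ss₂ D n) × Chiro (D + 1) (ss₂ D n) × Fin (ss₂ D n)) =>
        dcd pb.2.1.1 (cod pb.1) pb.2.2)
    (fun (c : Chiro (D + 1) (ss D n)) (π : Ptr D (ss D n)) k => dcd c.1 π k)
    (s := ss D n) (x := xx D n)
    (by
      intro Q hQ
      have h1 := exists_round (r := rr D n) (N₀ := nn D n) (s := ss D n) (s₂ := ss₂ D n)
        (g₂ := ss₂ D n) (x := xx D n) (rr_pos hD hn) (by omega) hs₂ cellNum_le (xx_ok hD hn)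
        y a h (sample_small hD hn) Q hQ
      have h2 : (fun p q => 0 < a q ⬝ᵥ y p) = R := by
        funext p q
        exact propext (hRe p q).symm
      rwa [h2] at h1)
    (by
      intro e
      obtain ⟨c, hc⟩ := coded hs y a h e
      refine ⟨c, fun q => ?_⟩
      obtain ⟨π, hπ⟩ := hc q
      exact ⟨π, fun k => (hRe (e k) q).trans (hπ k)⟩)
  exact ⟨lab, hlab⟩

/-- Proof. For `n ≥ 1` let the labels be in `LabT D n s s₂ s₂ x` with the parameters of L4, and
`D n = labDec ...`; K4 and S5 give the hypotheses of L2, L3 and L4 the bound. (For `n = 0` any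
type.) -/
theorem halfRel_labels (D : ℕ) (hD : 2 ≤ D) : ∃ C : ℝ, 0 < C ∧
    RelLabels (HalfRel (D + 1)) (fun n =>
      C * (n : ℝ) ^ (((D : ℝ) - 1) / (2 * D - 1)) * (Real.log (n + 1)) ^ (D + 1)) := by
  obtain ⟨C, hC, hnum⟩ := numbers D hD
  refine ⟨C, hC, fun n => LabT D n (ss D n) (ss₂ D n) (ss₂ D n) (xx D n), fun n =>
    labDec (fun (cod : Fin (ss₂ D n) → Ptr D (ss₂ D n))
          (pb : Fin (ss₂ D n) × Chiro (D + 1) (ss₂ D n) × Fin (ss₂ D n)) =>
        dcd pb.2.1.1 (cod pb.1) pb.2.2)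
        (fun (c : Chiro (D + 1) (ss D n)) (π : Ptr D (ss D n)) k => dcd c.1 π k),
    fun n => finite_labT _ _ _ _ _ _, ?_, ?_⟩
  · intro n hn
    refine le_trans ?_ (hnum n hn)
    exact_mod_cast card_labT_le D n (ss D n) (ss₂ D n) (ss₂ D n) (xx D n)
  · intro n R hR
    rcases Nat.eq_zero_or_pos n with h0 | hn
    · subst h0
      exact ⟨fun p => p.elim0, fun p => p.elim0⟩
    · exact l5_one D hD n hn R hR

end Pool.Agent.Helper69.LB
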