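import Pool.Agent.Helper69.LB.Z0

/-! Project LB2, piece LA4: the parameters and the numerical estimates (compare L4 and L4b). -/

open Finset Real

namespace Pool.Agent.Helper69.LB

/-- the number `r` of the cutting -/
noncomputable def rrA (d n : ℕ) : ℕ := ⌈(n : ℝ) ^ (1 / (2 * (d : ℝ) - 1))⌉₊

/-- the size of the sample -/
noncomputable def nnA (d n : ℕ) : ℕ := rrA d n * ((d + 2) ^ 2 * (Nat.log 2 (n + d + 2) + 1))

/-- the size of the groups -/
noncomputable def ssA (d n : ℕ) : ℕ := rrA d n ^ (d - 1) + d + 2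

/-- the size of the groups of representatives -/
noncomputable def ss₂A (d n : ℕ) : ℕ := Nat.sqrt (cellNumA (d + 1) (nnA d n)) + d + 2

/-- the number of the pointers -/
noncomputable def xxA (d n : ℕ) : ℕ :=
  2 * (cellNumA (d + 1) (nnA d n) + n / ssA d n) / rrA d n + 1

theorem rrA_pos {d n : ℕ} (hd : 2 ≤ d) (hn : 1 ≤ n) : 1 ≤ rrA d n := by
  have h : (0 : ℝ) < (n : ℝ) ^ (1 / (2 * (d : ℝ) - 1)) :=
    Real.rpow_pos_of_pos (by exact_mod_cast hn) _
  exact Nat.ceil_pos.2 h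

/-- as `sample_small` in L4, with `D = d + 1` and `rrA`, `nnA` -/
theorem sample_smallA {d n : ℕ} (hd : 2 ≤ d) (hn : 1 ≤ n) :
    ((((n + (d + 1) + 1 : ℕ) : ℝ) ^ (d + 1) * 2) ^ (d + 1 + 1)) *
      (1 - 1 / (rrA d n : ℝ)) ^ nnA d n < 1 := by
  set r := rrA d n with hr
  have hr1 : 1 ≤ r := rrA_pos hd hn
  have hr0 : (0 : ℝ) < (r : ℝ) := by exact_mod_cast hr1
  have hr1' : (1 : ℝ) ≤ (r : ℝ) := by exact_mod_cast hr1
  set M : ℕ := n + (d + 1) + 1 with hM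
  set L : ℕ := Nat.log 2 M + 1 with hL
  have hM1 : 1 ≤ M := by omega
  have hM2 : (2 : ℝ) ≤ (M : ℝ) := by
    have : 2 ≤ M := by omega
    exact_mod_cast this
  have hM0 : (0 : ℝ) < (M : ℝ) := by linarith
  have hMe : n + d + 2 = M := by omega
  have hnn : ((nnA d n : ℕ) : ℝ) = (r : ℝ) * (((d : ℝ) + 2) ^ 2 * (L : ℝ)) := by
    simp only [nnA, ← hr, hMe, hL]
    push_cast
    ring
  -- the power
  have h0 : (0 : ℝ) ≤ 1 - 1 / (r : ℝ) := by
    rw [sub_nonneg, div_le_one hr0]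
    exact hr1'
  have h1 : (1 - 1 / (r : ℝ)) ^ nnA d n ≤ Real.exp (-(((d : ℝ) + 2) ^ 2 * (L : ℝ))) := by
    calc (1 - 1 / (r : ℝ)) ^ nnA d n ≤ (Real.exp (-(1 / (r : ℝ)))) ^ nnA d n :=
          pow_le_pow_left₀ h0 (Real.one_sub_le_exp_neg _) _
      _ = Real.exp (-(((d : ℝ) + 2) ^ 2 * (L : ℝ))) := by
          rw [← Real.exp_nat_mul, hnn]
          congr 1
          field_simp
  have hlog : Real.log (M : ℝ) < (L : ℝ) := by
    have h2 : M < 2 ^ L := Nat.lt_pow_succ_log_self (by norm_num) M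
    have h3 : (M : ℝ) < (2 : ℝ) ^ L := by exact_mod_cast h2
    have h4 : Real.log (M : ℝ) < (L : ℝ) * Real.log 2 := by
      have := Real.log_lt_log hM0 h3
      rwa [Real.log_pow] at this
    have h5 : Real.log 2 ≤ 1 := by
      have := Real.log_two_lt_d9
      linarith
    have h6 : (0 : ℝ) ≤ (L : ℝ) := Nat.cast_nonneg _
    nlinarith
  have h2 : ((M : ℝ) ^ (d + 1) * 2) ^ (d + 1 + 1) ≤
      Real.exp (((d : ℝ) + 2) ^ 2 * Real.log (M : ℝ)) := by
    have h3 : (M : ℝ) ^ (d + 1) * 2 ≤ (M : ℝ) ^ (d + 1 + 1) := by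
      rw [pow_succ (M : ℝ) (d + 1)]
      exact mul_le_mul_of_nonneg_left hM2 (by positivity)
    calc ((M : ℝ) ^ (d + 1) * 2) ^ (d + 1 + 1) ≤ ((M : ℝ) ^ (d + 1 + 1)) ^ (d + 1 + 1) :=
          pow_le_pow_left₀ (by positivity) h3 _
      _ = (M : ℝ) ^ ((d + 1 + 1) * (d + 1 + 1)) := by rw [← pow_mul]
      _ = Real.exp (((d : ℝ) + 2) ^ 2 * Real.log (M : ℝ)) := by
          rw [← Real.exp_log hM0, ← Real.exp_nat_mul, Real.log_exp]
          congr 1
          push_cast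
          ring
  have hpos : (0 : ℝ) ≤ (1 - 1 / (r : ℝ)) ^ nnA d n := pow_nonneg h0 _
  calc ((M : ℝ) ^ (d + 1) * 2) ^ (d + 1 + 1) * (1 - 1 / (r : ℝ)) ^ nnA d n
      ≤ Real.exp (((d : ℝ) + 2) ^ 2 * Real.log (M : ℝ)) *
          Real.exp (-(((d : ℝ) + 2) ^ 2 * (L : ℝ))) :=
        mul_le_mul h2 h1 hpos (Real.exp_pos _).le
    _ = Real.exp (((d : ℝ) + 2) ^ 2 * (Real.log (M : ℝ) - (L : ℝ))) := by
        rw [← Real.exp_add]
        congr 1
        ring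
    _ < 1 := by
        rw [Real.exp_lt_one_iff]
        exact mul_neg_of_pos_of_neg (by positivity) (by linarith)

theorem cellNumA_le {d n : ℕ} : cellNumA (d + 1) (nnA d n) ≤ ss₂A d n * ss₂A d n := by
  have h1 := Nat.lt_succ_sqrt (cellNumA (d + 1) (nnA d n))
  have h2 : Nat.succ (Nat.sqrt (cellNumA (d + 1) (nnA d n))) ≤ ss₂A d n := by
    simp only [ss₂A]; omega
  exact h1.le.trans (Nat.mul_le_mul h2 h2)

theorem xxA_ok {d n : ℕ} (hd : 2 ≤ d) (hn : 1 ≤ n) :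
    2 * (cellNumA (d + 1) (nnA d n) + n / ssA d n) ≤ xxA d n * rrA d n := by
  have hr : 0 < rrA d n := rrA_pos hd hn
  have h := Nat.lt_mul_div_succ (2 * (cellNumA (d + 1) (nnA d n) + n / ssA d n)) hr
  simp only [xxA]
  rw [mul_comm (2 * (cellNumA (d + 1) (nnA d n) + n / ssA d n) / rrA d n + 1) (rrA d n)]
  exact h.le

end Pool.Agent.Helper69.LB
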