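import Pool.Agent.Helper69.LB.W1

/-! Project LB, piece W4: Sard's theorem for polynomial maps. -/

open Finset

namespace Pool.Agent.Helper69.LB

/-- Proof. The image of the set of the `x` with vanishing Jacobian determinant under
`x ↦ (eval x (F j))_j` has measure `0`
(`MeasureTheory.addHaar_image_eq_zero_of_det_fderivWithin_eq_zero` for the volume on
`Fin k → ℝ`, derivative from W1, its determinant is the determinant of the matrix), and the set of
the `a` with `|a j| < δ` for all `j` has positive measure (it is open and not empty). -/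
theorem exists_regular {k : ℕ} (F : Fin k → MvPolynomial (Fin k) ℝ) {δ : ℝ} (hδ : 0 < δ) :
    ∃ a : Fin k → ℝ, (∀ j, |a j| < δ) ∧ ∀ x : Fin k → ℝ,
      (∀ j, MvPolynomial.eval x (F j) = a j) →
      (Matrix.of fun i j => MvPolynomial.eval x (MvPolynomial.pderiv j (F i))).det ≠ 0 := by
  set f : (Fin k → ℝ) → (Fin k → ℝ) := fun x i => MvPolynomial.eval x (F i) with hf
  set f' : (Fin k → ℝ) → ((Fin k → ℝ) →L[ℝ] (Fin k → ℝ)) := fun x =>
    ContinuousLinearMap.pi fun i => ∑ j, (MvPolynomial.eval x (MvPolynomial.pderiv j (F i))) •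
        (ContinuousLinearMap.proj j : (Fin k → ℝ) →L[ℝ] ℝ) with hf'
  have hder : ∀ x, HasFDerivAt f (f' x) x := by
    intro x
    rw [hasFDerivAt_pi']
    intro i
    exact (eval_hasStrictFDerivAt (F i) x).hasFDerivAt
  have hdet : ∀ x, (f' x).det =
      (Matrix.of fun i j => MvPolynomial.eval x (MvPolynomial.pderiv j (F i))).det := by
    intro x
    rw [← LinearMap.det_toLin', ContinuousLinearMap.det]
    congr 1
    ext v i
    simp [hf', Matrix.toLin'_apply, Matrix.mulVec, dotProduct]
  have hzero := MeasureTheory.addHaar_image_eq_zero_of_det_fderivWithin_eq_zero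
    (MeasureTheory.volume : MeasureTheory.Measure (Fin k → ℝ)) (f := f) (f' := f')
    (s := {x | (f' x).det = 0}) (fun x _ => (hder x).hasFDerivWithinAt) (fun x hx => hx)
  have hopen : IsOpen {a : Fin k → ℝ | ∀ j, |a j| < δ} := by
    rw [Set.ofPred_forall]
    exact isOpen_iInter_of_finite fun j =>
      isOpen_lt (continuous_abs.comp (continuous_apply j)) continuous_const
  have hne : {a : Fin k → ℝ | ∀ j, |a j| < δ}.Nonempty := ⟨0, fun j => by simpa using hδ⟩
  have hpos := hopen.measure_pos MeasureTheory.volume hne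
  have hex : ∃ a ∈ {a : Fin k → ℝ | ∀ j, |a j| < δ}, a ∉ f '' {x | (f' x).det = 0} := by
    by_contra hcon
    push Not at hcon
    exact absurd (MeasureTheory.measure_mono_null (fun a ha => hcon a ha) hzero) hpos.ne'
  obtain ⟨a, ha, hna⟩ := hex
  refine ⟨a, ha, fun x hx h0 => hna ⟨x, ?_, funext hx⟩⟩
  change (f' x).det = 0
  rw [hdet, h0]

end Pool.Agent.Helper69.LB
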