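import Pool.Agent.Helper69.LB.W3
import Pool.Agent.Helper69.LB.W4

/-! Project LB, piece W5: the number of sign patterns (a weak form of Warren's theorem). -/

open Finset

namespace Pool.Agent.Helper69.LB

private theorem w5_totalDegree_pderiv_le {k : ℕ} (p : MvPolynomial (Fin k) ℝ) (j : Fin k) :
    (MvPolynomial.pderiv j p).totalDegree ≤ p.totalDegree := by
  have h : MvPolynomial.pderiv j p = ∑ s ∈ p.support,
      MvPolynomial.monomial (s - Finsupp.single j 1) (p.coeff s * (s j : ℝ)) := by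
    conv_lhs => rw [p.as_sum, map_sum]
    exact Finset.sum_congr rfl fun s _ => MvPolynomial.pderiv_monomial
  rw [h]
  refine (MvPolynomial.totalDegree_finsetSum _ _).trans ?_
  refine Finset.sup_le fun s hs => ?_
  refine (MvPolynomial.totalDegree_monomial_le _ _).trans ?_
  refine le_trans ?_ (MvPolynomial.le_totalDegree hs)
  rw [Finsupp.sum_fintype _ _ (by simp), Finsupp.sum_fintype _ _ (by simp)]
  exact Finset.sum_le_sum fun i _ => by simp

/-- A linear perturbation is small on a ball. -/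
private theorem w5_small {k : ℕ} (a x : Fin k → ℝ) {R η δ : ℝ} (hx : ∑ j, x j ^ 2 ≤ R)
    (ha : ∀ j, |a j| < η) (hη : η * (k * (1 + R)) < δ / 2) (hη0 : 0 ≤ η) :
    |∑ j, a j * x j| < δ / 2 := by
  have h1 : ∀ j, |a j * x j| ≤ η * (1 + R) := by
    intro j
    have h2 : x j ^ 2 ≤ R :=
      (Finset.single_le_sum (f := fun j => x j ^ 2) (fun i _ => sq_nonneg (x i))
        (Finset.mem_univ j)).trans hx
    have h3 : |x j| ≤ 1 + R := by
      have h4 : |x j| ^ 2 ≤ R := by rwa [sq_abs]
      nlinarith [sq_nonneg (|x j| - 1), abs_nonneg (x j)]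
    rw [abs_mul]
    exact mul_le_mul (ha j).le h3 (abs_nonneg _) hη0
  calc |∑ j, a j * x j| ≤ ∑ j, |a j * x j| := Finset.abs_sum_le_sum_abs _ _
    _ ≤ ∑ _j : Fin k, η * (1 + R) := Finset.sum_le_sum fun j _ => h1 j
    _ = η * (k * (1 + R)) := by
        rw [Finset.sum_const, Finset.card_univ, Fintype.card_fin, nsmul_eq_mul]; ring
    _ < δ / 2 := hη

/-- The sign of `i` in the pattern `S`. -/
private noncomputable def w5sg {ι : Type} (S : Set ι) (i : ι) : ℝ :=
  open Classical in if i ∈ S then 1 else -1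

private theorem w5sg_abs {ι : Type} (S : Set ι) (i : ι) : |w5sg S i| = 1 := by
  unfold w5sg; split_ifs <;> simp

private theorem w5_crit {k : ℕ} {ι : Type} [Fintype ι] (P : ι → MvPolynomial (Fin k) ℝ)
    (S : Set ι) (R δ : ℝ) (a u : Fin k → ℝ)
    (hu : ∑ j, u j ^ 2 < R)
    (huS : ∀ i, 0 < w5sg S i * MvPolynomial.eval u (P i))
    (hfu : δ ≤ |MvPolynomial.eval u ((∏ i, P i) *
      (MvPolynomial.C R - ∑ j, MvPolynomial.X j ^ 2))|)
    (ha : ∀ x : Fin k → ℝ, ∑ j, x j ^ 2 ≤ R → |∑ j, a j * x j| < δ / 2) :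
    ∃ z : Fin k → ℝ, (∀ i, 0 < w5sg S i * MvPolynomial.eval z (P i)) ∧
      ∀ j, MvPolynomial.eval z (MvPolynomial.pderiv j ((∏ i, P i) *
      (MvPolynomial.C R - ∑ j, MvPolynomial.X j ^ 2) -
        ∑ j, MvPolynomial.C (a j) * MvPolynomial.X j)) = 0 := by
  classical
  set f : MvPolynomial (Fin k) ℝ := (∏ i, P i) *
      (MvPolynomial.C R - ∑ j, MvPolynomial.X j ^ 2) with hf
  set g : MvPolynomial (Fin k) ℝ := f - ∑ j, MvPolynomial.C (a j) * MvPolynomial.X j with hg
  set s : ℝ := ∏ i, w5sg S i with hs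
  have hs1 : |s| = 1 := by
    rw [hs, Finset.abs_prod]
    exact Finset.prod_eq_one fun i _ => w5sg_abs S i
  have hs0 : s ≠ 0 := by
    intro h; rw [h] at hs1; simp at hs1
  have hfe : ∀ x : Fin k → ℝ, MvPolynomial.eval x f =
      (∏ i, MvPolynomial.eval x (P i)) * (R - ∑ j, x j ^ 2) := by
    intro x
    simp [hf, map_sum, map_prod]
  have hge : ∀ x : Fin k → ℝ, MvPolynomial.eval x g =
      MvPolynomial.eval x f - ∑ j, a j * x j := by
    intro x
    simp [hg, map_sum]
  have hsf : ∀ x : Fin k → ℝ, s * MvPolynomial.eval x f =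
      (∏ i, w5sg S i * MvPolynomial.eval x (P i)) * (R - ∑ j, x j ^ 2) := by
    intro x
    rw [hfe, Finset.prod_mul_distrib, hs]; ring
  let K : Set (Fin k → ℝ) :=
    {x | ∑ j, x j ^ 2 ≤ R ∧ ∀ i, 0 ≤ w5sg S i * MvPolynomial.eval x (P i)}
  have hcP : ∀ i, Continuous fun x : Fin k → ℝ => w5sg S i * MvPolynomial.eval x (P i) :=
    fun i => continuous_const.mul (MvPolynomial.continuous_eval (P i))
  have hcN : Continuous fun x : Fin k → ℝ => ∑ j, x j ^ 2 := by fun_prop
  have hKc : IsClosed K := by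
    have h1 : K = {x | ∑ j, x j ^ 2 ≤ R} ∩
        ⋂ i, {x | 0 ≤ w5sg S i * MvPolynomial.eval x (P i)} := by
      ext x
      rw [Set.mem_inter_iff, Set.mem_iInter]
      exact Iff.rfl
    rw [h1]
    exact (isClosed_le hcN continuous_const).inter
      (isClosed_iInter fun i => isClosed_le continuous_const (hcP i))
  have hKI : K ⊆ Set.Icc (fun _ : Fin k => -(1 + R)) (fun _ => 1 + R) := by
    intro x hx
    have h3 : ∀ j, |x j| ≤ 1 + R := by
      intro j
      have h2 : x j ^ 2 ≤ R :=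
        (Finset.single_le_sum (f := fun j => x j ^ 2) (fun i _ => sq_nonneg (x i))
          (Finset.mem_univ j)).trans hx.1
      have h4 : |x j| ^ 2 ≤ R := by rwa [sq_abs]
      nlinarith [sq_nonneg (|x j| - 1), abs_nonneg (x j)]
    exact ⟨fun j => (abs_le.mp (h3 j)).1, fun j => (abs_le.mp (h3 j)).2⟩
  have hKcomp : IsCompact K := IsCompact.of_isClosed_subset isCompact_Icc hKc hKI
  have huK : u ∈ K := ⟨hu.le, fun i => (huS i).le⟩
  have hcont : Continuous fun x : Fin k → ℝ => s * MvPolynomial.eval x g :=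
    continuous_const.mul (MvPolynomial.continuous_eval g)
  obtain ⟨z, hzK, hz⟩ := hKcomp.exists_isMaxOn ⟨u, huK⟩ hcont.continuousOn
  have hzu : s * MvPolynomial.eval u g ≤ s * MvPolynomial.eval z g := hz huK
  have habs : ∀ t : ℝ, |s * t| = |t| := fun t => by rw [abs_mul, hs1, one_mul]
  have h5 : δ ≤ s * MvPolynomial.eval u f := by
    have h6 : 0 ≤ s * MvPolynomial.eval u f := by
      rw [hsf]
      exact mul_nonneg (Finset.prod_nonneg fun i _ => (huS i).le) (sub_nonneg.mpr hu.le)
    rw [← abs_of_nonneg h6, habs]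
    exact hfu
  have h7 : s * (∑ j, a j * u j) < δ / 2 := by
    have := ha u hu.le
    rw [← habs] at this
    exact (le_abs_self _).trans_lt this
  have h8 : -(δ / 2) < s * (∑ j, a j * z j) := by
    have := ha z hzK.1
    rw [← habs] at this
    exact (abs_lt.mp this).1
  have h9 : 0 < s * MvPolynomial.eval z f := by
    rw [hge, hge, mul_sub, mul_sub] at hzu
    linarith
  rw [hsf] at h9
  have hR0 : 0 ≤ R - ∑ j, z j ^ 2 := sub_nonneg.mpr hzK.1
  have hPr0 : 0 ≤ ∏ i, w5sg S i * MvPolynomial.eval z (P i) :=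
    Finset.prod_nonneg fun i _ => hzK.2 i
  have hR1 : 0 < R - ∑ j, z j ^ 2 := by
    rcases hR0.lt_or_eq with h | h
    · exact h
    · rw [← h, mul_zero] at h9; exact absurd h9 (lt_irrefl _)
  have hPi : ∀ i, 0 < w5sg S i * MvPolynomial.eval z (P i) := by
    intro i
    rcases (hzK.2 i).lt_or_eq with h | h
    · exact h
    · exfalso
      rw [Finset.prod_eq_zero (Finset.mem_univ i) h.symm, zero_mul] at h9
      exact absurd h9 (lt_irrefl _)
  refine ⟨z, hPi, ?_⟩
  have hnh : K ∈ nhds z := by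
    have h10 : {x : Fin k → ℝ | ∑ j, x j ^ 2 < R} ∩
        ⋂ i, {x | 0 < w5sg S i * MvPolynomial.eval x (P i)} ∈ nhds z := by
      refine IsOpen.mem_nhds ((isOpen_lt hcN continuous_const).inter
        (isOpen_iInter_of_finite fun i => isOpen_lt continuous_const (hcP i))) ?_
      refine ⟨sub_pos.mp hR1, ?_⟩
      rw [Set.mem_iInter]
      exact fun i => hPi i
    refine Filter.mem_of_superset h10 ?_
    rintro x ⟨hx1, hx2⟩
    rw [Set.mem_iInter] at hx2
    exact ⟨le_of_lt hx1, fun i => le_of_lt (hx2 i)⟩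
  have hloc : IsLocalMax (fun x : Fin k → ℝ => s * MvPolynomial.eval x g) z :=
    hz.isLocalMax hnh
  have hder := ((eval_hasStrictFDerivAt g z).hasFDerivAt).const_mul s
  have hzero := hloc.hasFDerivAt_eq_zero hder
  intro j
  have h11 := congrArg (fun L : (Fin k → ℝ) →L[ℝ] ℝ => L (Pi.single j 1)) hzero
  simp only [_root_.zero_apply, _root_.smul_apply, _root_.sum_apply,
    ContinuousLinearMap.proj_apply, smul_eq_mul] at h11
  rw [Finset.sum_eq_single j] at h11
  · rw [Pi.single_eq_same, mul_one] at h11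
    exact (mul_eq_zero.mp h11).resolve_left hs0
  · intro i _ hij
    rw [Pi.single_eq_of_ne hij, mul_zero]
  · intro h; exact absurd (Finset.mem_univ j) h

/-- Proof. Let `𝒮` be a finite set of such `S`, with points `u S`. Choose `ρ > 0` with
`∑ j, (u S j) ^ 2 < ρ ^ 2` for all `S ∈ 𝒮`, let
`f = (∏ i, P i) * (C (ρ ^ 2) - ∑ j, X j ^ 2)`, of total degree at most `b * card ι + 2`, and let
`δ > 0` be such that `δ ≤ |f (u S)|` for all `S ∈ 𝒮`. By W4 (for `F j = pderiv j f`) there is `a`
with `|∑ j, a j * x j| < δ / 2` for all `x` in the ball `B = {x | ∑ j, x j ^ 2 ≤ ρ ^ 2}` such that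
all solutions of `pderiv j f = - a j` (all `j`) are nondegenerate. For `S ∈ 𝒮` let
`σ i = 1` for `i ∈ S` and `-1` otherwise, `s = ∏ i, σ i`, and let `z S` be a point of the compact
set `K S = {x ∈ B | ∀ i, 0 ≤ σ i * P i x}` where `h x = s * (f x + ∑ j, a j * x j)` is maximal.
On `K S` we have `s * f x = (∏ i, |P i x|) (ρ ^ 2 - ∑ x j ^ 2) ≥ 0`; since
`h (z S) ≥ h (u S) > δ - δ / 2` we get `s * f (z S) > 0`, so `z S` is an interior point of `K S`,
all `σ i * P i (z S) > 0`, `h` has a local maximum at `z S` and so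
`pderiv j f (z S) + a j = 0` for all `j` (`IsLocalMax.hasFDerivAt_eq_zero`, W1). The points
`z S` are different for different `S`. Apply W3 to `F j = pderiv j f + C (a j)` with
`e = b * card ι + 2` (the total degree of a derivative is at most that of `f`; the
Jacobian does not change). -/
theorem sign_patterns {k b : ℕ} {ι : Type} [Fintype ι] (P : ι → MvPolynomial (Fin k) ℝ)
    (hP : ∀ i, (P i).totalDegree ≤ b) :
    {S : Set ι | ∃ x : Fin k → ℝ, (∀ i, MvPolynomial.eval x (P i) ≠ 0) ∧
      S = {i | 0 < MvPolynomial.eval x (P i)}}.ncard ≤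
    (k * (b * Fintype.card ι + 2) + 1) ^ k := by
  classical
  set T : Set (Set ι) := {S : Set ι | ∃ x : Fin k → ℝ, (∀ i, MvPolynomial.eval x (P i) ≠ 0) ∧
      S = {i | 0 < MvPolynomial.eval x (P i)}} with hT
  have hTf : T.Finite := Set.toFinite T
  have hch : ∀ S : Set ι, ∃ x : Fin k → ℝ, S ∈ T → ∀ i, 0 < w5sg S i *
      MvPolynomial.eval x (P i) := by
    intro S
    by_cases hS : S ∈ T
    · obtain ⟨x, hx, hSx⟩ := hS
      refine ⟨x, fun _ i => ?_⟩
      by_cases hi : i ∈ S
      · have h1 : 0 < MvPolynomial.eval x (P i) := by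
          rw [hSx] at hi; exact hi
        simpa [w5sg, hi] using h1
      · have h1 : ¬ 0 < MvPolynomial.eval x (P i) := by
          intro h2; apply hi; rw [hSx]; exact h2
        have h2 : MvPolynomial.eval x (P i) < 0 := lt_of_le_of_ne (not_lt.mp h1) (hx i)
        simpa [w5sg, hi] using h2
    · exact ⟨0, fun h => absurd h hS⟩
  choose u hu using hch
  set TT : Finset (Set ι) := hTf.toFinset with hTT
  have hmem : ∀ S, S ∈ TT ↔ S ∈ T := fun S => hTf.mem_toFinset
  set R : ℝ := 1 + ∑ S ∈ TT, ∑ j, u S j ^ 2 with hR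
  have hR0 : 0 < R := by
    have : 0 ≤ ∑ S ∈ TT, ∑ j, u S j ^ 2 :=
      Finset.sum_nonneg fun S _ => Finset.sum_nonneg fun j _ => sq_nonneg _
    linarith
  have huR : ∀ S ∈ TT, ∑ j, u S j ^ 2 < R := by
    intro S hS
    have := Finset.single_le_sum (f := fun S => ∑ j, u S j ^ 2)
      (fun S _ => Finset.sum_nonneg fun j _ => sq_nonneg (u S j)) hS
    linarith
  set f : MvPolynomial (Fin k) ℝ := (∏ i, P i) *
      (MvPolynomial.C R - ∑ j, MvPolynomial.X j ^ 2) with hf
  have hfu : ∀ S ∈ TT, 0 < |MvPolynomial.eval (u S) f| := by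
    intro S hS
    rw [abs_pos, hf]
    have h1 : MvPolynomial.eval (u S) ((∏ i, P i) *
      (MvPolynomial.C R - ∑ j, MvPolynomial.X j ^ 2)) =
      (∏ i, MvPolynomial.eval (u S) (P i)) * (R - ∑ j, u S j ^ 2) := by
      simp [map_sum, map_prod]
    rw [h1]
    refine mul_ne_zero ?_ (sub_pos.mpr (huR S hS)).ne'
    rw [Finset.prod_ne_zero_iff]
    intro i _ h2
    have := hu S ((hmem S).mp hS) i
    rw [h2, mul_zero] at this
    exact lt_irrefl _ this
  obtain ⟨δ, hδ0, hδ⟩ : ∃ δ : ℝ, 0 < δ ∧ ∀ S ∈ TT, δ ≤ |MvPolynomial.eval (u S) f| := by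
    rcases TT.eq_empty_or_nonempty with h | h
    · exact ⟨1, one_pos, fun S hS => by rw [h] at hS; exact absurd hS (Finset.notMem_empty _)⟩
    · obtain ⟨S₀, hS₀, hmin⟩ := Finset.exists_min_image TT
        (fun S => |MvPolynomial.eval (u S) f|) h
      exact ⟨_, hfu S₀ hS₀, hmin⟩
  set η : ℝ := δ / (2 * (k * (1 + R) + 1)) with hη
  have hkR : 0 ≤ (k : ℝ) * (1 + R) := by positivity
  have hη0 : 0 < η := by positivity
  have hη1 : η * (k * (1 + R)) < δ / 2 := by
    have h1 : η * (2 * (k * (1 + R) + 1)) = δ := by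
      rw [hη]; field_simp
    nlinarith
  obtain ⟨a, ha, hdet⟩ := exists_regular (fun j => MvPolynomial.pderiv j f) hη0
  have hcrit : ∀ S : Set ι, ∃ z : Fin k → ℝ, S ∈ TT →
      (∀ i, 0 < w5sg S i * MvPolynomial.eval z (P i)) ∧
      ∀ j, MvPolynomial.eval z (MvPolynomial.pderiv j (f -
        ∑ j, MvPolynomial.C (a j) * MvPolynomial.X j)) = 0 := by
    intro S
    by_cases hS : S ∈ TT
    · obtain ⟨z, hz1, hz2⟩ := w5_crit P S R δ a (u S) (huR S hS)
        (hu S ((hmem S).mp hS)) (hδ S hS)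
        (fun x hx => w5_small a x hx ha hη1 hη0.le)
      exact ⟨z, fun _ => ⟨hz1, hz2⟩⟩
    · exact ⟨0, fun h => absurd h hS⟩
  choose z hz using hcrit
  have hinj : Set.InjOn z (TT : Set (Set ι)) := by
    intro S hS S' hS' hzz
    have h1 := (hz S hS).1
    have h2 := (hz S' hS').1
    rw [← hzz] at h2
    ext i
    by_contra hcon
    have h3 := h1 i
    have h4 := h2 i
    by_cases hi : i ∈ S
    · have hi' : i ∉ S' := fun h => hcon ⟨fun _ => h, fun _ => hi⟩
      simp only [w5sg, if_pos hi, if_neg hi'] at h3 h4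
      linarith
    · have hi' : i ∈ S' := by
        by_contra h
        exact hcon ⟨fun h' => absurd h' hi, fun h' => absurd h' h⟩
      simp only [w5sg, if_pos hi', if_neg hi] at h3 h4
      linarith
  set G : Fin k → MvPolynomial (Fin k) ℝ := fun i => MvPolynomial.pderiv i (f -
        ∑ j, MvPolynomial.C (a j) * MvPolynomial.X j) with hG
  have hGe : ∀ i, G i = MvPolynomial.pderiv i f - MvPolynomial.C (a i) := by
    intro i
    rw [hG]
    simp only [map_sub, map_sum]
    congr 1
    rw [Finset.sum_eq_single i]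
    · rw [MvPolynomial.pderiv_C_mul, MvPolynomial.pderiv_X_self, MvPolynomial.C_mul']
      simp [MvPolynomial.smul_eq_C_mul]
    · intro j _ hji
      rw [MvPolynomial.pderiv_C_mul, MvPolynomial.pderiv_X_of_ne hji, mul_zero]
    · intro h; exact absurd (Finset.mem_univ i) h
  have hfdeg : f.totalDegree ≤ b * Fintype.card ι + 2 := by
    rw [hf]
    refine (MvPolynomial.totalDegree_mul _ _).trans (add_le_add ?_ ?_)
    · refine (MvPolynomial.totalDegree_finsetProd _ _).trans ?_
      refine (Finset.sum_le_sum fun i _ => hP i).trans ?_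
      rw [Finset.sum_const, Finset.card_univ, smul_eq_mul, mul_comm]
    · refine (MvPolynomial.totalDegree_sub _ _).trans (max_le ?_ ?_)
      · rw [MvPolynomial.totalDegree_C]; exact Nat.zero_le _
      · refine (MvPolynomial.totalDegree_finsetSum _ _).trans (Finset.sup_le fun j _ => ?_)
        rw [MvPolynomial.totalDegree_X_pow]
  have hGdeg : ∀ i, (G i).totalDegree ≤ b * Fintype.card ι + 2 := by
    intro i
    rw [hGe]
    exact (MvPolynomial.totalDegree_sub_C_le _ _).trans
      ((w5_totalDegree_pderiv_le f i).trans hfdeg)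
  have hcard : TT.card ≤ (k * (b * Fintype.card ι + 2) + 1) ^ k := by
    rw [← Finset.card_image_of_injOn hinj]
    refine card_zeros_le G hGdeg _ ?_ ?_
    · intro x hx j
      obtain ⟨S, hS, rfl⟩ := Finset.mem_image.mp hx
      exact (hz S hS).2 j
    · intro x hx
      obtain ⟨S, hS, rfl⟩ := Finset.mem_image.mp hx
      have h1 : ∀ j, MvPolynomial.eval (z S) (MvPolynomial.pderiv j f) = a j := by
        intro j
        have h2 : MvPolynomial.eval (z S) (G j) = 0 := (hz S hS).2 j
        rw [hGe, map_sub, MvPolynomial.eval_C, sub_eq_zero] at h2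
        exact h2
      have h3 := hdet (z S) h1
      have h4 : (Matrix.of fun i j => MvPolynomial.eval (z S)
          (MvPolynomial.pderiv j (G i))) = Matrix.of fun i j => MvPolynomial.eval (z S)
          (MvPolynomial.pderiv j (MvPolynomial.pderiv i f)) := by
        ext i j
        simp only [Matrix.of_apply]
        rw [hGe, map_sub, MvPolynomial.pderiv_C, sub_zero]
      rw [h4]
      exact h3
  have h5 : T.ncard = TT.card := Set.ncard_eq_toFinset_card T hTf
  rw [h5]
  exact hcard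

end Pool.Agent.Helper69.LB
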