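import Pool.Agent.Helper69.LB.Defs
import Pool.Agent.Helper69.LB.W5

/-! Project LB, piece S1: the number of the chirotopes. -/

open Finset Matrix

namespace Pool.Agent.Helper69.LB

/-- the determinant of the rows `J`, as a polynomial in the coordinates of all vectors -/
private noncomputable def s1_P (E s : ℕ) (J : Inj E s) : MvPolynomial (Fin (E * s)) ℝ :=
  (Matrix.of fun i j : Fin E =>
    (MvPolynomial.X (finProdFinEquiv (j, J.1 i)) : MvPolynomial (Fin (E * s)) ℝ)).det

private theorem s1_deg (E s : ℕ) (J : Inj E s) : (s1_P E s J).totalDegree ≤ E := by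
  unfold s1_P
  rw [Matrix.det_apply']
  refine MvPolynomial.totalDegree_finsetSum_le fun σ _ => ?_
  refine (MvPolynomial.totalDegree_mul _ _).trans ?_
  have h1 : ((((Equiv.Perm.sign σ : ℤˣ) : ℤ) : MvPolynomial (Fin (E * s)) ℝ)).totalDegree = 0 := by
    have h2 : ((((Equiv.Perm.sign σ : ℤˣ) : ℤ) : MvPolynomial (Fin (E * s)) ℝ)) =
        MvPolynomial.C ((((Equiv.Perm.sign σ : ℤˣ) : ℤ) : ℝ)) := by
      simp
    rw [h2, MvPolynomial.totalDegree_C]
  rw [h1, zero_add]
  refine (MvPolynomial.totalDegree_finsetProd _ _).trans ?_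
  refine (Finset.sum_le_card_nsmul _ _ 1 fun j _ => ?_).trans ?_
  · simp only [Matrix.of_apply]
    rw [MvPolynomial.totalDegree_X]
  · simp

private theorem s1_eval (E s : ℕ) (x : Fin s → Fin E → ℝ) (J : Inj E s) :
    MvPolynomial.eval (fun t => x (finProdFinEquiv.symm t).2 (finProdFinEquiv.symm t).1)
      (s1_P E s J) = (Matrix.of fun i => x (J.1 i)).det := by
  unfold s1_P
  rw [RingHom.map_det]
  congr 1
  ext i j
  have h := finProdFinEquiv.symm_apply_apply (j, J.1 i)
  simp only [RingHom.mapMatrix_apply, Matrix.map_apply, Matrix.of_apply, MvPolynomial.eval_X]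
  rw [h]

private theorem s1_card (E s : ℕ) : Fintype.card (Inj E s) ≤ s ^ E := by
  refine (Fintype.card_subtype_le _).trans ?_
  simp

/-- Proof. Apply W5 with `k = E * s` variables, `ι = Inj E s` (at most `s ^ E` elements) and the
determinants of the matrices of variables with the rows `x (J i)`, of total degree at most `E`. -/
theorem card_chiro_le (E s : ℕ) :
    Nat.card (Chiro E s) ≤ (E * s * (E * s ^ E + 2) + 1) ^ (E * s) := by
  classical
  have h1 := sign_patterns (s1_P E s) (s1_deg E s)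
  have h2 : Nat.card (Chiro E s) ≤
      {S : Set (Inj E s) | ∃ x : Fin (E * s) → ℝ,
        (∀ i, MvPolynomial.eval x (s1_P E s i) ≠ 0) ∧
        S = {i | 0 < MvPolynomial.eval x (s1_P E s i)}}.ncard := by
    show Nat.card {c : Set (Inj E s) // ∃ x : Fin s → Fin E → ℝ, GenPos x ∧ c = chi x} ≤ _
    have h3 : Nat.card {c : Set (Inj E s) // ∃ x : Fin s → Fin E → ℝ, GenPos x ∧ c = chi x} =
        {c : Set (Inj E s) | ∃ x : Fin s → Fin E → ℝ, GenPos x ∧ c = chi x}.ncard := rfl
    rw [h3]
    refine Set.ncard_le_ncard ?_ (Set.toFinite _)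
    rintro c ⟨x, hx, rfl⟩
    refine ⟨fun t => x (finProdFinEquiv.symm t).2 (finProdFinEquiv.symm t).1, ?_, ?_⟩
    · intro J
      rw [s1_eval]
      exact hx J.1 J.2
    · ext J
      rw [chi]
      simp only [Set.mem_ofPred_eq]
      rw [s1_eval]
  refine h2.trans (h1.trans ?_)
  refine Nat.pow_le_pow_left ?_ _
  have h4 := s1_card E s
  gcongr

end Pool.Agent.Helper69.LB
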