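import Mathlib

/-! Project LB, piece W1: polynomial functions are strictly differentiable. -/

open Finset

namespace Pool.Agent.Helper69.LB

/-- Proof. Induction on `p` (constants, sums, product with a variable). -/
theorem eval_hasStrictFDerivAt {k : ℕ} (p : MvPolynomial (Fin k) ℝ) (x : Fin k → ℝ) :
    HasStrictFDerivAt (fun y : Fin k → ℝ => MvPolynomial.eval y p)
      (∑ j, (MvPolynomial.eval x (MvPolynomial.pderiv j p)) •
        (ContinuousLinearMap.proj j : (Fin k → ℝ) →L[ℝ] ℝ)) x := by
  induction p using MvPolynomial.induction_on with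
  | C a =>
    have h : (∑ j, (MvPolynomial.eval x (MvPolynomial.pderiv j (MvPolynomial.C a))) •
        (ContinuousLinearMap.proj j : (Fin k → ℝ) →L[ℝ] ℝ)) = 0 := by
      simp
    rw [h]
    simp only [MvPolynomial.eval_C]
    exact hasStrictFDerivAt_const a x
  | add p q hp hq =>
    have h := hp.add hq
    have e1 : (fun y : Fin k → ℝ => MvPolynomial.eval y (p + q)) =
        ((fun y => MvPolynomial.eval y p) + fun y => MvPolynomial.eval y q) := by
      ext y; simp
    have e2 : (∑ j, (MvPolynomial.eval x (MvPolynomial.pderiv j (p + q))) •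
        (ContinuousLinearMap.proj j : (Fin k → ℝ) →L[ℝ] ℝ)) =
        (∑ j, (MvPolynomial.eval x (MvPolynomial.pderiv j p)) •
          (ContinuousLinearMap.proj j : (Fin k → ℝ) →L[ℝ] ℝ)) +
        ∑ j, (MvPolynomial.eval x (MvPolynomial.pderiv j q)) •
          (ContinuousLinearMap.proj j : (Fin k → ℝ) →L[ℝ] ℝ) := by
      simp only [map_add, add_smul, Finset.sum_add_distrib]
    rw [e1, e2]
    exact h
  | mul_X p i hp =>
    have hX : HasStrictFDerivAt (fun y : Fin k → ℝ => y i)
        (ContinuousLinearMap.proj i : (Fin k → ℝ) →L[ℝ] ℝ) x :=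
      (ContinuousLinearMap.proj i : (Fin k → ℝ) →L[ℝ] ℝ).hasStrictFDerivAt
    have h := hp.mul hX
    have e1 : (fun y : Fin k → ℝ => MvPolynomial.eval y (p * MvPolynomial.X i)) =
        ((fun y => MvPolynomial.eval y p) * fun y => y i) := by
      ext y; simp
    have e2 : (∑ j, (MvPolynomial.eval x (MvPolynomial.pderiv j (p * MvPolynomial.X i))) •
        (ContinuousLinearMap.proj j : (Fin k → ℝ) →L[ℝ] ℝ)) =
        (MvPolynomial.eval x) p • ContinuousLinearMap.proj i +
          x i • ∑ j, (MvPolynomial.eval x) ((MvPolynomial.pderiv j) p) •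
            (ContinuousLinearMap.proj j : (Fin k → ℝ) →L[ℝ] ℝ) := by
      ext v
      simp only [Derivation.leibniz, map_add, smul_eq_mul, map_mul, MvPolynomial.eval_X,
        MvPolynomial.pderiv_X, ContinuousLinearMap.sum_apply, ContinuousLinearMap.smul_apply,
        ContinuousLinearMap.proj_apply, ContinuousLinearMap.add_apply, add_mul,
        Finset.sum_add_distrib, Finset.mul_sum]
      congr 1
      · rw [Finset.sum_eq_single i]
        · simp
        · intro j _ hj
          simp [hj.symm]
        · simp
      · refine Finset.sum_congr rfl fun j _ => by ring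
    rw [e1, e2]
    exact h

end Pool.Agent.Helper69.LB
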