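import Mathlib

/-! Project LB, piece W2: an algebraic relation of small degree. -/

open Finset

namespace Pool.Agent.Helper69.LB

/-- the polynomial of a coefficient family, as a linear map -/
private noncomputable def w2_poly {k N : ℕ} (F : Fin k → MvPolynomial (Fin k) ℝ)
    (y : MvPolynomial (Fin k) ℝ) :
    ((Fin k → Fin N) → Fin N → ℝ) →ₗ[ℝ] MvPolynomial (Fin k) ℝ where
  toFun c := ∑ α, ∑ β, MvPolynomial.C (c α β) * (∏ j, F j ^ (α j : ℕ)) * y ^ (β : ℕ)
  map_add' c d := by
    simp only [Pi.add_apply, map_add, add_mul, Finset.sum_add_distrib]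
  map_smul' r c := by
    simp only [Pi.smul_apply, smul_eq_mul, map_mul, RingHom.id_apply, Finset.smul_sum,
      MvPolynomial.smul_eq_C_mul]
    refine Finset.sum_congr rfl fun α _ => Finset.sum_congr rfl fun β _ => ?_
    ring

private theorem w2_degree {k e N : ℕ} (F : Fin k → MvPolynomial (Fin k) ℝ)
    (hF : ∀ j, (F j).totalDegree ≤ e) (y : MvPolynomial (Fin k) ℝ) (hy : y.totalDegree ≤ 1)
    (c : (Fin k → Fin N) → Fin N → ℝ) :
    (w2_poly F y c).totalDegree ≤ k * ((N - 1) * e) + (N - 1) := by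
  show (∑ α, ∑ β, MvPolynomial.C (c α β) * (∏ j, F j ^ (α j : ℕ)) * y ^ (β : ℕ)).totalDegree ≤ _
  refine MvPolynomial.totalDegree_finsetSum_le fun α _ => ?_
  refine MvPolynomial.totalDegree_finsetSum_le fun β _ => ?_
  refine (MvPolynomial.totalDegree_mul _ _).trans (add_le_add ?_ ?_)
  · refine (MvPolynomial.totalDegree_mul _ _).trans ?_
    rw [MvPolynomial.totalDegree_C, zero_add]
    refine (MvPolynomial.totalDegree_finsetProd _ _).trans ?_
    refine (Finset.sum_le_card_nsmul _ _ ((N - 1) * e) fun j _ => ?_).trans ?_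
    · refine (MvPolynomial.totalDegree_pow _ _).trans ?_
      exact Nat.mul_le_mul (by have := (α j).isLt; omega) (hF j)
    · simp
  · refine (MvPolynomial.totalDegree_pow _ _).trans ?_
    have h1 : (β : ℕ) ≤ N - 1 := by have := β.isLt; omega
    calc (β : ℕ) * y.totalDegree ≤ (N - 1) * 1 := Nat.mul_le_mul h1 hy
      _ = N - 1 := mul_one _

/-- Proof. Put `M = (k * e + 1) * N`. For `c : (Fin k → Fin N) → Fin N → ℝ` the polynomial
`g c = ∑ α, ∑ β, C (c α β) * (∏ j, F j ^ α j) * y ^ β` has total degree at most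
`k * (N - 1) * e + (N - 1) < M` (so `degreeOf i < M`). The linear map
`c ↦ (evaluation of g c at the points of (Fin k → Fin M), seen in ℝ ^ k)` goes from a space of
dimension `N ^ k * N` to a space of dimension `M ^ k = (k * e + 1) ^ k * N ^ k < N * N ^ k`, so it
is not injective (`LinearMap.exists_ne_zero_of_finrank_lt` or similar): there is `c ≠ 0` with
`g c = 0` at all points of the grid `{0, ..., M - 1} ^ k`, and then `g c = 0` by
`MvPolynomial.eq_zero_of_eval_zero_at_prod_finset`. -/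
theorem exists_relation {k e N : ℕ} (F : Fin k → MvPolynomial (Fin k) ℝ)
    (hF : ∀ j, (F j).totalDegree ≤ e) (y : MvPolynomial (Fin k) ℝ) (hy : y.totalDegree ≤ 1)
    (hN : (k * e + 1) ^ k < N) :
    ∃ c : (Fin k → Fin N) → Fin N → ℝ, c ≠ 0 ∧
      ∑ α, ∑ β, MvPolynomial.C (c α β) * (∏ j, F j ^ (α j : ℕ)) * y ^ (β : ℕ) = 0 := by
  set M : ℕ := (k * e + 1) * N with hM
  have hNpos : 0 < N := lt_of_le_of_lt (Nat.zero_le _) hN
  have hdegM : k * ((N - 1) * e) + (N - 1) < M := by
    obtain ⟨n, rfl⟩ : ∃ n, N = n + 1 := ⟨N - 1, by omega⟩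
    rw [hM]
    simp only [Nat.add_sub_cancel]
    have : (k * e + 1) * (n + 1) = k * (n * e) + n + (k * e + 1) := by ring
    rw [this]
    omega
  -- evaluation at the points of the grid
  let ev : MvPolynomial (Fin k) ℝ →ₗ[ℝ] ((Fin k → Fin M) → ℝ) :=
    LinearMap.pi fun p => (MvPolynomial.aeval (fun i => ((p i : ℕ) : ℝ))).toLinearMap
  let T := ev ∘ₗ w2_poly (N := N) F y
  have hrank : Module.finrank ℝ ((Fin k → Fin M) → ℝ)
      < Module.finrank ℝ ((Fin k → Fin N) → Fin N → ℝ) := by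
    rw [Module.finrank_pi, Module.finrank_pi_fintype]
    simp only [Module.finrank_pi, Fintype.card_fin, Fintype.card_fun, Finset.sum_const,
      Finset.card_univ, smul_eq_mul]
    rw [hM, mul_pow, mul_comm]
    exact Nat.mul_lt_mul_of_pos_left hN (pow_pos hNpos k)
  have hker : LinearMap.ker T ≠ ⊥ := LinearMap.ker_ne_bot_of_finrank_lt hrank
  obtain ⟨c, hc, hc0⟩ := Submodule.exists_mem_ne_zero_of_ne_bot hker
  refine ⟨c, hc0, ?_⟩
  have hTc : T c = 0 := LinearMap.mem_ker.mp hc
  show w2_poly F y c = 0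
  refine MvPolynomial.eq_zero_of_eval_zero_at_prod_finset (w2_poly F y c)
    (fun _ => (Finset.range M).image (fun m : ℕ => (m : ℝ))) (fun i => ?_) (fun x hx => ?_)
  · rw [Finset.card_image_of_injective _ Nat.cast_injective, Finset.card_range]
    exact lt_of_le_of_lt (MvPolynomial.degreeOf_le_totalDegree _ _)
      (lt_of_le_of_lt (w2_degree F hF y hy c) hdegM)
  · have hx' : ∀ i, ∃ m : Fin M, ((m : ℕ) : ℝ) = x i := fun i => by
      obtain ⟨m, hm, hmx⟩ := Finset.mem_image.mp (hx i)
      exact ⟨⟨m, Finset.mem_range.mp hm⟩, hmx⟩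
    choose p hp using hx'
    have h := congrFun hTc p
    have hxp : x = fun i => ((p i : ℕ) : ℝ) := funext fun i => (hp i).symm
    rw [hxp, ← MvPolynomial.coe_aeval_eq_eval]
    exact h

end Pool.Agent.Helper69.LB
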