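import Pool.Agent.Helper69.LB.W1
import Pool.Agent.Helper69.LB.W2

/-! Project LB, piece W3: a Bezout bound for nondegenerate common zeros. -/

open Finset

namespace Pool.Agent.Helper69.LB

/-- a linear form which is injective on a finite set -/
theorem w3_form {k : ℕ} (Z : Finset (Fin k → ℝ)) : ∃ t : Fin k → ℝ,
    Set.InjOn (fun z : Fin k → ℝ => ∑ j, t j * z j) (Z : Set (Fin k → ℝ)) := by
  classical
  set P : Polynomial ℝ := ∏ q ∈ Z.offDiag,
    ∑ j : Fin k, Polynomial.C (q.1 j - q.2 j) * Polynomial.X ^ (j : ℕ) with hP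
  have hP0 : P ≠ 0 := by
    rw [hP, Finset.prod_ne_zero_iff]
    rintro ⟨z, z'⟩ hq h
    rw [Finset.mem_offDiag] at hq
    apply hq.2.2
    funext i
    have h1 := congrArg (fun p : Polynomial ℝ => p.coeff (i : ℕ)) h
    simp only [Polynomial.finsetSum_coeff, Polynomial.coeff_C_mul, Polynomial.coeff_X_pow,
      Polynomial.coeff_zero] at h1
    rw [Finset.sum_eq_single i] at h1
    · simpa [sub_eq_zero] using h1
    · intro b _ hb
      rw [if_neg (fun h => hb (Fin.ext h.symm)), mul_zero]
    · intro hi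
      exact (hi (Finset.mem_univ i)).elim
  obtain ⟨τ, hτ⟩ : ∃ τ : ℝ, P.eval τ ≠ 0 := by
    by_contra hcon
    push Not at hcon
    exact hP0 (Polynomial.funext fun τ => by rw [hcon τ, Polynomial.eval_zero])
  refine ⟨fun j => τ ^ (j : ℕ), ?_⟩
  intro z hz z' hz' h
  by_contra hne
  rw [hP, Polynomial.eval_prod, Finset.prod_ne_zero_iff] at hτ
  apply hτ (z, z') (Finset.mem_offDiag.2 ⟨hz, hz', hne⟩)
  rw [Polynomial.eval_finsetSum]
  simp only [Polynomial.eval_mul, Polynomial.eval_C, Polynomial.eval_pow, Polynomial.eval_X]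
  simp only at h
  have h2 : ∀ j : Fin k, (z j - z' j) * τ ^ (j : ℕ) = τ ^ (j : ℕ) * z j - τ ^ (j : ℕ) * z' j :=
    fun j => by ring
  rw [Finset.sum_congr rfl fun j _ => h2 j, Finset.sum_sub_distrib, h, sub_self]

/-- the map given by the polynomials is open at a nondegenerate zero -/
theorem w3_open {k : ℕ} (F : Fin k → MvPolynomial (Fin k) ℝ) (z : Fin k → ℝ)
    (hz : ∀ j, MvPolynomial.eval z (F j) = 0)
    (hdet : (Matrix.of fun i j => MvPolynomial.eval z (MvPolynomial.pderiv j (F i))).det ≠ 0)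
    (U : Set (Fin k → ℝ)) (hU : U ∈ nhds z) :
    (fun (x : Fin k → ℝ) (j : Fin k) => MvPolynomial.eval x (F j)) '' U ∈ nhds 0 := by
  set M : Matrix (Fin k) (Fin k) ℝ :=
    Matrix.of fun i j => MvPolynomial.eval z (MvPolynomial.pderiv j (F i)) with hM
  have h1 : HasStrictFDerivAt
      (fun (x : Fin k → ℝ) (j : Fin k) => MvPolynomial.eval x (F j))
      (ContinuousLinearMap.pi fun i => ∑ j, (MvPolynomial.eval z (MvPolynomial.pderiv j (F i))) •
        (ContinuousLinearMap.proj j : (Fin k → ℝ) →L[ℝ] ℝ)) z :=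
    hasStrictFDerivAt_pi.2 fun i => eval_hasStrictFDerivAt (F i) z
  have h2 := h1.map_nhds_eq_of_surj (by
    rw [LinearMap.range_eq_top]
    intro v
    have h3 : Function.Surjective M.mulVec :=
      Matrix.mulVec_surjective_iff_isUnit.2 ((Matrix.isUnit_iff_isUnit_det _).2 hdet.isUnit)
    obtain ⟨x, hx⟩ := h3 v
    refine ⟨x, ?_⟩
    rw [← hx]
    funext i
    simp [Matrix.mulVec, dotProduct, hM])
  have h3 : (fun j => MvPolynomial.eval z (F j)) = (0 : Fin k → ℝ) := funext hz
  rw [h3] at h2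
  rw [← h2]
  exact Filter.image_mem_map hU

/-- a nonzero polynomial does not vanish on a neighbourhood of `0` -/
theorem w3_ne {k : ℕ} (p : MvPolynomial (Fin k) ℝ) (hp : p ≠ 0) (W : Set (Fin k → ℝ))
    (hW : W ∈ nhds 0) : ∃ w ∈ W, MvPolynomial.eval w p ≠ 0 := by
  by_contra hcon
  push Not at hcon
  apply hp
  obtain ⟨r, hr, hrW⟩ := Metric.mem_nhds_iff.1 hW
  apply MvPolynomial.funext_set (fun _ => Set.Ioo (-r) r) (fun _ => Set.Ioo_infinite (by linarith))
  intro x hx
  rw [map_zero]
  apply hcon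
  apply hrW
  rw [mem_ball_zero_iff, pi_norm_lt_iff hr]
  intro i
  have := hx i (Set.mem_univ i)
  rw [Real.norm_eq_abs, abs_lt]
  exact this

/-- the polynomial given by the coefficients for one `β` is not zero -/
theorem w3_coeff {k N : ℕ} (c : (Fin k → Fin N) → ℝ) (hc : c ≠ 0) :
    (∑ α, MvPolynomial.C (c α) * ∏ j, (MvPolynomial.X j : MvPolynomial (Fin k) ℝ) ^ (α j : ℕ)) ≠
      0 := by
  classical
  intro h
  apply hc
  funext α₀
  set m : (Fin k → Fin N) → (Fin k →₀ ℕ) := fun α => Finsupp.equivFunOnFinite.symm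
    fun j => (α j : ℕ) with hm
  have hmon : ∀ α, MvPolynomial.C (c α) *
      ∏ j, (MvPolynomial.X j : MvPolynomial (Fin k) ℝ) ^ (α j : ℕ) =
        MvPolynomial.monomial (m α) (c α) := by
    intro α
    rw [MvPolynomial.monomial_eq]
    congr 1
    rw [Finsupp.prod_fintype _ _ (fun i => pow_zero _)]
    rfl
  have hinj : ∀ α, m α = m α₀ → α = α₀ := by
    intro α h
    funext j
    have h1 := DFunLike.congr_fun h j
    exact Fin.ext h1
  have h1 := congrArg (MvPolynomial.coeff (m α₀)) h
  rw [MvPolynomial.coeff_sum, MvPolynomial.coeff_zero, Finset.sum_eq_single α₀] at h1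
  · rw [hmon, MvPolynomial.coeff_monomial, if_pos rfl] at h1
    exact h1
  · intro α _ hα
    rw [hmon, MvPolynomial.coeff_monomial, if_neg (fun h => hα (hinj α h))]
  · intro h
    exact (h (Finset.mem_univ _)).elim

/-- Proof. Suppose that `N = Z.card > (k * e + 1) ^ k`. Take a linear form `y = ∑ j, C (t j) * X j`
which is injective on `Z` (for every pair `z ≠ z'` the condition `∑ t j (z j - z' j) ≠ 0` is not
empty; `Module.Dual.exists_forall_mem_ne_zero_of_forall_exists` or a similar lemma, or take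
`t j = τ ^ j` with `τ` outside the finitely many roots). Let `c` be the relation of W2 for `F`, `y`
and `N`, and let `β₀` be such that `c · β₀ ≠ 0`. The map `Φ x = (eval x (F j))_j` has at `z ∈ Z` an
invertible derivative (W1, `hdet`), so `map Φ (𝓝 z) = 𝓝 0`
(`HasStrictFDerivAt.map_nhds_eq_of_equiv` or `..._of_surj`). Choose neighbourhoods `U z` of the
`z ∈ Z` with pairwise disjoint images under `y`; the intersection of the sets `Φ '' U z` is a
neighbourhood `W` of `0`. The polynomial `∑ α, c α β₀ ∏ j, X j ^ α j` is not `0`, so it does not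
vanish at some `w ∈ W` (`MvPolynomial.funext_set`, `W` contains a product of intervals). Let
`x z ∈ U z` with `Φ (x z) = w`. The polynomial
`h = ∑ β, (∑ α, c α β ∏ j, w j ^ α j) T ^ β` in one variable is not `0` (coefficient `β₀`), has
degree `< N` and has the `N` different roots `y (x z)` (evaluate the relation at `x z`): a
contradiction. -/
theorem card_zeros_le {k e : ℕ} (F : Fin k → MvPolynomial (Fin k) ℝ)
    (hF : ∀ j, (F j).totalDegree ≤ e) (Z : Finset (Fin k → ℝ))
    (hZ : ∀ z ∈ Z, ∀ j, MvPolynomial.eval z (F j) = 0)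
    (hdet : ∀ z ∈ Z,
      (Matrix.of fun i j => MvPolynomial.eval z (MvPolynomial.pderiv j (F i))).det ≠ 0) :
    Z.card ≤ (k * e + 1) ^ k := by
  classical
  by_contra hlt
  rw [not_le] at hlt
  obtain ⟨t, ht⟩ := w3_form Z
  set y : MvPolynomial (Fin k) ℝ := ∑ j, MvPolynomial.C (t j) * MvPolynomial.X j with hy
  have hydeg : y.totalDegree ≤ 1 := by
    rw [hy]
    refine MvPolynomial.totalDegree_finsetSum_le fun j _ => ?_
    refine (MvPolynomial.totalDegree_mul _ _).trans ?_
    rw [MvPolynomial.totalDegree_C, MvPolynomial.totalDegree_X]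
  have hyev : ∀ x : Fin k → ℝ, MvPolynomial.eval x y = ∑ j, t j * x j := by
    intro x
    simp [hy]
  obtain ⟨c, hc, hrel⟩ := exists_relation F hF y hydeg hlt
  obtain ⟨α₀, hα₀⟩ := Function.ne_iff.1 hc
  obtain ⟨β₀, hβ₀⟩ := Function.ne_iff.1 hα₀
  have hc' : (fun α => c α β₀) ≠ 0 := fun h => hβ₀ (congrFun h α₀)
  -- neighbourhoods with disjoint images
  obtain ⟨V, hV, hVd⟩ := ((Z.image fun z => ∑ j, t j * z j).finite_toSet).t2_separation
  set U : (Fin k → ℝ) → Set (Fin k → ℝ) := fun z =>
    (fun x : Fin k → ℝ => ∑ j, t j * x j) ⁻¹' V (∑ j, t j * z j) with hU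
  have hcont : Continuous fun x : Fin k → ℝ => ∑ j, t j * x j := by fun_prop
  have hUn : ∀ z, U z ∈ nhds z := fun z =>
    ((hV _).2.preimage hcont).mem_nhds (hV _).1
  have hW : (⋂ z ∈ Z, (fun (x : Fin k → ℝ) (j : Fin k) => MvPolynomial.eval x (F j)) '' U z) ∈
      nhds (0 : Fin k → ℝ) := by
    rw [Filter.biInter_finset_mem]
    exact fun z hz => w3_open F z (hZ z hz) (hdet z hz) _ (hUn z)
  obtain ⟨w, hwW, hw⟩ := w3_ne _ (w3_coeff _ hc') _ hW
  rw [Set.mem_iInter₂] at hwW
  choose! x hxU hxw using hwW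
  -- the polynomial in one variable
  set a : Fin Z.card → ℝ := fun β => ∑ α, c α β * ∏ j, w j ^ (α j : ℕ) with ha
  set h : Polynomial ℝ := ∑ β : Fin Z.card, Polynomial.C (a β) * Polynomial.X ^ (β : ℕ) with hh
  have hh0 : h ≠ 0 := by
    intro h0
    apply hw
    have h1 := congrArg (fun p : Polynomial ℝ => p.coeff (β₀ : ℕ)) h0
    simp only [hh, Polynomial.finsetSum_coeff, Polynomial.coeff_C_mul, Polynomial.coeff_X_pow,
      Polynomial.coeff_zero] at h1
    rw [Finset.sum_eq_single β₀] at h1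
    · rw [if_pos rfl, mul_one] at h1
      rw [map_sum, ← h1, ha]
      refine Finset.sum_congr rfl fun α _ => ?_
      rw [map_mul, MvPolynomial.eval_C, map_prod]
      congr 1
      refine Finset.prod_congr rfl fun j _ => ?_
      rw [map_pow, MvPolynomial.eval_X]
    · intro b _ hb
      rw [if_neg (fun h => hb (Fin.ext h.symm)), mul_zero]
    · intro hi
      exact (hi (Finset.mem_univ _)).elim
  have hhdeg : h.degree < Z.card := by
    rw [hh]
    refine lt_of_le_of_lt (Polynomial.degree_sum_le _ _) ?_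
    rw [Finset.sup_lt_iff (WithBot.bot_lt_coe _)]
    intro β _
    refine lt_of_le_of_lt (Polynomial.degree_C_mul_X_pow_le _ _) ?_
    exact_mod_cast β.2
  have hroot : ∀ z ∈ Z, h.eval (∑ j, t j * x z j) = 0 := by
    intro z hz
    have h1 := congrArg (MvPolynomial.eval (x z)) hrel
    simp only [map_sum, map_mul, map_prod, map_pow, MvPolynomial.eval_C, map_zero] at h1
    have h2 : ∀ j, MvPolynomial.eval (x z) (F j) = w j := fun j => congrFun (hxw z hz) j
    simp only [h2, hyev] at h1
    rw [Finset.sum_comm] at h1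
    rw [hh, Polynomial.eval_finsetSum, ← h1]
    refine Finset.sum_congr rfl fun β _ => ?_
    rw [Polynomial.eval_mul, Polynomial.eval_C, Polynomial.eval_pow, Polynomial.eval_X, ha,
      Finset.sum_mul]
  have hinj : Set.InjOn (fun z => ∑ j, t j * x z j) (Z : Set (Fin k → ℝ)) := by
    intro z hz z' hz' heq
    by_contra hne
    have h1 : (∑ j, t j * z j) ≠ ∑ j, t j * z' j := fun h => hne (ht hz hz' h)
    have h2 := hVd (Finset.mem_coe.2 (Finset.mem_image_of_mem _ hz))
      (Finset.mem_coe.2 (Finset.mem_image_of_mem _ hz')) h1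
    have h3 : (∑ j, t j * x z j) ∈ V (∑ j, t j * z j) := hxU z hz
    have h4 : (∑ j, t j * x z' j) ∈ V (∑ j, t j * z' j) := hxU z' hz'
    simp only at heq
    rw [← heq] at h4
    exact Set.disjoint_left.1 h2 h3 h4
  have hcard : Z.card ≤ h.roots.toFinset.card := by
    rw [← Finset.card_image_of_injOn hinj]
    apply Finset.card_le_card
    intro b hb
    rw [Finset.mem_image] at hb
    obtain ⟨z, hz, rfl⟩ := hb
    rw [Multiset.mem_toFinset, Polynomial.mem_roots hh0]
    exact hroot z hz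
  have h1 : h.roots.toFinset.card ≤ h.natDegree :=
    (Multiset.toFinset_card_le _).trans (Polynomial.card_roots' _)
  have h2 : h.natDegree < Z.card := (Polynomial.natDegree_lt_iff_degree_lt hh0).2 hhdeg
  omega

end Pool.Agent.Helper69.LB
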