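import Pool.Agent.Helper69.LB.KDefs

/-! Project LB2: the zone of a convex cone. Definitions. -/

open Finset Matrix

namespace Pool.Agent.Helper69.LB

/-- the functional `v ↦ a ⬝ᵥ v` -/
def dotL {E : ℕ} (a : Fin E → ℝ) : (Fin E → ℝ) →ₗ[ℝ] ℝ where
  toFun v := a ⬝ᵥ v
  map_add' := dotProduct_add a
  map_smul' c v := by simp [dotProduct_smul]

@[simp] theorem dotL_apply {E : ℕ} (a v : Fin E → ℝ) : dotL a v = a ⬝ᵥ v := rfl

/-- any `E` of the functionals `l i`, `i ∈ R`, are linearly independent -/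
def GenPosD {ι V : Type} [AddCommGroup V] [Module ℝ V] (l : ι → V →ₗ[ℝ] ℝ) (R : Finset ι)
    (E : ℕ) : Prop :=
  ∀ T ⊆ R, T.card ≤ E → LinearIndependent ℝ (fun i : {i // i ∈ T} => l i)

/-- `y` lies strictly in the cell in which the functionals in `P` are positive and the other ones
of `R` are negative -/
def InCell {ι V : Type} [AddCommGroup V] [Module ℝ V] (l : ι → V →ₗ[ℝ] ℝ) (R P : Finset ι)
    (y : V) : Prop :=
  ∀ i ∈ R, (i ∈ P → 0 < l i y) ∧ (i ∉ P → l i y < 0)

/-- `v` is a vertex of the cell `P`: the functionals in `T` vanish, the other ones of `R` have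
strictly the signs given by `P` -/
def AtVertex {ι V : Type} [AddCommGroup V] [Module ℝ V] (l : ι → V →ₗ[ℝ] ℝ) (R P T : Finset ι)
    (v : V) : Prop :=
  (∀ i ∈ T, l i v = 0) ∧ ∀ i ∈ R, i ∉ T → (i ∈ P → 0 < l i v) ∧ (i ∉ P → l i v < 0)

open Classical in
/-- the pairs `(P, T)` of a cell `P` which meets the convex cone `A` and of a vertex `T` of this
cell outside `A` -/
noncomputable def zone {ι V : Type} [AddCommGroup V] [Module ℝ V] (l : ι → V →ₗ[ℝ] ℝ)
    (R : Finset ι) (A : ConvexCone ℝ V) (D : ℕ) : Finset (Finset ι × Finset ι) :=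
  (R.powerset ×ˢ R.powersetCard D).filter fun c =>
    (∃ z ∈ A, InCell l R c.1 z) ∧ ∃ v, v ∉ A ∧ AtVertex l R c.1 c.2 v

theorem mem_zone {ι V : Type} [AddCommGroup V] [Module ℝ V] {l : ι → V →ₗ[ℝ] ℝ}
    {R : Finset ι} {A : ConvexCone ℝ V} {D : ℕ} {P T : Finset ι} :
    (P, T) ∈ zone l R A D ↔ P ⊆ R ∧ T ⊆ R ∧ T.card = D ∧ (∃ z ∈ A, InCell l R P z) ∧
      ∃ v, v ∉ A ∧ AtVertex l R P T v := by
  classical
  simp only [zone, mem_filter, mem_product, mem_powerset, mem_powersetCard]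
  tauto

/-- the cell on the other side of the functional `i` -/
def flp {ι : Type} [DecidableEq ι] (P : Finset ι) (i : ι) : Finset ι :=
  if i ∈ P then P.erase i else insert i P

/-- the functional `l k` on the kernel of `l i` -/
noncomputable def kres {ι V : Type} [AddCommGroup V] [Module ℝ V] (l : ι → V →ₗ[ℝ] ℝ) (i k : ι) :
    LinearMap.ker (l i) →ₗ[ℝ] ℝ :=
  (l k).comp (LinearMap.ker (l i)).subtype

/-- the cone `A` inside the kernel of `l i` -/
noncomputable def cres {ι V : Type} [AddCommGroup V] [Module ℝ V] (l : ι → V →ₗ[ℝ] ℝ)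
    (A : ConvexCone ℝ V) (i : ι) : ConvexCone ℝ (LinearMap.ker (l i)) :=
  A.comap (LinearMap.ker (l i)).subtype

theorem mem_cres {ι V : Type} [AddCommGroup V] [Module ℝ V] {l : ι → V →ₗ[ℝ] ℝ}
    {A : ConvexCone ℝ V} {i : ι} {y : LinearMap.ker (l i)} : y ∈ cres l A i ↔ (y : V) ∈ A :=
  Iff.rfl

/-- the bound for the number of the cells of a sample of `N` half-spaces which meet the zone -/
def cellNumA (D N : ℕ) : ℕ :=
  8 * D * (N + D + 1) ^ (D - 1) * (Nat.log 2 (N + D + 1) + 1) ^ (D - 1) * (D + 1) ^ D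

end Pool.Agent.Helper69.LB
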