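import Pool.Agent.Helper69.LB.Z0

/-! Project LB2, piece Z1: the vertex beyond. -/

open Finset Matrix

namespace Pool.Agent.Helper69.LB

/-- Linearly independent functionals take arbitrary values. -/
private lemma z1_exists {κ V : Type} [Fintype κ] [AddCommGroup V] [Module ℝ V]
    (f : κ → V →ₗ[ℝ] ℝ) (hf : LinearIndependent ℝ f) :
    Function.Surjective (LinearMap.pi f) := by
  classical
  rw [← LinearMap.range_eq_top]
  by_contra hne
  obtain ⟨g, hg, hle⟩ := Submodule.exists_le_ker_of_lt_top _ (lt_top_iff_ne_top.2 hne)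
  apply hg
  have hsum : ∑ k, g (Pi.single k 1) • f k = 0 := by
    ext x
    have h1 : g (LinearMap.pi f x) = 0 := hle ⟨x, rfl⟩
    have h2 : (LinearMap.pi f x : κ → ℝ) = ∑ k, f k x • (Pi.single k (1 : ℝ) : κ → ℝ) := by
      ext k
      simp [Finset.sum_apply, Pi.single_apply]
    rw [h2, map_sum] at h1
    simp only [map_smul, smul_eq_mul] at h1
    simp only [LinearMap.sum_apply, LinearMap.smul_apply, smul_eq_mul, LinearMap.zero_apply]
    rw [← h1]
    exact Finset.sum_congr rfl fun k _ => mul_comm _ _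
  have h0 := Fintype.linearIndependent_iff.1 hf _ hsum
  refine LinearMap.pi_ext' fun k => ?_
  ext
  simpa using h0 k

private lemma z1_mem_flp {ι : Type} [DecidableEq ι] (P : Finset ι) (i k : ι) :
    k ∈ flp P i ↔ (k = i ∧ i ∉ P) ∨ (k ≠ i ∧ k ∈ P) := by
  unfold flp
  split_ifs with h
  · rw [Finset.mem_erase]
    tauto
  · rw [Finset.mem_insert]
    constructor
    · rintro (rfl | h')
      · exact Or.inl ⟨rfl, h⟩
      · exact Or.inr ⟨fun h2 => h (h2 ▸ h'), h'⟩
    · rintro (⟨h', -⟩ | ⟨-, h'⟩)
      · exact Or.inl h'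
      · exact Or.inr h'

/-- Proof. Let `σ k = 1` for `k ∈ P` and `σ k = -1` for `k ∉ P`. Let `v` be the vertex of the pair
`(P, T)`. The functionals in `T` are linearly independent (there are `D` of them and
`finrank V = D + 1`), so there is a `u` with `l k u = 0` for `k ∈ T.erase i` and
`σ i * l i u = - 1`. The set `R \ T` is not empty and `σ k * l k v > 0` on it. Let
`c = max {- (σ k * l k u) / (σ k * l k v) | k ∈ R \ T}`, attained at `j`, and `w = u + c • v`. Then
`l k w = 0` for `k ∈ T.erase i`, `σ i * l i w = - 1`, `l j w = 0` and `σ k * l k w ≥ 0` for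
`k ∈ R \ T`. If `l k w = 0` for another `k ∈ R \ T` then the `D + 1` functionals of `T.erase i`,
`j`, `k` vanish at `w ≠ 0`, in contradiction to general position (`D + 1` linearly independent
functionals on a space of dimension `D + 1` span the dual space). So `w` is at the vertex.
If `w ∈ A`, let `z ∈ A` be in the cell `P`. For small `ε > 0` the vector `ε • z + w ∈ A` is in the
cell `flp P i`: for `k ≠ i` we have `σ k * l k (ε • z + w) ≥ ε * (σ k * l k z) > 0`, and
`σ i * l i (ε • z + w) = ε * (σ i * l i z) - 1 < 0`; contradiction to `hg`. -/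
theorem zone_charge {ι V : Type} [DecidableEq ι] [AddCommGroup V] [Module ℝ V]
    [FiniteDimensional ℝ V] {D : ℕ} (hV : Module.finrank ℝ V = D + 1) (l : ι → V →ₗ[ℝ] ℝ)
    (R : Finset ι) (hl : GenPosD l R (D + 1)) (hR : D + 1 ≤ R.card) (A : ConvexCone ℝ V)
    {P T : Finset ι} (h : (P, T) ∈ zone l R A D) {i : ι} (hi : i ∈ T)
    (hg : ¬ ∃ z ∈ A, InCell l R (flp P i) z) :
    ∃ j ∈ R, j ∉ T ∧ ∃ w, w ∉ A ∧
      AtVertex l (R.erase i) (P.erase i) (insert j (T.erase i)) w ∧
      (i ∈ P → l i w < 0) ∧ (i ∉ P → 0 < l i w) := by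
  rw [mem_zone] at h
  obtain ⟨-, hTR, hTc, ⟨z, hzA, hz⟩, v, -, hv⟩ := h
  -- the signs
  let σ : ι → ℝ := fun k => if k ∈ P then 1 else -1
  have hσP : ∀ k, k ∈ P → σ k = 1 := fun k hk => if_pos hk
  have hσN : ∀ k, k ∉ P → σ k = -1 := fun k hk => if_neg hk
  have hσ2 : ∀ k, σ k * σ k = 1 := by
    intro k
    by_cases hk : k ∈ P
    · rw [hσP k hk]; norm_num
    · rw [hσN k hk]; norm_num
  have hσz : ∀ k ∈ R, 0 < σ k * l k z := by
    intro k hk
    by_cases hkP : k ∈ P
    · rw [hσP k hkP, one_mul]; exact (hz k hk).1 hkP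
    · rw [hσN k hkP]; have := (hz k hk).2 hkP; linarith
  have hσv : ∀ k ∈ R, k ∉ T → 0 < σ k * l k v := by
    intro k hk hkT
    by_cases hkP : k ∈ P
    · rw [hσP k hkP, one_mul]; exact (hv.2 k hk hkT).1 hkP
    · rw [hσN k hkP]; have := (hv.2 k hk hkT).2 hkP; linarith
  -- the direction u
  obtain ⟨u, hu⟩ := z1_exists (fun k : {k // k ∈ T} => l k) (hl T hTR (by omega))
    (fun k => if (k : ι) = i then - σ i else 0)
  have hu' : ∀ k (hk : k ∈ T), l k u = if k = i then - σ i else 0 := by
    intro k hk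
    have := congrFun hu ⟨k, hk⟩
    simpa using this
  have hui : l i u = - σ i := by rw [hu' i hi, if_pos rfl]
  have huk : ∀ k ∈ T, k ≠ i → l k u = 0 := fun k hk hki => by rw [hu' k hk, if_neg hki]
  -- the maximum
  have hne : (R \ T).Nonempty := by
    rw [← Finset.card_pos, Finset.card_sdiff_of_subset hTR]
    omega
  obtain ⟨j, hj, hmax⟩ := Finset.exists_max_image (R \ T)
    (fun k => -(σ k * l k u) / (σ k * l k v)) hne
  rw [Finset.mem_sdiff] at hj
  obtain ⟨hjR, hjT⟩ := hj
  set c : ℝ := -(σ j * l j u) / (σ j * l j v) with hc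
  have hw : ∀ k, l k (u + c • v) = l k u + c * l k v := by
    intro k
    rw [map_add, map_smul, smul_eq_mul]
  have hwi : l i (u + c • v) = - σ i := by
    rw [hw, hui, hv.1 i hi, mul_zero, add_zero]
  have hwT : ∀ k ∈ T, k ≠ i → l k (u + c • v) = 0 := by
    intro k hk hki
    rw [hw, huk k hk hki, hv.1 k hk, mul_zero, add_zero]
  have hwR : ∀ k ∈ R, k ∉ T → 0 ≤ σ k * l k (u + c • v) := by
    intro k hk hkT
    have h1 : -(σ k * l k u) / (σ k * l k v) ≤ c := hmax k (Finset.mem_sdiff.2 ⟨hk, hkT⟩)
    rw [div_le_iff₀ (hσv k hk hkT)] at h1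
    rw [hw]
    nlinarith [h1]
  have hwj : l j (u + c • v) = 0 := by
    have h1 : σ j * l j (u + c • v) = 0 := by
      rw [hw, hc]
      have h2 := (hσv j hjR hjT).ne'
      have h3 : σ j * (l j u + -(σ j * l j u) / (σ j * l j v) * l j v) =
          σ j * l j u + (-(σ j * l j u) / (σ j * l j v)) * (σ j * l j v) := by ring
      rw [h3, div_mul_cancel₀ _ h2]
      ring
    have h4 : σ j ≠ 0 := by
      intro h0
      have := hσ2 j
      rw [h0] at this
      norm_num at this
    exact (mul_eq_zero.1 h1).resolve_left h4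
  have hw0 : u + c • v ≠ 0 := by
    intro h0
    rw [h0, map_zero] at hwi
    have h1 := hσ2 i
    have h2 : σ i = 0 := by linarith
    rw [h2] at h1
    norm_num at h1
  have hij : j ≠ i := fun h0 => hjT (h0 ▸ hi)
  -- no further functional vanishes
  have hother : ∀ k ∈ R, k ∉ T → k ≠ j → l k (u + c • v) ≠ 0 := by
    intro k hk hkT hkj h0
    have hki : k ≠ i := fun h1 => hkT (h1 ▸ hi)
    have hsub : insert k (insert j (T.erase i)) ⊆ R := by
      intro m hm
      rcases Finset.mem_insert.1 hm with rfl | hm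
      · exact hk
      rcases Finset.mem_insert.1 hm with rfl | hm
      · exact hjR
      · exact hTR (Finset.mem_of_mem_erase hm)
    have hcard : (insert k (insert j (T.erase i))).card = D + 1 := by
      rw [Finset.card_insert_of_notMem, Finset.card_insert_of_notMem, Finset.card_erase_of_mem hi,
        hTc]
      · have : 0 < T.card := Finset.card_pos.2 ⟨i, hi⟩
        omega
      · exact fun hm => hjT (Finset.mem_of_mem_erase hm)
      · intro hm
        rcases Finset.mem_insert.1 hm with h1 | hm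
        · exact hkj h1
        · exact hkT (Finset.mem_of_mem_erase hm)
    have hli := hl _ hsub hcard.le
    have hsurj := z1_exists (fun m : {m // m ∈ insert k (insert j (T.erase i))} => l m) hli
    have hinj : Function.Injective
        (LinearMap.pi (fun m : {m // m ∈ insert k (insert j (T.erase i))} => l m)) := by
      rw [LinearMap.injective_iff_surjective_of_finrank_eq_finrank]
      · exact hsurj
      · rw [hV, Module.finrank_fintype_fun_eq_card, Fintype.card_coe, hcard]
    apply hw0
    apply hinj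
    rw [map_zero]
    ext ⟨m, hm⟩
    simp only [LinearMap.pi_apply, Pi.zero_apply]
    rcases Finset.mem_insert.1 hm with rfl | hm
    · exact h0
    rcases Finset.mem_insert.1 hm with rfl | hm
    · exact hwj
    · exact hwT m (Finset.mem_of_mem_erase hm) (Finset.ne_of_mem_erase hm)
  refine ⟨j, hjR, hjT, u + c • v, ?_, ⟨?_, ?_⟩, ?_, ?_⟩
  · -- w is not in A
    intro hwA
    apply hg
    set s : ℝ := σ i * l i z with hs
    have hspos : 0 < s := hσz i (hTR hi)
    have hε : 0 < 1 / (s + 1) := by positivity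
    refine ⟨(1 / (s + 1)) • z + (u + c • v),
      A.add_mem (A.smul_mem hε hzA) hwA, ?_⟩
    intro k hk
    have hy : l k ((1 / (s + 1)) • z + (u + c • v)) =
        1 / (s + 1) * l k z + l k (u + c • v) := by
      rw [map_add, map_smul, smul_eq_mul]
    rw [z1_mem_flp, hy]
    by_cases hki : k = i
    · subst hki
      rw [hwi]
      have h1 : 1 / (s + 1) * s < 1 := by
        rw [one_div, inv_mul_lt_iff₀ (by linarith)]
        linarith
      by_cases hkP : k ∈ P
      · rw [hσP k hkP] at hs ⊢
        rw [hs, one_mul] at h1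
        refine ⟨fun h2 => ?_, fun _ => ?_⟩
        · rcases h2 with ⟨-, h2⟩ | ⟨h2, -⟩
          · exact absurd hkP h2
          · exact absurd rfl h2
        · rw [hs, one_mul]
          linarith
      · rw [hσN k hkP] at hs ⊢
        rw [hs] at h1
        refine ⟨fun _ => ?_, fun h2 => ?_⟩
        · rw [hs]
          linarith
        · exact absurd (Or.inl ⟨rfl, hkP⟩) h2
    · have hnn : 0 ≤ σ k * l k (u + c • v) := by
        by_cases hkT : k ∈ T
        · rw [hwT k hkT hki, mul_zero]
        · exact hwR k hk hkT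
      have hzk := mul_pos hε (hσz k hk)
      by_cases hkP : k ∈ P
      · rw [hσP k hkP, one_mul] at hnn hzk
        refine ⟨fun _ => by linarith, fun h2 => absurd (Or.inr ⟨hki, hkP⟩) h2⟩
      · rw [hσN k hkP] at hnn hzk
        refine ⟨fun h2 => ?_, fun _ => by linarith⟩
        rcases h2 with ⟨h2, -⟩ | ⟨-, h2⟩
        · exact absurd h2 hki
        · exact absurd h2 hkP
  · intro k hk
    rcases Finset.mem_insert.1 hk with rfl | hk
    · exact hwj
    · exact hwT k (Finset.mem_of_mem_erase hk) (Finset.ne_of_mem_erase hk)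
  · intro k hk hkT
    have hki := Finset.ne_of_mem_erase hk
    have hkR := Finset.mem_of_mem_erase hk
    have hkj : k ≠ j := fun h0 => hkT (h0 ▸ Finset.mem_insert_self _ _)
    have hkT' : k ∉ T := fun h0 =>
      hkT (Finset.mem_insert_of_mem (Finset.mem_erase.2 ⟨hki, h0⟩))
    have h1 := hwR k hkR hkT'
    have h2 := hother k hkR hkT' hkj
    refine ⟨fun hkP => ?_, fun hkP => ?_⟩
    · rw [hσP k (Finset.mem_of_mem_erase hkP), one_mul] at h1
      exact lt_of_le_of_ne h1 (Ne.symm h2)
    · have hkP' : k ∉ P := fun h0 => hkP (Finset.mem_erase.2 ⟨hki, h0⟩)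
      rw [hσN k hkP'] at h1
      exact lt_of_le_of_ne (by linarith) h2
  · intro hiP
    rw [hwi, hσP i hiP]
    norm_num
  · intro hiP
    rw [hwi, hσN i hiP]
    norm_num

end Pool.Agent.Helper69.LB
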