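import Pool.Agent.Helper69.LB.Z0

/-! Project LB2, piece Z2: sections by the kernel of a functional. -/

open Finset Matrix

namespace Pool.Agent.Helper69.LB

/-- Proof. Let `z₁ ∈ A` be in the cell `P`, `z₂ ∈ A` in the cell `flp P i`; `l i z₁` and `l i z₂`
have different signs, so `z = |l i z₂| • z₁ + |l i z₁| • z₂ ∈ A` lies in the kernel of `l i`, and in
the cell `P.erase i` for `R.erase i`. The vertex `v` of `(P, T)` is in the kernel of `l i` since
`i ∈ T`. -/
theorem zone_section {ι V : Type} [DecidableEq ι] [AddCommGroup V] [Module ℝ V] {D : ℕ}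
    (l : ι → V →ₗ[ℝ] ℝ) (R : Finset ι) (A : ConvexCone ℝ V) {P T : Finset ι}
    (h : (P, T) ∈ zone l R A (D + 1)) {i : ι} (hi : i ∈ T)
    (hb : ∃ z ∈ A, InCell l R (flp P i) z) :
    (P.erase i, T.erase i) ∈ zone (kres l i) (R.erase i) (cres l A i) D := by
  obtain ⟨hP, hT, hcard, ⟨z₁, hz₁A, hz₁⟩, v, hvA, hv0, hv⟩ := mem_zone.1 h
  obtain ⟨z₂, hz₂A, hz₂⟩ := hb
  have hiR : i ∈ R := hT hi
  have hne : ∀ k ∈ R.erase i, (k ∈ flp P i ↔ k ∈ P) := by
    intro k hk
    have hki : k ≠ i := (Finset.mem_erase.1 hk).1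
    unfold flp
    split_ifs with hiP
    · rw [Finset.mem_erase]
      exact ⟨fun h => h.2, fun h => ⟨hki, h⟩⟩
    · rw [Finset.mem_insert]
      exact ⟨fun h => h.resolve_left hki, fun h => Or.inr h⟩
  have hsign : (0 < l i z₁ ∧ l i z₂ < 0) ∨ (l i z₁ < 0 ∧ 0 < l i z₂) := by
    by_cases hiP : i ∈ P
    · left
      refine ⟨(hz₁ i hiR).1 hiP, (hz₂ i hiR).2 ?_⟩
      unfold flp
      rw [if_pos hiP]
      exact Finset.notMem_erase i P
    · right
      refine ⟨(hz₁ i hiR).2 hiP, (hz₂ i hiR).1 ?_⟩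
      unfold flp
      rw [if_neg hiP]
      exact Finset.mem_insert_self i P
  obtain ⟨a, b, ha, hb, hab⟩ : ∃ a b : ℝ, 0 < a ∧ 0 < b ∧ a * l i z₁ + b * l i z₂ = 0 := by
    rcases hsign with ⟨h1, h2⟩ | ⟨h1, h2⟩
    · exact ⟨-l i z₂, l i z₁, by linarith, h1, by ring⟩
    · exact ⟨l i z₂, -l i z₁, h2, by linarith, by ring⟩
  have hker : a • z₁ + b • z₂ ∈ LinearMap.ker (l i) := by
    rw [LinearMap.mem_ker, map_add, map_smul, map_smul, smul_eq_mul, smul_eq_mul]
    exact hab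
  have hvker : v ∈ LinearMap.ker (l i) := by
    rw [LinearMap.mem_ker]
    exact hv0 i hi
  rw [mem_zone]
  refine ⟨Finset.erase_subset_erase i hP, Finset.erase_subset_erase i hT, ?_, ?_, ?_⟩
  · rw [Finset.card_erase_of_mem hi, hcard, Nat.add_sub_cancel]
  · refine ⟨⟨a • z₁ + b • z₂, hker⟩, ?_, ?_⟩
    · rw [mem_cres]
      exact A.add_mem (A.smul_mem ha hz₁A) (A.smul_mem hb hz₂A)
    · intro k hk
      have hkR : k ∈ R := (Finset.mem_erase.1 hk).2
      have hki : k ≠ i := (Finset.mem_erase.1 hk).1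
      have e : kres l i k ⟨a • z₁ + b • z₂, hker⟩ = a * l k z₁ + b * l k z₂ := by
        show l k (a • z₁ + b • z₂) = _
        rw [map_add, map_smul, map_smul, smul_eq_mul, smul_eq_mul]
      rw [e]
      constructor
      · intro hkP
        have hkP' : k ∈ P := (Finset.mem_erase.1 hkP).2
        have h1 := (hz₁ k hkR).1 hkP'
        have h2 := (hz₂ k hkR).1 ((hne k hk).2 hkP')
        exact add_pos (mul_pos ha h1) (mul_pos hb h2)
      · intro hkP
        have hkP' : k ∉ P := fun h => hkP (Finset.mem_erase.2 ⟨hki, h⟩)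
        have h1 := (hz₁ k hkR).2 hkP'
        have h2 := (hz₂ k hkR).2 (fun h => hkP' ((hne k hk).1 h))
        exact add_neg (mul_neg_of_pos_of_neg ha h1) (mul_neg_of_pos_of_neg hb h2)
  · refine ⟨⟨v, hvker⟩, ?_, ?_, ?_⟩
    · rw [mem_cres]
      exact hvA
    · intro k hk
      exact hv0 k (Finset.mem_erase.1 hk).2
    · intro k hk hkT
      have hkR : k ∈ R := (Finset.mem_erase.1 hk).2
      have hki : k ≠ i := (Finset.mem_erase.1 hk).1
      have hkT' : k ∉ T := fun h => hkT (Finset.mem_erase.2 ⟨hki, h⟩)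
      refine ⟨fun hkP => (hv k hkR hkT').1 (Finset.mem_erase.1 hkP).2, fun hkP => ?_⟩
      exact (hv k hkR hkT').2 (fun h => hkP (Finset.mem_erase.2 ⟨hki, h⟩))

end Pool.Agent.Helper69.LB
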