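import Pool.Agent.Helper69.LB.Z1
import Pool.Agent.Helper69.LB.Z2

/-! Project LB2, piece Z3: the recursion for the zone. -/

open Finset Matrix

namespace Pool.Agent.Helper69.LB

private theorem z3_eq_zero {ι V : Type} [AddCommGroup V] [Module ℝ V] [FiniteDimensional ℝ V]
    {l : ι → V →ₗ[ℝ] ℝ} {T : Finset ι}
    (hT : LinearIndependent ℝ (fun i : {i // i ∈ T} => l i))
    (hc : T.card = Module.finrank ℝ V) {u : V} (hu : ∀ i ∈ T, l i u = 0) : u = 0 := by
  have hcard : Fintype.card {i // i ∈ T} = Module.finrank ℝ (Module.Dual ℝ V) := by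
    rw [Subspace.dual_finrank_eq, ← hc, Fintype.card_coe]
  have hspan : Submodule.span ℝ (Set.range (fun i : {i // i ∈ T} => (l i : Module.Dual ℝ V))) = ⊤ :=
    LinearIndependent.span_eq_top_of_card_eq_finrank' hT hcard
  have h0 : Module.Dual.eval ℝ V u = 0 := by
    refine LinearMap.ext_on_range hspan fun i => ?_
    simpa using hu i i.2
  rw [← Module.forall_dual_apply_eq_zero_iff ℝ u]
  intro φ
  have := LinearMap.congr_fun h0 φ
  simpa using this

private theorem z3_smul {ι V : Type} [DecidableEq ι] [AddCommGroup V] [Module ℝ V]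
    [FiniteDimensional ℝ V] {D : ℕ} (hV : Module.finrank ℝ V = D + 2) {l : ι → V →ₗ[ℝ] ℝ}
    {R : Finset ι} (hl : GenPosD l R (D + 2)) {S P T : Finset ι} (hSR : S ⊆ R) (hTR : T ⊆ R)
    (hT : T.card = D + 1) (hS : D + 2 ≤ S.card) {v v' : V} (hv : AtVertex l S P T v)
    (hv' : AtVertex l S P T v') : ∃ c : ℝ, 0 < c ∧ v' = c • v := by
  obtain ⟨k, hkS, hkT⟩ : ∃ k ∈ S, k ∉ T :=
    Finset.exists_mem_notMem_of_card_lt_card (by omega)
  have hs : 0 < l k v' / l k v := by
    by_cases hkP : k ∈ P
    · exact div_pos ((hv'.2 k hkS hkT).1 hkP) ((hv.2 k hkS hkT).1 hkP)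
    · exact div_pos_of_neg_of_neg ((hv'.2 k hkS hkT).2 hkP) ((hv.2 k hkS hkT).2 hkP)
  have hkv : l k v ≠ 0 := by
    intro h
    rw [h, div_zero] at hs
    exact lt_irrefl _ hs
  refine ⟨l k v' / l k v, hs, ?_⟩
  have hcard : (insert k T).card = D + 2 := by rw [Finset.card_insert_of_notMem hkT, hT]
  have hind := hl (insert k T) (Finset.insert_subset (hSR hkS) hTR) hcard.le
  have h0 : v' - (l k v' / l k v) • v = 0 := by
    refine z3_eq_zero hind (by rw [hcard, hV]) fun i hi => ?_
    rw [map_sub, map_smul, smul_eq_mul]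
    rcases Finset.mem_insert.mp hi with rfl | hi
    · field_simp
      simp
    · rw [hv.1 i hi, hv'.1 i hi]
      simp
  exact sub_eq_zero.mp h0

private theorem z3_cell_erase {ι V : Type} [DecidableEq ι] [AddCommGroup V] [Module ℝ V]
    {l : ι → V →ₗ[ℝ] ℝ} {R P : Finset ι} {z : V} (h : InCell l R P z) (i : ι) :
    InCell l (R.erase i) (P.erase i) z := by
  intro k hk
  obtain ⟨hki, hkR⟩ := Finset.mem_erase.mp hk
  refine ⟨fun hkP => (h k hkR).1 (Finset.mem_of_mem_erase hkP), fun hkP => (h k hkR).2 ?_⟩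
  intro hkP'
  exact hkP (Finset.mem_erase.mpr ⟨hki, hkP'⟩)

private theorem z3_vertex_erase {ι V : Type} [DecidableEq ι] [AddCommGroup V] [Module ℝ V]
    {l : ι → V →ₗ[ℝ] ℝ} {R P T : Finset ι} {v : V} (h : AtVertex l R P T v) (i : ι) :
    AtVertex l (R.erase i) (P.erase i) T v := by
  refine ⟨h.1, fun k hk hkT => ?_⟩
  obtain ⟨hki, hkR⟩ := Finset.mem_erase.mp hk
  refine ⟨fun hkP => (h.2 k hkR hkT).1 (Finset.mem_of_mem_erase hkP),
    fun hkP => (h.2 k hkR hkT).2 ?_⟩
  intro hkP'
  exact hkP (Finset.mem_erase.mpr ⟨hki, hkP'⟩)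

private theorem z3_eq_of_erase {ι : Type} [DecidableEq ι] {P P' : Finset ι} {i : ι}
    (h : P.erase i = P'.erase i) (hi : i ∈ P ↔ i ∈ P') : P = P' := by
  ext k
  by_cases hk : k = i
  · rw [hk]; exact hi
  · have := Finset.ext_iff.mp h k
    simpa [Finset.mem_erase, hk] using this

private theorem z3_erase_mem {ι V : Type} [DecidableEq ι] [AddCommGroup V] [Module ℝ V]
    {l : ι → V →ₗ[ℝ] ℝ} {R : Finset ι} {A : ConvexCone ℝ V} {E : ℕ} {P T : Finset ι}
    (h : (P, T) ∈ zone l R A E) {i : ι} (hi : i ∉ T) :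
    (P.erase i, T) ∈ zone l (R.erase i) A E := by
  obtain ⟨hP, hT, hc, ⟨z, hzA, hz⟩, v, hvA, hv⟩ := mem_zone.mp h
  refine mem_zone.mpr ⟨Finset.erase_subset_erase i hP, ?_, hc, ⟨z, hzA, z3_cell_erase hz i⟩, v, hvA,
    z3_vertex_erase hv i⟩
  intro k hk
  exact Finset.mem_erase.mpr ⟨fun h => hi (h ▸ hk), hT hk⟩

/-- Proof. Write `Z = zone l R A (D + 1)`, `Z h = zone l (R.erase h) A (D + 1)` and
`Z' h = zone (kres l h) (R.erase h) (cres l A h) D` for `h ∈ R`. (1) For `h ∈ R` the map
`(P, T) ↦ (P.erase h, T)` sends the `(P, T) ∈ Z` with `h ∉ T` to `Z h`, and it is injective on them: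
for `(P, T)` and `(P', T)` with `P.erase h = P'.erase h` the vertices `v` and `v'` are in the
kernel of the `l k`, `k ∈ T`, which is a line (`D + 1` linearly independent functionals on a space
of dimension `D + 2`), and they have the same sign on a `k ∈ R.erase h`, `k ∉ T` (there is one by
`hR`), so `v'` is a positive multiple of `v` and `h ∈ P ↔ 0 < l h v ↔ h ∈ P'`. Let `X h ⊆ Z h` be
the complement of the image. Summing over `h` (each `(P, T) ∈ Z` is counted
`R.card - (D + 1)` times): `(R.card - (D + 1)) * Z.card = ∑ h, ((Z h).card - (X h).card)`.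
(2) Let `B` be the set of the triples `(P, T, i)` with `(P, T) ∈ Z`, `i ∈ T`. If the cell `flp P i`
meets `A` then `(P.erase i, T.erase i) ∈ Z' i` (Z2), and a triple is determined by `i`,
`P.erase i`, `T.erase i` and whether `i ∈ P`: there are at most `2 * ∑ h, (Z' h).card` of these
triples. If not, Z1 gives a `j` and a `w` with `(P.erase i, insert j (T.erase i)) ∈ Z i`
(the same `z ∈ A` shows that the cell meets `A`), and this element is in `X i`: if it were the image
of `(P'', T')`, `T' = insert j (T.erase i)`, then as in (1) the vertex of `(P'', T')` is a positive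
multiple of `w`, so `i ∈ P'' ↔ i ∉ P`, hence `P'' = flp P i` and this cell does not meet `A`;
contradiction. For given `i`, `P' = P.erase i` and `T'` there are at most `D + 1` such triples:
`T = insert i (T'.erase j)` with `j ∈ T'`, and `P` is determined by `P'` and the sign of `l i w`,
where `w` is determined by `P'`, `T'` up to a positive factor. So
`(D + 1) * Z.card = B.card ≤ 2 * ∑ h, (Z' h).card + (D + 1) * ∑ h, (X h).card`. Add
`(D + 1)` times (1). -/
theorem zone_rec {ι V : Type} [DecidableEq ι] [AddCommGroup V] [Module ℝ V]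
    [FiniteDimensional ℝ V] {D : ℕ} (hV : Module.finrank ℝ V = D + 2) (l : ι → V →ₗ[ℝ] ℝ)
    (R : Finset ι) (hl : GenPosD l R (D + 2)) (hR : D + 3 ≤ R.card) (A : ConvexCone ℝ V) :
    (D + 1) * (R.card - D) * (zone l R A (D + 1)).card ≤
      (D + 1) * ∑ h ∈ R, (zone l (R.erase h) A (D + 1)).card +
        2 * ∑ h ∈ R, (zone (kres l h) (R.erase h) (cres l A h) D).card := by
  classical
  set Z := zone l R A (D + 1) with hZ
  -- the image of the elements with `h ∉ T`
  let Im : ι → Finset (Finset ι × Finset ι) := fun h =>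
    (Z.filter fun c => h ∉ c.2).image fun c => (c.1.erase h, c.2)
  let X : ι → Finset (Finset ι × Finset ι) := fun h => zone l (R.erase h) A (D + 1) \ Im h
  have hcardE : ∀ h ∈ R, D + 2 ≤ (R.erase h).card := fun h hh => by
    rw [Finset.card_erase_of_mem hh]; omega
  have hImsub : ∀ h, Im h ⊆ zone l (R.erase h) A (D + 1) := fun h x hx => by
    obtain ⟨c, hc, rfl⟩ := Finset.mem_image.mp hx
    obtain ⟨hcZ, hch⟩ := Finset.mem_filter.mp hc
    exact z3_erase_mem hcZ hch
  have hImcard : ∀ h ∈ R, (Im h).card = (Z.filter fun c => h ∉ c.2).card := fun h hh => by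
    refine Finset.card_image_of_injOn ?_
    rintro ⟨P, T⟩ hc ⟨P', T'⟩ hc' heq
    obtain ⟨hcZ, hch⟩ := Finset.mem_filter.mp (Finset.mem_coe.mp hc)
    obtain ⟨hcZ', hch'⟩ := Finset.mem_filter.mp (Finset.mem_coe.mp hc')
    obtain ⟨hPP, hTT⟩ := Prod.ext_iff.mp heq
    simp only at hPP hTT hch hch'
    subst hTT
    obtain ⟨hP, hT, hTc, -, v, -, hv⟩ := mem_zone.mp hcZ
    obtain ⟨hP', -, -, -, v', -, hv'⟩ := mem_zone.mp hcZ'
    have hve := z3_vertex_erase hv h
    have hve' := z3_vertex_erase hv' h
    rw [← hPP] at hve'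
    obtain ⟨c, hc0, hcv⟩ := z3_smul hV hl (Finset.erase_subset h R) hT hTc (hcardE h hh) hve hve'
    have hPP' : P = P' := by
      refine z3_eq_of_erase hPP ?_
      have h1 := hv.2 h hh hch
      have h2 := hv'.2 h hh hch
      rw [hcv, map_smul, smul_eq_mul] at h2
      constructor
      · intro hhP
        by_contra hhP'
        have := h2.2 hhP'
        have := mul_pos hc0 (h1.1 hhP)
        linarith
      · intro hhP'
        by_contra hhP
        have h3 := h2.1 hhP'
        have h4 := mul_neg_of_pos_of_neg hc0 (h1.2 hhP)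
        linarith
    rw [hPP']
  have hXcard : ∀ h ∈ R, (X h).card + (Im h).card = (zone l (R.erase h) A (D + 1)).card :=
    fun h _ => Finset.card_sdiff_add_card_eq_card (hImsub h)
  have hsumIm : ∑ h ∈ R, (Im h).card = (R.card - (D + 1)) * Z.card := by
    rw [Finset.sum_congr rfl hImcard]
    have : ∑ h ∈ R, (Z.filter fun c => h ∉ c.2).card = ∑ c ∈ Z, (R.filter fun h => h ∉ c.2).card := by
      simp only [Finset.card_filter]
      exact Finset.sum_comm
    rw [this, mul_comm, ← smul_eq_mul, ← Finset.sum_const]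
    refine Finset.sum_congr rfl fun c hc => ?_
    obtain ⟨-, hT, hTc, -⟩ := mem_zone.mp (show (c.1, c.2) ∈ zone l R A (D + 1) from hc)
    rw [← hTc, ← Finset.card_sdiff_of_subset hT]
    congr 1
    ext k
    simp [Finset.mem_sdiff]
  -- the incidences
  have hsumB : ∑ i ∈ R, (Z.filter fun c => i ∈ c.2).card = (D + 1) * Z.card := by
    have : ∑ i ∈ R, (Z.filter fun c => i ∈ c.2).card = ∑ c ∈ Z, (R.filter fun i => i ∈ c.2).card := by
      simp only [Finset.card_filter]
      exact Finset.sum_comm
    rw [this, mul_comm, ← smul_eq_mul, ← Finset.sum_const]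
    refine Finset.sum_congr rfl fun c hc => ?_
    obtain ⟨-, hT, hTc, -⟩ := mem_zone.mp (show (c.1, c.2) ∈ zone l R A (D + 1) from hc)
    rw [← hTc]
    congr 1
    ext k
    simp only [Finset.mem_filter]
    exact ⟨fun h => h.2, fun h => ⟨hT h, h⟩⟩
  have hB : ∀ i ∈ R, (Z.filter fun c => i ∈ c.2).card ≤
      2 * (zone (kres l i) (R.erase i) (cres l A i) D).card + (D + 1) * (X i).card := fun i hi => by
    rw [← Finset.card_filter_add_card_filter_not (s := Z.filter fun c => i ∈ c.2)
      (fun c => ∃ z ∈ A, InCell l R (flp c.1 i) z)]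
    refine add_le_add ?_ ?_
    · -- the cell on the other side meets the cone
      have hle : ((Z.filter fun c => i ∈ c.2).filter fun c =>
          ∃ z ∈ A, InCell l R (flp c.1 i) z).card ≤
          ((zone (kres l i) (R.erase i) (cres l A i) D) ×ˢ (Finset.univ : Finset Bool)).card := by
        refine Finset.card_le_card_of_injOn
          (fun c => ((c.1.erase i, c.2.erase i), decide (i ∈ c.1))) ?_ ?_
        · rintro ⟨P, T⟩ hc
          obtain ⟨hc1, hc2⟩ := Finset.mem_filter.mp (Finset.mem_coe.mp hc)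
          obtain ⟨hc3, hc4⟩ := Finset.mem_filter.mp hc1
          refine Finset.mem_coe.mpr (Finset.mem_product.mpr ⟨?_, Finset.mem_univ _⟩)
          exact zone_section l R A hc3 hc4 hc2
        · rintro ⟨P, T⟩ hc ⟨P', T'⟩ hc' heq
          obtain ⟨hc1, hc2⟩ := Finset.mem_filter.mp (Finset.mem_coe.mp hc)
          obtain ⟨hc3, hc4⟩ := Finset.mem_filter.mp hc1
          obtain ⟨hc1', hc2'⟩ := Finset.mem_filter.mp (Finset.mem_coe.mp hc')
          obtain ⟨hc3', hc4'⟩ := Finset.mem_filter.mp hc1'
          simp only [Prod.mk.injEq, decide_eq_decide] at heq hc4 hc4'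
          obtain ⟨⟨h1, h2⟩, h3⟩ := heq
          rw [z3_eq_of_erase h1 h3, z3_eq_of_erase h2 ⟨fun _ => hc4', fun _ => hc4⟩]
      rw [Finset.card_product, Finset.card_univ, Fintype.card_bool, mul_comm] at hle
      exact hle
    · -- it does not
      set Bad := (Z.filter fun c => i ∈ c.2).filter fun c =>
        ¬ ∃ z ∈ A, InCell l R (flp c.1 i) z with hBad
      have hbad : ∀ c : Finset ι × Finset ι, c ∈ Bad → ∃ j : ι, j ∉ c.2 ∧
          (c.1.erase i, insert j (c.2.erase i)) ∈ X i ∧ ∃ w,
          AtVertex l (R.erase i) (c.1.erase i) (insert j (c.2.erase i)) w ∧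
          (i ∈ c.1 → l i w < 0) ∧ (i ∉ c.1 → 0 < l i w) := by
        rintro ⟨P, T⟩ hc
        obtain ⟨hc1, hg⟩ := Finset.mem_filter.mp hc
        obtain ⟨hcZ, hiT⟩ := Finset.mem_filter.mp hc1
        simp only at hg hiT ⊢
        obtain ⟨j, hjR, hjT, w, hwA, hw, hw1, hw2⟩ :=
          zone_charge (D := D + 1) hV l R hl (by omega) A hcZ hiT hg
        obtain ⟨hP, hT, hTc, ⟨z, hzA, hz⟩, -⟩ := mem_zone.mp hcZ
        have hji : j ≠ i := fun h => hjT (h ▸ hiT)
        have hTsub : insert j (T.erase i) ⊆ R.erase i := by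
          refine Finset.insert_subset (Finset.mem_erase.mpr ⟨hji, hjR⟩)
            (Finset.erase_subset_erase i hT)
        have hTcard : (insert j (T.erase i)).card = D + 1 := by
          rw [Finset.card_insert_of_notMem (fun h => hjT (Finset.mem_of_mem_erase h)),
            Finset.card_erase_of_mem hiT, hTc]
          rfl
        have hmem : (P.erase i, insert j (T.erase i)) ∈ zone l (R.erase i) A (D + 1) :=
          mem_zone.mpr ⟨Finset.erase_subset_erase i hP, hTsub, hTcard,
            ⟨z, hzA, z3_cell_erase hz i⟩, w, hwA, hw⟩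
        refine ⟨j, hjT, Finset.mem_sdiff.mpr ⟨hmem, fun hIm => ?_⟩, w, hw, hw1, hw2⟩
        obtain ⟨⟨P2, T2⟩, hc', heq⟩ := Finset.mem_image.mp hIm
        obtain ⟨hcZ', hiT'⟩ := Finset.mem_filter.mp hc'
        obtain ⟨hPP, hTT⟩ := Prod.ext_iff.mp heq
        simp only at hPP hTT hiT'
        subst hTT
        obtain ⟨hP2, -, -, ⟨z2, hz2A, hz2⟩, v, -, hv⟩ := mem_zone.mp hcZ'
        have hve := z3_vertex_erase hv i
        rw [hPP] at hve
        obtain ⟨c, hc0, hcv⟩ := z3_smul hV hl (Finset.erase_subset i R)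
          (hTsub.trans (Finset.erase_subset i R)) hTcard (hcardE i hi) hw hve
        have hvi := hv.2 i hi hiT'
        rw [hcv, map_smul, smul_eq_mul] at hvi
        refine hg ⟨z2, hz2A, ?_⟩
        have hflp : flp P i = P2 := by
          unfold flp
          by_cases hiP : i ∈ P
          · rw [if_pos hiP]
            have hi2 : i ∉ P2 := fun h => by
              have h1 := hvi.1 h
              have h2 := mul_neg_of_pos_of_neg hc0 (hw1 hiP)
              linarith
            rw [← hPP, Finset.erase_eq_of_notMem hi2]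
          · rw [if_neg hiP]
            have hi2 : i ∈ P2 := by
              by_contra h
              have h1 := hvi.2 h
              have h2 := mul_pos hc0 (hw2 hiP)
              linarith
            rw [← Finset.erase_eq_of_notMem hiP, ← hPP, Finset.insert_erase hi2]
        rw [hflp]
        exact hz2
      have : Nonempty ι := ⟨i⟩
      choose! j hj hjX w hw hw1 hw2 using hbad
      have hle : Bad.card ≤ ((X i).sigma fun x => x.2).card := by
        refine Finset.card_le_card_of_injOn
          (fun c => (⟨(c.1.erase i, insert (j c) (c.2.erase i)), j c⟩ :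
            (_ : Finset ι × Finset ι) × ι)) ?_ ?_
        · intro c hc
          have hc' := Finset.mem_coe.mp hc
          exact Finset.mem_coe.mpr (Finset.mem_sigma.mpr ⟨hjX c hc', Finset.mem_insert_self _ _⟩)
        · rintro c hc c' hc' heq
          have hc := Finset.mem_coe.mp hc
          have hc' := Finset.mem_coe.mp hc'
          obtain ⟨h1, h2⟩ := Sigma.mk.inj_iff.mp heq
          have h2 := eq_of_heq h2
          obtain ⟨hPP, hTT⟩ := Prod.ext_iff.mp h1
          simp only at hPP hTT
          obtain ⟨hcf, -⟩ := Finset.mem_filter.mp hc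
          obtain ⟨hcZ, hiT⟩ := Finset.mem_filter.mp hcf
          obtain ⟨hcf', -⟩ := Finset.mem_filter.mp hc'
          obtain ⟨hcZ', hiT'⟩ := Finset.mem_filter.mp hcf'
          have hTe : c.2.erase i = c'.2.erase i := by
            have h3 : j c ∉ c.2.erase i := fun h => hj c hc (Finset.mem_of_mem_erase h)
            have h4 : j c' ∉ c'.2.erase i := fun h => hj c' hc' (Finset.mem_of_mem_erase h)
            rw [← Finset.erase_insert h3, ← Finset.erase_insert h4, hTT, h2]
          have hT2 : c.2 = c'.2 := z3_eq_of_erase hTe ⟨fun _ => hiT', fun _ => hiT⟩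
          have hX := Finset.mem_sdiff.mp (hjX c hc)
          obtain ⟨-, hTs, hTc, -⟩ := mem_zone.mp hX.1
          have hw' := hw c' hc'
          rw [← hPP, ← hTT] at hw'
          obtain ⟨a, ha0, haw⟩ := z3_smul hV hl (Finset.erase_subset i R)
            (hTs.trans (Finset.erase_subset i R)) hTc (hcardE i hi) (hw c hc) hw'
          have hP2 : c.1 = c'.1 := by
            refine z3_eq_of_erase hPP ⟨fun h => ?_, fun h => ?_⟩
            · by_contra h'
              have h3 := hw1 c hc h
              have h4 := hw2 c' hc' h'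
              rw [haw, map_smul, smul_eq_mul] at h4
              have h5 := mul_neg_of_pos_of_neg ha0 h3
              linarith
            · by_contra h'
              have h3 := hw2 c hc h'
              have h4 := hw1 c' hc' h
              rw [haw, map_smul, smul_eq_mul] at h4
              have h5 := mul_pos ha0 h3
              linarith
          exact Prod.ext hP2 hT2
      refine hle.trans ?_
      rw [Finset.card_sigma, mul_comm, ← smul_eq_mul, ← Finset.sum_const]
      refine Finset.sum_le_sum fun x hx => ?_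
      have hx' := (Finset.mem_sdiff.mp hx).1
      obtain ⟨-, -, hTc, -⟩ := mem_zone.mp (show (x.1, x.2) ∈ zone l (R.erase i) A (D + 1) from hx')
      exact hTc.le
  -- conclusion
  have hsum := Finset.sum_le_sum hB
  rw [hsumB, Finset.sum_add_distrib, ← Finset.mul_sum, ← Finset.mul_sum] at hsum
  have hsumZ : ∑ h ∈ R, (zone l (R.erase h) A (D + 1)).card
      = ∑ h ∈ R, (X h).card + (R.card - (D + 1)) * Z.card := by
    rw [← hsumIm, ← Finset.sum_add_distrib]
    exact (Finset.sum_congr rfl hXcard).symm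
  obtain ⟨r, hr⟩ : ∃ r, R.card = D + 1 + r := ⟨R.card - (D + 1), by omega⟩
  rw [hsumZ, hr]
  have e1 : D + 1 + r - D = r + 1 := by omega
  have e2 : D + 1 + r - (D + 1) = r := by omega
  rw [e1, e2]
  nlinarith [hsum]

end Pool.Agent.Helper69.LB
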